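import Pool.Agent.Helper41.Gap.Markov

set_option autoImplicit false

open scoped Pointwise RealInnerProductSpace TensorProduct
open ProbabilityTheory MeasureTheory Module

namespace Pool.Agent.Helper41.Gap

variable {G : Type} [Group G] [DecidableEq G]
variable {E : Type} [NormedAddCommGroup E] [InnerProductSpace ℝ E]

omit [DecidableEq G] in
private theorem gcb_av_add {V : Type} [AddCommGroup V] [Module ℝ V] (S : Finset G)
    (F F' : G → V) : av S (fun g => F g + F' g) = av S F + av S F' := by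
  simp only [av, Finset.sum_add_distrib, smul_add]
  abel

private theorem gcb_ex_add {V : Type} [AddCommGroup V] [Module ℝ V] {S : Finset G}
    (hS : SymOne S) (k : ℕ) (F F' : G → V) :
    ex S k (fun g => F g + F' g) = ex S k F + ex S k F' := by
  rw [ex_eq_sum hS, ex_eq_sum hS, ex_eq_sum hS, ← Finset.sum_add_distrib]
  refine Finset.sum_congr rfl fun g _ => ?_
  rw [smul_add]

theorem coc_one (c : Coc G E) : c.b 1 = 0 := by
  have h := c.coc 1 1
  rw [mul_one, map_one] at h
  have h2 : c.b 1 + c.b 1 = c.b 1 := h.symm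
  simpa using h2

theorem coc_inv (c : Coc G E) (g : G) : c.b g⁻¹ = - c.L g⁻¹ (c.b g) := by
  have h := c.coc g⁻¹ g
  rw [inv_mul_cancel, coc_one] at h
  exact eq_neg_of_add_eq_zero_left h.symm

private theorem gcb_norm_s {S : Finset G} (hS : SymOne S) {c : Coc G E} {η : ℝ}
    (hg : Good S c η) {s : G} (hs : s ∈ S) : ‖c.b s‖ ≤ √(2 * (S.card : ℝ)) := by
  have h := le_av hS (F := fun s => ‖c.b s‖ ^ 2) (by positivity) (fun s _ => by positivity) hs
  rw [hg.energy, mul_one] at h
  exact Real.le_sqrt_of_sq_le h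

theorem norm_b_le {S : Finset G} (hS : SymOne S) {c : Coc G E} {η : ℝ} (hg : Good S c η) (r : ℕ)
    {g : G} (h : g ∈ S ^ r) : ‖c.b g‖ ≤ r * √(2 * (S.card : ℝ)) := by
  induction r generalizing g with
  | zero =>
    rw [pow_zero, Finset.mem_one] at h
    rw [h, coc_one]
    simp
  | succ r ih =>
    rw [pow_succ, Finset.mem_mul] at h
    obtain ⟨x, hx, s, hs, rfl⟩ := h
    rw [c.coc]
    refine (norm_add_le _ _).trans ?_
    rw [LinearIsometryEquiv.norm_map]
    have h1 := ih hx
    have h2 := gcb_norm_s hS hg hs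
    push_cast
    linarith

private theorem gcb_eta {S : Finset G} {c : Coc G E} {η : ℝ} (hg : Good S c η) : 0 ≤ η :=
  (norm_nonneg _).trans hg.mean

theorem norm_ex_b_le {S : Finset G} (hS : SymOne S) {c : Coc G E} {η : ℝ} (hg : Good S c η)
    (k : ℕ) : ‖ex S k c.b‖ ≤ k * η := by
  induction k with
  | zero => simp [ex, coc_one]
  | succ k ih =>
    have h1 : ex S (k + 1) c.b = ex S k c.b + ex S k (fun g => c.L g (av S (fun s => c.b s))) := by
      rw [← gcb_ex_add hS]
      simp only [ex]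
      congr 1
      funext g
      have h2 : (fun s => c.b (g * s)) = fun s => c.b g + c.L g (c.b s) := by
        funext s; exact c.coc g s
      rw [h2, gcb_av_add, av_const hS]
      congr 1
      have h3 := map_av ((c.L g).toLinearEquiv : E →ₗ[ℝ] E) S (fun s => c.b s)
      exact h3.symm
    rw [h1]
    refine (norm_add_le _ _).trans ?_
    have h4 : ‖ex S k (fun g => c.L g (av S (fun s => c.b s)))‖ ≤ η := by
      refine (norm_ex_le S k _).trans ?_
      have h5 : (fun g => ‖c.L g (av S (fun s => c.b s))‖) =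
          fun _ => ‖av S (fun s => c.b s)‖ := by
        funext g; rw [LinearIsometryEquiv.norm_map]
      rw [h5, ex_const hS]
      exact hg.mean
    push_cast
    linarith

theorem ex_energy {S : Finset G} (hS : SymOne S) {c : Coc G E} {η : ℝ} (hg : Good S c η)
    {F : Type} [NormedAddCommGroup F] [InnerProductSpace ℝ F] (Q : E →L[ℝ] F) (hQ : ‖Q‖ ≤ 1)
    (k : ℕ) :
    |ex S k (fun g => ‖Q (c.b g)‖ ^ 2) -
      ∑ i ∈ Finset.range k, ex S i (fun x => av S (fun s => ‖Q (c.L x (c.b s))‖ ^ 2))| ≤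
      2 * (S.card : ℝ) * k ^ 2 * η := by
  have hη := gcb_eta hg
  have hcard : (1 : ℝ) ≤ S.card := by
    have : 0 < S.card := Finset.card_pos.2 ⟨1, hS.one⟩
    exact_mod_cast this
  have hsq : √(2 * (S.card : ℝ)) ≤ 2 * S.card := by
    rw [Real.sqrt_le_left (by positivity)]
    nlinarith
  have hQn : ∀ x : E, ‖Q x‖ ≤ ‖x‖ := by
    intro x
    have := Q.le_opNorm x
    have h2 : ‖Q‖ * ‖x‖ ≤ 1 * ‖x‖ := by gcongr
    linarith
  induction k with
  | zero => simp [ex, coc_one]
  | succ k ih =>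
    set m : E := av S (fun s => c.b s) with hm
    have h1 : ex S (k + 1) (fun g => ‖Q (c.b g)‖ ^ 2) =
        ex S k (fun g => ‖Q (c.b g)‖ ^ 2) + ex S k (fun x => 2 * ⟪Q (c.b x), Q (c.L x m)⟫) +
          ex S k (fun x => av S (fun s => ‖Q (c.L x (c.b s))‖ ^ 2)) := by
      rw [← gcb_ex_add hS, ← gcb_ex_add hS]
      simp only [ex]
      congr 1
      funext x
      have h2 : (fun s => ‖Q (c.b (x * s))‖ ^ 2) =
          fun s => (‖Q (c.b x)‖ ^ 2 + 2 * ⟪Q (c.b x), Q (c.L x (c.b s))⟫) +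
            ‖Q (c.L x (c.b s))‖ ^ 2 := by
        funext s
        rw [c.coc, map_add, norm_add_sq_real]
      rw [h2, gcb_av_add, gcb_av_add, av_const hS]
      congr 2
      let f : E →ₗ[ℝ] ℝ := (2 : ℝ) • ((innerₛₗ ℝ (Q (c.b x))).comp
        ((Q : E →ₗ[ℝ] F).comp ((c.L x).toLinearEquiv : E →ₗ[ℝ] E)))
      have h3 := map_av f S (fun s => c.b s)
      exact h3.symm
    have h4 : |ex S k (fun x => 2 * ⟪Q (c.b x), Q (c.L x m)⟫)| ≤
        2 * (k * √(2 * (S.card : ℝ))) * η := by
      rw [← Real.norm_eq_abs]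
      refine (norm_ex_le S k _).trans ?_
      refine le_trans (ex_mono hS k (F' := fun _ => 2 * (k * √(2 * (S.card : ℝ))) * η) ?_)
        (le_of_eq (ex_const hS k _))
      intro x hx
      have h5 := norm_b_le hS hg k hx
      have h6 : |⟪Q (c.b x), Q (c.L x m)⟫| ≤ ‖Q (c.b x)‖ * ‖Q (c.L x m)‖ :=
        abs_real_inner_le_norm _ _
      have h7 := hQn (c.b x)
      have h8 := hQn (c.L x m)
      rw [LinearIsometryEquiv.norm_map] at h8
      have h9 : ‖m‖ ≤ η := hg.mean
      have h10 : ‖Q (c.b x)‖ * ‖Q (c.L x m)‖ ≤ (k * √(2 * (S.card : ℝ))) * η :=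
        mul_le_mul (h7.trans h5) (h8.trans h9) (norm_nonneg _) (by positivity)
      rw [Real.norm_eq_abs, abs_mul, abs_of_pos (by norm_num : (0 : ℝ) < 2)]
      linarith
    rw [h1, Finset.sum_range_succ]
    set A := ex S k (fun g => ‖Q (c.b g)‖ ^ 2)
    set B := ∑ i ∈ Finset.range k, ex S i (fun x => av S (fun s => ‖Q (c.L x (c.b s))‖ ^ 2))
    set D := ex S k (fun x => 2 * ⟪Q (c.b x), Q (c.L x m)⟫)
    set W := ex S k (fun x => av S (fun s => ‖Q (c.L x (c.b s))‖ ^ 2))
    have h11 : A + D + W - (B + W) = (A - B) + D := by ring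
    rw [h11]
    refine (abs_add_le _ _).trans ?_
    have h12 : 2 * (k * √(2 * (S.card : ℝ))) * η ≤ 2 * (k * (2 * (S.card : ℝ))) * η := by
      gcongr
    push_cast
    have h13 : 0 ≤ 2 * (S.card : ℝ) * η := by positivity
    nlinarith

end Pool.Agent.Helper41.Gap
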