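import Pool.Agent.Helper41.Gap.Cut
import Pool.Agent.Helper41.Gap.CocBasic

set_option autoImplicit false

open scoped Pointwise RealInnerProductSpace TensorProduct
open ProbabilityTheory MeasureTheory Module

namespace Pool.Agent.Helper41.Gap

variable {G : Type} [Group G] [DecidableEq G]
variable {E : Type} [NormedAddCommGroup E] [InnerProductSpace ℝ E]

omit [DecidableEq G] in
private theorem ga_av_add (S : Finset G) (F F' : G → ℝ) :
    av S (fun s => F s + F' s) = av S F + av S F' := by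
  unfold av
  simp only [Finset.sum_add_distrib, smul_eq_mul]
  ring

omit [DecidableEq G] in
private theorem ga_av_mul (S : Finset G) (a : ℝ) (F : G → ℝ) :
    av S (fun s => a * F s) = a * av S F := by
  unfold av
  simp only [← Finset.mul_sum, smul_eq_mul]
  ring

private theorem ga_av_mono {S : Finset G} (hS : SymOne S) {F F' : G → ℝ} (h : ∀ s, F s ≤ F' s) :
    av S F ≤ av S F' := by
  rw [← ex_one, ← ex_one]
  exact ex_mono hS 1 (fun g _ => h g)

private theorem ga_norm_BB {S : Finset G} {c : Coc G E} {η : ℝ}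
    (hg : Good S c η) : ‖BB S c‖ ≤ 1 := by
  have h1 := norm_ex_le S 1 (fun s => c.b s ⊗ₜ[ℝ] c.b s)
  rw [ex_one, ex_one] at h1
  have h2 : (fun g => ‖c.b g ⊗ₜ[ℝ] c.b g‖) = fun s => ‖c.b s‖ ^ 2 := by
    funext s
    rw [TensorProduct.norm_tmul, pow_two]
  rw [h2, hg.energy] at h1
  exact h1

private theorem ga_expand {S : Finset G} (hS : SymOne S) (c : Coc G E) (i : ℕ) :
    (Pm S (LL c) ^ i) (BB S c) = ∑ q : (↥(S ^ i) × ↥S),
      (law S i q.1 * (2 * (S.card : ℝ))⁻¹) •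
        (c.L (q.1 : G) (c.b q.2) ⊗ₜ[ℝ] c.L (q.1 : G) (c.b q.2)) := by
  rw [Pm_pow_apply, ex_eq_sum hS, Fintype.sum_prod_type,
    ← Finset.sum_coe_sort (S ^ i) (fun g => law S i g • (LL c g) (BB S c))]
  refine Finset.sum_congr rfl fun g _ => ?_
  have h1 : BB S c = (2 * (S.card : ℝ))⁻¹ • ∑ s ∈ S, c.b s ⊗ₜ[ℝ] c.b s := by
    unfold BB av
    simp only [coc_one, TensorProduct.zero_tmul, smul_zero, zero_add]
  rw [h1, map_smul, map_sum, ← Finset.sum_coe_sort S, smul_smul, Finset.smul_sum]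
  refine Finset.sum_congr rfl fun s _ => ?_
  rfl

theorem exists_ainv_of_theta {S : Finset G} (hS : SymOne S) {c : Coc G E} {η : ℝ}
    (hg : Good S c η) (i : ℕ) (Θ : ℝ) (hΘ : phi S (LL c) (BB S c) (2 * i) = Θ) (hΘ0 : 0 < Θ) :
    ∃ (V : Submodule ℝ E) (_ : FiniteDimensional ℝ V), (finrank ℝ V : ℝ) ≤ 4 / Θ ∧
      AInv S c V (40 / Θ ^ 2 * √((S.card : ℝ) / (2 * i + 1))) ∧
      Θ / 2 ≤ av S (fun s => ‖V.starProjection (c.b s)‖ ^ 2) := by
  set T := (Pm S (LL c) ^ i) (BB S c) with hT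
  have hTT : ‖T‖ ^ 2 = Θ := by
    rw [← real_inner_self_eq_norm_sq, hT, phi_add hS, ← hΘ, two_mul]
  have hcard : (0 : ℝ) < (S.card : ℝ) := by
    have : 0 < S.card := Finset.card_pos.2 ⟨1, hS.one⟩
    exact_mod_cast this
  have hb1 : c.b 1 = 0 := coc_one c
  have hen : (2 * (S.card : ℝ))⁻¹ * ∑ s ∈ S, ‖c.b s‖ ^ 2 = 1 := by
    have := hg.energy
    unfold av at this
    simpa [hb1] using this
  have hw : ∀ q : (↥(S ^ i) × ↥S), 0 ≤ law S i q.1 * (2 * (S.card : ℝ))⁻¹ := fun q =>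
    mul_nonneg (law_nonneg S i _) (by positivity)
  have h1 : ∑ q : (↥(S ^ i) × ↥S), (law S i q.1 * (2 * (S.card : ℝ))⁻¹) *
      ‖c.L (q.1 : G) (c.b q.2)‖ ^ 2 = 1 := by
    rw [Fintype.sum_prod_type]
    have h2 : ∀ g : ↥(S ^ i), ∑ s : ↥S, (law S i g * (2 * (S.card : ℝ))⁻¹) *
        ‖c.L (g : G) (c.b s)‖ ^ 2 = law S i g := by
      intro g
      have h3 : ∀ s : ↥S, (law S i g * (2 * (S.card : ℝ))⁻¹) * ‖c.L (g : G) (c.b s)‖ ^ 2 =
          law S i g * ((2 * (S.card : ℝ))⁻¹ * ‖c.b s‖ ^ 2) := by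
        intro s
        rw [LinearIsometryEquiv.norm_map]
        ring
      rw [Finset.sum_congr rfl fun s _ => h3 s, ← Finset.mul_sum, ← Finset.mul_sum,
        Finset.sum_coe_sort S (fun s => ‖c.b s‖ ^ 2), hen, mul_one]
    show ∑ g : ↥(S ^ i), ∑ s : ↥S, (law S i g * (2 * (S.card : ℝ))⁻¹) *
        ‖c.L (g : G) (c.b s)‖ ^ 2 = 1
    rw [Finset.sum_congr rfl fun g _ => h2 g, Finset.sum_coe_sort (S ^ i) (fun g => law S i g),
      sum_law hS]
  obtain ⟨V, hV, hrank, hq, hmove⟩ := spectral_cut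
    (fun q : (↥(S ^ i) × ↥S) => law S i q.1 * (2 * (S.card : ℝ))⁻¹) hw
    (fun q => c.L (q.1 : G) (c.b q.2)) h1 T (by rw [hT, ga_expand hS]) Θ hTT hΘ0
  refine ⟨V, hV, hrank, ⟨by positivity, ?_⟩, ?_⟩
  · intro s hs v hv
    refine (hmove (c.L s) v hv).trans ?_
    have h2 : ‖T - TensorProduct.congrIsometry (c.L s) (c.L s) T‖ ≤
        2 * √((S.card : ℝ) / (2 * i + 1)) := by
      have h3 : ‖T - LL c s T‖ ^ 2 ≤ 4 * (S.card : ℝ) * (‖T‖ ^ 2 - ⟪T, Pm S (LL c) T⟫) :=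
        disp_le hS (LL c) T hs
      have h4 : ‖T‖ ^ 2 = phi S (LL c) (BB S c) (2 * i) := by rw [hTT, hΘ]
      have h5 : ⟪T, Pm S (LL c) T⟫ = phi S (LL c) (BB S c) (2 * i + 1) := by
        have h6 : Pm S (LL c) T = (Pm S (LL c) ^ (i + 1)) (BB S c) := by
          rw [hT, pow_succ', Module.End.mul_apply]
        rw [h6, hT, phi_add hS]
        congr 1
        ring
      have h7 := phi_diff_le hS (LL c) (BB S c) (2 * i)
      have h8 : ‖BB S c‖ ^ 2 ≤ 1 := by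
        have := ga_norm_BB hg
        have h0 := norm_nonneg (BB S c)
        nlinarith
      have h9 : ‖T - LL c s T‖ ^ 2 ≤ 4 * ((S.card : ℝ) / (2 * i + 1)) := by
        rw [h4, h5] at h3
        refine h3.trans ?_
        have h10 : phi S (LL c) (BB S c) (2 * i) - phi S (LL c) (BB S c) (2 * i + 1) ≤
            1 / (2 * i + 1) := by
          refine h7.trans ?_
          push_cast
          exact div_le_div_of_nonneg_right h8 (by positivity)
        calc 4 * (S.card : ℝ) * (phi S (LL c) (BB S c) (2 * i) -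
              phi S (LL c) (BB S c) (2 * i + 1)) ≤ 4 * (S.card : ℝ) * (1 / (2 * i + 1)) :=
              mul_le_mul_of_nonneg_left h10 (by positivity)
          _ = 4 * ((S.card : ℝ) / (2 * i + 1)) := by ring
      have h10 : ‖T - LL c s T‖ ≤ √(4 * ((S.card : ℝ) / (2 * i + 1))) :=
        Real.le_sqrt_of_sq_le h9
      rw [Real.sqrt_mul (by norm_num), show (4 : ℝ) = 2 ^ 2 by norm_num,
        Real.sqrt_sq (by norm_num)] at h10
      exact h10
    have h3 : 20 / Θ ^ 2 * ‖T - TensorProduct.congrIsometry (c.L s) (c.L s) T‖ ≤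
        40 / Θ ^ 2 * √((S.card : ℝ) / (2 * i + 1)) := by
      calc 20 / Θ ^ 2 * ‖T - TensorProduct.congrIsometry (c.L s) (c.L s) T‖ ≤
          20 / Θ ^ 2 * (2 * √((S.card : ℝ) / (2 * i + 1))) :=
            mul_le_mul_of_nonneg_left h2 (by positivity)
        _ = _ := by ring
    exact mul_le_mul_of_nonneg_right h3 (norm_nonneg _)
  · have h2 : ⟪T, BB S c⟫ = phi S (LL c) (BB S c) i :=
      (real_inner_comm (BB S c) T).trans rfl
    have h3 : Θ ≤ ⟪T, BB S c⟫ := by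
      rw [h2, ← hΘ]
      exact phi_anti hS (LL c) (BB S c) (by omega)
    have h4 : ⟪T, BB S c⟫ = av S (fun s => ⟪c.b s ⊗ₜ[ℝ] c.b s, T⟫) := by
      have h5 := map_av (innerₛₗ ℝ T) S (fun s => c.b s ⊗ₜ[ℝ] c.b s)
      have h6 : (innerₛₗ ℝ T) (av S (fun s => c.b s ⊗ₜ[ℝ] c.b s)) = ⟪T, BB S c⟫ := rfl
      rw [← h6, h5]
      congr 1
      funext s
      exact real_inner_comm (c.b s ⊗ₜ[ℝ] c.b s) T
    have h5 : av S (fun s => ⟪c.b s ⊗ₜ[ℝ] c.b s, T⟫) ≤
        av S (fun s => ‖V.starProjection (c.b s)‖ ^ 2 + Θ / 2 * ‖c.b s‖ ^ 2) :=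
      ga_av_mono hS (fun s => hq (c.b s))
    rw [ga_av_add, ga_av_mul, hg.energy] at h5
    linarith

end Pool.Agent.Helper41.Gap
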