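import Pool.Agent.Helper41.Gap.Steer
import Pool.Agent.Helper41.Gap.CocBasic

set_option autoImplicit false

open scoped Pointwise RealInnerProductSpace TensorProduct
open ProbabilityTheory MeasureTheory Module

namespace Pool.Agent.Helper41.Gap

variable {G : Type} [Group G] [DecidableEq G]
variable {E : Type} [NormedAddCommGroup E] [InnerProductSpace ℝ E]

private theorem dir_pow_subset {S : Finset G} (hS : SymOne S) {j k : ℕ} (h : j ≤ k) :
    S ^ j ⊆ S ^ k := Finset.pow_subset_pow_right hS.one h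

private theorem dir_one_mem {S : Finset G} (hS : SymOne S) (k : ℕ) : (1 : G) ∈ S ^ k :=
  Finset.one_mem_pow hS.one

/-- the second moment is close to the number of steps -/
private theorem dir_R2 {S : Finset G} (hS : SymOne S) {c : Coc G E} {η : ℝ} (hg : Good S c η)
    (τ : ℕ) : |ex S τ (fun g => ‖c.b g‖ ^ 2) - τ| ≤ 2 * (S.card : ℝ) * τ ^ 2 * η := by
  have h := ex_energy hS hg (ContinuousLinearMap.id ℝ E) ContinuousLinearMap.norm_id_le τ
  have h1 : ∑ i ∈ Finset.range τ, ex S i (fun x => av S (fun s =>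
      ‖(ContinuousLinearMap.id ℝ E) (c.L x (c.b s))‖ ^ 2)) = (τ : ℝ) := by
    have h2 : ∀ i, ex S i (fun x => av S (fun s =>
        ‖(ContinuousLinearMap.id ℝ E) (c.L x (c.b s))‖ ^ 2)) = (1 : ℝ) := by
      intro i
      have h3 : (fun x : G => av S (fun s =>
          ‖(ContinuousLinearMap.id ℝ E) (c.L x (c.b s))‖ ^ 2)) = fun _ => (1 : ℝ) := by
        funext x
        have h4 : (fun s : G => ‖(ContinuousLinearMap.id ℝ E) (c.L x (c.b s))‖ ^ 2) =
            fun s => ‖c.b s‖ ^ 2 := by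
          funext s
          rw [ContinuousLinearMap.id_apply, LinearIsometryEquiv.norm_map]
        rw [h4, hg.energy]
      rw [h3, ex_const hS]
    simp only [h2, Finset.sum_const, Finset.card_range, nsmul_eq_mul, mul_one]
  rw [h1] at h
  exact h

/-- the variance in an arbitrary direction -/
private theorem dir_var {S : Finset G} (hS : SymOne S) {c : Coc G E} (τ : ℕ) (M : ℝ)
    (h : ∀ u : E, ‖u‖ = 1 → ex S τ (fun g => ⟪u, c.b g⟫ ^ 2) ≤ M) (w : E) :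
    ex S τ (fun g => ⟪w, c.b g⟫ ^ 2) ≤ M * ‖w‖ ^ 2 := by
  by_cases hw : w = 0
  · subst hw
    rw [ex_eq_sum hS]
    simp
  · have hn : ‖w‖ ≠ 0 := norm_ne_zero_iff.2 hw
    have h1 := h ((‖w‖)⁻¹ • w) (by rw [norm_smul, norm_inv, norm_norm, inv_mul_cancel₀ hn])
    have h2 : ex S τ (fun g => ⟪w, c.b g⟫ ^ 2) =
        ‖w‖ ^ 2 * ex S τ (fun g => ⟪(‖w‖)⁻¹ • w, c.b g⟫ ^ 2) := by
      rw [ex_eq_sum hS, ex_eq_sum hS, Finset.mul_sum]
      refine Finset.sum_congr rfl fun g _ => ?_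
      rw [real_inner_smul_left, smul_eq_mul, smul_eq_mul]
      field_simp
    rw [h2, mul_comm]
    exact mul_le_mul_of_nonneg_right h1 (sq_nonneg _)

/-- Either the walk sees one direction, or growth is large: direction with large variance. -/
theorem exists_direction {S : Finset G} (hS : SymOne S) (K : ℝ) (hK : 1 ≤ K) (τ : ℕ)
    (hτ : 20000 * (S.card : ℝ) * (Real.log ((S ^ (τ ^ 5)).card) + 2) ^ 2 ≤ τ)
    (hτ2 : (100 : ℝ) ≤ τ)
    (hgr : Real.log ((S ^ (τ ^ 5)).card) ≤ 6 * K * Real.log τ) :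
    ∃ η0 : ℝ, 0 < η0 ∧ ∀ (E : Type) [NormedAddCommGroup E] [InnerProductSpace ℝ E] (c : Coc G E),
      Good S c η0 → ∃ u : E, ‖u‖ = 1 ∧
        (τ : ℝ) / (26 * K) ≤ ex S τ (fun g => ⟪u, c.b g⟫ ^ 2) := by
  classical
  obtain ⟨n, hn⟩ : ∃ n : ℕ, n = (S ^ (τ ^ 5)).card := ⟨_, rfl⟩
  rw [← hn] at hτ hgr
  have hn1 : 1 ≤ n := by
    rw [hn]
    exact Finset.card_pos.2 ⟨1, dir_one_mem hS _⟩
  have hnR : (1 : ℝ) ≤ n := by exact_mod_cast hn1
  have hSc : (1 : ℝ) ≤ S.card := by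
    exact_mod_cast Finset.card_pos.2 ⟨1, hS.one⟩
  have hτ0 : (0 : ℝ) < τ := by linarith
  obtain ⟨ℓ, hℓ⟩ : ∃ ℓ : ℝ, ℓ = Real.log n := ⟨_, rfl⟩
  rw [← hℓ] at hτ hgr
  have hℓ0 : 0 ≤ ℓ := by rw [hℓ]; exact Real.log_nonneg hnR
  have hlog16 : 0 < Real.log 16 := Real.log_pos (by norm_num)
  have hlog16' : Real.log 16 ≤ 4 := by
    have h1 : Real.log 16 = 4 * Real.log 2 := by
      rw [show (16 : ℝ) = 2 ^ 4 by norm_num, Real.log_pow]
      norm_num
    rw [h1]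
    have := Real.log_two_lt_d9
    linarith
  have hlogn : Real.log (16 * (n : ℝ) ^ 2) = Real.log 16 + 2 * ℓ := by
    rw [Real.log_mul (by norm_num) (by positivity), Real.log_pow, hℓ]
    norm_num
  obtain ⟨y, hy⟩ : ∃ y : ℝ, y = √(2 * Real.log (16 * (n : ℝ) ^ 2)) := ⟨_, rfl⟩
  have hyp : 0 < y := by
    rw [hy]
    refine Real.sqrt_pos.2 ?_
    rw [hlogn]
    linarith
  have hy2 : y ^ 2 ≤ 4 * (ℓ + 2) := by
    rw [hy, Real.sq_sqrt (by rw [hlogn]; linarith), hlogn]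
    linarith
  obtain ⟨Rm, hRm⟩ : ∃ Rm : ℝ, Rm = τ * √(2 * (S.card : ℝ)) := ⟨_, rfl⟩
  have hRmp : 0 < Rm := by rw [hRm]; positivity
  have hRm2 : Rm ^ 2 = τ ^ 2 * (2 * S.card) := by
    rw [hRm, mul_pow, Real.sq_sqrt (by positivity)]
  obtain ⟨σ, hσ⟩ : ∃ σ : ℝ, σ = 25 * Rm * y * τ := ⟨_, rfl⟩
  have hσp : 0 < σ := by rw [hσ]; positivity
  refine ⟨min (1 / (4 * (S.card : ℝ) * (τ : ℝ))) (1 / (8 * σ * y)), lt_min (by positivity) (by positivity),
    ?_⟩
  intro E _ _ c hgood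
  obtain ⟨η0, hη0⟩ : ∃ η0 : ℝ, η0 = min (1 / (4 * (S.card : ℝ) * (τ : ℝ))) (1 / (8 * σ * y)) := ⟨_, rfl⟩
  rw [← hη0] at hgood
  have hη0p : 0 < η0 := by rw [hη0]; exact lt_min (by positivity) (by positivity)
  have he1 : 4 * (S.card : ℝ) * τ * η0 ≤ 1 := by
    have h1 : η0 ≤ 1 / (4 * (S.card : ℝ) * (τ : ℝ)) := by rw [hη0]; exact min_le_left _ _
    rw [le_div_iff₀ (by positivity)] at h1
    linarith
  have he2 : 8 * σ * y * η0 ≤ 1 := by
    have h1 : η0 ≤ 1 / (8 * σ * y) := by rw [hη0]; exact min_le_right _ _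
    rw [le_div_iff₀ (by positivity)] at h1
    linarith
  by_contra hcon
  push Not at hcon
  obtain ⟨R2, hR2⟩ : ∃ R2 : ℝ, R2 = ex S τ (fun g => ‖c.b g‖ ^ 2) := ⟨_, rfl⟩
  have hR2b : (τ : ℝ) / 2 ≤ R2 := by
    have h1 := (abs_le.1 (dir_R2 hS hgood τ)).1
    rw [← hR2] at h1
    have h2 : 2 * (S.card : ℝ) * τ ^ 2 * η0 ≤ τ / 2 := by
      have : 2 * (S.card : ℝ) * τ ^ 2 * η0 = (τ / 2) * (4 * S.card * τ * η0) := by ring
      rw [this]
      have := mul_le_mul_of_nonneg_left he1 (by positivity : (0 : ℝ) ≤ τ / 2)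
      linarith
    linarith
  have hR2p : 0 < R2 := by linarith
  -- the finite dimensional space
  obtain ⟨W, hW⟩ : ∃ W : Submodule ℝ E,
      W = Submodule.span ℝ (c.b '' ((S ^ (τ ^ 5) : Finset G) : Set G)) := ⟨_, rfl⟩
  have hWfd : FiniteDimensional ℝ W := by
    rw [hW]
    exact FiniteDimensional.span_of_finite ℝ ((Finset.finite_toSet _).image _)
  let _ : MeasurableSpace W := borel W
  have hBor : BorelSpace W := ⟨rfl⟩
  have hbW : ∀ g ∈ S ^ (τ ^ 5), c.b g ∈ W := by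
    intro g hg
    rw [hW]
    exact Submodule.subset_span ⟨g, hg, rfl⟩
  have hsub : S ^ τ ⊆ S ^ (τ ^ 5) := dir_pow_subset hS (Nat.le_self_pow (by norm_num) τ)
  let β : {g // g ∈ S ^ (τ ^ 5)} → W := fun i => ⟨c.b i, hbW i i.2⟩
  let next : {g // g ∈ S ^ (τ ^ 5)} → {g // g ∈ S ^ τ} → {g // g ∈ S ^ (τ ^ 5)} :=
    fun i z => if h : (i : G) * z ∈ S ^ (τ ^ 5) then ⟨i * z, h⟩ else i
  let st : ℕ → Set {g // g ∈ S ^ (τ ^ 5)} := fun j => {i | (i : G) ∈ S ^ (j * τ)}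
  have hmul : ∀ j < τ ^ 4, ∀ i ∈ st j, ∀ z : {g // g ∈ S ^ τ},
      (i : G) * z ∈ S ^ ((j + 1) * τ) ∧ (i : G) * z ∈ S ^ (τ ^ 5) := by
    intro j hj i hi z
    have h1 : (i : G) * z ∈ S ^ ((j + 1) * τ) := by
      rw [add_mul, one_mul, pow_add]
      exact Finset.mul_mem_mul hi z.2
    refine ⟨h1, dir_pow_subset hS ?_ h1⟩
    calc (j + 1) * τ ≤ τ ^ 4 * τ := Nat.mul_le_mul_right _ hj
      _ = τ ^ 5 := by ring
  have hnxt : ∀ j < τ ^ 4, ∀ i ∈ st j, ∀ z : {g // g ∈ S ^ τ},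
      ((next i z : {g // g ∈ S ^ (τ ^ 5)}) : G) = i * z := by
    intro j hj i hi z
    have h1 := (hmul j hj i hi z).2
    simp only [next, dif_pos h1]
  have hdiff : ∀ j < τ ^ 4, ∀ i ∈ st j, ∀ z : {g // g ∈ S ^ τ},
      ((β (next i z) - β i : W) : E) = c.L i (c.b z) := by
    intro j hj i hi z
    have h1 : ((β (next i z) - β i : W) : E) = c.b (next i z : {g // g ∈ S ^ (τ ^ 5)}) - c.b i :=
      rfl
    rw [h1, hnxt j hj i hi z, c.coc, add_sub_cancel_left]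
  have hnorm : ∀ j < τ ^ 4, ∀ i ∈ st j, ∀ z : {g // g ∈ S ^ τ},
      ‖β (next i z) - β i‖ = ‖c.b z‖ := by
    intro j hj i hi z
    change ‖((β (next i z) - β i : W) : E)‖ = _
    rw [hdiff j hj i hi z, LinearIsometryEquiv.norm_map]
  have hne : Nonempty {g // g ∈ S ^ τ} := ⟨⟨1, dir_one_mem hS _⟩⟩
  have key := steering β ⟨1, dir_one_mem hS _⟩ (Subtype.ext (coc_one c)) (τ ^ 4) st
    (dir_one_mem hS _) next ?_ (fun z => law S τ z) (fun z => law_nonneg S τ z) ?_ R2 (13 * K)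
    (τ * η0) Rm σ y hR2p (by linarith) (by positivity) hRmp hσp ?_ ?_ ?_ ?_ ?_ ?_ ?_ ?_
  · -- conclusion
    rw [Fintype.card_coe, ← hn] at key
    have h1 : 25 * Rm * y / σ = (τ : ℝ)⁻¹ := by
      rw [hσ]
      field_simp
    rw [h1] at key
    have h2 : Real.log (1 / (4 * (n : ℝ))) ≤ 13 * K / 2 * Real.log ((τ : ℝ)⁻¹) := by
      rw [← Real.log_rpow (by positivity)]
      exact Real.log_le_log (by positivity) key
    rw [one_div, Real.log_inv, Real.log_inv, Real.log_mul (by norm_num) (by positivity),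
      ← hℓ] at h2
    have h3 : Real.log 16 = 2 * Real.log 4 := by
      rw [show (16 : ℝ) = 4 ^ 2 by norm_num, Real.log_pow]
      norm_num
    have h4 : Real.log 16 < Real.log τ := Real.log_lt_log (by norm_num) (by linarith)
    have h5 : Real.log τ ≤ K * Real.log τ := by
      have := Real.log_nonneg (by linarith : (1 : ℝ) ≤ τ)
      nlinarith
    nlinarith
  · intro j hj i hi z
    change ((next i z : {g // g ∈ S ^ (τ ^ 5)}) : G) ∈ S ^ ((j + 1) * τ)
    rw [hnxt j hj i hi z]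
    exact (hmul j hj i hi z).1
  · rw [Finset.sum_coe_sort (S ^ τ) (fun g => law S τ g)]
    exact sum_law hS τ
  · intro j hj i hi
    have h1 : ∀ z : {g // g ∈ S ^ τ}, law S τ z * ‖β (next i z) - β i‖ ^ 2 =
        law S τ z * ‖c.b z‖ ^ 2 := by
      intro z
      rw [hnorm j hj i hi z]
    rw [Finset.sum_congr rfl fun z _ => h1 z,
      Finset.sum_coe_sort (S ^ τ) (fun g => law S τ g * ‖c.b g‖ ^ 2), hR2, ex_eq_sum hS]
    rfl
  · intro j hj i hi u
    have h1 : ∀ z : {g // g ∈ S ^ τ}, law S τ z * ⟪u, β (next i z) - β i⟫ ^ 2 =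
        law S τ z * ⟪(c.L i).symm (u : E), c.b z⟫ ^ 2 := by
      intro z
      have h2 : ⟪u, β (next i z) - β i⟫ = ⟪(u : E), c.L i (c.b z)⟫ := by
        rw [← hdiff j hj i hi z]
        rfl
      rw [h2]
      congr 2
      rw [← LinearIsometryEquiv.inner_map_map (c.L i) ((c.L i).symm (u : E)) (c.b z),
        LinearIsometryEquiv.apply_symm_apply]
    rw [Finset.sum_congr rfl fun z _ => h1 z,
      Finset.sum_coe_sort (S ^ τ) (fun g => law S τ g * ⟪(c.L i).symm (u : E), c.b g⟫ ^ 2)]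
    have h3 := dir_var hS (c := c) τ (τ / (26 * K)) (fun u hu => (hcon u hu).le)
      ((c.L i).symm (u : E))
    rw [ex_eq_sum hS, LinearIsometryEquiv.norm_map] at h3
    refine le_trans (le_of_eq ?_) (h3.trans ?_)
    · rfl
    · have h4 : (τ : ℝ) / (26 * K) ≤ R2 / (13 * K) := by
        rw [div_le_div_iff₀ (by linarith) (by linarith)]
        nlinarith
      exact mul_le_mul_of_nonneg_right h4 (sq_nonneg _)
  · intro j hj i hi
    change ‖((∑ z : {g // g ∈ S ^ τ}, law S τ z • (β (next i z) - β i) : W) : E)‖ ≤ _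
    have h1 : ((∑ z : {g // g ∈ S ^ τ}, law S τ z • (β (next i z) - β i) : W) : E) =
        c.L i (ex S τ c.b) := by
      rw [ex_eq_sum hS, Submodule.coe_sum, map_sum,
        ← Finset.sum_coe_sort (S ^ τ) (fun g => c.L i (law S τ g • c.b g))]
      refine Finset.sum_congr rfl fun z _ => ?_
      rw [Submodule.coe_smul, hdiff j hj i hi z, map_smul]
    rw [h1, LinearIsometryEquiv.norm_map]
    exact norm_ex_b_le hS hgood τ
  · intro j hj i hi z
    rw [hnorm j hj i hi z, hRm]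
    exact norm_b_le hS hgood τ z.2
  · rw [Fintype.card_coe, Fintype.card_coe]
    exact Finset.card_le_card hsub
  · rw [Fintype.card_coe, ← hn, hy]
  · rw [Fintype.card_coe, ← hn, ← hℓ]
    have h1 : σ ^ 2 = 1250 * S.card * τ ^ 4 * y ^ 2 := by
      rw [hσ]
      calc (25 * Rm * y * τ) ^ 2 = 625 * Rm ^ 2 * y ^ 2 * τ ^ 2 := by ring
        _ = _ := by rw [hRm2]; ring
    rw [h1]
    have h2 : 2 * (1250 * (S.card : ℝ) * τ ^ 4 * y ^ 2) * (ℓ + 2) ≤
        2500 * S.card * τ ^ 4 * (4 * (ℓ + 2)) * (ℓ + 2) := by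
      have h3 : 2 * (1250 * (S.card : ℝ) * τ ^ 4 * y ^ 2) * (ℓ + 2) =
          2500 * S.card * τ ^ 4 * y ^ 2 * (ℓ + 2) := by ring
      rw [h3]
      refine mul_le_mul_of_nonneg_right ?_ (by linarith)
      exact mul_le_mul_of_nonneg_left hy2 (by positivity)
    refine h2.trans ?_
    have h4 : 2500 * (S.card : ℝ) * τ ^ 4 * (4 * (ℓ + 2)) * (ℓ + 2) =
        τ ^ 4 / 2 * (20000 * S.card * (ℓ + 2) ^ 2) := by ring
    rw [h4]
    have h5 : (τ : ℝ) ^ 4 / 2 * (20000 * S.card * (ℓ + 2) ^ 2) ≤ τ ^ 4 / 2 * τ :=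
      mul_le_mul_of_nonneg_left hτ (by positivity)
    refine h5.trans ?_
    push_cast
    have h6 : (τ : ℝ) ^ 4 / 2 * τ = τ ^ 4 * (τ / 2) := by ring
    rw [h6]
    exact mul_le_mul_of_nonneg_left hR2b (by positivity)
  · have h1 : 2 * σ * (τ * η0) * y = τ / 4 * (8 * σ * y * η0) := by ring
    rw [h1]
    have h2 := mul_le_mul_of_nonneg_left he2 (by positivity : (0 : ℝ) ≤ τ / 4)
    linarith

end Pool.Agent.Helper41.Gap
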