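import Pool.Agent.Helper41.Gap.CocBasic

set_option autoImplicit false

open scoped Pointwise RealInnerProductSpace TensorProduct
open ProbabilityTheory MeasureTheory Module

namespace Pool.Agent.Helper41.Gap

variable {G : Type} [Group G] [DecidableEq G]
variable {E : Type} [NormedAddCommGroup E] [InnerProductSpace ℝ E]

private theorem th_inner (S : Finset G) (c : Coc G E) (u : E) (i : ℕ) :
    ⟪u ⊗ₜ[ℝ] u, (Pm S (LL c) ^ i) (BB S c)⟫ =
      ex S i (fun x => av S (fun s => ⟪u, c.L x (c.b s)⟫ ^ 2)) := by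
  rw [Pm_pow_apply]
  have h1 := map_ex ((innerSL ℝ (u ⊗ₜ[ℝ] u)).toLinearMap) S i (fun g => LL c g (BB S c))
  simp only [ContinuousLinearMap.coe_coe, innerSL_apply_apply] at h1
  rw [h1]
  congr 1
  funext x
  have h2 := map_av (((innerSL ℝ (u ⊗ₜ[ℝ] u)).toLinearMap).comp
    ((LL c x).toLinearEquiv : (E ⊗[ℝ] E) →ₗ[ℝ] (E ⊗[ℝ] E))) S (fun s => c.b s ⊗ₜ[ℝ] c.b s)
  have h3 : (((innerSL ℝ (u ⊗ₜ[ℝ] u)).toLinearMap).comp
    ((LL c x).toLinearEquiv : (E ⊗[ℝ] E) →ₗ[ℝ] (E ⊗[ℝ] E))) (av S (fun s => c.b s ⊗ₜ[ℝ] c.b s)) =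
    ⟪u ⊗ₜ[ℝ] u, (LL c x) (BB S c)⟫ := rfl
  rw [← h3, h2]
  congr 1
  funext s
  have h4 : (((innerSL ℝ (u ⊗ₜ[ℝ] u)).toLinearMap).comp
    ((LL c x).toLinearEquiv : (E ⊗[ℝ] E) →ₗ[ℝ] (E ⊗[ℝ] E))) (c.b s ⊗ₜ[ℝ] c.b s) =
    ⟪u ⊗ₜ[ℝ] u, (c.L x (c.b s)) ⊗ₜ[ℝ] (c.L x (c.b s))⟫ := rfl
  rw [h4, TensorProduct.inner_tmul, sq]

private theorem th_av_mono {S : Finset G} (hS : SymOne S) {F F' : G → ℝ}
    (h : ∀ g, F g ≤ F' g) : av S F ≤ av S F' := by
  have := ex_mono hS 1 (F := F) (F' := F') (fun g _ => h g)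
  rwa [ex_one, ex_one] at this

theorem theta_lower {S : Finset G} (hS : SymOne S) {c : Coc G E} {η : ℝ} (hg : Good S c η)
    (u : E) (hu : ‖u‖ = 1) (D : ℝ) (hD : 1 ≤ D) (τ : ℕ) (hτ : 0 < τ)
    (h : (τ : ℝ) / (2 * D) ≤ ex S τ (fun g => ⟪u, c.b g⟫ ^ 2))
    (hη : 2 * (S.card : ℝ) * τ ^ 2 * η ≤ τ / (20 * D)) :
    1 / (25 * D ^ 2) ≤ phi S (LL c) (BB S c) (2 * ⌊(τ : ℝ) / (4 * D)⌋₊) := by
  have hD0 : 0 < D := by linarith
  have hτ' : (0 : ℝ) < τ := by exact_mod_cast hτ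
  set e : ℕ → ℝ := fun i => ex S i (fun x => av S (fun s => ⟪u, c.L x (c.b s)⟫ ^ 2)) with he
  -- energy
  have h1 := ex_energy hS hg (innerSL ℝ u) (by rw [innerSL_apply_norm, hu]) τ
  simp only [innerSL_apply_apply, Real.norm_eq_abs, sq_abs] at h1
  have h2 : ∑ i ∈ Finset.range τ, e i ≥ 9 * τ / (20 * D) := by
    have h3 := (abs_le.1 h1).2
    have h4 : (τ : ℝ) / (2 * D) - τ / (20 * D) = 9 * τ / (20 * D) := by
      field_simp
      ring
    simp only [he]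
    linarith
  -- bounds on `e`
  have hb1 : ∀ i, e i ≤ 1 := by
    intro i
    simp only [he]
    calc ex S i (fun x => av S (fun s => ⟪u, c.L x (c.b s)⟫ ^ 2))
        ≤ ex S i (fun _ => av S (fun s => ‖c.b s‖ ^ 2)) := by
          apply ex_mono hS
          intro x _
          apply th_av_mono hS
          intro s
          have h3 := abs_real_inner_le_norm u (c.L x (c.b s))
          rw [hu, one_mul, LinearIsometryEquiv.norm_map] at h3
          rw [← sq_abs]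
          exact pow_le_pow_left₀ (abs_nonneg _) h3 2
      _ = 1 := by rw [ex_const hS, hg.energy]
  have hphi : ∀ i, ‖(Pm S (LL c) ^ i) (BB S c)‖ = √(phi S (LL c) (BB S c) (2 * i)) := by
    intro i
    rw [two_mul, ← phi_add hS (LL c) (BB S c), real_inner_self_eq_norm_sq, Real.sqrt_sq (norm_nonneg _)]
  have hb2 : ∀ i, e i ≤ √(phi S (LL c) (BB S c) (2 * i)) := by
    intro i
    simp only [he]
    rw [← th_inner, ← hphi]
    refine (real_inner_le_norm (u ⊗ₜ[ℝ] u) ((Pm S (LL c) ^ i) (BB S c))).trans ?_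
    rw [TensorProduct.norm_tmul, hu, one_mul, one_mul]
  set i0 : ℕ := ⌊(τ : ℝ) / (4 * D)⌋₊ with hi0
  have hi0le : (i0 : ℝ) ≤ τ / (4 * D) := Nat.floor_le (by positivity)
  have hi0τ : i0 ≤ τ := by
    have : (i0 : ℝ) ≤ τ := hi0le.trans (div_le_self hτ'.le (by linarith))
    exact_mod_cast this
  set q : ℝ := √(phi S (LL c) (BB S c) (2 * i0)) with hq
  have hq0 : 0 ≤ q := Real.sqrt_nonneg _
  have h5 : ∑ i ∈ Finset.range τ, e i ≤ τ / (4 * D) + τ * q := by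
    rw [← Finset.sum_range_add_sum_Ico e hi0τ]
    have h6 : ∑ i ∈ Finset.range i0, e i ≤ i0 := by
      calc ∑ i ∈ Finset.range i0, e i ≤ ∑ i ∈ Finset.range i0, (1 : ℝ) :=
            Finset.sum_le_sum fun i _ => hb1 i
        _ = i0 := by simp
    have h7 : ∑ i ∈ Finset.Ico i0 τ, e i ≤ τ * q := by
      calc ∑ i ∈ Finset.Ico i0 τ, e i ≤ ∑ i ∈ Finset.Ico i0 τ, q := by
            refine Finset.sum_le_sum fun i hi => (hb2 i).trans ?_
            apply Real.sqrt_le_sqrt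
            apply phi_anti hS (LL c) (BB S c)
            have := (Finset.mem_Ico.1 hi).1
            omega
        _ = ((τ - i0 : ℕ) : ℝ) * q := by simp
        _ ≤ τ * q := by
            apply mul_le_mul_of_nonneg_right _ hq0
            exact_mod_cast Nat.sub_le _ _
    linarith
  have h8 : 1 / (5 * D) ≤ q := by
    have h9 : 9 * (τ : ℝ) / (20 * D) ≤ τ / (4 * D) + τ * q := h2.trans h5
    have h10 : (τ : ℝ) * (1 / (5 * D)) = 9 * (τ : ℝ) / (20 * D) - τ / (4 * D) := by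
      field_simp
      ring
    have h11 : (τ : ℝ) * (1 / (5 * D)) ≤ τ * q := by rw [h10]; linarith
    exact le_of_mul_le_mul_left h11 hτ'
  have h12 : phi S (LL c) (BB S c) (2 * i0) = q ^ 2 := by
    rw [hq, Real.sq_sqrt (phi_nonneg hS (LL c) (BB S c) _)]
  rw [h12]
  calc 1 / (25 * D ^ 2) = (1 / (5 * D)) ^ 2 := by field_simp; norm_num
    _ ≤ q ^ 2 := pow_le_pow_left₀ (by positivity) h8 2

end Pool.Agent.Helper41.Gap
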