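import Pool.Agent.Helper41.Gap.AInvA
import Pool.Agent.Helper41.Gap.Theta
import Pool.Agent.Helper41.Gap.Direction

set_option autoImplicit false

open scoped Pointwise RealInnerProductSpace TensorProduct
open ProbabilityTheory MeasureTheory Module

namespace Pool.Agent.Helper41.Gap

variable {G : Type} [Group G] [DecidableEq G]
variable {E : Type} [NormedAddCommGroup E] [InnerProductSpace ℝ E]

private theorem ainvB_numeric (s K τ i Θ : ℝ) (hs : 1 ≤ s) (hK : 1 ≤ K) (hτ : 100 ≤ τ)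
    (hτ3 : s ^ 3 * (10 ^ 10 * K ^ 5) ^ 6 ≤ τ) (hi : τ / (52 * K) ≤ i)
    (hΘ : 1 / (4225 * K ^ 2) ≤ Θ) :
    40 / Θ ^ 2 * √(s / i) ≤ τ ^ (-(1 / 3 : ℝ)) := by
  have hK0 : 0 < K := by linarith
  have hτ0 : 0 < τ := by linarith
  have hΘ0 : 0 < Θ := lt_of_lt_of_le (by positivity) hΘ
  have hi0 : 0 < i := lt_of_lt_of_le (by positivity) hi
  have h1 : 1 / Θ ≤ 4225 * K ^ 2 := by
    rw [div_le_iff₀ hΘ0]
    rw [div_le_iff₀ (by positivity)] at hΘ
    linarith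
  have h2 : 40 / Θ ^ 2 ≤ 40 * (4225 * K ^ 2) ^ 2 := by
    have h3 : 40 / Θ ^ 2 = 40 * (1 / Θ) ^ 2 := by
      field_simp
    rw [h3]
    gcongr
  have h4 : s / i ≤ (8 * K * √s / √τ) ^ 2 := by
    have h5 : (8 * K * √s / √τ) ^ 2 = 64 * K ^ 2 * s / τ := by
      rw [div_pow, mul_pow, Real.sq_sqrt hτ0.le, Real.sq_sqrt (by linarith)]
      ring
    rw [h5, div_le_div_iff₀ hi0 hτ0]
    rw [div_le_iff₀ (by positivity)] at hi
    have h6 : 52 * K ≤ 64 * K ^ 2 := by nlinarith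
    calc s * τ ≤ s * (i * (52 * K)) := by gcongr
      _ ≤ s * (i * (64 * K ^ 2)) := by gcongr
      _ = 64 * K ^ 2 * s * i := by ring
  have h5 : √(s / i) ≤ 8 * K * √s / √τ := by
    calc √(s / i) ≤ √((8 * K * √s / √τ) ^ 2) := Real.sqrt_le_sqrt h4
      _ = 8 * K * √s / √τ := Real.sqrt_sq (by positivity)
  set x : ℝ := 10 ^ 10 * K ^ 5 * √s with hx
  have hx0 : 0 ≤ x := by positivity
  have hx6 : x ^ 6 ≤ τ := by
    have h6 : x ^ 6 = s ^ 3 * (10 ^ 10 * K ^ 5) ^ 6 := by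
      rw [hx, mul_pow, show √s ^ 6 = (√s ^ 2) ^ 3 by ring, Real.sq_sqrt (by linarith)]
      ring
    rw [h6]
    exact hτ3
  have hx1 : x ≤ τ ^ (1 / 6 : ℝ) := by
    have h6 : x = (x ^ 6) ^ (1 / 6 : ℝ) := by
      rw [← Real.rpow_natCast x 6, ← Real.rpow_mul hx0]
      norm_num
    rw [h6]
    exact Real.rpow_le_rpow (by positivity) hx6 (by norm_num)
  calc 40 / Θ ^ 2 * √(s / i) ≤ 40 * (4225 * K ^ 2) ^ 2 * (8 * K * √s / √τ) := by gcongr
    _ = 5712200000 * K ^ 5 * √s / √τ := by ring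
    _ ≤ x / √τ := by
        rw [hx]
        gcongr
        norm_num
    _ ≤ τ ^ (1 / 6 : ℝ) / √τ := by gcongr
    _ = τ ^ (-(1 / 3 : ℝ)) := by
        rw [Real.sqrt_eq_rpow, ← Real.rpow_sub hτ0]
        norm_num

/-- The almost invariant subspace theorem. -/
theorem exists_ainv {S : Finset G} (hS : SymOne S) (K : ℝ) (hK : 1 ≤ K) (τ : ℕ)
    (hτ : 20000 * (S.card : ℝ) * (Real.log ((S ^ (τ ^ 5)).card) + 2) ^ 2 ≤ τ)
    (hτ2 : (100 : ℝ) ≤ τ) (hτ3 : (S.card : ℝ) ^ 3 * (10 ^ 10 * K ^ 5) ^ 6 ≤ τ)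
    (hgr : Real.log ((S ^ (τ ^ 5)).card) ≤ 6 * K * Real.log τ) :
    ∃ η0 : ℝ, 0 < η0 ∧ ∀ (E : Type) [NormedAddCommGroup E] [InnerProductSpace ℝ E] (c : Coc G E),
      Good S c η0 → ∃ (V : Submodule ℝ E) (_ : FiniteDimensional ℝ V),
        (finrank ℝ V : ℝ) ≤ 17000 * K ^ 2 ∧ AInv S c V ((τ : ℝ) ^ (-(1 / 3 : ℝ))) ∧
        1 / (9000 * K ^ 2) ≤ av S (fun s => ‖V.starProjection (c.b s)‖ ^ 2) := by
  obtain ⟨η1, hη1, hdir⟩ := exists_direction hS K hK τ hτ hτ2 hgr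
  have hK0 : 0 < K := by linarith
  have hs1 : (1 : ℝ) ≤ S.card := by
    have : 0 < S.card := Finset.card_pos.mpr ⟨1, hS.one⟩
    exact_mod_cast this
  have hs0 : (0 : ℝ) < S.card := by linarith
  have hτ0 : (0 : ℝ) < τ := by linarith
  refine ⟨min η1 (1 / (520 * S.card * K * τ)), lt_min hη1 (by positivity), ?_⟩
  intro E _ _ c hg
  have hg1 : Good S c η1 := ⟨hg.energy, hg.mean.trans (min_le_left _ _)⟩
  obtain ⟨u, hu, hu2⟩ := hdir E c hg1
  have hth := theta_lower hS hg u hu (13 * K) (by linarith) τ (by exact_mod_cast hτ0)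
    (by
      have h1 : (2 : ℝ) * (13 * K) = 26 * K := by ring
      rw [h1]
      exact hu2)
    (by
      have h1 : min η1 (1 / (520 * (S.card : ℝ) * K * τ)) ≤ 1 / (520 * S.card * K * τ) :=
        min_le_right _ _
      calc 2 * (S.card : ℝ) * τ ^ 2 * min η1 (1 / (520 * (S.card : ℝ) * K * τ))
          ≤ 2 * (S.card : ℝ) * τ ^ 2 * (1 / (520 * S.card * K * τ)) := by gcongr
        _ = τ / (20 * (13 * K)) := by
            field_simp
            norm_num)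
  set i : ℕ := ⌊(τ : ℝ) / (4 * (13 * K))⌋₊ with hi
  set Θ : ℝ := phi S (LL c) (BB S c) (2 * i) with hΘ
  have hth' : 1 / (4225 * K ^ 2) ≤ Θ := by
    have h1 : (25 : ℝ) * (13 * K) ^ 2 = 4225 * K ^ 2 := by ring
    rw [h1] at hth
    exact hth
  have hΘ0 : 0 < Θ := lt_of_lt_of_le (by positivity) hth'
  obtain ⟨V, hV, hV1, hV2, hV3⟩ := exists_ainv_of_theta hS hg i Θ rfl hΘ0
  refine ⟨V, hV, ?_, ?_, ?_⟩
  · refine hV1.trans ?_
    rw [div_le_iff₀ hΘ0]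
    rw [div_le_iff₀ (by positivity)] at hth'
    nlinarith
  · have hi1 : (τ : ℝ) / (52 * K) ≤ 2 * i + 1 := by
      have h1 : (τ : ℝ) / (4 * (13 * K)) < i + 1 := Nat.lt_floor_add_one _
      have h2 : (4 : ℝ) * (13 * K) = 52 * K := by ring
      rw [h2] at h1
      have h3 : (0 : ℝ) ≤ i := Nat.cast_nonneg _
      linarith
    have hnum := ainvB_numeric S.card K τ (2 * i + 1) Θ hs1 hK hτ2 hτ3 hi1 hth'
    refine ⟨by positivity, fun s hs v hv => (hV2.inv s hs v hv).trans ?_⟩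
    exact mul_le_mul_of_nonneg_right hnum (norm_nonneg _)
  · refine le_trans ?_ hV3
    have h1 : 1 / (9000 * K ^ 2) ≤ 1 / (4225 * K ^ 2) / 2 := by
      rw [div_div]
      apply one_div_le_one_div_of_le (by positivity)
      nlinarith [sq_nonneg K]
    linarith

end Pool.Agent.Helper41.Gap
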