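import Pool.Agent.Helper41.Gap.Defs
import Pool.Agent.Helper1.Gap.CutB

set_option autoImplicit false

open scoped Pointwise RealInnerProductSpace TensorProduct
open ProbabilityTheory MeasureTheory Module

namespace Pool.Agent.Helper41.Gap

variable {G : Type} [Group G] [DecidableEq G]
variable {E : Type} [NormedAddCommGroup E] [InnerProductSpace ℝ E]

theorem spectral_cut {ι : Type} [Fintype ι] (w : ι → ℝ) (hw : ∀ i, 0 ≤ w i)
    (z : ι → E) (h1 : ∑ i, w i * ‖z i‖ ^ 2 = 1) (T : E ⊗[ℝ] E)
    (hT : T = ∑ i, w i • (z i ⊗ₜ[ℝ] z i)) (Θ : ℝ) (hΘ : ‖T‖ ^ 2 = Θ) (hΘ0 : 0 < Θ) :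
    ∃ (V : Submodule ℝ E) (_ : FiniteDimensional ℝ V), (finrank ℝ V : ℝ) ≤ 4 / Θ ∧
      (∀ x : E, ⟪x ⊗ₜ[ℝ] x, T⟫ ≤ ‖V.starProjection x‖ ^ 2 + Θ / 2 * ‖x‖ ^ 2) ∧
      ∀ g : E ≃ₗᵢ[ℝ] E, ∀ v ∈ V, ‖g v - V.starProjection (g v)‖ ≤
        20 / Θ ^ 2 * ‖T - TensorProduct.congrIsometry g g T‖ * ‖v‖ := by
  classical
  obtain ⟨n, f, t, hf, ht0, ht1, hTf⟩ := cut_diag w hw z h1
  rw [← hT] at hTf
  have htle : ∀ k, t k ≤ 1 := by
    intro k
    rw [← ht1]
    exact Finset.single_le_sum (fun i _ => ht0 i) (Finset.mem_univ k)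
  have hΘs : Θ = ∑ k, t k ^ 2 := by
    rw [← hΘ, hTf, cut_norm f hf]
  have hΘ1 : Θ ≤ 1 := by
    rw [hΘs, ← ht1]
    refine Finset.sum_le_sum fun k _ => ?_
    have := ht0 k
    have := htle k
    nlinarith
  obtain ⟨a, b, ha, hb, hab, hcut, hcard⟩ := cut_gap t ht0 ht1 Θ hΘ0 hΘ1
  have hba : a < b := by
    have : 0 < Θ ^ 2 / 20 := by positivity
    linarith
  set I : Finset (Fin n) := Finset.univ.filter (fun k => b ≤ t k) with hI
  set V : Submodule ℝ E := Submodule.span ℝ (f '' (I : Set (Fin n))) with hV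
  have hVfin : FiniteDimensional ℝ V :=
    FiniteDimensional.span_of_finite ℝ (I.finite_toSet.image f)
  have hfV : ∀ k ∈ I, f k ∈ V := fun k hk => Submodule.subset_span ⟨k, by simpa using hk, rfl⟩
  have hort := (orthonormal_iff_ite.mp hf)
  have hfV' : ∀ k, k ∉ I → ∀ v ∈ V, ⟪v, f k⟫ = 0 := by
    intro k hk v hv
    induction hv using Submodule.span_induction with
    | mem x hx =>
      obtain ⟨i, hi, rfl⟩ := hx
      rw [hort, if_neg]
      rintro rfl
      exact hk (by simpa using hi)
    | zero => simp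
    | add x y _ _ hx hy => rw [inner_add_left, hx, hy, add_zero]
    | smul c x _ hx => rw [real_inner_smul_left, hx, mul_zero]
  have hinner : ∀ x y : E, ⟪x ⊗ₜ[ℝ] y, T⟫ = ∑ k, t k * (⟪x, f k⟫ * ⟪y, f k⟫) := by
    intro x y
    rw [hTf, cut_inner]
  have hbessel : ∀ (x : E) (J : Finset (Fin n)), ∑ k ∈ J, ⟪x, f k⟫ ^ 2 ≤ ‖x‖ ^ 2 := by
    intro x J
    refine le_trans (le_of_eq ?_) (hf.sum_inner_products_le (x := x) (s := J))
    refine Finset.sum_congr rfl fun k _ => ?_
    rw [Real.norm_eq_abs, sq_abs, real_inner_comm]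
  have hsplit : ∀ F : Fin n → ℝ, ∑ k, F k = ∑ k ∈ I, F k + ∑ k ∈ Iᶜ, F k := by
    intro F
    rw [Finset.sum_add_sum_compl]
  refine ⟨V, hVfin, ?_, ?_, ?_⟩
  · refine le_trans ?_ hcard
    have h := finrank_span_le_card (R := ℝ) (f '' (I : Set (Fin n)))
    have h2 : (f '' (I : Set (Fin n))).toFinset.card ≤ I.card := by
      rw [show (f '' (I : Set (Fin n))).toFinset = I.image f by ext; simp]
      exact Finset.card_image_le
    exact_mod_cast h.trans h2
  · intro x
    rw [hinner, hsplit]
    refine add_le_add ?_ ?_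
    · have h1 : ∀ k ∈ I, ⟪x, f k⟫ = ⟪V.starProjection x, f k⟫ := by
        intro k hk
        have := V.starProjection_inner_eq_zero x (f k) (hfV k hk)
        rw [inner_sub_left] at this
        linarith
      refine le_trans ?_ (hbessel (V.starProjection x) I)
      refine Finset.sum_le_sum fun k hk => ?_
      rw [h1 k hk]
      have := htle k
      have h2 := mul_self_nonneg (⟪V.starProjection x, f k⟫)
      nlinarith
    · calc ∑ k ∈ Iᶜ, t k * (⟪x, f k⟫ * ⟪x, f k⟫) ≤ ∑ k ∈ Iᶜ, Θ / 2 * ⟪x, f k⟫ ^ 2 := by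
            refine Finset.sum_le_sum fun k hk => ?_
            have hk' : t k < a := by
              rcases hcut k with h | h
              · exact h
              · exfalso
                rw [Finset.mem_compl] at hk
                exact hk (by rw [hI, Finset.mem_filter]; exact ⟨Finset.mem_univ _, h⟩)
            have h2 := mul_self_nonneg (⟪x, f k⟫)
            have h3 : t k ≤ Θ / 2 := by linarith
            nlinarith
        _ = Θ / 2 * ∑ k ∈ Iᶜ, ⟪x, f k⟫ ^ 2 := by rw [Finset.mul_sum]
        _ ≤ Θ / 2 * ‖x‖ ^ 2 := by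
            have := hbessel x Iᶜ
            gcongr
  · intro g
    set δ : ℝ := ‖T - TensorProduct.congrIsometry g g T‖ with hδ
    let C : V →ₗ[ℝ] E :=
      { toFun := fun v => g v - V.starProjection (g v)
        map_add' := by
          intro u v
          simp only [Submodule.coe_add, map_add]
          abel
        map_smul' := by
          intro c u
          simp only [Submodule.coe_smul, map_smul, RingHom.id_apply]
          rw [smul_sub] }
    have hCV : ∀ (u : V) (x : E), x ∈ V → ⟪C u, x⟫ = 0 := by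
      intro u x hx
      exact V.starProjection_inner_eq_zero (g u) x hx
    have hmain : ∀ v : V, ‖v‖ = 1 → (∀ u : V, ⟪C u, C v⟫ = ‖C v‖ ^ 2 * ⟪u, v⟫) →
        ‖C v‖ ≤ 20 / Θ ^ 2 * δ := by
      intro v hv1 hv
      set s : ℝ := ‖C v‖ with hs
      have hs0 : 0 ≤ s := norm_nonneg _
      rcases hs0.eq_or_lt with hs0 | hs0
      · rw [← hs0]; positivity
      -- the test vectors
      set X : E := C v with hX
      have hXV : ∀ x ∈ V, ⟪X, x⟫ = 0 := fun x hx => hCV v x hx
      -- first inner product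
      have hI1 : ⟪X ⊗ₜ[ℝ] (g v), T⟫ ≤ a * s ^ 2 := by
        rw [hinner, hsplit]
        have e1 : ∑ k ∈ I, t k * (⟪X, f k⟫ * ⟪g v, f k⟫) = 0 := by
          refine Finset.sum_eq_zero fun k hk => ?_
          rw [hXV _ (hfV k hk)]; ring
        rw [e1, zero_add]
        calc ∑ k ∈ Iᶜ, t k * (⟪X, f k⟫ * ⟪g v, f k⟫) ≤ ∑ k ∈ Iᶜ, a * ⟪X, f k⟫ ^ 2 := by
              refine Finset.sum_le_sum fun k hk => ?_
              rw [Finset.mem_compl] at hk
              have hk' : t k < a := by
                rcases hcut k with h | h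
                · exact h
                · exfalso
                  exact hk (by rw [hI, Finset.mem_filter]; exact ⟨Finset.mem_univ _, h⟩)
              have h3 : ⟪g v, f k⟫ = ⟪X, f k⟫ := by
                have h4 : ⟪V.starProjection (g v), f k⟫ = 0 :=
                  hfV' k hk _ (Submodule.starProjection_apply_mem _ _)
                change _ = ⟪g v - V.starProjection (g v), f k⟫
                rw [inner_sub_left, h4, sub_zero]
              rw [h3]
              have h2 := mul_self_nonneg (⟪X, f k⟫)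
              nlinarith
          _ = a * ∑ k ∈ Iᶜ, ⟪X, f k⟫ ^ 2 := by rw [Finset.mul_sum]
          _ ≤ a * s ^ 2 := by
              have := hbessel X Iᶜ
              have ha0 : 0 ≤ a := by
                have : 0 < Θ / 4 := by positivity
                linarith
              gcongr
      -- second inner product
      have hI2 : b * s ^ 2 ≤ ⟪X ⊗ₜ[ℝ] (g v), TensorProduct.congrIsometry g g T⟫ := by
        have e0 : X ⊗ₜ[ℝ] (g v) = TensorProduct.congrIsometry g g (g.symm X ⊗ₜ[ℝ] (v : E)) := by
          rw [TensorProduct.congrIsometry_apply, TensorProduct.congr_tmul]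
          simp
        rw [e0, LinearIsometryEquiv.inner_map_map, hinner, hsplit]
        have e1 : ∑ k ∈ Iᶜ, t k * (⟪g.symm X, f k⟫ * ⟪(v : E), f k⟫) = 0 := by
          refine Finset.sum_eq_zero fun k hk => ?_
          rw [Finset.mem_compl] at hk
          rw [hfV' k hk v v.2]; ring
        rw [e1, add_zero]
        have e2 : ∀ k ∈ I, ⟪g.symm X, f k⟫ = s ^ 2 * ⟪(v : E), f k⟫ := by
          intro k hk
          have h5 : ⟪g.symm X, f k⟫ = ⟪X, g (f k)⟫ := by
            rw [← LinearIsometryEquiv.inner_map_map g, LinearIsometryEquiv.apply_symm_apply]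
          have h6 : ⟪X, g (f k)⟫ = ⟪X, C ⟨f k, hfV k hk⟩⟫ := by
            change _ = ⟪X, g (f k) - V.starProjection (g (f k))⟫
            rw [inner_sub_right, hXV _ (Submodule.starProjection_apply_mem _ _), sub_zero]
          rw [h5, h6, real_inner_comm, hv, real_inner_comm]
          rfl
        calc b * s ^ 2 = ∑ k ∈ I, b * (s ^ 2 * ⟪(v : E), f k⟫ ^ 2) := by
              rw [← Finset.mul_sum, ← Finset.mul_sum, ← cut_span_norm f hf I v v.2]
              have : ‖(v : E)‖ = 1 := hv1
              rw [this]; ring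
          _ ≤ ∑ k ∈ I, t k * (⟪g.symm X, f k⟫ * ⟪(v : E), f k⟫) := by
              refine Finset.sum_le_sum fun k hk => ?_
              rw [e2 k hk]
              have h7 : b ≤ t k := by
                rw [hI, Finset.mem_filter] at hk
                exact hk.2
              have h8 : 0 ≤ s ^ 2 * ⟪(v : E), f k⟫ ^ 2 := by positivity
              nlinarith
      have hCS : ⟪X ⊗ₜ[ℝ] (g v), TensorProduct.congrIsometry g g T⟫ - ⟪X ⊗ₜ[ℝ] (g v), T⟫
          ≤ s * δ := by
        have hsub := inner_sub_right (𝕜 := ℝ) (X ⊗ₜ[ℝ] (g v))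
          (TensorProduct.congrIsometry g g T) T
        refine le_trans (le_of_eq hsub.symm) ?_
        refine le_trans (real_inner_le_norm _ _) (le_of_eq ?_)
        rw [TensorProduct.norm_tmul, norm_sub_rev, g.norm_map]
        have : ‖(v : E)‖ = 1 := hv1
        rw [this, mul_one]
      have hfin : (b - a) * s ^ 2 ≤ s * δ := by nlinarith
      have hfin2 : (b - a) * s ≤ δ := by
        have : s * ((b - a) * s) ≤ s * δ := by nlinarith
        exact le_of_mul_le_mul_left this hs0
      have h9 : Θ ^ 2 / 20 * s ≤ δ := by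
        have := mul_le_mul_of_nonneg_right hab hs0.le
        linarith
      have h10 : s ≤ δ / (Θ ^ 2 / 20) := by
        rw [le_div_iff₀ (by positivity)]
        linarith
      refine h10.trans (le_of_eq ?_)
      field_simp
    intro v hv
    have := cut_singular V C (20 / Θ ^ 2 * δ) (by positivity) hmain ⟨v, hv⟩
    exact this

end Pool.Agent.Helper41.Gap
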