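import Mathlib

/-!
# Gap: definitions

Lazy random walk averages, cocycles, almost invariant subspaces, subexponential growth.
-/

set_option autoImplicit false

open scoped Pointwise RealInnerProductSpace TensorProduct

namespace Pool.Agent.Helper41.Gap

/-- A finite symmetric set containing the identity. -/
structure SymOne {G : Type} [Group G] (S : Finset G) : Prop where
  one : (1 : G) ∈ S
  inv : ∀ s ∈ S, s⁻¹ ∈ S

/-- Average over one step of the lazy random walk: with probability one half stay, otherwise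
multiply by a uniform element of the set. -/
noncomputable def av {G : Type} [Group G] (S : Finset G) {V : Type} [AddCommGroup V] [Module ℝ V]
    (F : G → V) : V :=
  (1 / 2 : ℝ) • F 1 + ((2 * (S.card : ℝ))⁻¹) • ∑ s ∈ S, F s

/-- Expectation at time `k` of the lazy random walk started at the identity. -/
noncomputable def ex {G : Type} [Group G] (S : Finset G) {V : Type} [AddCommGroup V] [Module ℝ V] :
    ℕ → (G → V) → V
  | 0, F => F 1
  | k + 1, F => ex S k (fun g => av S (fun s => F (g * s)))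

/-- The law of the walk at time `k`. -/
noncomputable def law {G : Type} [Group G] [DecidableEq G] (S : Finset G) (k : ℕ) (g : G) : ℝ :=
  ex S k (fun x => if x = g then (1 : ℝ) else 0)

/-- The Markov operator of an isometric action. -/
noncomputable def Pm {G : Type} [Group G] {X : Type} [NormedAddCommGroup X]
    [InnerProductSpace ℝ X] (S : Finset G) (L : G →* (X ≃ₗᵢ[ℝ] X)) : X →ₗ[ℝ] X :=
  (1 / 2 : ℝ) • LinearMap.id +
    ((2 * (S.card : ℝ))⁻¹) • ∑ s ∈ S, ((L s).toLinearEquiv : X →ₗ[ℝ] X)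

/-- Return sequence of a vector. -/
noncomputable def phi {G : Type} [Group G] {X : Type} [NormedAddCommGroup X]
    [InnerProductSpace ℝ X] (S : Finset G) (L : G →* (X ≃ₗᵢ[ℝ] X)) (x : X) (k : ℕ) : ℝ :=
  ⟪x, (Pm S L ^ k) x⟫

/-- An orthogonal representation with a cocycle. -/
structure Coc (G : Type) [Group G] (E : Type) [NormedAddCommGroup E] [InnerProductSpace ℝ E] where
  L : G →* (E ≃ₗᵢ[ℝ] E)
  b : G → E
  coc : ∀ g h, b (g * h) = b g + L g (b h)

/-- Normalized, almost harmonic cocycle. -/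
structure Good {G : Type} [Group G] {E : Type} [NormedAddCommGroup E] [InnerProductSpace ℝ E]
    (S : Finset G) (c : Coc G E) (η : ℝ) : Prop where
  energy : av S (fun s => ‖c.b s‖ ^ 2) = 1
  mean : ‖av S (fun s => c.b s)‖ ≤ η

/-- Every finite subset has subexponential growth. -/
def SubExp (G : Type) [Group G] : Prop :=
  ∀ T : Set G, T.Finite → ∀ a : ℝ, 1 < a → ∃ C : ℝ, ∀ r : ℕ, ((T ^ r).ncard : ℝ) ≤ C * a ^ r

/-- The subspace `V` is moved by the elements of `S` by at most `σ`: almost invariant. -/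
structure AInv {G : Type} [Group G] {E : Type} [NormedAddCommGroup E] [InnerProductSpace ℝ E]
    (S : Finset G) (c : Coc G E) (V : Submodule ℝ E) [FiniteDimensional ℝ V] (σ : ℝ) : Prop where
  nonneg : 0 ≤ σ
  inv : ∀ s ∈ S, ∀ v ∈ V, ‖c.L s v - V.starProjection (c.L s v)‖ ≤ σ * ‖v‖

/-- Commutator. -/
def cm {G : Type} [Group G] (g h : G) : G := g * h * g⁻¹ * h⁻¹

/-- The displacement of `V` by `g`, in operator norm. -/
noncomputable def NN {G : Type} [Group G] {E : Type} [NormedAddCommGroup E] [InnerProductSpace ℝ E]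
    (c : Coc G E) (V : Submodule ℝ E) (g : G) : ℝ :=
  ‖(((c.L g).toContinuousLinearEquiv.toContinuousLinearMap - ContinuousLinearMap.id ℝ E).comp
    V.subtypeL)‖

/-- Elements of the ball of radius `m` moving `V` by at most `ε`. -/
noncomputable def TT {G : Type} [Group G] [DecidableEq G] {E : Type} [NormedAddCommGroup E]
    [InnerProductSpace ℝ E] (S : Finset G) (c : Coc G E) (V : Submodule ℝ E) (m : ℕ) (ε : ℝ) :
    Finset G := by
  classical exact (S ^ m).filter (fun t => NN c V t ≤ ε)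

/-- The cocycle shifted by the coboundary of `v`. -/
noncomputable def sb {G : Type} [Group G] {E : Type} [NormedAddCommGroup E]
    [InnerProductSpace ℝ E] (c : Coc G E) (v : E) (g : G) : E := c.b g - (v - c.L g v)

/-- Diagonal action on the tensor square. -/
noncomputable def LL {G : Type} [Group G] {E : Type} [NormedAddCommGroup E]
    [InnerProductSpace ℝ E] (c : Coc G E) : G →* ((E ⊗[ℝ] E) ≃ₗᵢ[ℝ] (E ⊗[ℝ] E)) where
  toFun g := TensorProduct.congrIsometry (c.L g) (c.L g)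
  map_one' := by
    rw [map_one]
    ext x
    change TensorProduct.congrIsometry _ _ x = x
    rw [show (1 : E ≃ₗᵢ[ℝ] E) = LinearIsometryEquiv.refl ℝ E from rfl,
      TensorProduct.congrIsometry_refl_refl]
    rfl
  map_mul' g h := by
    rw [map_mul]
    ext x
    change TensorProduct.congrIsometry _ _ x = TensorProduct.congrIsometry _ _
      (TensorProduct.congrIsometry _ _ x)
    induction x using TensorProduct.induction_on with
    | zero => simp
    | tmul a b => rfl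
    | add a b ha hb => rw [map_add, map_add, map_add, ha, hb]

/-- Covariance tensor of one step. -/
noncomputable def BB {G : Type} [Group G] {E : Type} [NormedAddCommGroup E]
    [InnerProductSpace ℝ E] (S : Finset G) (c : Coc G E) : E ⊗[ℝ] E :=
  av S (fun s => c.b s ⊗ₜ[ℝ] c.b s)

/-- Ordered product `x 0 ^ a 0 * ... * x (k-1) ^ a (k-1)`. -/
def oprod {G : Type} [Group G] (x : ℕ → G) (a : ℕ → ℕ) (k : ℕ) : G :=
  ((List.range k).map (fun i => x i ^ a i)).prod

/-- Virtually nilpotent. -/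
def VNil (G : Type) [Group G] : Prop :=
  ∃ H : Subgroup G, H.FiniteIndex ∧ Group.IsNilpotent H

/-- Groups obtained from finite groups by finitely many extensions with finitely generated abelian
quotients and passages to finite index overgroups. -/
def Tower : ℕ → (G : Type) → [Group G] → Prop
  | 0, G, _ => Finite G
  | k + 1, G, _ => Finite G ∨ ∃ H N : Subgroup G, H.FiniteIndex ∧ N ≤ H ∧
      (∀ h ∈ H, ∀ x ∈ N, h * x * h⁻¹ ∈ N) ∧ (∀ h ∈ H, ∀ h' ∈ H, cm h h' ∈ N) ∧ N.FG ∧ H.FG ∧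
      Tower k N

/-- The statement of the one step proposition. -/
def OneStep : Prop :=
  ∃ K0 : ℕ, ∀ K : ℕ, K0 ≤ K → ∀ (G : Type) [Group G] [DecidableEq G] [Infinite G]
    (S : Finset G), SymOne S → Subgroup.closure (S : Set G) = ⊤ → SubExp G →
    (S.card : ℝ) ≤ Real.exp K → ∀ Λ : ℝ, 1 ≤ Λ → Real.log Λ ≤ (K : ℝ) ^ 8 →
    (∀ r : ℕ, 1 ≤ r → Real.log (Λ * r) ≤ (K : ℝ) ^ 31 →
      Real.log ((S ^ r).card) ≤ K * Real.log (Λ * r)) →
    ∃ (ℓ : ℕ) (H N : Subgroup G) (S' : Finset G), 1 ≤ ℓ ∧ Real.log ℓ ≤ 2 * (K : ℝ) ^ 6 ∧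
      H.FiniteIndex ∧ H.FG ∧ N ≤ H ∧ (∀ h ∈ H, ∀ x ∈ N, h * x * h⁻¹ ∈ N) ∧
      (∀ h ∈ H, ∀ h' ∈ H, cm h h' ∈ N) ∧ SymOne S' ∧ Subgroup.closure (S' : Set G) = N ∧
      S' ⊆ S ^ ℓ ∧ (S'.card : ℝ) ≤ Real.exp K ∧
      ∀ r : ℕ, 1 ≤ r → Real.log r ≤ 3 * (K : ℝ) ^ 8 → r * (S' ^ r).card ≤ (S ^ (ℓ * r)).card

/-- The statement: growth at most `(Λ r)^K` up to radius about `exp (K^31)` gives a tower. -/
def TowerOfGrowth : Prop :=
  ∃ K0 : ℕ, ∀ K : ℕ, K0 ≤ K → ∀ (G : Type) [Group G] [DecidableEq G]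
    (S : Finset G), SymOne S → Subgroup.closure (S : Set G) = ⊤ → SubExp G →
    (S.card : ℝ) ≤ Real.exp K → ∀ Λ : ℝ, 1 ≤ Λ → Real.log Λ ≤ (K : ℝ) ^ 7 →
    (∀ r : ℕ, 1 ≤ r → Real.log (Λ * r) ≤ (K : ℝ) ^ 31 →
      Real.log ((S ^ r).card) ≤ K * Real.log (Λ * r)) → ∃ k, Tower k G

/-- Window form: a group of subexponential growth whose balls satisfy `|S^r| ≤ r^K` for all radii
`r` in the window `K^6 ≤ log r ≤ K^31`, for one large `K`, is virtually nilpotent. -/
def WindowGap : Prop :=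
  ∃ K0 : ℕ, ∀ K : ℕ, K0 ≤ K → ∀ (G : Type) [Group G] [DecidableEq G]
    (S : Finset G), SymOne S → Subgroup.closure (S : Set G) = ⊤ → SubExp G →
    (S.card : ℝ) ≤ Real.exp K →
    (∀ r : ℕ, (K : ℝ) ^ 6 ≤ Real.log r → Real.log r ≤ (K : ℝ) ^ 31 →
      ((S ^ r).card : ℝ) ≤ (r : ℝ) ^ K) → VNil G

/-- The final statement. -/
def MainGap : Prop :=
  ∀ (G : Type) [Group G] (S : Set G), S.Finite → Subgroup.closure S = ⊤ →
      (∃ r0 : ℕ, ∀ r : ℕ, r0 ≤ r →
        (Nat.card ↥((({1} : Set G) ∪ S ∪ S⁻¹) ^ r) : ℝ) ≤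
          (r : ℝ) ^ ((Real.log r) ^ (1 / 31 : ℝ))) →
      ∃ H : Subgroup G, H.FiniteIndex ∧ Group.IsNilpotent H

end Pool.Agent.Helper41.Gap
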