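import Pool.Agent.Helper41.Gap.Defs

set_option autoImplicit false

open scoped Pointwise RealInnerProductSpace TensorProduct
open ProbabilityTheory MeasureTheory Module

namespace Pool.Agent.Helper41.Gap

variable {G : Type} [Group G] [DecidableEq G]
variable {V W : Type} [AddCommGroup V] [Module ℝ V] [AddCommGroup W] [Module ℝ W]

omit [DecidableEq G] in
private theorem gex_av_add (S : Finset G) (F F' : G → V) :
    av S (fun g => F g + F' g) = av S F + av S F' := by
  simp only [av, Finset.sum_add_distrib, smul_add]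
  abel

omit [DecidableEq G] in
private theorem gex_av_smul (S : Finset G) (a : ℝ) (F : G → V) :
    av S (fun g => a • F g) = a • av S F := by
  simp only [av, ← Finset.smul_sum, smul_add, smul_comm a]

omit [DecidableEq G] in
private theorem gex_add (S : Finset G) (k : ℕ) : ∀ (F F' : G → V),
    ex S k (fun g => F g + F' g) = ex S k F + ex S k F' := by
  induction k with
  | zero => intro F F'; rfl
  | succ k ih =>
    intro F F'
    simp only [ex]
    rw [← ih]
    congr 1
    funext g
    exact gex_av_add S _ _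

omit [DecidableEq G] in
private theorem gex_smul (S : Finset G) (k : ℕ) (a : ℝ) : ∀ (F : G → V),
    ex S k (fun g => a • F g) = a • ex S k F := by
  induction k with
  | zero => intro F; rfl
  | succ k ih =>
    intro F
    simp only [ex]
    rw [← ih]
    congr 1
    funext g
    exact gex_av_smul S _ _

/-- expectation as a linear map -/
private noncomputable def gexL (S : Finset G) (V : Type) [AddCommGroup V] [Module ℝ V] (k : ℕ) :
    (G → V) →ₗ[ℝ] V where
  toFun F := ex S k F
  map_add' F F' := gex_add S k F F'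
  map_smul' a F := gex_smul S k a F

private theorem gexL_apply (S : Finset G) (k : ℕ) (F : G → V) : gexL S V k F = ex S k F := rfl

omit [DecidableEq G] in
private theorem gex_nonneg (S : Finset G) (k : ℕ) : ∀ (F : G → ℝ), (∀ g, 0 ≤ F g) →
    0 ≤ ex S k F := by
  induction k with
  | zero => intro F h; exact h 1
  | succ k ih =>
    intro F h
    simp only [ex]
    apply ih
    intro g
    simp only [av, smul_eq_mul]
    have h1 : 0 ≤ ∑ s ∈ S, F (g * s) := Finset.sum_nonneg fun s _ => h _
    have h2 := h (g * 1)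
    positivity

theorem law_nonneg (S : Finset G) (k : ℕ) (g : G) : 0 ≤ law S k g := by
  apply gex_nonneg
  intro x
  split_ifs <;> norm_num

private theorem gex_mem {S : Finset G} (hS : SymOne S) {k : ℕ} {g s : G} (hg : g ∈ S ^ k)
    (hs : s ∈ S) : g * s ∈ S ^ (k + 1) := by
  rw [pow_succ]
  exact Finset.mul_mem_mul hg hs

private theorem gex_congr {S : Finset G} (hS : SymOne S) (k : ℕ) : ∀ (F F' : G → V),
    (∀ g ∈ S ^ k, F g = F' g) → ex S k F = ex S k F' := by
  induction k with
  | zero => intro F F' h; exact h 1 (by simp)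
  | succ k ih =>
    intro F F' h
    simp only [ex]
    apply ih
    intro g hg
    simp only [av]
    rw [h _ (gex_mem hS hg hS.one)]
    congr 2
    exact Finset.sum_congr rfl fun s hs => h _ (gex_mem hS hg hs)

theorem ex_one (S : Finset G) (F : G → V) : ex S 1 F = av S F := by
  simp only [ex, one_mul]

theorem ex_add_time (S : Finset G) (j k : ℕ) (F : G → V) :
    ex S (j + k) F = ex S j (fun x => ex S k (fun y => F (x * y))) := by
  induction k generalizing F with
  | zero => simp [ex]
  | succ k ih =>
    rw [← add_assoc]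
    simp only [ex]
    rw [ih]
    simp only [mul_assoc]

theorem map_av (f : V →ₗ[ℝ] W) (S : Finset G) (F : G → V) :
    f (av S F) = av S (fun g => f (F g)) := by
  simp only [av, map_add, map_smul, map_sum]

theorem map_ex (f : V →ₗ[ℝ] W) (S : Finset G) (k : ℕ) (F : G → V) :
    f (ex S k F) = ex S k (fun g => f (F g)) := by
  induction k generalizing F with
  | zero => rfl
  | succ k ih =>
    simp only [ex]
    rw [ih]
    congr 1
    funext g
    exact map_av f S _

theorem av_const {S : Finset G} (hS : SymOne S) (v : V) : av S (fun _ => v) = v := by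
  have h : (S.card : ℝ) ≠ 0 := by
    have : S.card ≠ 0 := Finset.card_ne_zero_of_mem hS.one
    exact_mod_cast this
  simp only [av, Finset.sum_const]
  rw [← Nat.cast_smul_eq_nsmul ℝ, smul_smul, ← add_smul]
  have h2 : (1 / 2 : ℝ) + (2 * (S.card : ℝ))⁻¹ * S.card = 1 := by
    field_simp
    norm_num
  rw [h2, one_smul]

theorem ex_const {S : Finset G} (hS : SymOne S) (k : ℕ) (v : V) : ex S k (fun _ => v) = v := by
  induction k with
  | zero => rfl
  | succ k ih =>
    simp only [ex]
    rw [av_const hS, ih]

theorem ex_eq_sum {S : Finset G} (hS : SymOne S) (k : ℕ) (F : G → V) :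
    ex S k F = ∑ g ∈ S ^ k, law S k g • F g := by
  have h1 : ex S k F = ex S k (∑ g ∈ S ^ k, fun x => (if x = g then (1 : ℝ) else 0) • F g) := by
    apply gex_congr hS
    intro x hx
    rw [Finset.sum_apply, Finset.sum_eq_single x]
    · simp
    · intro b _ hb
      simp [hb.symm]
    · intro h; exact absurd hx h
  rw [h1, ← gexL_apply, map_sum]
  refine Finset.sum_congr rfl fun g _ => ?_
  rw [gexL_apply]
  have h2 := map_ex (LinearMap.toSpanSingleton ℝ V (F g)) S k
    (fun x => if x = g then (1 : ℝ) else 0)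
  simp only [LinearMap.toSpanSingleton_apply] at h2
  rw [← h2]
  rfl

theorem sum_law {S : Finset G} (hS : SymOne S) (k : ℕ) : ∑ g ∈ S ^ k, law S k g = 1 := by
  have h := ex_eq_sum hS k (fun _ => (1 : ℝ))
  rw [ex_const hS] at h
  simp only [smul_eq_mul, mul_one] at h
  exact h.symm

private theorem gex_av_inv {S : Finset G} (hS : SymOne S) (F : G → V) :
    av S (fun s => F s⁻¹) = av S F := by
  simp only [av, inv_one]
  congr 2
  refine Finset.sum_nbij' (fun s => s⁻¹) (fun s => s⁻¹) ?_ ?_ ?_ ?_ ?_
  · intro s hs; exact hS.inv s hs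
  · intro s hs; exact hS.inv s hs
  · intro s _; simp
  · intro s _; simp
  · intro s _; rfl

private theorem gex_comm (S : Finset G) (k : ℕ) (H : G → G → V) :
    ex S k (fun x => av S (fun s => H s x)) = av S (fun s => ex S k (fun x => H s x)) := by
  simp only [av]
  rw [gex_add, gex_smul, gex_smul]
  congr 2
  have h : (fun x => ∑ s ∈ S, H s x) = ∑ s ∈ S, (fun x => H s x) := by
    funext x; rw [Finset.sum_apply]
  rw [h, ← gexL_apply, map_sum]
  rfl

theorem ex_inv {S : Finset G} (hS : SymOne S) (k : ℕ) (F : G → V) :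
    ex S k (fun g => F g⁻¹) = ex S k F := by
  induction k generalizing F with
  | zero => simp [ex]
  | succ k ih =>
    have h1 : ex S (k + 1) (fun g => F g⁻¹) =
        ex S k (fun g => av S (fun s => F (s * g⁻¹))) := by
      simp only [ex]
      congr 1
      funext g
      rw [← gex_av_inv hS (fun s => F (s * g⁻¹))]
      simp only [mul_inv_rev]
    rw [h1, ih (fun x => av S (fun s => F (s * x))), gex_comm]
    have h2 := ex_add_time S 1 k F
    rw [ex_one, add_comm 1 k] at h2
    exact h2.symm

theorem ex_mono {S : Finset G} (hS : SymOne S) (k : ℕ) {F F' : G → ℝ}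
    (h : ∀ g ∈ S ^ k, F g ≤ F' g) : ex S k F ≤ ex S k F' := by
  rw [ex_eq_sum hS, ex_eq_sum hS]
  refine Finset.sum_le_sum fun g hg => ?_
  rw [smul_eq_mul, smul_eq_mul]
  exact mul_le_mul_of_nonneg_left (h g hg) (law_nonneg S k g)

omit [DecidableEq G] in
private theorem gex_mono' (S : Finset G) (k : ℕ) : ∀ {F F' : G → ℝ}, (∀ g, F g ≤ F' g) →
    ex S k F ≤ ex S k F' := by
  intro F F' h
  have h1 := gex_nonneg S k (fun g => F' g + (-1 : ℝ) • F g) (fun g => by
    have := h g
    simp only [smul_eq_mul]
    linarith)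
  rw [gex_add, gex_smul, smul_eq_mul] at h1
  linarith

theorem norm_ex_le {E : Type} [NormedAddCommGroup E] [NormedSpace ℝ E] (S : Finset G) (k : ℕ)
    (F : G → E) : ‖ex S k F‖ ≤ ex S k (fun g => ‖F g‖) := by
  induction k generalizing F with
  | zero => exact le_rfl
  | succ k ih =>
    simp only [ex]
    refine (ih _).trans ?_
    apply gex_mono'
    intro g
    simp only [av, smul_eq_mul]
    refine (norm_add_le _ _).trans ?_
    rw [norm_smul, norm_smul]
    have h1 : ‖(1 / 2 : ℝ)‖ = 1 / 2 := by norm_num
    have h2 : ‖(2 * (S.card : ℝ))⁻¹‖ = (2 * (S.card : ℝ))⁻¹ := by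
      rw [Real.norm_eq_abs, abs_of_nonneg (by positivity)]
    rw [h1, h2]
    have h3 := norm_sum_le S (fun s => F (g * s))
    have h4 := mul_le_mul_of_nonneg_left h3 (show 0 ≤ (2 * (S.card : ℝ))⁻¹ by positivity)
    linarith

theorem exists_ge {S : Finset G} (hS : SymOne S) (k : ℕ) (F : G → ℝ) :
    ∃ g ∈ S ^ k, ex S k F ≤ F g := by
  by_contra hno
  push Not at hno
  have h1 := ex_eq_sum hS k F
  have h2 := sum_law hS k
  have h3 : ∑ g ∈ S ^ k, law S k g * (ex S k F - F g) = 0 := by
    simp only [mul_sub, Finset.sum_sub_distrib]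
    rw [← Finset.sum_mul, h2, one_mul]
    simp only [smul_eq_mul] at h1
    rw [← h1, sub_self]
  have h4 := (Finset.sum_eq_zero_iff_of_nonneg (fun g hg =>
    mul_nonneg (law_nonneg S k g) (sub_nonneg.2 (hno g hg).le))).1 h3
  have h5 : ∑ g ∈ S ^ k, law S k g = 0 := by
    refine Finset.sum_eq_zero fun g hg => ?_
    rcases mul_eq_zero.1 (h4 g hg) with h | h
    · exact h
    · have := hno g hg
      linarith
  rw [h2] at h5
  exact one_ne_zero h5

theorem le_av {S : Finset G} (hS : SymOne S) {F : G → ℝ} (hF : 0 ≤ F 1) (hF' : ∀ s ∈ S, 0 ≤ F s)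
    {s : G} (hs : s ∈ S) : F s ≤ 2 * (S.card : ℝ) * av S F := by
  have h : (S.card : ℝ) ≠ 0 := by
    have : S.card ≠ 0 := Finset.card_ne_zero_of_mem hS.one
    exact_mod_cast this
  have h1 : 2 * (S.card : ℝ) * av S F = S.card * F 1 + ∑ s ∈ S, F s := by
    simp only [av, smul_eq_mul]
    field_simp
  rw [h1]
  have h2 := Finset.single_le_sum hF' hs
  have h3 : 0 ≤ (S.card : ℝ) * F 1 := by positivity
  linarith

end Pool.Agent.Helper41.Gap
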