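import Pool.Agent.Helper41.Gap.VnilStep

set_option autoImplicit false

open scoped Pointwise RealInnerProductSpace TensorProduct
open ProbabilityTheory MeasureTheory Module

namespace Pool.Agent.Helper41.Gap

theorem window_gap (h : TowerOfGrowth) : WindowGap := by
  obtain ⟨K0, hK0⟩ := h
  refine ⟨max K0 10, fun K hK G _ _ S hS hgen hsub hcard hgrow => ?_⟩
  have hKK0 : K0 ≤ K := (le_max_left _ _).trans hK
  have hK10 : 10 ≤ K := (le_max_right _ _).trans hK
  have hKr : (10 : ℝ) ≤ (K : ℝ) := by exact_mod_cast hK10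
  have h1K6 : (1 : ℝ) ≤ (K : ℝ) ^ 6 := one_le_pow₀ (by linarith)
  have hK7 : (K : ℝ) ^ 7 = K * (K : ℝ) ^ 6 := by ring
  have hK31 : (K : ℝ) ^ 7 ≤ (K : ℝ) ^ 31 := pow_le_pow_right₀ (by linarith) (by norm_num)
  have hK67 : 10 * (K : ℝ) ^ 6 ≤ (K : ℝ) ^ 7 := by rw [hK7]; nlinarith
  -- the first radius of the window
  set r1 : ℕ := ⌈Real.exp ((K : ℝ) ^ 6)⌉₊ with hr1
  have hr1a : Real.exp ((K : ℝ) ^ 6) ≤ r1 := Nat.le_ceil _
  have hrexp : (1 : ℝ) ≤ Real.exp ((K : ℝ) ^ 6) := Real.one_le_exp (by positivity)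
  have hr1b : (r1 : ℝ) ≤ 2 * Real.exp ((K : ℝ) ^ 6) := by
    have := Nat.ceil_lt_add_one (Real.exp_pos ((K : ℝ) ^ 6)).le
    rw [← hr1] at this
    linarith
  have hr1pos : (1 : ℝ) ≤ (r1 : ℝ) := hrexp.trans hr1a
  have hlr1 : (K : ℝ) ^ 6 ≤ Real.log r1 := by
    rw [← Real.log_exp ((K : ℝ) ^ 6)]
    exact Real.log_le_log (Real.exp_pos _) hr1a
  have hlog2 : Real.log 2 ≤ 1 := by
    have := Real.log_two_lt_d9; linarith
  have hlr2 : Real.log r1 ≤ (K : ℝ) ^ 6 + 1 := by
    have := Real.log_le_log (by linarith) hr1b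
    rw [Real.log_mul (by norm_num) (Real.exp_pos _).ne', Real.log_exp] at this
    linarith
  have hpos : ∀ r : ℕ, (0 : ℝ) < ((S ^ r).card : ℝ) := by
    intro r
    have : ((S ^ r) : Finset G).Nonempty := Finset.Nonempty.pow ⟨1, hS.one⟩
    exact_mod_cast Finset.card_pos.2 this
  obtain ⟨k, hk⟩ := hK0 K hKK0 G S hS hgen hsub hcard (Real.exp ((K : ℝ) ^ 6 + 1))
    (Real.one_le_exp (by positivity)) (by rw [Real.log_exp]; linarith) (by
      intro r hr hlr
      have hr' : (1 : ℝ) ≤ (r : ℝ) := by exact_mod_cast hr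
      have hlogr : 0 ≤ Real.log r := Real.log_nonneg hr'
      rw [Real.log_mul (Real.exp_pos _).ne' (by linarith), Real.log_exp] at hlr ⊢
      rcases le_or_gt ((K : ℝ) ^ 6) (Real.log r) with h1 | h1
      · have h2 := hgrow r h1 (by linarith)
        have h3 := Real.log_le_log (hpos r) h2
        rw [Real.log_pow] at h3
        refine h3.trans (mul_le_mul_of_nonneg_left ?_ (by linarith))
        linarith
      · have h2 := hgrow r1 hlr1 (by linarith)
        have h3 := Real.log_le_log (hpos r1) h2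
        rw [Real.log_pow] at h3
        have h4 : r ≤ r1 := by
          have h5 : Real.log r < Real.log r1 := h1.trans_le hlr1
          have h6 := (Real.log_lt_log_iff (by linarith) (by linarith)).1 h5
          exact_mod_cast h6.le
        have h5 : ((S ^ r).card : ℝ) ≤ ((S ^ r1).card : ℝ) := by
          exact_mod_cast Finset.card_le_card (Finset.pow_subset_pow_right hS.one h4)
        have h6 := Real.log_le_log (hpos r) h5
        refine (h6.trans h3).trans (mul_le_mul_of_nonneg_left ?_ (by linarith))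
        linarith)
  exact vnil_of_tower k G hk hsub

/-- `(log (j r))^(32/31)` is eventually at most `r log a` -/
private theorem mg_asymp (j : ℕ) (hj : 1 ≤ j) (a : ℝ) (ha : 1 < a) :
    ∃ R : ℕ, 1 ≤ R ∧ ∀ r : ℕ, R ≤ r →
      ((j * r : ℕ) : ℝ) ^ ((Real.log ((j * r : ℕ) : ℝ)) ^ (1 / 31 : ℝ)) ≤ a ^ r := by
  have hloga : 0 < Real.log a := Real.log_pos ha
  have hj' : (1 : ℝ) ≤ (j : ℝ) := by exact_mod_cast hj
  have hε : 0 < Real.log a / j := div_pos hloga (by linarith)
  have h1 : (fun x : ℝ => Real.log x ^ 2) =o[Filter.atTop] (id : ℝ → ℝ) :=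
    Real.isLittleO_pow_log_id_atTop
  have h2 := h1.bound hε
  rw [Filter.eventually_atTop] at h2
  obtain ⟨x0, hx0⟩ := h2
  refine ⟨max 3 ⌈x0⌉₊, le_trans (by norm_num) (le_max_left _ _), fun r hr => ?_⟩
  have hr3 : 3 ≤ r := (le_max_left _ _).trans hr
  have hrx : x0 ≤ (r : ℝ) := (Nat.le_ceil x0).trans (by exact_mod_cast (le_max_right _ _).trans hr)
  have hr3' : (3 : ℝ) ≤ (r : ℝ) := by exact_mod_cast hr3
  set m : ℝ := ((j * r : ℕ) : ℝ) with hm
  have hmjr : m = j * r := by rw [hm]; push_cast; rfl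
  have hmr : (r : ℝ) ≤ m := by rw [hmjr]; nlinarith
  have hm3 : (3 : ℝ) ≤ m := hr3'.trans hmr
  have h3 := hx0 m (hrx.trans hmr)
  have hlogm : 1 ≤ Real.log m := by
    rw [Real.le_log_iff_exp_le (by linarith)]
    have := Real.exp_one_lt_d9
    linarith
  rw [Real.norm_eq_abs, abs_of_nonneg (by positivity), id, Real.norm_eq_abs,
    abs_of_nonneg (by linarith)] at h3
  have h4 : (Real.log m) ^ (1 / 31 : ℝ) ≤ Real.log m := by
    conv_rhs => rw [← Real.rpow_one (Real.log m)]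
    exact Real.rpow_le_rpow_of_exponent_le hlogm (by norm_num)
  have h5 : m ^ ((Real.log m) ^ (1 / 31 : ℝ)) = Real.exp (Real.log m * (Real.log m) ^ (1 / 31 : ℝ)) :=
    Real.rpow_def_of_pos (by linarith) _
  have h6 : a ^ r = Real.exp (r * Real.log a) := by
    rw [mul_comm, ← Real.rpow_def_of_pos (by linarith), Real.rpow_natCast]
  rw [h5, h6]
  apply Real.exp_le_exp.2
  have h7 : Real.log m * (Real.log m) ^ (1 / 31 : ℝ) ≤ Real.log m ^ 2 := by
    rw [sq]
    exact mul_le_mul_of_nonneg_left h4 (by linarith)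
  refine h7.trans (h3.trans ?_)
  rw [hmjr]
  apply le_of_eq
  field_simp

theorem main_gap (h : WindowGap) : MainGap := by
  classical
  obtain ⟨K0, hK0⟩ := h
  intro G _ S hSfin hgen hgrow
  obtain ⟨r0, hr0⟩ := hgrow
  have hfin : (({1} : Set G) ∪ S ∪ S⁻¹).Finite :=
    ((Set.finite_singleton _).union hSfin).union hSfin.inv
  set S0 : Finset G := hfin.toFinset with hS0
  have hcoe : (S0 : Set G) = ({1} : Set G) ∪ S ∪ S⁻¹ := hfin.coe_toFinset
  have hmem : ∀ x, x ∈ S0 ↔ x = 1 ∨ x ∈ S ∨ x⁻¹ ∈ S := by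
    intro x
    rw [← Finset.mem_coe, hcoe]
    simp only [Set.mem_union, Set.mem_singleton_iff, Set.mem_inv]
    tauto
  have hsym : SymOne S0 := by
    refine ⟨(hmem 1).2 (Or.inl rfl), fun s hs => (hmem _).2 ?_⟩
    rcases (hmem s).1 hs with h1 | h1 | h1
    · left; rw [h1, inv_one]
    · right; right; rwa [inv_inv]
    · right; left; exact h1
  have hgen0 : Subgroup.closure (S0 : Set G) = ⊤ := by
    rw [eq_top_iff, ← hgen]
    apply Subgroup.closure_mono
    rw [hcoe]
    intro x hx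
    exact Or.inl (Or.inr hx)
  have hcardpow : ∀ r : ℕ, (Nat.card ↥((({1} : Set G) ∪ S ∪ S⁻¹) ^ r) : ℝ) = ((S0 ^ r).card : ℝ) := by
    intro r
    rw [← hcoe, ← Finset.coe_pow, Nat.card_coe_set_eq, Set.ncard_coe_finset]
  have hgr : ∀ r : ℕ, r0 ≤ r → ((S0 ^ r).card : ℝ) ≤ (r : ℝ) ^ ((Real.log r) ^ (1 / 31 : ℝ)) := by
    intro r hr
    rw [← hcardpow]
    exact hr0 r hr
  have hinvS : S0⁻¹ = S0 := by
    ext x
    rw [Finset.mem_inv']
    constructor
    · intro hx
      have := hsym.inv _ hx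
      rwa [inv_inv] at this
    · exact hsym.inv x
  have hball : ∀ g : G, ∃ j : ℕ, g ∈ S0 ^ j := by
    intro g
    have hg : g ∈ Subgroup.closure (S0 : Set G) := by rw [hgen0]; trivial
    induction hg using Subgroup.closure_induction with
    | mem x hx => exact ⟨1, by rw [pow_one]; exact hx⟩
    | one => exact ⟨0, by simp⟩
    | mul x y _ _ hx hy =>
      obtain ⟨i, hi⟩ := hx
      obtain ⟨j, hj⟩ := hy
      exact ⟨i + j, by rw [pow_add]; exact Finset.mul_mem_mul hi hj⟩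
    | inv x _ hx =>
      obtain ⟨i, hi⟩ := hx
      refine ⟨i, ?_⟩
      rw [← hinvS, inv_pow, Finset.mem_inv', inv_inv]
      exact hi
  have hsub : SubExp G := by
    intro T hT a ha
    -- `T ⊆ S0 ^ j`
    obtain ⟨j, hj1, hj⟩ : ∃ j : ℕ, 1 ≤ j ∧ ∀ t ∈ T, t ∈ S0 ^ j := by
      choose f hf using hball
      obtain ⟨B, hB⟩ := (hT.image f).bddAbove
      refine ⟨max 1 B, le_max_left _ _, fun t ht => ?_⟩
      exact Finset.pow_subset_pow_right hsym.one ((hB ⟨t, ht, rfl⟩).trans (le_max_right _ _)) (hf t)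
    have hTj : ∀ r : ℕ, ((T ^ r).ncard : ℝ) ≤ ((S0 ^ (j * r)).card : ℝ) := by
      intro r
      have h1 : T ^ r ⊆ ((S0 ^ (j * r) : Finset G) : Set G) := by
        rw [pow_mul, Finset.coe_pow]
        exact Set.pow_subset_pow_left fun t ht => Finset.mem_coe.2 (hj t ht)
      have h2 := Set.ncard_le_ncard h1 (Finset.finite_toSet _)
      rw [Set.ncard_coe_finset] at h2
      exact_mod_cast h2
    obtain ⟨R, hR1, hR⟩ := mg_asymp j hj1 a ha
    refine ⟨1 + ((S0 ^ (j * (R + r0))).card : ℝ), fun r => ?_⟩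
    have hapow : 1 ≤ a ^ r := one_le_pow₀ ha.le
    have hc0 : (0 : ℝ) ≤ ((S0 ^ (j * (R + r0))).card : ℝ) := Nat.cast_nonneg _
    rcases le_total (R + r0) r with h1 | h1
    · have h2 := hgr (j * r) (by nlinarith)
      have h3 := hR r (by omega)
      have h4 : a ^ r ≤ (1 + ((S0 ^ (j * (R + r0))).card : ℝ)) * a ^ r := by nlinarith
      exact (hTj r).trans (h2.trans (h3.trans h4))
    · have h2 : ((S0 ^ (j * r)).card : ℝ) ≤ ((S0 ^ (j * (R + r0))).card : ℝ) := by
        exact_mod_cast Finset.card_le_card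
          (Finset.pow_subset_pow_right hsym.one (Nat.mul_le_mul_left j h1))
      refine (hTj r).trans (h2.trans ?_)
      nlinarith
  -- choice of K
  obtain ⟨K1, hK1⟩ := exists_nat_ge (Real.log (S0.card : ℝ))
  obtain ⟨K2, hK2⟩ := exists_nat_ge (Real.log (r0 : ℝ))
  set K : ℕ := max (max K0 1) (max K1 K2) with hK
  have hKK0 : K0 ≤ K := (le_max_left _ _).trans (le_max_left _ _)
  have hK1' : 1 ≤ K := (le_max_right _ _).trans (le_max_left _ _)
  have hKK1 : K1 ≤ K := (le_max_left _ _).trans (le_max_right _ _)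
  have hKK2 : K2 ≤ K := (le_max_right _ _).trans (le_max_right _ _)
  have hKr : (1 : ℝ) ≤ (K : ℝ) := by exact_mod_cast hK1'
  have hcardS : (S0.card : ℝ) ≤ Real.exp K := by
    have h1 : (0 : ℝ) < (S0.card : ℝ) := by
      exact_mod_cast Finset.card_pos.2 ⟨1, hsym.one⟩
    rw [← Real.log_le_iff_le_exp h1]
    exact hK1.trans (by exact_mod_cast hKK1)
  exact hK0 K hKK0 G S0 hsym hgen0 hsub hcardS (by
    intro r hr1 hr2
    have hK6 : (K : ℝ) ≤ (K : ℝ) ^ 6 := le_self_pow₀ hKr (by norm_num)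
    have hlogr : 1 ≤ Real.log r := hKr.trans (hK6.trans hr1)
    have hrpos : (0 : ℝ) < r := by
      rcases Nat.eq_zero_or_pos r with h1 | h1
      · rw [h1] at hlogr
        norm_num at hlogr
      · exact_mod_cast h1
    have hr1' : (1 : ℝ) ≤ r := by
      have : 1 ≤ r := by exact_mod_cast hrpos
      exact_mod_cast this
    have hrr0 : r0 ≤ r := by
      rcases Nat.eq_zero_or_pos r0 with h1 | h1
      · omega
      · have h2 : Real.log r0 ≤ Real.log r := by
          have : (K2 : ℝ) ≤ (K : ℝ) := by exact_mod_cast hKK2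
          linarith
        have h3 : (r0 : ℝ) ≤ r := (Real.log_le_log_iff (by exact_mod_cast h1) hrpos).1 h2
        exact_mod_cast h3
    refine (hgr r hrr0).trans ?_
    rw [← Real.rpow_natCast (r : ℝ) K]
    refine Real.rpow_le_rpow_of_exponent_le hr1' ?_
    have h4 : (Real.log r) ^ (1 / 31 : ℝ) ≤ ((K : ℝ) ^ 31) ^ (1 / 31 : ℝ) :=
      Real.rpow_le_rpow (by linarith) hr2 (by norm_num)
    refine h4.trans (le_of_eq ?_)
    rw [← Real.rpow_natCast (K : ℝ) 31, ← Real.rpow_mul (by linarith)]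
    norm_num)

end Pool.Agent.Helper41.Gap
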