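import Pool.Agent.Helper41.Gap.Defs

set_option autoImplicit false

open scoped Pointwise RealInnerProductSpace TensorProduct
open ProbabilityTheory MeasureTheory Module

namespace Pool.Agent.Helper41.Gap

private theorem tg_subexp {G H : Type} [Group G] [Group H] (f : H →* G)
    (hf : Function.Injective f) (h : SubExp G) : SubExp H := by
  classical
  intro T hT a ha
  obtain ⟨C, hC⟩ := h (f '' T) (hT.image f) a ha
  refine ⟨C, fun r => ?_⟩
  have h1 : f '' (T ^ r) = (f '' T) ^ r := Set.image_pow f T r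
  have h2 : (T ^ r).ncard = ((f '' T) ^ r).ncard := by
    rw [← h1, Set.ncard_image_of_injective _ hf]
  rw [h2]
  exact hC r

private def TgP (K j : ℕ) : Prop :=
  ∀ (G : Type) [Group G] [DecidableEq G] (S : Finset G), SymOne S →
    Subgroup.closure (S : Set G) = ⊤ → SubExp G → (S.card : ℝ) ≤ Real.exp K →
    ∀ Λ : ℝ, 1 ≤ Λ → Real.log Λ + 2 * j * (K : ℝ) ^ 6 ≤ (K : ℝ) ^ 8 →
    (∀ r : ℕ, 1 ≤ r → Real.log (Λ * r) ≤ (K : ℝ) ^ 31 →
      Real.log ((S ^ r).card) ≤ K * Real.log (Λ * r)) → ¬ Tower j G →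
    ∃ l : ℕ, 1 ≤ l ∧ Real.log l ≤ 2 * j * (K : ℝ) ^ 6 ∧
      ∀ r : ℕ, 1 ≤ r → Real.log r ≤ 2 * (K : ℝ) ^ 8 → r ^ j ≤ (S ^ (l * r)).card

private theorem tg_zero (K : ℕ) : TgP K 0 := by
  intro G _ _ S hS _ _ _ Λ _ _ _ _
  refine ⟨1, le_rfl, by simp, fun r _ _ => ?_⟩
  rw [pow_zero]
  have : ((S ^ (1 * r)) : Finset G).Nonempty := Finset.Nonempty.pow ⟨1, hS.one⟩
  exact Finset.card_pos.2 this

/-- the data of the next stage -/
private theorem tg_stage {G : Type} [Group G] [DecidableEq G] (N : Subgroup G) (S' : Finset G)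
    (hS' : SymOne S') (hN : Subgroup.closure (S' : Set G) = N) :
    ∃ S'' : Finset N, SymOne S'' ∧ Subgroup.closure (S'' : Set N) = ⊤ ∧
      ∀ r : ℕ, (S'' ^ r).card = (S' ^ r).card := by
  classical
  subst hN
  set N := Subgroup.closure (S' : Set G) with hNdef
  have hmem : ∀ x ∈ S', x ∈ N := fun x hx => Subgroup.subset_closure hx
  let S'' : Finset N := S'.subtype (fun x => x ∈ N)
  have himg : S''.image (Subgroup.subtype N) = S' := by
    ext x
    simp only [S'', Finset.mem_image, Finset.mem_subtype, Subgroup.coe_subtype]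
    constructor
    · rintro ⟨y, hy, rfl⟩; exact hy
    · intro hx; exact ⟨⟨x, hmem x hx⟩, hx, rfl⟩
  refine ⟨S'', ⟨?_, ?_⟩, ?_, ?_⟩
  · exact Finset.mem_subtype.2 hS'.one
  · intro s hs
    exact Finset.mem_subtype.2 (hS'.inv _ (Finset.mem_subtype.1 hs))
  · have h1 : (S'' : Set N) = ((↑) : N → G) ⁻¹' (S' : Set G) := by
      ext x
      simp [S'']
    rw [h1]
    exact Subgroup.closure_closure_coe_preimage
  · intro r
    rw [← Finset.card_image_of_injective (S'' ^ r) (Subgroup.subtype_injective N),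
      Finset.image_pow (Subgroup.subtype N) S'' r, himg]

private theorem tg_succ (h : ℕ) (hone : ∀ K : ℕ, h ≤ K → ∀ (G : Type) [Group G] [DecidableEq G]
    [Infinite G]
    (S : Finset G), SymOne S → Subgroup.closure (S : Set G) = ⊤ → SubExp G →
    (S.card : ℝ) ≤ Real.exp K → ∀ Λ : ℝ, 1 ≤ Λ → Real.log Λ ≤ (K : ℝ) ^ 8 →
    (∀ r : ℕ, 1 ≤ r → Real.log (Λ * r) ≤ (K : ℝ) ^ 31 →
      Real.log ((S ^ r).card) ≤ K * Real.log (Λ * r)) →
    ∃ (ℓ : ℕ) (H N : Subgroup G) (S' : Finset G), 1 ≤ ℓ ∧ Real.log ℓ ≤ 2 * (K : ℝ) ^ 6 ∧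
      H.FiniteIndex ∧ H.FG ∧ N ≤ H ∧ (∀ h ∈ H, ∀ x ∈ N, h * x * h⁻¹ ∈ N) ∧
      (∀ h ∈ H, ∀ h' ∈ H, cm h h' ∈ N) ∧ SymOne S' ∧ Subgroup.closure (S' : Set G) = N ∧
      S' ⊆ S ^ ℓ ∧ (S'.card : ℝ) ≤ Real.exp K ∧
      ∀ r : ℕ, 1 ≤ r → Real.log r ≤ 3 * (K : ℝ) ^ 8 → r * (S' ^ r).card ≤ (S ^ (ℓ * r)).card)
    (K : ℕ) (hK : h ≤ K) (j : ℕ) (ih : TgP K j) : TgP K (j + 1) := by
  intro G _ _ S hS hgen hsub hcard Λ hΛ hΛK hgrow hT
  have hinf : Infinite G := by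
    by_contra hcon
    rw [not_infinite_iff_finite] at hcon
    exact hT (Or.inl hcon)
  have hK6 : (0 : ℝ) ≤ (K : ℝ) ^ 6 := by positivity
  have hj0 : (0 : ℝ) ≤ (j : ℝ) := Nat.cast_nonneg j
  have hjK : (0 : ℝ) ≤ (j : ℝ) * (K : ℝ) ^ 6 := mul_nonneg hj0 hK6
  have hcast : ((j + 1 : ℕ) : ℝ) = (j : ℝ) + 1 := by push_cast; ring
  rw [hcast] at hΛK
  have hlogΛ : 0 ≤ Real.log Λ := Real.log_nonneg hΛ
  obtain ⟨l1, H, N, S', hl1, hlog1, hHfi, hHfg, hNH, hnorm, hcomm, hS', hN, hSl, hS'card, hstep⟩ :=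
    hone K hK G S hS hgen hsub hcard Λ hΛ (by nlinarith) hgrow
  have hNT : ¬ Tower j N := by
    intro hN'
    refine hT (Or.inr ⟨H, N, hHfi, hNH, hnorm, hcomm, ?_, hHfg, hN'⟩)
    exact ⟨S', hN⟩
  obtain ⟨S'', hS'', hgen'', hpow⟩ := tg_stage N S' hS' hN
  have hl1' : (1 : ℝ) ≤ (l1 : ℝ) := by exact_mod_cast hl1
  have hcard'' : (S''.card : ℝ) ≤ Real.exp K := by
    have := hpow 1
    rw [pow_one, pow_one] at this
    rw [this]; exact hS'card
  have hsub'' : SubExp N := tg_subexp N.subtype (Subgroup.subtype_injective N) hsub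
  have hlogmul : Real.log (Λ * l1) = Real.log Λ + Real.log l1 :=
    Real.log_mul (by linarith) (by linarith)
  obtain ⟨l2, hl2, hlog2, hfin⟩ := ih N S'' hS'' hgen'' hsub'' hcard'' (Λ * l1)
    (by nlinarith) (by rw [hlogmul]; nlinarith) (by
      intro r hr hlr
      rw [hpow]
      have h1 : S' ^ r ⊆ S ^ (l1 * r) := by
        rw [pow_mul]
        exact Finset.pow_subset_pow_left hSl
      have h2 : ((S' ^ r).card : ℝ) ≤ ((S ^ (l1 * r)).card : ℝ) := by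
        exact_mod_cast Finset.card_le_card h1
      have h3 : (0 : ℝ) < ((S' ^ r).card : ℝ) := by
        have : ((S' ^ r) : Finset G).Nonempty := Finset.Nonempty.pow ⟨1, hS'.one⟩
        exact_mod_cast Finset.card_pos.2 this
      have h4 := hgrow (l1 * r) (Nat.one_le_iff_ne_zero.2 (by positivity)) (by
        push_cast
        rw [← mul_assoc]; exact hlr)
      push_cast at h4
      rw [← mul_assoc] at h4
      exact (Real.log_le_log h3 h2).trans h4) hNT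
  refine ⟨l1 * l2, Nat.one_le_iff_ne_zero.2 (by positivity), ?_, ?_⟩
  · have hl2' : (1 : ℝ) ≤ (l2 : ℝ) := by exact_mod_cast hl2
    push_cast
    rw [Real.log_mul (by linarith) (by linarith)]
    nlinarith
  · intro r hr hlr
    have hl2' : (1 : ℝ) ≤ (l2 : ℝ) := by exact_mod_cast hl2
    have hr' : (1 : ℝ) ≤ (r : ℝ) := by exact_mod_cast hr
    have h1 := hfin r hr hlr
    rw [hpow] at h1
    have h2 := hstep (l2 * r) (Nat.one_le_iff_ne_zero.2 (by positivity)) (by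
      push_cast
      rw [Real.log_mul (by linarith) (by linarith)]
      nlinarith)
    calc r ^ (j + 1) = r * r ^ j := by ring
      _ ≤ (l2 * r) * (S' ^ (l2 * r)).card := Nat.mul_le_mul (Nat.le_mul_of_pos_left r hl2) h1
      _ ≤ (S ^ (l1 * (l2 * r))).card := h2
      _ = (S ^ (l1 * l2 * r)).card := by rw [mul_assoc]

theorem tower_of_growth (h : OneStep) : TowerOfGrowth := by
  obtain ⟨K0, hK0⟩ := h
  refine ⟨max K0 10, fun K hK G _ _ S hS hgen hsub hcard Λ hΛ1 hΛK hgrow => ?_⟩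
  have hKK0 : K0 ≤ K := (le_max_left _ _).trans hK
  have hK10 : 10 ≤ K := (le_max_right _ _).trans hK
  have hP : ∀ j, TgP K j := by
    intro j
    induction j with
    | zero => exact tg_zero K
    | succ j ih => exact tg_succ K0 hK0 K hKK0 j ih
  by_contra hcon
  push Not at hcon
  have hKr : (10 : ℝ) ≤ (K : ℝ) := by exact_mod_cast hK10
  have hK6 : (0 : ℝ) < (K : ℝ) ^ 6 := by positivity
  have hK7 : (K : ℝ) ^ 7 = K * (K : ℝ) ^ 6 := by ring
  have hK8 : (K : ℝ) ^ 8 = K * (K : ℝ) ^ 7 := by ring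
  have hK67 : 10 * (K : ℝ) ^ 6 ≤ (K : ℝ) ^ 7 := by rw [hK7]; nlinarith
  have hK78 : 10 * (K : ℝ) ^ 7 ≤ (K : ℝ) ^ 8 := by rw [hK8]; nlinarith
  have h1K6 : (1 : ℝ) ≤ (K : ℝ) ^ 6 := one_le_pow₀ (by linarith)
  have hlogΛ0 : 0 ≤ Real.log Λ := Real.log_nonneg hΛ1
  have hKK6 : (2 * (K : ℝ) + 1) * (K : ℝ) ^ 6 = 2 * (K : ℝ) ^ 7 + (K : ℝ) ^ 6 := by ring
  obtain ⟨l, hl, hlogl, hfin⟩ := hP (2 * K + 1) G S hS hgen hsub hcard Λ hΛ1 (by
    push_cast
    nlinarith) hgrow (hcon _)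
  have hl' : (1 : ℝ) ≤ (l : ℝ) := by exact_mod_cast hl
  -- choice of r
  set r : ℕ := ⌈Real.exp ((K : ℝ) ^ 8)⌉₊ with hr
  have hr1 : Real.exp ((K : ℝ) ^ 8) ≤ r := Nat.le_ceil _
  have hrexp : (1 : ℝ) ≤ Real.exp ((K : ℝ) ^ 8) := Real.one_le_exp (by positivity)
  have hr2 : (r : ℝ) ≤ 2 * Real.exp ((K : ℝ) ^ 8) := by
    have := Nat.ceil_lt_add_one (Real.exp_pos ((K : ℝ) ^ 8)).le
    rw [← hr] at this
    linarith
  have hrpos : (1 : ℝ) ≤ (r : ℝ) := hrexp.trans hr1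
  have hrN : 1 ≤ r := by exact_mod_cast hrpos
  have hlr1 : (K : ℝ) ^ 8 ≤ Real.log r := by
    rw [← Real.log_exp ((K : ℝ) ^ 8)]
    exact Real.log_le_log (Real.exp_pos _) hr1
  have hlog2 : Real.log 2 ≤ 1 := by
    have := Real.log_two_lt_d9; linarith
  have hlr2 : Real.log r ≤ 1 + (K : ℝ) ^ 8 := by
    have := Real.log_le_log (by linarith) hr2
    rw [Real.log_mul (by norm_num) (Real.exp_pos _).ne', Real.log_exp] at this
    linarith
  have h1K8 : (1 : ℝ) ≤ (K : ℝ) ^ 8 := one_le_pow₀ (by linarith)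
  have hbig := hfin r hrN (by linarith)
  have hbig' : ((r : ℝ)) ^ (2 * K + 1) ≤ ((S ^ (l * r)).card : ℝ) := by exact_mod_cast hbig
  have hlogbig : (2 * K + 1 : ℝ) * Real.log r ≤ Real.log ((S ^ (l * r)).card) := by
    have := Real.log_le_log (by positivity) hbig'
    rw [Real.log_pow] at this
    push_cast at this
    exact this
  have hlogprod : Real.log (Λ * ((l * r : ℕ) : ℝ)) = Real.log Λ + (Real.log l + Real.log r) := by
    push_cast
    rw [Real.log_mul (by linarith) (by positivity), Real.log_mul (by linarith) (by linarith)]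
  have hlogl' : Real.log l ≤ 4 * (K : ℝ) ^ 7 + 2 * (K : ℝ) ^ 6 := by
    push_cast at hlogl
    nlinarith
  have hK31 : (K : ℝ) ^ 9 ≤ (K : ℝ) ^ 31 := pow_le_pow_right₀ (by linarith) (by norm_num)
  have hK9 : (K : ℝ) ^ 9 = K * (K : ℝ) ^ 8 := by ring
  have hK89 : 10 * (K : ℝ) ^ 8 ≤ (K : ℝ) ^ 9 := by rw [hK9]; nlinarith
  have hgr := hgrow (l * r) (Nat.one_le_iff_ne_zero.2 (by positivity)) (by
    rw [hlogprod]
    linarith)
  rw [hlogprod] at hgr
  have hcomb : (2 * K + 1 : ℝ) * Real.log r ≤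
      K * (Real.log Λ + (Real.log l + Real.log r)) := hlogbig.trans hgr
  have hL2 : Real.log Λ + Real.log l ≤ (3 / 5) * (K : ℝ) ^ 8 := by linarith
  have h9 : (K : ℝ) * (Real.log Λ + Real.log l) ≤ K * ((3 / 5) * (K : ℝ) ^ 8) :=
    mul_le_mul_of_nonneg_left hL2 (by linarith)
  have h10 : (K + 1 : ℝ) * (K : ℝ) ^ 8 ≤ (K + 1 : ℝ) * Real.log r :=
    mul_le_mul_of_nonneg_left hlr1 (by linarith)
  nlinarith

end Pool.Agent.Helper41.Gap
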