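import Pool.Agent.Helper41.Gap.OneStepProof
import Pool.Agent.Helper41.Gap.TowerGrowth
import Pool.Agent.Helper41.Gap.Main

/-!
# Gap: final statements
-/

set_option autoImplicit false

open scoped Pointwise

namespace Pool.Agent.Helper41.Gap

/-- Subexponential growth of one finite generating set gives subexponential growth of all finite
subsets. -/
theorem subExp_of_gen {G : Type} [Group G] [DecidableEq G] {S : Finset G} (hS : SymOne S)
    (hgen : Subgroup.closure (S : Set G) = ⊤)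
    (h : ∀ a : ℝ, 1 < a → ∃ C : ℝ, ∀ r : ℕ, ((S ^ r).card : ℝ) ≤ C * a ^ r) : SubExp G := by
  classical
  intro T hT a ha
  obtain ⟨j, hj1, hj⟩ : ∃ j : ℕ, 1 ≤ j ∧ T ⊆ ((S ^ j : Finset G) : Set G) := by
    choose f hf using fun g : G => OneStepAux.exists_pow' hS hgen g
    refine ⟨(hT.toFinset.sup f) + 1, by omega, fun t ht => ?_⟩
    have h1 : f t ≤ hT.toFinset.sup f := Finset.le_sup (by simpa using ht)
    exact_mod_cast OneStepAux.pow_mono' hS (h1.trans (Nat.le_succ _)) (hf t)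
  have hj0 : (j : ℝ) ≠ 0 := by positivity
  have ha0 : 0 < a := by linarith
  obtain ⟨C, hC⟩ := h (a ^ (1 / (j : ℝ))) (Real.one_lt_rpow ha (by positivity))
  refine ⟨C, fun r => ?_⟩
  have h1 : T ^ r ⊆ ((S ^ (j * r) : Finset G) : Set G) := by
    rw [pow_mul, Finset.coe_pow]
    exact Set.pow_subset_pow_left hj
  have h2 : (T ^ r).ncard ≤ (S ^ (j * r)).card := by
    rw [← Set.ncard_coe_finset]
    exact Set.ncard_le_ncard h1 (Finset.finite_toSet _)
  have h3 : ((a ^ (1 / (j : ℝ))) ^ (j * r) : ℝ) = a ^ r := by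
    rw [pow_mul, ← Real.rpow_natCast (a ^ (1 / (j : ℝ))) j, ← Real.rpow_mul ha0.le]
    rw [one_div_mul_cancel hj0, Real.rpow_one]
  calc ((T ^ r).ncard : ℝ) ≤ ((S ^ (j * r)).card : ℝ) := by exact_mod_cast h2
    _ ≤ C * (a ^ (1 / (j : ℝ))) ^ (j * r) := hC _
    _ = C * a ^ r := by rw [h3]

theorem final : MainGap ∧
    (∃ K0 : ℕ, ∀ K : ℕ, K0 ≤ K → ∀ (G : Type) [Group G] (S : Set G), S.Finite →
      Subgroup.closure S = ⊤ →
      (Nat.card ↥(({1} : Set G) ∪ S ∪ S⁻¹) : ℝ) ≤ Real.exp K →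
      (∀ a : ℝ, 1 < a → ∃ C : ℝ, ∀ r : ℕ,
        (Nat.card ↥((({1} : Set G) ∪ S ∪ S⁻¹) ^ r) : ℝ) ≤ C * a ^ r) →
      (∀ r : ℕ, (K : ℝ) ^ 6 ≤ Real.log r → Real.log r ≤ (K : ℝ) ^ 31 →
        (Nat.card ↥((({1} : Set G) ∪ S ∪ S⁻¹) ^ r) : ℝ) ≤ (r : ℝ) ^ K) →
      ∃ H : Subgroup G, H.FiniteIndex ∧ Group.IsNilpotent H) := by
  classical
  have hw : WindowGap := window_gap (tower_of_growth one_step)
  refine ⟨main_gap hw, ?_⟩
  obtain ⟨K0, hK0⟩ := hw
  refine ⟨K0, fun K hK G _ S hSfin hgen hcard hsub hgrow => ?_⟩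
  have hfin : (({1} : Set G) ∪ S ∪ S⁻¹).Finite :=
    ((Set.finite_singleton _).union hSfin).union hSfin.inv
  set S0 : Finset G := hfin.toFinset with hS0
  have hcoe : (S0 : Set G) = ({1} : Set G) ∪ S ∪ S⁻¹ := hfin.coe_toFinset
  have hmem : ∀ x, x ∈ S0 ↔ x = 1 ∨ x ∈ S ∨ x⁻¹ ∈ S := by
    intro x
    rw [← Finset.mem_coe, hcoe]
    simp only [Set.mem_union, Set.mem_singleton_iff, Set.mem_inv]
    tauto
  have hsym : SymOne S0 := by
    refine ⟨(hmem 1).2 (Or.inl rfl), fun s hs => (hmem _).2 ?_⟩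
    rcases (hmem s).1 hs with h1 | h1 | h1
    · left; rw [h1, inv_one]
    · right; right; rwa [inv_inv]
    · right; left; exact h1
  have hgen0 : Subgroup.closure (S0 : Set G) = ⊤ := by
    rw [eq_top_iff, ← hgen]
    apply Subgroup.closure_mono
    rw [hcoe]
    intro x hx
    exact Or.inl (Or.inr hx)
  have hcardpow : ∀ r : ℕ,
      (Nat.card ↥((({1} : Set G) ∪ S ∪ S⁻¹) ^ r) : ℝ) = ((S0 ^ r).card : ℝ) := by
    intro r
    rw [← hcoe, ← Finset.coe_pow, Nat.card_coe_set_eq, Set.ncard_coe_finset]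
  have hcard0 : (S0.card : ℝ) ≤ Real.exp K := by
    have := hcardpow 1
    rw [pow_one, pow_one] at this
    rw [← this]; exact hcard
  exact hK0 K hK G S0 hsym hgen0
    (subExp_of_gen hsym hgen0 (fun a ha => by
      obtain ⟨C, hC⟩ := hsub a ha
      exact ⟨C, fun r => by rw [← hcardpow]; exact hC r⟩)) hcard0
    (fun r h1 h2 => by rw [← hcardpow]; exact hgrow r h1 h2)

end Pool.Agent.Helper41.Gap
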