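import Pool.Agent.Helper41.Gap.Final

/-!
# Gap: the statement up to equivalence of growth functions
-/

set_option autoImplicit false

open scoped Pointwise

namespace Pool.Agent.Helper41.Gap

/-- Elementary comparison of the two bounds. -/
theorem growth_compare (C : ℝ) (hC : 0 < C) : ∃ r1 : ℕ, ∀ r : ℕ, r1 ≤ r →
    C * (C * r) ^ ((Real.log (C * r)) ^ (1 / 32 : ℝ)) ≤ (r : ℝ) ^ ((Real.log r) ^ (1 / 31 : ℝ)) := by
  have hlim : Filter.Tendsto (fun r : ℕ => Real.log (r : ℝ)) Filter.atTop Filter.atTop :=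
    Real.tendsto_log_atTop.comp tendsto_natCast_atTop_atTop
  have h1 := hlim.eventually_ge_atTop (|Real.log C| + 1)
  have h2 := hlim.eventually_ge_atTop ((5 : ℝ) ^ (992 : ℕ))
  obtain ⟨r1, hr1⟩ := Filter.eventually_atTop.1 (h1.and (h2.and (Filter.eventually_ge_atTop 1)))
  refine ⟨r1, fun r hr => ?_⟩
  obtain ⟨a1, a2, a3⟩ := hr1 r hr
  set x : ℝ := Real.log r with hx
  set l : ℝ := Real.log C with hl
  have hr0 : (0 : ℝ) < r := by exact_mod_cast a3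
  have hl1 : l ≤ |l| := le_abs_self l
  have hl2 : -|l| ≤ l := neg_abs_le l
  have hlabs : 0 ≤ |l| := abs_nonneg l
  have hx1 : 1 ≤ x := by linarith only [a1, hlabs]
  have hx0 : 0 < x := by linarith only [hx1]
  have hlog : Real.log (C * r) = l + x := Real.log_mul hC.ne' hr0.ne'
  have hlx0 : 0 < l + x := by linarith only [a1, hl2]
  have hlx : l + x ≤ 2 * x := by linarith only [a1, hl1]
  have hCr : 0 < C * (r : ℝ) := by positivity
  rw [Real.rpow_def_of_pos hCr, Real.rpow_def_of_pos hr0, hlog]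
  rw [← Real.exp_log hC, ← Real.exp_add]
  apply Real.exp_le_exp.2
  rw [← hx]
  rw [← hl]
  -- `l + (l+x) * (l+x)^(1/32) ≤ x * x^(1/31)`
  have e1 : (l + x) ^ (1 / 32 : ℝ) ≤ 2 * x ^ (1 / 32 : ℝ) := by
    calc (l + x) ^ (1 / 32 : ℝ) ≤ (2 * x) ^ (1 / 32 : ℝ) :=
          Real.rpow_le_rpow hlx0.le hlx (by norm_num)
      _ = 2 ^ (1 / 32 : ℝ) * x ^ (1 / 32 : ℝ) := Real.mul_rpow (by norm_num) hx0.le
      _ ≤ 2 * x ^ (1 / 32 : ℝ) := by
          have : (2 : ℝ) ^ (1 / 32 : ℝ) ≤ 2 ^ (1 : ℝ) :=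
            Real.rpow_le_rpow_of_exponent_le (by norm_num) (by norm_num)
          rw [Real.rpow_one] at this
          have h0 : 0 ≤ x ^ (1 / 32 : ℝ) := Real.rpow_nonneg hx0.le _
          nlinarith
  have e2 : 1 ≤ x ^ (1 / 32 : ℝ) := Real.one_le_rpow hx1 (by norm_num)
  have e3 : x ^ (1 / 31 : ℝ) = x ^ (1 / 992 : ℝ) * x ^ (1 / 32 : ℝ) := by
    rw [← Real.rpow_add hx0]; norm_num
  have e4 : 5 ≤ x ^ (1 / 992 : ℝ) := by
    have := Real.rpow_le_rpow (by positivity) a2 (show (0 : ℝ) ≤ 1 / 992 by norm_num)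
    rw [← Real.rpow_natCast, ← Real.rpow_mul (by norm_num)] at this
    norm_num at this
    norm_num
    exact this
  rw [e3]
  have e5 : (l + x) * (l + x) ^ (1 / 32 : ℝ) ≤ (2 * x) * (2 * x ^ (1 / 32 : ℝ)) := by
    apply mul_le_mul hlx e1 (Real.rpow_nonneg hlx0.le _) (by positivity)
  have e6 : l ≤ x * x ^ (1 / 32 : ℝ) := by
    have : x * 1 ≤ x * x ^ (1 / 32 : ℝ) := by gcongr
    linarith only [this, a1, hl1]
  have e7 : 5 * (x * x ^ (1 / 32 : ℝ)) ≤ x * (x ^ (1 / 992 : ℝ) * x ^ (1 / 32 : ℝ)) := by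
    have h0 : 0 ≤ x * x ^ (1 / 32 : ℝ) := by positivity
    have h9 := mul_le_mul_of_nonneg_right e4 h0
    linarith only [h9]
  linarith only [e5, e6, e7]

theorem final2 : ∀ (G : Type) [Group G] (S : Set G), S.Finite → Subgroup.closure S = ⊤ →
    (∃ C : ℝ, 0 < C ∧ ∃ r0 : ℕ, ∀ r : ℕ, r0 ≤ r →
      (Nat.card ↥((({1} : Set G) ∪ S ∪ S⁻¹) ^ r) : ℝ) ≤
        C * (C * r) ^ ((Real.log (C * r)) ^ (1 / 32 : ℝ))) →
    ∃ H : Subgroup G, H.FiniteIndex ∧ Group.IsNilpotent H := by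
  intro G _ S hS hgen hgr
  obtain ⟨C, hC, r0, h⟩ := hgr
  obtain ⟨r1, hr1⟩ := growth_compare C hC
  refine final.1 G S hS hgen ⟨max r0 r1, fun r hr => ?_⟩
  exact (h r ((le_max_left _ _).trans hr)).trans (hr1 r ((le_max_right _ _).trans hr))

end Pool.Agent.Helper41.Gap
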