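import Pool.Agent.Helper41.Gap.TowerBasic

set_option autoImplicit false

open scoped Pointwise RealInnerProductSpace TensorProduct
open ProbabilityTheory MeasureTheory Module

namespace Pool.Agent.Helper41.Gap

/-- elements of `B` with finite orbit under `D` -/
private def gfoBD {M A : Type} [Group M] [CommGroup A] (φ : M →* MulAut A) (B : Subgroup A)
    (D : Subgroup M) : Subgroup A where
  carrier := {x | x ∈ B ∧ {y | ∃ d ∈ D, φ d x = y}.Finite}
  mul_mem' := by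
    rintro a b ⟨ha, ha'⟩ ⟨hb, hb'⟩
    refine ⟨B.mul_mem ha hb, (ha'.image2 (fun x y => x * y) hb').subset ?_⟩
    rintro _ ⟨d, hd, rfl⟩
    exact ⟨φ d a, ⟨d, hd, rfl⟩, φ d b, ⟨d, hd, rfl⟩, (map_mul (φ d) a b).symm⟩
  one_mem' := by
    refine ⟨B.one_mem, (Set.finite_singleton (1 : A)).subset ?_⟩
    rintro _ ⟨d, _, rfl⟩
    simp
  inv_mem' := by
    rintro a ⟨ha, ha'⟩
    refine ⟨B.inv_mem ha, (ha'.image (fun x => x⁻¹)).subset ?_⟩
    rintro _ ⟨d, hd, rfl⟩
    exact ⟨φ d a, ⟨d, hd, rfl⟩, (map_inv (φ d) a).symm⟩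

private theorem gfo_mul {M A : Type} [Group M] [CommGroup A] (φ : M →* MulAut A) (g g' : M)
    (x : A) : φ g (φ g' x) = φ (g * g') x := by
  rw [map_mul]; rfl

/-- one generator -/
private theorem gfo_step {M A : Type} [Group M] [CommGroup A] (φ : M →* MulAut A)
    (h : ∀ m : M, ∀ C : Subgroup A, C ≠ ⊥ → (∀ x ∈ C, φ m x ∈ C) → (∀ x ∈ C, φ m⁻¹ x ∈ C) →
      ∃ j : ℕ, 1 ≤ j ∧ ∃ x ∈ C, x ≠ 1 ∧ φ (m ^ j) x = x)
    (B : Subgroup A) (hinv : ∀ m : M, ∀ x ∈ B, φ m x ∈ B) (D : Subgroup M) (g : M)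
    (hn1 : ∀ d ∈ D, g * d * g⁻¹ ∈ D) (hn2 : ∀ d ∈ D, g⁻¹ * d * g ∈ D)
    (hD : gfoBD φ B D ≠ ⊥) : gfoBD φ B (Subgroup.closure ((D : Set M) ∪ {g})) ≠ ⊥ := by
  have inv1 : ∀ x ∈ gfoBD φ B D, φ g x ∈ gfoBD φ B D := by
    rintro x ⟨hx, hx'⟩
    refine ⟨hinv g x hx, (hx'.image (φ g)).subset ?_⟩
    rintro _ ⟨d, hd, rfl⟩
    refine ⟨φ (g⁻¹ * d * g) x, ⟨_, hn2 d hd, rfl⟩, ?_⟩
    rw [gfo_mul, gfo_mul]
    congr 2
    group
  have inv2 : ∀ x ∈ gfoBD φ B D, φ g⁻¹ x ∈ gfoBD φ B D := by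
    rintro x ⟨hx, hx'⟩
    refine ⟨hinv g⁻¹ x hx, (hx'.image (φ g⁻¹)).subset ?_⟩
    rintro _ ⟨d, hd, rfl⟩
    refine ⟨φ (g * d * g⁻¹) x, ⟨_, hn1 d hd, rfl⟩, ?_⟩
    rw [gfo_mul, gfo_mul]
    congr 2
    group
  obtain ⟨j, hj, x, hxC, hx1, hxj⟩ := h g _ hD inv1 inv2
  have hpow : ∀ e : ℕ, φ (g ^ e) x ∈ gfoBD φ B D := by
    intro e
    induction e with
    | zero => simpa using hxC
    | succ e ih =>
      rw [pow_succ', ← gfo_mul]
      exact inv1 _ ih
  let F : Set A := ⋃ e ∈ Set.Iio j, {y | ∃ d ∈ D, φ d (φ (g ^ e) x) = y}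
  have hF : F.Finite := by
    apply Set.Finite.biUnion (Set.finite_Iio j)
    intro e _
    exact (hpow e).2
  have hFmem : ∀ y, y ∈ F ↔ ∃ e < j, ∃ d ∈ D, φ d (φ (g ^ e) x) = y := by
    intro y
    simp only [F, Set.mem_iUnion, Set.mem_Iio, Set.mem_setOf_eq, exists_prop]
  have hFD : ∀ d ∈ D, ∀ y ∈ F, φ d y ∈ F := by
    intro d hd y hy
    rw [hFmem] at hy ⊢
    obtain ⟨e, he, d', hd', rfl⟩ := hy
    exact ⟨e, he, d * d', D.mul_mem hd hd', by rw [← gfo_mul]⟩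
  have hFg : ∀ y ∈ F, φ g y ∈ F := by
    intro y hy
    rw [hFmem] at hy ⊢
    obtain ⟨e, he, d, hd, rfl⟩ := hy
    rcases Nat.lt_or_ge (e + 1) j with h1 | h1
    · refine ⟨e + 1, h1, g * d * g⁻¹, hn1 d hd, ?_⟩
      simp only [gfo_mul]
      congr 2
      rw [pow_succ']
      group
    · have h2 : e + 1 = j := by omega
      refine ⟨0, by omega, g * d * g⁻¹, hn1 d hd, ?_⟩
      have h3 : φ (g ^ 0) x = φ (g ^ (e + 1)) x := by rw [h2, hxj]; simp
      rw [h3]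
      simp only [gfo_mul]
      congr 2
      rw [pow_succ']
      group
  have hFg' : ∀ y ∈ F, φ g⁻¹ y ∈ F := by
    intro y hy
    have hmaps : Set.MapsTo (φ g) F F := hFg
    have hsurj : Set.SurjOn (φ g) F F := by
      have := Set.Finite.injOn_iff_bijOn_of_mapsTo hF hmaps
      exact (this.1 (φ g).injective.injOn).surjOn
    obtain ⟨z, hz, hzy⟩ := hsurj hy
    rw [← hzy, gfo_mul]
    simpa using hz
  have hall : ∀ m ∈ Subgroup.closure ((D : Set M) ∪ {g}),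
      (∀ y ∈ F, φ m y ∈ F) ∧ (∀ y ∈ F, φ m⁻¹ y ∈ F) := by
    intro m hm
    induction hm using Subgroup.closure_induction with
    | mem m hm =>
      rcases hm with hm | hm
      · exact ⟨hFD m hm, hFD m⁻¹ (D.inv_mem hm)⟩
      · rw [Set.mem_singleton_iff] at hm
        subst hm
        exact ⟨hFg, hFg'⟩
    | one => simp
    | mul a b _ _ ha hb =>
      refine ⟨fun y hy => ?_, fun y hy => ?_⟩
      · rw [← gfo_mul]; exact ha.1 _ (hb.1 _ hy)
      · rw [mul_inv_rev, ← gfo_mul]; exact hb.2 _ (ha.2 _ hy)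
    | inv a _ ha => exact ⟨ha.2, by rw [inv_inv]; exact ha.1⟩
  have hxF : x ∈ F := by
    rw [hFmem]
    exact ⟨0, by omega, 1, D.one_mem, by simp⟩
  intro hbot
  have hmem : x ∈ gfoBD φ B (Subgroup.closure ((D : Set M) ∪ {g})) := by
    refine ⟨hxC.1, hF.subset ?_⟩
    rintro _ ⟨d, hd, rfl⟩
    exact (hall d hd).1 x hxF
  rw [hbot, Subgroup.mem_bot] at hmem
  exact hx1 hmem

theorem exists_finite_orbit (k : ℕ) (M : Type) [Group M] (hM : Tower k M) (A : Type)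
    [CommGroup A] [Group.FG A] (φ : M →* MulAut A)
    (h : ∀ m : M, ∀ C : Subgroup A, C ≠ ⊥ → (∀ x ∈ C, φ m x ∈ C) → (∀ x ∈ C, φ m⁻¹ x ∈ C) →
      ∃ j : ℕ, 1 ≤ j ∧ ∃ x ∈ C, x ≠ 1 ∧ φ (m ^ j) x = x)
    (B : Subgroup A) (hB : B ≠ ⊥) (hinv : ∀ m : M, ∀ x ∈ B, φ m x ∈ B) :
    ∃ a ∈ B, a ≠ 1 ∧ (Set.range (fun m : M => φ m a)).Finite := by
  classical
  induction k generalizing M with
  | zero =>
    have : Finite M := hM
    obtain ⟨b, hb, hb1⟩ := (Subgroup.bot_or_exists_ne_one B).resolve_left hB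
    exact ⟨b, hb, hb1, Set.finite_range _⟩
  | succ k ih =>
    rcases hM with hM | ⟨H, N, hHfi, hNH, hconj, hcm, -, hHfg, hN⟩
    · obtain ⟨b, hb, hb1⟩ := (Subgroup.bot_or_exists_ne_one B).resolve_left hB
      exact ⟨b, hb, hb1, Set.finite_range _⟩
    · obtain ⟨a, haB, ha1, hafin⟩ := ih N hN (φ.comp N.subtype)
        (fun m C hC h1 h2 => h (m : M) C hC h1 h2) (fun m x hx => hinv (m : M) x hx)
      have hstart : gfoBD φ B N ≠ ⊥ := by
        intro hbot
        have hmem : a ∈ gfoBD φ B N := by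
          refine ⟨haB, hafin.subset ?_⟩
          rintro _ ⟨d, hd, rfl⟩
          exact ⟨⟨d, hd⟩, rfl⟩
        rw [hbot, Subgroup.mem_bot] at hmem
        exact ha1 hmem
      obtain ⟨T, hT⟩ := hHfg
      have hTH : ∀ t ∈ T, t ∈ H := fun t ht => by rw [← hT]; exact Subgroup.subset_closure ht
      have key : ∀ U : Finset M, (∀ t ∈ U, t ∈ H) →
          ∃ D : Subgroup M, N ≤ D ∧ D ≤ H ∧ (∀ t ∈ U, t ∈ D) ∧ gfoBD φ B D ≠ ⊥ := by
        intro U
        induction U using Finset.induction_on with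
        | empty => intro _; exact ⟨N, le_rfl, hNH, by simp, hstart⟩
        | insert g U hg ihU =>
          intro hU
          obtain ⟨D, h1, h2, h3, h4⟩ := ihU (fun t ht => hU t (Finset.mem_insert_of_mem ht))
          have hgH : g ∈ H := hU g (Finset.mem_insert_self g U)
          have hn1 : ∀ g' ∈ H, ∀ d ∈ D, g' * d * g'⁻¹ ∈ D := by
            intro g' hg' d hd
            have h5 : cm g' d ∈ N := hcm g' hg' d (h2 hd)
            have h6 : g' * d * g'⁻¹ = cm g' d * d := by rw [cm]; group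
            rw [h6]
            exact D.mul_mem (h1 h5) hd
          refine ⟨Subgroup.closure ((D : Set M) ∪ {g}), ?_, ?_, ?_, ?_⟩
          · exact h1.trans (fun d hd => Subgroup.subset_closure (Or.inl hd))
          · rw [Subgroup.closure_le]
            rintro d (hd | hd)
            · exact h2 hd
            · rw [Set.mem_singleton_iff] at hd
              subst hd; exact hgH
          · intro t ht
            rcases Finset.mem_insert.1 ht with ht | ht
            · subst ht; exact Subgroup.subset_closure (Or.inr rfl)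
            · exact Subgroup.subset_closure (Or.inl (h3 t ht))
          · refine gfo_step φ h B hinv D g (hn1 g hgH) ?_ h4
            intro d hd
            have := hn1 g⁻¹ (H.inv_mem hgH) d hd
            rwa [inv_inv] at this
      obtain ⟨D, h1, h2, h3, h4⟩ := key T hTH
      have hDH : H ≤ D := by
        rw [← hT, Subgroup.closure_le]
        exact h3
      obtain ⟨b, hb, hb1⟩ := (Subgroup.bot_or_exists_ne_one _).resolve_left h4
      refine ⟨b, hb.1, hb1, ?_⟩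
      have hfinQ : Finite (M ⧸ H) := inferInstance
      have hfin : (⋃ q : M ⧸ H, (φ q.out) '' {y | ∃ d ∈ D, φ d b = y}).Finite :=
        Set.finite_iUnion (fun q => hb.2.image _)
      refine hfin.subset ?_
      rintro _ ⟨m, rfl⟩
      obtain ⟨x, hx⟩ := QuotientGroup.mk_out_eq_mul H m
      rw [Set.mem_iUnion]
      refine ⟨(m : M ⧸ H), φ ((x : M)⁻¹) b, ⟨(x : M)⁻¹, hDH (H.inv_mem x.2), rfl⟩, ?_⟩
      rw [gfo_mul, hx]
      simp

end Pool.Agent.Helper41.Gap
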