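import Pool.Agent.Helper41.Gap.Defs

set_option autoImplicit false

open scoped Pointwise RealInnerProductSpace TensorProduct
open ProbabilityTheory MeasureTheory Module

namespace Pool.Agent.Helper41.Gap

open Matrix Polynomial in
/-- a left eigenvector for every complex root of the characteristic polynomial -/
private theorem mfp_left {n : ℕ} (M : Matrix (Fin n) (Fin n) ℤ) (z : ℂ)
    (hz : z ∈ (M.charpoly.map (Int.castRingHom ℂ)).roots) :
    ∃ v : Fin n → ℂ, v ≠ 0 ∧ v ᵥ* (M.map (Int.castRingHom ℂ)) = z • v := by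
  have h1 : (M.charpoly.map (Int.castRingHom ℂ)).IsRoot z := isRoot_of_mem_roots hz
  rw [← Matrix.charpoly_map, Polynomial.IsRoot, Matrix.eval_charpoly] at h1
  obtain ⟨v, hv, h2⟩ := Matrix.exists_vecMul_eq_zero_iff.2 h1
  refine ⟨v, hv, ?_⟩
  rw [Matrix.vecMul_sub, sub_eq_zero] at h2
  rw [← h2]
  ext i
  simp [Matrix.scalar_apply, Matrix.vecMul_diagonal, mul_comm]

open Matrix in
private theorem mfp_pow {n : ℕ} (A : Matrix (Fin n) (Fin n) ℂ) (z : ℂ) (v : Fin n → ℂ)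
    (h : v ᵥ* A = z • v) (k : ℕ) : v ᵥ* (A ^ k) = z ^ k • v := by
  induction k with
  | zero => simp
  | succ k ih => rw [pow_succ, ← Matrix.vecMul_vecMul, ih, Matrix.smul_vecMul, h, smul_smul,
      pow_succ]

/-- a root of a nonzero polynomial with coefficients `-1, 0, 1` has absolute value less than 2 -/
private theorem mfp_root (k : ℕ) (δ : ℕ → ℤ) (h1 : ∀ i, |δ i| ≤ 1) (h2 : ∃ i < k, δ i ≠ 0) (μ : ℂ)
    (h : ∑ i ∈ Finset.range k, (δ i : ℂ) * μ ^ i = 0) : ‖μ‖ < 2 := by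
  by_contra hμ
  push Not at hμ
  induction k with
  | zero => obtain ⟨i, hi, -⟩ := h2; omega
  | succ k ih =>
    rw [Finset.sum_range_succ] at h
    by_cases hk : δ k = 0
    · apply ih
      · obtain ⟨i, hi, hi'⟩ := h2
        refine ⟨i, ?_, hi'⟩
        rcases Nat.lt_succ_iff_lt_or_eq.1 hi with h3 | h3
        · exact h3
        · rw [h3] at hi'; exact absurd hk hi'
      · rw [hk] at h
        simpa using h
    · have h3 : ‖(δ k : ℂ) * μ ^ k‖ = ‖μ‖ ^ k := by
        have h4 : |δ k| = 1 := le_antisymm (h1 k) (Int.one_le_abs hk)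
        rw [norm_mul, norm_pow, Complex.norm_intCast]
        have h5 : |(δ k : ℝ)| = 1 := by exact_mod_cast h4
        rw [h5, one_mul]
      have h6 : ‖∑ i ∈ Finset.range k, (δ i : ℂ) * μ ^ i‖ ≤ ∑ i ∈ Finset.range k, ‖μ‖ ^ i := by
        refine (norm_sum_le _ _).trans (Finset.sum_le_sum fun i _ => ?_)
        rw [norm_mul, norm_pow, Complex.norm_intCast]
        have h5 : |(δ i : ℝ)| ≤ 1 := by exact_mod_cast h1 i
        exact mul_le_of_le_one_left (by positivity) h5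
      have h7 : ∑ i ∈ Finset.range k, ‖μ‖ ^ i ≤ ‖μ‖ ^ k - 1 := by
        have h8 := mul_geom_sum ‖μ‖ k
        have h9 : 0 ≤ ∑ i ∈ Finset.range k, ‖μ‖ ^ i := Finset.sum_nonneg fun i _ => by positivity
        nlinarith
      have h10 : (δ k : ℂ) * μ ^ k = - ∑ i ∈ Finset.range k, (δ i : ℂ) * μ ^ i := by
        linear_combination h
      rw [h10, norm_neg] at h3
      linarith

open Matrix Polynomial in
private theorem mfp_norm {n : ℕ} (M : Matrix (Fin n) (Fin n) ℤ)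
    (hrel : ∀ j : ℕ, 1 ≤ j → ∀ b : Fin n → ℤ, ∃ (k : ℕ) (δ : ℕ → ℤ), (∀ i, |δ i| ≤ 1) ∧
      (∃ i < k, δ i ≠ 0) ∧ ∑ i ∈ Finset.range k, δ i • ((M ^ j) ^ i).mulVec b = 0)
    (z : ℂ) (v : Fin n → ℂ) (hv : v ≠ 0) (hz : v ᵥ* (M.map (Int.castRingHom ℂ)) = z • v) :
    ‖z‖ ≤ 1 := by
  have key : ∀ j : ℕ, 1 ≤ j → ‖z‖ ^ j < 2 := by
    intro j hj
    obtain ⟨l, hl⟩ := Function.ne_iff.1 hv
    obtain ⟨k, δ, h1, h2, h3⟩ := hrel j hj (Pi.single l 1)
    have h4 : ∑ i ∈ Finset.range k, (δ i : ℂ) * (z ^ j) ^ i = 0 := by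
      have h5 : ∀ i, v ⬝ᵥ (fun t => (((((M ^ j) ^ i).mulVec (Pi.single l 1 : Fin n → ℤ)) t : ℤ) : ℂ))
          = (z ^ j) ^ i * v l := by
        intro i
        have h6 : (fun t => (((((M ^ j) ^ i).mulVec (Pi.single l 1 : Fin n → ℤ)) t : ℤ) : ℂ)) =
            ((M.map (Int.castRingHom ℂ)) ^ (j * i)) *ᵥ (Pi.single l 1) := by
          rw [← Matrix.map_pow, pow_mul]
          ext t
          simp
        rw [h6, Matrix.dotProduct_mulVec, mfp_pow _ _ _ hz]
        simp [pow_mul]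
      have h7 : v ⬝ᵥ (fun t => (((∑ i ∈ Finset.range k,
          δ i • ((M ^ j) ^ i).mulVec (Pi.single l 1 : Fin n → ℤ)) t : ℤ) : ℂ)) =
          ∑ i ∈ Finset.range k, (δ i : ℂ) * ((z ^ j) ^ i * v l) := by
        have h8 : (fun t => (((∑ i ∈ Finset.range k,
            δ i • ((M ^ j) ^ i).mulVec (Pi.single l 1 : Fin n → ℤ)) t : ℤ) : ℂ)) =
            ∑ i ∈ Finset.range k, (δ i : ℂ) •
              (fun t => (((((M ^ j) ^ i).mulVec (Pi.single l 1 : Fin n → ℤ)) t : ℤ) : ℂ)) := by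
          ext t
          simp only [Finset.sum_apply, Pi.smul_apply, smul_eq_mul]
          push_cast
          rfl
        rw [h8, dotProduct_sum]
        refine Finset.sum_congr rfl fun i _ => ?_
        rw [dotProduct_smul, h5, smul_eq_mul]
      rw [h3] at h7
      have h9 : (∑ i ∈ Finset.range k, (δ i : ℂ) * (z ^ j) ^ i) * v l = 0 := by
        rw [Finset.sum_mul]
        have h10 : v ⬝ᵥ (fun t : Fin n => (((0 : Fin n → ℤ) t : ℤ) : ℂ)) = 0 := by
          simp [dotProduct]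
        rw [h10] at h7
        rw [h7]
        exact Finset.sum_congr rfl fun i _ => by ring
      exact (mul_eq_zero.1 h9).resolve_right hl
    have h11 := mfp_root k δ h1 h2 _ h4
    rwa [norm_pow] at h11
  by_contra hcon
  push Not at hcon
  obtain ⟨j, hj⟩ := pow_unbounded_of_one_lt 2 hcon
  rcases Nat.eq_zero_or_pos j with h | h
  · rw [h, pow_zero] at hj
    norm_num at hj
  · have := key j h
    linarith

open Matrix Polynomial in
theorem matrix_fixed_power {n : ℕ} (hn : 0 < n) (M M' : Matrix (Fin n) (Fin n) ℤ)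
    (hM : M * M' = 1)
    (hrel : ∀ j : ℕ, 1 ≤ j → ∀ b : Fin n → ℤ, ∃ (k : ℕ) (δ : ℕ → ℤ), (∀ i, |δ i| ≤ 1) ∧
      (∃ i < k, δ i ≠ 0) ∧ ∑ i ∈ Finset.range k, δ i • ((M ^ j) ^ i).mulVec b = 0) :
    ∃ m : ℕ, 1 ≤ m ∧ ∃ b : Fin n → ℤ, b ≠ 0 ∧ (M ^ m).mulVec b = b := by
  classical
  have hmon : M.charpoly.Monic := Matrix.charpoly_monic M
  have hdeg : (M.charpoly.map (Int.castRingHom ℂ)).degree = n := by
    rw [hmon.degree_map, Matrix.charpoly_degree_eq_dim, Fintype.card_fin]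
  -- all roots are in the closed unit disc
  have hroots : ∀ z ∈ (M.charpoly.map (Int.castRingHom ℂ)).roots, ‖z‖ ≤ 1 := by
    intro z hz
    obtain ⟨v, hv, hvz⟩ := mfp_left M z hz
    exact mfp_norm M hrel z v hv hvz
  have hmah : (M.charpoly.map (Int.castRingHom ℂ)).mahlerMeasure = 1 := by
    rw [Polynomial.mahlerMeasure_eq_leadingCoeff_mul_prod_roots,
      (hmon.map _).leadingCoeff, norm_one, one_mul]
    refine Multiset.prod_eq_one fun x hx => ?_
    obtain ⟨z, hz, rfl⟩ := Multiset.mem_map.1 hx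
    exact max_eq_left (hroots z hz)
  -- a root
  obtain ⟨z, hz⟩ : ∃ z, z ∈ (M.charpoly.map (Int.castRingHom ℂ)).roots := by
    have hne : (M.charpoly.map (Int.castRingHom ℂ)).degree ≠ 0 := by
      rw [hdeg]
      exact_mod_cast hn.ne'
    obtain ⟨z, hz⟩ := IsAlgClosed.exists_root _ hne
    exact ⟨z, (mem_roots (hmon.map _).ne_zero).2 hz⟩
  obtain ⟨v, hv, hvz⟩ := mfp_left M z hz
  have hz0 : z ≠ 0 := by
    rintro rfl
    rw [zero_smul] at hvz
    apply hv
    have h1 : v ᵥ* ((M * M').map (Int.castRingHom ℂ)) = 0 := by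
      rw [Matrix.map_mul, ← Matrix.vecMul_vecMul, hvz, Matrix.zero_vecMul]
    rw [hM, Matrix.map_one _ (map_zero _) (map_one _), Matrix.vecMul_one] at h1
    exact h1
  obtain ⟨m, hm, hzm⟩ := Polynomial.pow_eq_one_of_mahlerMeasure_eq_one hmah hz0
    (by rw [Polynomial.aroots]; exact hz)
  refine ⟨m, hm, ?_⟩
  have hdet : (M ^ m - 1).det = 0 := by
    have h1 : ((M ^ m - 1).map (Int.castRingHom ℂ)).det = 0 := by
      refine Matrix.exists_vecMul_eq_zero_iff.1 ⟨v, hv, ?_⟩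
      rw [Matrix.map_sub _ (map_sub _), Matrix.map_one _ (map_zero _) (map_one _),
        Matrix.map_pow, Matrix.vecMul_sub, mfp_pow _ _ _ hvz, hzm, one_smul, Matrix.vecMul_one,
        sub_self]
    rw [← RingHom.mapMatrix_apply, ← RingHom.map_det] at h1
    have h2 : (((M ^ m - 1).det : ℤ) : ℂ) = 0 := h1
    exact_mod_cast h2
  obtain ⟨b, hb, hb'⟩ := Matrix.exists_mulVec_eq_zero_iff.2 hdet
  refine ⟨b, hb, ?_⟩
  rw [Matrix.sub_mulVec, Matrix.one_mulVec, sub_eq_zero] at hb'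
  exact hb'

end Pool.Agent.Helper41.Gap
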