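import Pool.Agent.Helper41.Gap.SubexpBasic
import Pool.Agent.Helper41.Gap.MatrixPower

set_option autoImplicit false

open scoped Pointwise RealInnerProductSpace TensorProduct
open ProbabilityTheory MeasureTheory Module

namespace Pool.Agent.Helper41.Gap

private theorem fp_additive {A : Type} [AddCommGroup A] [Module.Finite ℤ A] [IsAddTorsionFree A]
    [Nontrivial A] (σ : A ≃+ A)
    (hrel : ∀ j : ℕ, 1 ≤ j → ∀ x : A, ∃ (k : ℕ) (δ : ℕ → ℤ), (∀ i, |δ i| ≤ 1) ∧
      (∃ i < k, δ i ≠ 0) ∧ ∑ i ∈ Finset.range k, δ i • (σ^[j * i]) x = 0) :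
    ∃ m : ℕ, 1 ≤ m ∧ ∃ x : A, x ≠ 0 ∧ (σ^[m]) x = x := by
  have : Module.Free ℤ A := Module.free_of_finite_type_torsion_free'
  set bb := Module.finBasis ℤ A with hbb
  set L : A →ₗ[ℤ] A := σ.toAddMonoidHom.toIntLinearMap with hL
  set L' : A →ₗ[ℤ] A := σ.symm.toAddMonoidHom.toIntLinearMap with hL'
  have hLv : ∀ x, L x = σ x := fun x => rfl
  have hL'v : ∀ x, L' x = σ.symm x := fun x => rfl
  have hLL' : L * L' = 1 := by
    ext x
    rw [Module.End.mul_apply, hLv, hL'v, AddEquiv.apply_symm_apply]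
    rfl
  have hpow : ∀ (k : ℕ) (x : A), (L ^ k) x = (σ^[k]) x := by
    intro k x
    rw [Module.End.pow_apply]
    rfl
  set M := LinearMap.toMatrix bb bb L with hM
  set M' := LinearMap.toMatrix bb bb L' with hM'
  have hMM' : M * M' = 1 := by
    rw [hM, hM', ← LinearMap.toMatrix_mul, hLL', LinearMap.toMatrix_one]
  have hMk : ∀ (k : ℕ) (x : A), (M ^ k).mulVec (bb.repr x) = bb.repr ((σ^[k]) x) := by
    intro k x
    rw [hM, LinearMap.toMatrix_pow, LinearMap.toMatrix_mulVec_repr, hpow]
  have hn : 0 < Module.finrank ℤ A := Module.finrank_pos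
  obtain ⟨m, hm, v, hv, hvm⟩ := matrix_fixed_power hn M M' hMM' (by
    intro j hj v
    obtain ⟨k, δ, h1, h2, h3⟩ := hrel j hj (bb.equivFun.symm v)
    refine ⟨k, δ, h1, h2, ?_⟩
    have hv : (bb.repr (bb.equivFun.symm v) : Fin (Module.finrank ℤ A) → ℤ) = v := by
      have := bb.equivFun.apply_symm_apply v
      exact this
    have h4 : ∀ i ∈ Finset.range k, δ i • ((M ^ j) ^ i).mulVec v =
        δ i • (bb.repr ((σ^[j * i]) (bb.equivFun.symm v)) : Fin (Module.finrank ℤ A) → ℤ) := by
      intro i _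
      rw [← pow_mul, ← hMk (j * i) (bb.equivFun.symm v), hv]
    rw [Finset.sum_congr rfl h4]
    have h5 : ∑ i ∈ Finset.range k,
        δ i • (bb.repr ((σ^[j * i]) (bb.equivFun.symm v)) : Fin (Module.finrank ℤ A) → ℤ) =
        bb.equivFun (∑ i ∈ Finset.range k, δ i • (σ^[j * i]) (bb.equivFun.symm v)) := by
      rw [map_sum]
      apply Finset.sum_congr rfl
      intro i _
      rw [map_smul]
      rfl
    rw [h5, h3, map_zero])
  refine ⟨m, hm, bb.equivFun.symm v, ?_, ?_⟩
  · intro h
    apply hv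
    have := congrArg bb.equivFun h
    rw [LinearEquiv.apply_symm_apply, map_zero] at this
    exact this
  · have hv : (bb.repr (bb.equivFun.symm v) : Fin (Module.finrank ℤ A) → ℤ) = v := by
      have := bb.equivFun.apply_symm_apply v
      exact this
    apply bb.equivFun.injective
    have := hMk m (bb.equivFun.symm v)
    rw [hv, hvm] at this
    rw [LinearEquiv.apply_symm_apply]
    exact this.symm

private theorem fp_pigeon {G : Type} [Group G] (g b : G) (T : Set G) (hT : T.Finite)
    (h : ∀ i : ℕ, g ^ i * b * g⁻¹ ^ i ∈ T) : ∃ m : ℕ, 1 ≤ m ∧ g ^ m * b * g⁻¹ ^ m = b := by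
  have : ∃ i j : ℕ, i < j ∧ g ^ i * b * g⁻¹ ^ i = g ^ j * b * g⁻¹ ^ j := by
    have hf : Finite T := hT.to_subtype
    obtain ⟨i, j, hij, he⟩ := Finite.exists_ne_map_eq_of_infinite
      (fun i : ℕ => (⟨g ^ i * b * g⁻¹ ^ i, h i⟩ : T))
    have he' : g ^ i * b * g⁻¹ ^ i = g ^ j * b * g⁻¹ ^ j := congrArg Subtype.val he
    rcases lt_or_gt_of_ne hij with h | h
    · exact ⟨i, j, h, he'⟩
    · exact ⟨j, i, h, he'.symm⟩
  obtain ⟨i, j, hij, he⟩ := this
  obtain ⟨m, rfl⟩ := Nat.exists_eq_add_of_lt hij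
  refine ⟨m + 1, by omega, ?_⟩
  have h1 : g ^ (i + m + 1) = g ^ i * g ^ (m + 1) := by rw [← pow_add]; rfl
  have h2 : g⁻¹ ^ (i + m + 1) = g⁻¹ ^ (m + 1) * g⁻¹ ^ i := by
    rw [← pow_add]; congr 1; omega
  have h3 : g⁻¹ ^ i = (g ^ i)⁻¹ := inv_pow g i
  rw [h1, h2] at he
  have h4 : g ^ i * b * g⁻¹ ^ i = g ^ i * (g ^ (m + 1) * b * g⁻¹ ^ (m + 1)) * g⁻¹ ^ i := by
    rw [he]; group
  have h5 := mul_right_cancel h4
  exact (mul_left_cancel h5).symm

theorem fixed_power {G : Type} [Group G] (h : SubExp G) (B : Subgroup G) (hB : B ≠ ⊥)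
    (hfg : ∀ C : Subgroup G, C ≤ B → C.FG) (hab : ∀ x ∈ B, ∀ y ∈ B, x * y = y * x) (g : G)
    (h1 : ∀ x ∈ B, g * x * g⁻¹ ∈ B) (h2 : ∀ x ∈ B, g⁻¹ * x * g ∈ B) :
    ∃ m : ℕ, 1 ≤ m ∧ ∃ b ∈ B, b ≠ 1 ∧ g ^ m * b * g⁻¹ ^ m = b := by
  let cg : CommGroup B :=
    { (inferInstance : Group B) with
      mul_comm := fun x y => Subtype.ext (hab x x.2 y y.2) }
  have hiter : ∀ (i : ℕ) (x : G), g ^ (i + 1) * x * g⁻¹ ^ (i + 1) =
      g * (g ^ i * x * g⁻¹ ^ i) * g⁻¹ := by
    intro i x
    rw [pow_succ' g i, pow_succ g⁻¹ i]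
    group
  by_cases htf : IsMulTorsionFree B
  · let σ : B ≃* B :=
      { toFun := fun x => ⟨g * x * g⁻¹, h1 x x.2⟩
        invFun := fun x => ⟨g⁻¹ * x * g, h2 x x.2⟩
        left_inv := fun x => Subtype.ext (by
          show g⁻¹ * (g * x * g⁻¹) * g = x
          group)
        right_inv := fun x => Subtype.ext (by
          show g * (g⁻¹ * x * g) * g⁻¹ = x
          group)
        map_mul' := fun x y => Subtype.ext (by
          show g * (x * y) * g⁻¹ = g * x * g⁻¹ * (g * y * g⁻¹)
          group) }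
    have hσ : ∀ (i : ℕ) (x : Additive B),
        (((MulEquiv.toAdditive σ)^[i] x).toMul : G) = g ^ i * (x.toMul : G) * g⁻¹ ^ i := by
      intro i
      induction i with
      | zero => intro x; simp
      | succ i ih =>
        intro x
        rw [Function.iterate_succ_apply', hiter, ← ih x]
        rfl
    have hfgB : Group.FG B := (Group.fg_iff_subgroup_fg B).2 (hfg B le_rfl)
    have hfin : Module.Finite ℤ (Additive B) :=
      Module.Finite.iff_addGroup_fg.2 (GroupFG.iff_add_fg.1 hfgB)
    have hnt : Nontrivial (Additive B) := by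
      have : Nontrivial B := (Subgroup.nontrivial_iff_ne_bot B).2 hB
      infer_instance
    have htf' : IsAddTorsionFree (Additive B) := inferInstance
    obtain ⟨m, hm, x, hx, hxm⟩ := fp_additive (MulEquiv.toAdditive σ) (by
      intro j hj x
      obtain ⟨n, e, e', he, he', ⟨i0, hi0, hne⟩, hprod⟩ :=
        subexp_relation h (g ^ j) (x.toMul : G)
      refine ⟨n, fun i => (e i : ℤ) - e' i, ?_, ⟨i0, hi0, ?_⟩, ?_⟩
      · intro i
        have a1 := he i
        have a2 := he' i
        rw [abs_le]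
        constructor <;> push_cast <;> omega
      · intro h0
        apply hne
        have : (e i0 : ℤ) = e' i0 := by linarith
        exact_mod_cast this
      · have key : ∀ (f : ℕ → ℕ) (n : ℕ),
            ((∑ i ∈ Finset.range n, f i • ((MulEquiv.toAdditive σ)^[j * i]) x).toMul : G) =
            ((List.range n).map (fun i => (g ^ j) ^ i * (x.toMul : G) ^ f i *
              (g ^ j)⁻¹ ^ i)).prod := by
          intro f n
          induction n with
          | zero => simp
          | succ n ih =>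
            rw [Finset.sum_range_succ, List.range_succ, List.map_append, List.prod_append,
              ← ih]
            have h3 : (((MulEquiv.toAdditive σ)^[j * n] x).toMul : G) ^ f n =
                (g ^ j) ^ n * (x.toMul : G) ^ f n * (g ^ j)⁻¹ ^ n := by
              rw [hσ (j * n) x]
              have e1 : g⁻¹ ^ (j * n) = ((g ^ j) ^ n)⁻¹ := by
                rw [pow_mul, inv_pow, inv_pow]
              have e2 : (g ^ j)⁻¹ ^ n = ((g ^ j) ^ n)⁻¹ := by rw [inv_pow]
              rw [pow_mul g j n, e1, e2, conj_pow]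
            simp only [List.map_cons, List.map_nil, List.prod_cons, List.prod_nil, mul_one]
            rw [← h3]
            rfl
        have h4 : ∑ i ∈ Finset.range n, e i • ((MulEquiv.toAdditive σ)^[j * i]) x =
            ∑ i ∈ Finset.range n, e' i • ((MulEquiv.toAdditive σ)^[j * i]) x := by
          apply Additive.toMul.injective
          apply Subtype.ext
          rw [key e n, key e' n]
          exact hprod
        have h5 : ∀ i ∈ Finset.range n, ((e i : ℤ) - e' i) •
            ((MulEquiv.toAdditive σ)^[j * i]) x =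
            e i • ((MulEquiv.toAdditive σ)^[j * i]) x -
              e' i • ((MulEquiv.toAdditive σ)^[j * i]) x := by
          intro i _
          rw [sub_smul, natCast_zsmul, natCast_zsmul]
        rw [Finset.sum_congr rfl h5, Finset.sum_sub_distrib, h4, sub_self])
    refine ⟨m, hm, (x.toMul : G), x.toMul.2, ?_, ?_⟩
    · intro h3
      apply hx
      apply Additive.toMul.injective
      apply Subtype.ext
      exact h3
    · rw [← hσ m x, hxm]
  · rw [not_isMulTorsionFree_iff_isOfFinOrder] at htf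
    obtain ⟨b, hb, hbf⟩ := htf
    obtain ⟨n, hn, hbn⟩ := isOfFinOrder_iff_pow_eq_one.1 hbf
    -- the subgroup of the elements of exponent n
    let C : Subgroup G :=
      { carrier := {x | x ∈ B ∧ x ^ n = 1}
        mul_mem' := by
          rintro x y ⟨hx, hx'⟩ ⟨hy, hy'⟩
          refine ⟨B.mul_mem hx hy, ?_⟩
          have hc : Commute x y := hab x hx y hy
          rw [hc.mul_pow, hx', hy', one_mul]
        one_mem' := ⟨B.one_mem, one_pow n⟩
        inv_mem' := by
          rintro x ⟨hx, hx'⟩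
          refine ⟨B.inv_mem hx, ?_⟩
          rw [inv_pow, hx', inv_one] }
    have hCB : C ≤ B := fun x hx => hx.1
    have hCfg : Group.FG C := (Group.fg_iff_subgroup_fg C).2 (hfg C hCB)
    let cg' : CommGroup C :=
      { (inferInstance : Group C) with
        mul_comm := fun x y => Subtype.ext (hab x (hCB x.2) y (hCB y.2)) }
    have hCfin : Finite C := by
      apply CommGroup.finite_of_fg_isMulTorsion
      intro x
      rw [isOfFinOrder_iff_pow_eq_one]
      refine ⟨n, hn, ?_⟩
      apply Subtype.ext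
      exact x.2.2
    have hfinC : (C : Set G).Finite := Set.toFinite _
    have hbC : ∀ i : ℕ, g ^ i * (b : G) * g⁻¹ ^ i ∈ (C : Set G) := by
      intro i
      induction i with
      | zero =>
        refine ⟨by simp, ?_⟩
        have := congrArg Subtype.val hbn
        simpa using this
      | succ i ih =>
        rw [hiter]
        refine ⟨h1 _ ih.1, ?_⟩
        rw [conj_pow, ih.2]
        simp
    obtain ⟨m, hm, hfix⟩ := fp_pigeon g (b : G) C hfinC hbC
    exact ⟨m, hm, b, b.2, fun h3 => hb (Subtype.ext h3), hfix⟩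

end Pool.Agent.Helper41.Gap
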