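import Pool.Agent.Helper41.Gap.Defs

set_option autoImplicit false

open scoped Pointwise RealInnerProductSpace TensorProduct
open ProbabilityTheory MeasureTheory Module

namespace Pool.Agent.Helper41.Gap

/-- The one dimensional Gaussian integral of a shifted Gaussian. -/
private theorem gaussA_one (al σ c : ℝ) (hal : 0 ≤ al) :
    ∫ x, Real.exp (-al * (σ * x + c) ^ 2) ∂(gaussianReal 0 1) ≤
      (1 + 2 * al * σ ^ 2) ^ (-(1 / 2) : ℝ) := by
  set β : ℝ := 1 + 2 * al * σ ^ 2 with hβ
  have hβ1 : 1 ≤ β := by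
    have : 0 ≤ 2 * al * σ ^ 2 := by positivity
    linarith
  have hβ0 : 0 < β := by linarith
  rw [integral_gaussianReal_eq_integral_smul one_ne_zero]
  have h1 : ∀ x : ℝ, gaussianPDFReal 0 1 x • Real.exp (-al * (σ * x + c) ^ 2) =
      ((√(2 * Real.pi))⁻¹ * Real.exp (-(al * c ^ 2 / β))) *
        Real.exp (-(β / 2) * (x + 2 * al * σ * c / β) ^ 2) := by
    intro x
    rw [gaussianPDFReal_def, smul_eq_mul]
    simp only [NNReal.coe_one, mul_one, sub_zero]
    rw [mul_assoc, mul_assoc, ← Real.exp_add, ← Real.exp_add]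
    congr 2
    field_simp
    rw [hβ]
    ring
  simp_rw [h1]
  rw [integral_const_mul]
  have h2 : ∫ x : ℝ, Real.exp (-(β / 2) * (x + 2 * al * σ * c / β) ^ 2) =
      √(Real.pi / (β / 2)) := by
    rw [integral_add_right_eq_self (fun x : ℝ => Real.exp (-(β / 2) * x ^ 2))]
    exact integral_gaussian (β / 2)
  rw [h2]
  have h3 : (√(2 * Real.pi))⁻¹ * √(Real.pi / (β / 2)) = (√β)⁻¹ := by
    rw [← Real.sqrt_inv, ← Real.sqrt_mul (by positivity), ← Real.sqrt_inv]
    congr 1
    have := Real.pi_pos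
    field_simp
  have h4 : Real.exp (-(al * c ^ 2 / β)) ≤ 1 := by
    rw [Real.exp_le_one_iff]
    have : 0 ≤ al * c ^ 2 / β := by positivity
    linarith
  calc (√(2 * Real.pi))⁻¹ * Real.exp (-(al * c ^ 2 / β)) * √(Real.pi / (β / 2))
      = ((√(2 * Real.pi))⁻¹ * √(Real.pi / (β / 2))) * Real.exp (-(al * c ^ 2 / β)) := by ring
    _ = (√β)⁻¹ * Real.exp (-(al * c ^ 2 / β)) := by rw [h3]
    _ ≤ (√β)⁻¹ * 1 := by
        apply mul_le_mul_of_nonneg_left h4
        positivity
    _ = β ^ (-(1 / 2) : ℝ) := by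
        rw [mul_one, Real.rpow_neg hβ0.le, Real.sqrt_eq_rpow]

/-- Diagonal version of the small ball estimate. -/
private theorem gaussA_diag {n : ℕ} (m : Fin n → ℝ) (hm : ∀ k, 0 ≤ m k) (R2 D : ℝ)
    (hR : 0 < R2) (hD : 0 < D) (hsum : ∑ k, m k = R2) (hle : ∀ k, m k ≤ R2 / D)
    (c : Fin n → ℝ) (σ q : ℝ) (hσ : 0 < σ) (hq : 0 < q) :
    (Measure.pi (fun _ : Fin n => gaussianReal 0 1)).real
      {x | ∑ k, m k * (σ * x k + c k) ^ 2 ≤ q} ≤
      (Real.exp 1 * q / (σ ^ 2 * R2)) ^ (D / 2) := by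
  set s : ℝ := D / (2 * q) with hs
  have hs0 : 0 < s := by positivity
  set X : (Fin n → ℝ) → ℝ := fun x => ∑ k, m k * (σ * x k + c k) ^ 2 with hX
  have hXnn : ∀ x, 0 ≤ X x := fun x =>
    Finset.sum_nonneg fun k _ => mul_nonneg (hm k) (sq_nonneg _)
  have hXc : Continuous X := by
    simp only [hX]; fun_prop
  have hint : Integrable (fun x => Real.exp (-s * X x))
      (Measure.pi (fun _ : Fin n => gaussianReal 0 1)) := by
    refine Integrable.of_bound (C := 1) ?_ ?_
    · exact (Real.continuous_exp.comp (continuous_const.mul hXc)).aestronglyMeasurable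
    · refine Filter.Eventually.of_forall fun x => ?_
      rw [Real.norm_eq_abs, abs_of_pos (Real.exp_pos _), Real.exp_le_one_iff]
      have := mul_nonneg hs0.le (hXnn x)
      linarith
  have h1 := measure_le_le_exp_mul_mgf (μ := Measure.pi (fun _ : Fin n => gaussianReal 0 1))
    (X := X) (t := -s) q (by linarith) hint
  have h2 : mgf X (Measure.pi (fun _ : Fin n => gaussianReal 0 1)) (-s) ≤
      ∏ k, (1 + 2 * (s * m k) * σ ^ 2) ^ (-(1 / 2) : ℝ) := by
    unfold mgf
    have e1 : ∀ x : Fin n → ℝ, Real.exp (-s * X x) =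
        ∏ k, Real.exp (-(s * m k) * (σ * x k + c k) ^ 2) := by
      intro x
      rw [← Real.exp_sum]
      congr 1
      simp only [hX, Finset.mul_sum]
      refine Finset.sum_congr rfl fun k _ => ?_
      ring
    simp_rw [e1]
    rw [integral_fintype_prod_eq_prod
      (f := fun k (y : ℝ) => Real.exp (-(s * m k) * (σ * y + c k) ^ 2))]
    refine Finset.prod_le_prod (fun k _ => ?_) (fun k _ => ?_)
    · exact integral_nonneg fun y => (Real.exp_pos _).le
    · exact gaussA_one (s * m k) σ (c k) (mul_nonneg hs0.le (hm k))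
  -- the product of the factors
  set μ : ℝ := R2 / D with hμ
  have hμ0 : 0 < μ := by positivity
  set y : ℝ := 2 * s * σ ^ 2 with hy
  have hy0 : 0 < y := by positivity
  have h3 : (1 + y * μ) ^ D ≤ ∏ k, (1 + y * m k) := by
    have e1 : (1 + y * μ) ^ D = ∏ k, (1 + y * μ) ^ (m k / μ) := by
      rw [← Real.rpow_sum_of_pos (by positivity)]
      congr 1
      rw [← Finset.sum_div, hsum, hμ]
      field_simp
    rw [e1]
    refine Finset.prod_le_prod (fun k _ => by positivity) (fun k _ => ?_)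
    have e2 := rpow_one_add_le_one_add_mul_self (s := y * μ)
      (by have : 0 ≤ y * μ := by positivity
          linarith) (p := m k / μ) (div_nonneg (hm k) hμ0.le)
      ((div_le_one hμ0).mpr (hle k))
    refine e2.trans (le_of_eq ?_)
    field_simp
  have h4 : y * μ = σ ^ 2 * R2 / q := by
    rw [hy, hμ, hs]
    field_simp
  have h5 : ∏ k, (1 + 2 * (s * m k) * σ ^ 2) ^ (-(1 / 2) : ℝ) ≤
      (σ ^ 2 * R2 / q) ^ (-(D / 2)) := by
    have e1 : ∏ k, (1 + 2 * (s * m k) * σ ^ 2) ^ (-(1 / 2) : ℝ) =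
        (∏ k, (1 + y * m k)) ^ (-(1 / 2) : ℝ) := by
      rw [← Real.finsetProd_rpow _ _ (fun k _ => by
        have := mul_nonneg hy0.le (hm k)
        linarith)]
      refine Finset.prod_congr rfl fun k _ => ?_
      congr 1
      rw [hy]; ring
    rw [e1]
    have hb : 0 < σ ^ 2 * R2 / q := by positivity
    have e2 : (σ ^ 2 * R2 / q) ^ D ≤ ∏ k, (1 + y * m k) := by
      refine le_trans ?_ h3
      rw [← h4]
      exact Real.rpow_le_rpow (by positivity) (by linarith) hD.le
    have e3 : (σ ^ 2 * R2 / q) ^ (-(D / 2)) = ((σ ^ 2 * R2 / q) ^ D) ^ (-(1 / 2) : ℝ) := by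
      rw [← Real.rpow_mul hb.le]
      congr 1
      ring
    rw [e3]
    exact Real.rpow_le_rpow_of_nonpos (by positivity) e2 (by norm_num)
  have h6 : Real.exp (- -s * q) = Real.exp (D / 2) := by
    congr 1
    rw [hs]
    field_simp
  refine h1.trans ?_
  rw [h6]
  refine (mul_le_mul_of_nonneg_left (h2.trans h5) (Real.exp_pos _).le).trans (le_of_eq ?_)
  have e1 : Real.exp (D / 2) = (Real.exp 1) ^ (D / 2) := by
    rw [← Real.exp_mul, one_mul]
  rw [Real.rpow_neg (by positivity), ← Real.inv_rpow (by positivity), e1,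
    ← Real.mul_rpow (Real.exp_pos _).le (by positivity)]
  congr 1
  field_simp

/-- Small ball estimate for Gaussian quadratic forms. -/
theorem small_ball {W : Type} [NormedAddCommGroup W] [InnerProductSpace ℝ W]
    [FiniteDimensional ℝ W] [MeasurableSpace W] [BorelSpace W] {κ : Type} [Fintype κ]
    (p : κ → ℝ) (hp : ∀ z, 0 ≤ p z) (a : κ → W) (R2 D : ℝ) (hR : 0 < R2) (hD : 0 < D)
    (htr : ∑ z, p z * ‖a z‖ ^ 2 = R2)
    (hop : ∀ u : W, ∑ z, p z * ⟪u, a z⟫ ^ 2 ≤ R2 / D * ‖u‖ ^ 2)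
    (c : W) (σ q : ℝ) (hσ : 0 < σ) (hq : 0 < q) :
    (stdGaussian W).real {ξ | ∑ z, p z * ⟪σ • ξ + c, a z⟫ ^ 2 ≤ q} ≤
      (Real.exp 1 * q / (σ ^ 2 * R2)) ^ (D / 2) := by
  set A : W →ₗ[ℝ] W :=
    ∑ z, p z • ((LinearMap.toSpanSingleton ℝ W (a z)).comp (innerₛₗ ℝ (a z))) with hA
  have hAapp : ∀ x, A x = ∑ z, p z • (⟪a z, x⟫ • a z) := by
    intro x
    simp [hA, LinearMap.sum_apply]
  have hinner : ∀ x y, ⟪x, A y⟫ = ∑ z, p z * (⟪a z, y⟫ * ⟪x, a z⟫) := by
    intro x y
    rw [hAapp, inner_sum]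
    refine Finset.sum_congr rfl fun z _ => ?_
    rw [real_inner_smul_right, real_inner_smul_right]
  have hsymm : A.IsSymmetric := by
    intro x y
    rw [real_inner_comm, hinner, hinner]
    refine Finset.sum_congr rfl fun z _ => ?_
    rw [real_inner_comm (a z) x, real_inner_comm (a z) y]
    ring
  set n := finrank ℝ W with hn
  set b : OrthonormalBasis (Fin n) ℝ W := hsymm.eigenvectorBasis hn.symm with hb
  set m : Fin n → ℝ := fun k => hsymm.eigenvalues hn.symm k with hm
  have hAb : ∀ k, A (b k) = m k • b k := by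
    intro k
    have := hsymm.apply_eigenvectorBasis hn.symm k
    simpa only [RCLike.ofReal_real_eq_id, id_eq] using this
  -- the quadratic form
  have hQ : ∀ x, ∑ z, p z * ⟪x, a z⟫ ^ 2 = ⟪x, A x⟫ := by
    intro x
    rw [hinner]
    refine Finset.sum_congr rfl fun z _ => ?_
    rw [real_inner_comm x (a z)]
    ring
  have hQb : ∀ x, ⟪x, A x⟫ = ∑ k, m k * ⟪b k, x⟫ ^ 2 := by
    intro x
    rw [← b.sum_inner_mul_inner x (A x)]
    refine Finset.sum_congr rfl fun k _ => ?_
    rw [← hsymm (b k) x, hAb k, real_inner_smul_left, real_inner_comm (b k) x]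
    ring
  have hmk : ∀ k, m k = ∑ z, p z * ⟪b k, a z⟫ ^ 2 := by
    intro k
    rw [hQ, hAb, real_inner_smul_right, real_inner_self_eq_norm_sq, b.orthonormal.1 k]
    ring
  have hm0 : ∀ k, 0 ≤ m k := by
    intro k
    rw [hmk]
    exact Finset.sum_nonneg fun z _ => mul_nonneg (hp z) (sq_nonneg _)
  have hmle : ∀ k, m k ≤ R2 / D := by
    intro k
    rw [hmk]
    refine (hop (b k)).trans (le_of_eq ?_)
    rw [b.orthonormal.1 k]
    ring
  have hmsum : ∑ k, m k = R2 := by
    simp_rw [hmk]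
    rw [Finset.sum_comm, ← htr]
    refine Finset.sum_congr rfl fun z _ => ?_
    rw [← Finset.mul_sum, b.sum_sq_inner_right]
  have hkey := gaussA_diag m hm0 R2 D hR hD hmsum hmle (fun k => ⟪b k, c⟫) σ q hσ hq
  refine le_trans (le_of_eq ?_) hkey
  rw [stdGaussian_eq_map_pi_orthonormalBasis b, measureReal_def, measureReal_def,
    Measure.map_apply (by fun_prop)]
  · congr 2
    ext x
    simp only [Set.mem_preimage, Set.mem_ofPred_eq]
    rw [hQ, hQb]
    have : ∀ k, ⟪b k, σ • (∑ i, x i • b i) + c⟫ = σ * x k + ⟪b k, c⟫ := by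
      intro k
      rw [inner_add_right, real_inner_smul_right, inner_sum]
      congr 2
      rw [Finset.sum_eq_single k]
      · rw [real_inner_smul_right, real_inner_self_eq_norm_sq, b.orthonormal.1 k]; ring
      · intro j _ hj
        rw [real_inner_smul_right, b.orthonormal.2 (Ne.symm hj), mul_zero]
      · intro h; exact absurd (Finset.mem_univ k) h
    simp_rw [this]
  · exact measurableSet_le (by fun_prop) measurable_const

end Pool.Agent.Helper41.Gap
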