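import Pool.Agent.Helper41.Gap.Defs

set_option autoImplicit false

open scoped Pointwise RealInnerProductSpace TensorProduct
open ProbabilityTheory MeasureTheory Module

namespace Pool.Agent.Helper41.Gap

private theorem ggb_map {W : Type} [NormedAddCommGroup W] [InnerProductSpace ℝ W]
    [FiniteDimensional ℝ W] [MeasurableSpace W] [BorelSpace W] (a : W) :
    (stdGaussian W).map (fun ξ => ⟪ξ, a⟫) = gaussianReal 0 (‖a‖₊ ^ 2) := by
  have h := IsGaussian.map_eq_gaussianReal (μ := stdGaussian W) (innerSL ℝ a)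
  have h1 : (⇑(innerSL ℝ a) : W → ℝ) = fun ξ => ⟪ξ, a⟫ := by
    ext ξ
    rw [innerSL_apply_apply, real_inner_comm]
  rw [integral_strongDual_stdGaussian, variance_dual_stdGaussian, innerSL_apply_norm] at h
  rw [← h1, h]
  congr 1
  ext
  rw [Real.coe_toNNReal _ (by positivity)]
  simp

private theorem ggb_chern {W : Type} [NormedAddCommGroup W] [InnerProductSpace ℝ W]
    [FiniteDimensional ℝ W] [MeasurableSpace W] [BorelSpace W] (a : W) (s ε : ℝ) (hs : 0 ≤ s) :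
    (stdGaussian W).real {ξ | ε ≤ ⟪ξ, a⟫} ≤ Real.exp (-s * ε + ‖a‖ ^ 2 * s ^ 2 / 2) := by
  have hm := ggb_map a
  have hint : Integrable (fun ξ : W => Real.exp (s * ⟪ξ, a⟫)) (stdGaussian W) := by
    have h1 := integrable_exp_mul_gaussianReal (μ := 0) (v := ‖a‖₊ ^ 2) s
    rw [← hm] at h1
    exact (integrable_map_measure (f := fun ξ : W => ⟪ξ, a⟫) (g := fun x : ℝ => Real.exp (s * x))
      (by fun_prop) (by fun_prop)).1 h1
  have h2 := measure_ge_le_exp_mul_mgf (μ := stdGaussian W) (X := fun ξ => ⟪ξ, a⟫) ε hs hint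
  rw [mgf_gaussianReal hm, ← Real.exp_add] at h2
  refine h2.trans (le_of_eq ?_)
  congr 1
  simp

theorem gauss_tail {W : Type} [NormedAddCommGroup W] [InnerProductSpace ℝ W]
    [FiniteDimensional ℝ W] [MeasurableSpace W] [BorelSpace W] (a : W) (t : ℝ) (ht : 0 ≤ t) :
    (stdGaussian W).real {ξ | t * ‖a‖ < |⟪ξ, a⟫|} ≤ 2 * Real.exp (-t ^ 2 / 2) := by
  rcases eq_or_ne a 0 with ha | ha
  · have : {ξ : W | t * ‖a‖ < |⟪ξ, a⟫|} = ∅ := by
      ext ξ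
      simp [ha]
    rw [this]
    simp
    positivity
  · have hn : 0 < ‖a‖ := norm_pos_iff.2 ha
    have hsub : {ξ : W | t * ‖a‖ < |⟪ξ, a⟫|} ⊆
        {ξ | t * ‖a‖ ≤ ⟪ξ, a⟫} ∪ {ξ | t * ‖a‖ ≤ ⟪ξ, -a⟫} := by
      intro ξ hξ
      have hξ' : t * ‖a‖ < |⟪ξ, a⟫| := hξ
      rcases lt_abs.1 hξ' with h | h
      · left; exact h.le
      · right
        change t * ‖a‖ ≤ ⟪ξ, -a⟫
        rw [inner_neg_right]; exact h.le
    have h1 := ggb_chern a (t / ‖a‖) (t * ‖a‖) (by positivity)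
    have h2 := ggb_chern (-a) (t / ‖a‖) (t * ‖a‖) (by positivity)
    rw [norm_neg] at h2
    have h3 : -(t / ‖a‖) * (t * ‖a‖) + ‖a‖ ^ 2 * (t / ‖a‖) ^ 2 / 2 = -t ^ 2 / 2 := by
      field_simp
      ring
    rw [h3] at h1 h2
    have h4 := (measureReal_mono (μ := stdGaussian W) hsub).trans
      (measureReal_union_le _ _)
    linarith

theorem gauss_exp {W : Type} [NormedAddCommGroup W] [InnerProductSpace ℝ W]
    [FiniteDimensional ℝ W] [MeasurableSpace W] [BorelSpace W] (b : W) (σ t : ℝ) (hσ : 0 < σ) :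
    (stdGaussian W).real {ξ | t ≤ 2 * ⟪σ • ξ, b⟫ - ‖b‖ ^ 2} ≤ Real.exp (-t / (2 * σ ^ 2)) := by
  have h1 := ggb_chern b (1 / σ) ((t + ‖b‖ ^ 2) / (2 * σ)) (by positivity)
  have h2 : {ξ : W | t ≤ 2 * ⟪σ • ξ, b⟫ - ‖b‖ ^ 2} = {ξ | (t + ‖b‖ ^ 2) / (2 * σ) ≤ ⟪ξ, b⟫} := by
    ext ξ
    change t ≤ 2 * ⟪σ • ξ, b⟫ - ‖b‖ ^ 2 ↔ (t + ‖b‖ ^ 2) / (2 * σ) ≤ ⟪ξ, b⟫
    rw [div_le_iff₀ (by positivity), real_inner_smul_left]
    constructor <;> intro h <;> linarith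
  rw [h2]
  refine h1.trans (le_of_eq ?_)
  congr 1
  field_simp
  ring

end Pool.Agent.Helper41.Gap
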