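import Pool.Agent.Helper41.Gap.Markov

set_option autoImplicit false

open scoped Pointwise RealInnerProductSpace TensorProduct
open ProbabilityTheory MeasureTheory Module

namespace Pool.Agent.Helper41.Gap

/-- finitely supported functions, to be equipped with the `l2` inner product -/
def h98gE (G : Type) : Type := G →₀ ℝ

noncomputable instance h98gAdd (G : Type) : AddCommGroup (h98gE G) :=
  inferInstanceAs (AddCommGroup (G →₀ ℝ))

noncomputable instance h98gMod (G : Type) : Module ℝ (h98gE G) :=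
  inferInstanceAs (Module ℝ (G →₀ ℝ))

/-- value at a point -/
def h98gv {G : Type} (f : h98gE G) (x : G) : ℝ := (show G →₀ ℝ from f) x

/-- the support -/
def h98gs {G : Type} (f : h98gE G) : Finset G := (show G →₀ ℝ from f).support

private lemma h98gv_add {G : Type} (f g : h98gE G) (x : G) : h98gv (f + g) x = h98gv f x + h98gv g x :=
  Finsupp.add_apply _ _ _

private lemma h98gv_smul {G : Type} (c : ℝ) (f : h98gE G) (x : G) : h98gv (c • f) x = c * h98gv f x :=
  Finsupp.smul_apply _ _ _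

private lemma h98gv_sub {G : Type} (f g : h98gE G) (x : G) : h98gv (f - g) x = h98gv f x - h98gv g x :=
  Finsupp.sub_apply _ _ _

private lemma h98gv_zero {G : Type} (x : G) : h98gv (0 : h98gE G) x = 0 := rfl

private lemma h98g_not_mem {G : Type} (f : h98gE G) (x : G) (h : x ∉ h98gs f) : h98gv f x = 0 :=
  Finsupp.notMem_support_iff.1 h

private lemma h98g_ext {G : Type} {f g : h98gE G} (h : ∀ x, h98gv f x = h98gv g x) : f = g :=
  Finsupp.ext h

/-- the inner product -/
noncomputable def h98gi {G : Type} (f g : h98gE G) : ℝ := ∑ x ∈ h98gs f, h98gv f x * h98gv g x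

private lemma h98gi_of_subset {G : Type} (f g : h98gE G) (T : Finset G) (h : h98gs f ⊆ T) :
    h98gi f g = ∑ x ∈ T, h98gv f x * h98gv g x := by
  refine Finset.sum_subset h fun x _ hx => ?_
  rw [h98g_not_mem f x hx, zero_mul]

private lemma h98gi_symm {G : Type} (f g : h98gE G) : h98gi f g = h98gi g f := by
  classical
  rw [h98gi_of_subset f g (h98gs f ∪ h98gs g) Finset.subset_union_left,
    h98gi_of_subset g f (h98gs f ∪ h98gs g) Finset.subset_union_right]
  exact Finset.sum_congr rfl fun x _ => mul_comm _ _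

/-- the inner product space structure -/
@[instance_reducible] noncomputable def h98gCore (G : Type) : InnerProductSpace.Core ℝ (h98gE G) where
  inner := h98gi
  conj_inner_symm f g := by
    simp only [conj_trivial]
    exact h98gi_symm g f
  re_inner_nonneg f := by
    simp only [RCLike.re_to_real]
    exact Finset.sum_nonneg fun x _ => mul_self_nonneg _
  add_left f g h := by
    classical
    rw [h98gi_of_subset (f + g) h (h98gs f ∪ h98gs g ∪ h98gs (f + g)) Finset.subset_union_right,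
      h98gi_of_subset f h (h98gs f ∪ h98gs g ∪ h98gs (f + g))
        (Finset.subset_union_left.trans Finset.subset_union_left),
      h98gi_of_subset g h (h98gs f ∪ h98gs g ∪ h98gs (f + g))
        (Finset.subset_union_right.trans Finset.subset_union_left), ← Finset.sum_add_distrib]
    exact Finset.sum_congr rfl fun x _ => by rw [h98gv_add, add_mul]
  smul_left f g r := by
    classical
    rw [h98gi_of_subset (r • f) g (h98gs f ∪ h98gs (r • f)) Finset.subset_union_right,
      h98gi_of_subset f g (h98gs f ∪ h98gs (r • f)) Finset.subset_union_left, Finset.mul_sum]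
    exact Finset.sum_congr rfl fun x _ => by
      rw [h98gv_smul]
      simp only [conj_trivial]
      ring
  definite f h := by
    refine h98g_ext fun x => ?_
    rw [h98gv_zero]
    by_cases hx : x ∈ h98gs f
    · have := (Finset.sum_eq_zero_iff_of_nonneg (fun x _ => mul_self_nonneg (h98gv f x))).1 h x hx
      exact mul_self_eq_zero.1 this
    · exact h98g_not_mem f x hx

noncomputable instance h98gNorm (G : Type) : NormedAddCommGroup (h98gE G) :=
  @InnerProductSpace.Core.toNormedAddCommGroup ℝ (h98gE G) _ _ _ (h98gCore G)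

noncomputable instance h98gInner (G : Type) : InnerProductSpace ℝ (h98gE G) :=
  InnerProductSpace.ofCore (h98gCore G).toCore

private lemma h98g_inner {G : Type} (f g : h98gE G) : ⟪f, g⟫ = h98gi f g := rfl

private lemma h98g_norm_sq {G : Type} (f : h98gE G) (T : Finset G) (h : h98gs f ⊆ T) :
    ‖f‖ ^ 2 = ∑ x ∈ T, h98gv f x ^ 2 := by
  rw [← real_inner_self_eq_norm_sq, h98g_inner, h98gi_of_subset f f T h]
  exact Finset.sum_congr rfl fun x _ => (sq _).symm

private lemma h98g_abs_le {G : Type} (f : h98gE G) (x : G) : |h98gv f x| ≤ ‖f‖ := by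
  classical
  refine abs_le_of_sq_le_sq ?_ (norm_nonneg _)
  rw [h98g_norm_sq f (insert x (h98gs f)) (Finset.subset_insert _ _)]
  exact Finset.single_le_sum (f := fun y => h98gv f y ^ 2) (fun y _ => sq_nonneg _)
    (Finset.mem_insert_self _ _)

/-- left translation as a linear equivalence -/
noncomputable def h98gT {G : Type} [Group G] (g : G) : h98gE G ≃ₗ[ℝ] h98gE G :=
  (Finsupp.domLCongr (Equiv.mulLeft g) : (G →₀ ℝ) ≃ₗ[ℝ] (G →₀ ℝ))

private lemma h98gv_T {G : Type} [Group G] (g : G) (f : h98gE G) (x : G) :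
    h98gv (h98gT g f) x = h98gv f (g⁻¹ * x) := by
  change (Finsupp.domLCongr (Equiv.mulLeft g) : (G →₀ ℝ) ≃ₗ[ℝ] (G →₀ ℝ)) (show G →₀ ℝ from f) x = _
  rw [Finsupp.domLCongr_apply, Finsupp.domCongr_apply, Finsupp.equivMapDomain_apply]
  rfl

private lemma h98g_norm_T {G : Type} [Group G] (g : G) (f : h98gE G) : ‖h98gT g f‖ = ‖f‖ := by
  classical
  have h : ‖h98gT g f‖ ^ 2 = ‖f‖ ^ 2 := by
    rw [h98g_norm_sq (h98gT g f) (h98gs (h98gT g f) ∪ (h98gs f).image (fun x => g * x))
      Finset.subset_union_left, h98g_norm_sq f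
      ((h98gs (h98gT g f) ∪ (h98gs f).image (fun x => g * x)).image (fun x => g⁻¹ * x))]
    · rw [Finset.sum_image (fun x _ y _ h => mul_left_cancel h)]
      exact Finset.sum_congr rfl fun x _ => by rw [h98gv_T]
    · intro x hx
      refine Finset.mem_image.2 ⟨g * x, Finset.mem_union_right _
        (Finset.mem_image.2 ⟨x, hx, rfl⟩), by group⟩
  have := (pow_left_inj₀ (norm_nonneg (h98gT g f)) (norm_nonneg f) two_ne_zero).1 h
  exact this

/-- left translation as an isometric action -/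
noncomputable def h98gL (G : Type) [Group G] : G →* (h98gE G ≃ₗᵢ[ℝ] h98gE G) where
  toFun g := { h98gT g with norm_map' := h98g_norm_T g }
  map_one' := by
    ext f
    refine h98g_ext fun x => ?_
    change h98gv (h98gT 1 f) x = h98gv f x
    rw [h98gv_T, inv_one, one_mul]
  map_mul' g h := by
    ext f
    refine h98g_ext fun x => ?_
    change h98gv (h98gT (g * h) f) x = h98gv (h98gT g (h98gT h f)) x
    rw [h98gv_T, h98gv_T, h98gv_T, mul_inv_rev, mul_assoc]

private lemma h98gv_L {G : Type} [Group G] (g : G) (f : h98gE G) (x : G) :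
    h98gv (h98gL G g f) x = h98gv f (g⁻¹ * x) := h98gv_T g f x

/-- the point mass at one -/
noncomputable def h98gd (G : Type) [Group G] : h98gE G := Finsupp.single (1 : G) (1 : ℝ)

private lemma h98gv_d {G : Type} [Group G] [DecidableEq G] (x : G) :
    h98gv (h98gd G) x = if x = 1 then 1 else 0 := by
  change Finsupp.single (1 : G) (1 : ℝ) x = _
  rw [Finsupp.single_apply]
  simp only [eq_comm]

private lemma h98gs_d {G : Type} [Group G] : h98gs (h98gd G) ⊆ {1} := by
  exact Finsupp.support_single_subset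

private lemma h98g_norm_d {G : Type} [Group G] [DecidableEq G] : ‖h98gd G‖ ^ 2 = 1 := by
  rw [h98g_norm_sq _ _ h98gs_d]
  simp [h98gv_d]

private lemma h98g_inner_d {G : Type} [Group G] [DecidableEq G] (f : h98gE G) :
    ⟪h98gd G, f⟫ = h98gv f 1 := by
  rw [h98g_inner, h98gi_of_subset _ _ _ h98gs_d]
  simp [h98gv_d]

/-- evaluation as a linear map -/
noncomputable def h98gEv {G : Type} (x : G) : h98gE G →ₗ[ℝ] ℝ where
  toFun f := h98gv f x
  map_add' f g := h98gv_add f g x
  map_smul' c f := h98gv_smul c f x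

section walk

variable {G : Type} [Group G] [DecidableEq G]

/-- the law of the walk as a vector -/
noncomputable def h98gX (S : Finset G) (k : ℕ) : h98gE G := (Pm S (h98gL G) ^ k) (h98gd G)

private lemma h98gv_X {S : Finset G} (hS : SymOne S) (k : ℕ) (x : G) :
    h98gv (h98gX S k) x = if x ∈ S ^ k then law S k x else 0 := by
  rw [h98gX, Pm_pow_apply, ex_eq_sum hS]
  change h98gEv x _ = _
  rw [map_sum]
  have h : ∀ g ∈ S ^ k, h98gEv x (law S k g • h98gL G g (h98gd G)) =
      if x = g then law S k g else 0 := by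
    intro g _
    change h98gv (law S k g • (h98gL G g) (h98gd G)) x = _
    rw [h98gv_smul, h98gv_L, h98gv_d]
    by_cases hx : x = g
    · subst hx
      simp
    · have : g⁻¹ * x ≠ 1 := fun h => hx (inv_mul_eq_one.1 h).symm
      rw [if_neg this, if_neg hx, mul_zero]
  rw [Finset.sum_congr rfl h, Finset.sum_ite_eq]

private lemma h98gv_X_nonneg {S : Finset G} (hS : SymOne S) (k : ℕ) (x : G) :
    0 ≤ h98gv (h98gX S k) x := by
  rw [h98gv_X hS]
  split_ifs
  · exact law_nonneg _ _ _
  · exact le_rfl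

private lemma h98gs_X {S : Finset G} (hS : SymOne S) (k : ℕ) : h98gs (h98gX S k) ⊆ S ^ k := by
  intro x hx
  by_contra h
  have h1 : h98gv (h98gX S k) x = 0 := by rw [h98gv_X hS, if_neg h]
  exact (Finsupp.mem_support_iff.1 hx) h1

private lemma sum_h98gX {S : Finset G} (hS : SymOne S) (k : ℕ) :
    ∑ x ∈ S ^ k, h98gv (h98gX S k) x = 1 := by
  rw [← sum_law hS k]
  exact Finset.sum_congr rfl fun x hx => by rw [h98gv_X hS, if_pos hx]

private lemma sum_h98gX_le {S : Finset G} (hS : SymOne S) (k : ℕ) (T : Finset G) :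
    ∑ x ∈ T, h98gv (h98gX S k) x ≤ 1 := by
  rw [← sum_h98gX hS k]
  calc ∑ x ∈ T, h98gv (h98gX S k) x ≤ ∑ x ∈ T ∪ S ^ k, h98gv (h98gX S k) x :=
        Finset.sum_le_sum_of_subset_of_nonneg Finset.subset_union_left
          fun x _ _ => h98gv_X_nonneg hS k x
    _ = ∑ x ∈ S ^ k, h98gv (h98gX S k) x := by
        refine (Finset.sum_subset Finset.subset_union_right fun x _ hx => ?_).symm
        rw [h98gv_X hS, if_neg hx]

/-- return probabilities -/
noncomputable def h98gp (S : Finset G) (k : ℕ) : ℝ := phi S (h98gL G) (h98gd G) k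

private lemma h98gp_eq (S : Finset G) (k : ℕ) : h98gp S k = h98gv (h98gX S k) 1 := by
  rw [h98gp, phi, h98g_inner_d, h98gX]

private lemma h98gp_two {S : Finset G} (hS : SymOne S) (j k : ℕ) :
    ⟪h98gX S j, h98gX S k⟫ = h98gp S (j + k) := phi_add hS _ _ _ _

private lemma h98g_inv_card_le {S : Finset G} (hS : SymOne S) (k : ℕ) :
    1 ≤ ((S ^ k).card : ℝ) * h98gp S (2 * k) := by
  have h1 : h98gp S (2 * k) = ∑ x ∈ S ^ k, h98gv (h98gX S k) x ^ 2 := by
    rw [two_mul, ← h98gp_two hS, real_inner_self_eq_norm_sq, h98g_norm_sq _ _ (h98gs_X hS k)]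
  have h2 := sq_sum_le_card_mul_sum_sq (s := S ^ k) (f := fun x => h98gv (h98gX S k) x)
  rw [sum_h98gX hS, one_pow] at h2
  rw [h1]
  exact h2

private lemma h98g_move {S : Finset G} (k : ℕ) {c : ℝ}
    (hc : ∀ s ∈ S, ‖h98gX S k - h98gL G s (h98gX S k)‖ ≤ c) (R : ℕ) :
    ∀ g ∈ S ^ R, ‖h98gX S k - h98gL G g (h98gX S k)‖ ≤ R * c := by
  induction R with
  | zero =>
    intro g hg
    have : g = 1 := by simpa using hg
    subst this
    simp
  | succ R ih =>
    intro g hg
    rw [pow_succ] at hg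
    obtain ⟨a, ha, s, hs, rfl⟩ := Finset.mem_mul.1 hg
    have h1 : h98gX S k - h98gL G (a * s) (h98gX S k) = (h98gX S k - h98gL G a (h98gX S k)) +
        h98gL G a (h98gX S k - h98gL G s (h98gX S k)) := by
      rw [map_mul, map_sub]
      change _ - h98gL G a (h98gL G s (h98gX S k)) = _
      abel
    rw [h1]
    refine (norm_add_le _ _).trans ?_
    rw [LinearIsometryEquiv.norm_map]
    push_cast
    have := ih a ha
    have := hc s hs
    linarith

private lemma h98g_gen {S : Finset G} (hS : SymOne S) (hgen : Subgroup.closure (S : Set G) = ⊤)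
    (g : G) : ∃ n : ℕ, g ∈ S ^ n := by
  have hg : g ∈ Subgroup.closure (S : Set G) := by rw [hgen]; trivial
  induction hg using Subgroup.closure_induction with
  | mem x hx => exact ⟨1, by simpa using hx⟩
  | one => exact ⟨0, by simp⟩
  | mul x y _ _ hx hy =>
    obtain ⟨a, ha⟩ := hx
    obtain ⟨b, hb⟩ := hy
    exact ⟨a + b, by rw [pow_add]; exact Finset.mul_mem_mul ha hb⟩
  | inv x _ hx =>
    obtain ⟨a, ha⟩ := hx
    refine ⟨a, ?_⟩
    have h1 : S⁻¹ = S := by
      ext y
      rw [Finset.mem_inv']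
      exact ⟨fun h => by simpa using hS.inv _ h, fun h => hS.inv _ h⟩
    rw [← h1, inv_pow, Finset.mem_inv', inv_inv]
    exact ha

private lemma h98g_pow_mono {S : Finset G} (hS : SymOne S) {m n : ℕ} (h : m ≤ n) :
    S ^ m ⊆ S ^ n := Finset.pow_subset_pow_right hS.one h

private lemma h98gp_tendsto [Infinite G] {S : Finset G} (hS : SymOne S)
    (hgen : Subgroup.closure (S : Set G) = ⊤) (ε : ℝ) (hε : 0 < ε) : ∃ k, h98gp S k < ε := by
  by_contra hcon
  push Not at hcon
  -- M distinct elements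
  obtain ⟨M, hM⟩ := exists_nat_gt (2 / ε)
  obtain ⟨T, hT⟩ := Infinite.exists_subset_card_eq G M
  choose n hn using h98g_gen hS hgen
  let R := T.sup n
  have hR : ∀ g ∈ T, g ∈ S ^ R := fun g hg => h98g_pow_mono hS (Finset.le_sup hg) (hn g)
  -- small displacement
  have hdisp : ∀ k : ℕ, ∀ s ∈ S, ‖h98gX S k - h98gL G s (h98gX S k)‖ ≤
      Real.sqrt (4 * (S.card : ℝ) / (2 * k + 1)) := by
    intro k s hs
    refine Real.le_sqrt_of_sq_le ?_
    refine (disp_le hS (h98gL G) (h98gX S k) hs).trans ?_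
    have h1 : ‖h98gX S k‖ ^ 2 - ⟪h98gX S k, Pm S (h98gL G) (h98gX S k)⟫ =
        h98gp S (2 * k) - h98gp S (2 * k + 1) := by
      rw [← real_inner_self_eq_norm_sq, h98gp_two hS, two_mul]
      congr 1
      have : Pm S (h98gL G) (h98gX S k) = h98gX S (k + 1) := by
        rw [h98gX, h98gX, pow_succ']
        rfl
      rw [this, h98gp_two hS]
      rfl
    rw [h1]
    have h2 := phi_diff_le hS (h98gL G) (h98gd G) (2 * k)
    rw [h98g_norm_d] at h2
    push_cast at h2
    have h3 : 4 * (S.card : ℝ) * (h98gp S (2 * k) - h98gp S (2 * k + 1)) ≤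
        4 * (S.card : ℝ) * (1 / (2 * k + 1)) :=
      mul_le_mul_of_nonneg_left h2 (by positivity)
    refine h3.trans (le_of_eq ?_)
    ring
  have htend : Filter.Tendsto (fun k : ℕ => (R : ℝ) * Real.sqrt (4 * (S.card : ℝ) / (2 * k + 1)))
      Filter.atTop (nhds 0) := by
    have h1 : Filter.Tendsto (fun k : ℕ => 4 * (S.card : ℝ) / (2 * (k : ℝ) + 1))
        Filter.atTop (nhds 0) := by
      refine Filter.Tendsto.div_atTop tendsto_const_nhds ?_
      refine Filter.tendsto_atTop_add_const_right _ _ ?_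
      exact Filter.Tendsto.const_mul_atTop (by norm_num) tendsto_natCast_atTop_atTop
    have h2 := (Real.continuous_sqrt.tendsto 0).comp h1
    rw [Real.sqrt_zero] at h2
    simpa using h2.const_mul (R : ℝ)
  obtain ⟨k, hk⟩ := (htend.eventually (gt_mem_nhds (half_pos hε))).exists
  have hval : ∀ g ∈ T, ε / 2 ≤ h98gv (h98gX S k) g⁻¹ := by
    intro g hg
    have h1 := h98g_move k (hdisp k) R g (hR g hg)
    have h2 := (h98g_abs_le (h98gX S k - h98gL G g (h98gX S k)) 1).trans h1
    rw [h98gv_sub, h98gv_L, mul_one, ← h98gp_eq] at h2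
    have h3 := hcon k
    have h4 := (abs_le.1 h2).2
    linarith
  have h5 := sum_h98gX_le hS k (T.image (fun g => g⁻¹))
  rw [Finset.sum_image (fun x _ y _ h => inv_injective h)] at h5
  have h6 : ∑ g ∈ T, ε / 2 ≤ ∑ g ∈ T, h98gv (h98gX S k) g⁻¹ := Finset.sum_le_sum hval
  rw [Finset.sum_const, hT, nsmul_eq_mul] at h6
  have h7 : (2 / ε) * (ε / 2) < M * (ε / 2) := mul_lt_mul_of_pos_right hM (by positivity)
  have h8 : (2 / ε) * (ε / 2) = 1 := by field_simp
  linarith

/-- first differences -/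
noncomputable def h98gD (S : Finset G) (k : ℕ) : ℝ := h98gp S k - h98gp S (k + 1)

private lemma h98gD_anti {S : Finset G} (hS : SymOne S) : Antitone (h98gD S) :=
  phi_diff_anti hS (h98gL G) (h98gd G)

private lemma h98gD_nonneg {S : Finset G} (hS : SymOne S) (k : ℕ) : 0 ≤ h98gD S k :=
  sub_nonneg.2 (phi_anti hS (h98gL G) (h98gd G) (Nat.le_succ k))

private lemma h98gp_pos {S : Finset G} (hS : SymOne S) (k : ℕ) : 0 < h98gp S k := by
  have h1 := h98g_inv_card_le hS k
  have h2 : h98gp S (2 * k) ≤ h98gp S k := phi_anti hS (h98gL G) (h98gd G) (by omega)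
  have h3 : 0 < h98gp S (2 * k) := by
    by_contra h
    push Not at h
    have : ((S ^ k).card : ℝ) * h98gp S (2 * k) ≤ 0 :=
      mul_nonpos_of_nonneg_of_nonpos (by positivity) h
    linarith
  linarith

private lemma h98gD_pos [Infinite G] {S : Finset G} (hS : SymOne S)
    (hgen : Subgroup.closure (S : Set G) = ⊤) (k : ℕ) : 0 < h98gD S k := by
  refine lt_of_le_of_ne (h98gD_nonneg hS k) fun h0 => ?_
  have h1 : ∀ n, h98gp S (k + n) = h98gp S k := by
    intro n
    induction n with
    | zero => rfl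
    | succ n ih =>
      have h2 : h98gD S (k + n) ≤ h98gD S k := h98gD_anti hS (Nat.le_add_right _ _)
      have h3 := h98gD_nonneg hS (k + n)
      have h4 : h98gD S (k + n) = 0 := le_antisymm (by rw [← h0] at h2; exact h2) h3
      have h5 : h98gp S (k + n) - h98gp S (k + n + 1) = 0 := h4
      rw [← add_assoc]
      linarith
  obtain ⟨j, hj⟩ := h98gp_tendsto hS hgen (h98gp S k) (h98gp_pos hS k)
  have h6 : h98gp S (k + j) ≤ h98gp S j := phi_anti hS (h98gL G) (h98gd G) (by omega)
  rw [h1 j] at h6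
  linarith

private lemma h98gD_ratio [Infinite G] {S : Finset G} (hS : SymOne S)
    (hgen : Subgroup.closure (S : Set G) = ⊤) :
    Monotone (fun k => h98gD S (k + 1) / h98gD S k) := by
  refine monotone_nat_of_le_succ fun k => ?_
  rw [div_le_div_iff₀ (h98gD_pos hS hgen k) (h98gD_pos hS hgen (k + 1)), ← sq]
  have := phi_diff_logconvex hS (h98gL G) (h98gd G) k
  rw [mul_comm] at this
  exact this

private lemma h98g_exists [Infinite G] {S : Finset G} (hS : SymOne S)
    (hgen : Subgroup.closure (S : Set G) = ⊤) (hsub : SubExp G) (ε : ℝ) (hε : 0 < ε) :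
    ∃ j : ℕ, 1 - h98gD S (2 * j + 1) / h98gD S (2 * j) ≤ ε := by
  by_contra hcon
  push Not at hcon
  have hρ : ∀ k, h98gD S (k + 1) ≤ (1 - ε) * h98gD S k := by
    intro k
    have h1 := h98gD_ratio hS hgen (show k ≤ 2 * k by omega)
    have h2 := hcon k
    simp only at h1
    have h3 : h98gD S (k + 1) / h98gD S k ≤ 1 - ε := by linarith
    rwa [div_le_iff₀ (h98gD_pos hS hgen k)] at h3
  have hρ0 : 0 < 1 - ε := by
    have h1 := h98gD_pos hS hgen 1
    have h2 := hρ 0
    have h3 := h98gD_pos hS hgen 0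
    by_contra h
    push Not at h
    have : (1 - ε) * h98gD S 0 ≤ 0 := mul_nonpos_of_nonpos_of_nonneg h h3.le
    simp only [zero_add] at h2
    linarith
  set ρ := 1 - ε with hρdef
  have hdk : ∀ k, h98gD S k ≤ h98gD S 0 * ρ ^ k := by
    intro k
    induction k with
    | zero => simp
    | succ k ih =>
      refine (hρ k).trans ?_
      calc ρ * h98gD S k ≤ ρ * (h98gD S 0 * ρ ^ k) := mul_le_mul_of_nonneg_left ih hρ0.le
        _ = h98gD S 0 * ρ ^ (k + 1) := by ring
  -- phi(k) - phi(k+n) <= d0 rho^k / eps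
  have htel : ∀ k n, ε * (h98gp S k - h98gp S (k + n)) ≤ h98gD S 0 * ρ ^ k * (1 - ρ ^ n) := by
    intro k n
    induction n with
    | zero => simp
    | succ n ih =>
      have h1 : h98gp S (k + n) - h98gp S (k + (n + 1)) = h98gD S (k + n) := rfl
      have h2 := hdk (k + n)
      have h3 : ε * (h98gp S (k + n) - h98gp S (k + (n + 1))) ≤ ε * (h98gD S 0 * ρ ^ (k + n)) := by
        rw [h1]
        exact mul_le_mul_of_nonneg_left h2 hε.le
      have h4 : ε = 1 - ρ := by rw [hρdef]; ring
      calc ε * (h98gp S k - h98gp S (k + (n + 1))) = ε * (h98gp S k - h98gp S (k + n)) +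
            ε * (h98gp S (k + n) - h98gp S (k + (n + 1))) := by ring
        _ ≤ h98gD S 0 * ρ ^ k * (1 - ρ ^ n) + ε * (h98gD S 0 * ρ ^ (k + n)) := add_le_add ih h3
        _ = h98gD S 0 * ρ ^ k * (1 - ρ ^ (n + 1)) := by
            rw [h4]
            ring
  have hD0 := h98gD_pos hS hgen 0
  have hbound : ∀ k, ε * h98gp S k ≤ h98gD S 0 * ρ ^ k := by
    intro k
    refine le_of_forall_pos_le_add fun δ hδ => ?_
    obtain ⟨j, hj⟩ := h98gp_tendsto hS hgen (δ / ε) (by positivity)
    have h1 := htel k j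
    have h2 : h98gp S (k + j) ≤ h98gp S j := phi_anti hS (h98gL G) (h98gd G) (by omega)
    have h3 : ε * h98gp S (k + j) ≤ δ := by
      have : ε * h98gp S (k + j) ≤ ε * (δ / ε) := mul_le_mul_of_nonneg_left (by linarith) hε.le
      rwa [mul_div_cancel₀ _ hε.ne'] at this
    have h4 : h98gD S 0 * ρ ^ k * (1 - ρ ^ j) ≤ h98gD S 0 * ρ ^ k := by
      have : 0 ≤ h98gD S 0 * ρ ^ k * ρ ^ j := by positivity
      nlinarith
    nlinarith
  have hρ1 : 1 < ρ⁻¹ := by
    rw [one_lt_inv₀ hρ0]
    linarith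
  obtain ⟨C, hC⟩ := hsub (S : Set G) S.finite_toSet ρ⁻¹ hρ1
  have hcard : ∀ k : ℕ, ((S ^ k).card : ℝ) ≤ C * ρ⁻¹ ^ k := by
    intro k
    have := hC k
    rwa [← Finset.coe_pow, Set.ncard_coe_finset] at this
  have hfin : ∀ k : ℕ, ε * ρ⁻¹ ^ k ≤ C * h98gD S 0 := by
    intro k
    have h1 := h98g_inv_card_le hS k
    have h2 := hbound (2 * k)
    have h3 := hcard k
    have hpk : 0 < ρ ^ k := by positivity
    have hpi : 0 < ρ⁻¹ ^ k := by positivity
    have hprod : ρ⁻¹ ^ k * ρ ^ k = 1 := by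
      rw [← mul_pow, inv_mul_cancel₀ hρ0.ne', one_pow]
    have h4 : ε ≤ C * ρ⁻¹ ^ k * (h98gD S 0 * ρ ^ (2 * k)) := by
      calc ε = ε * 1 := by ring
        _ ≤ ε * (((S ^ k).card : ℝ) * h98gp S (2 * k)) := mul_le_mul_of_nonneg_left h1 hε.le
        _ = ((S ^ k).card : ℝ) * (ε * h98gp S (2 * k)) := by ring
        _ ≤ (C * ρ⁻¹ ^ k) * (ε * h98gp S (2 * k)) :=
            mul_le_mul_of_nonneg_right h3 (mul_nonneg hε.le (h98gp_pos hS _).le)
        _ ≤ C * ρ⁻¹ ^ k * (h98gD S 0 * ρ ^ (2 * k)) := by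
            refine mul_le_mul_of_nonneg_left h2 ?_
            exact (Nat.cast_nonneg _).trans h3
    calc ε * ρ⁻¹ ^ k ≤ (C * ρ⁻¹ ^ k * (h98gD S 0 * ρ ^ (2 * k))) * ρ⁻¹ ^ k :=
          mul_le_mul_of_nonneg_right h4 hpi.le
      _ = C * h98gD S 0 * ((ρ⁻¹ ^ k * ρ ^ k) * (ρ⁻¹ ^ k * ρ ^ k)) := by ring
      _ = C * h98gD S 0 := by rw [hprod]; ring
  obtain ⟨k, hk⟩ := pow_unbounded_of_one_lt (C * h98gD S 0 / ε) hρ1
  rw [div_lt_iff₀ hε] at hk
  have := hfin k
  linarith

end walk

/-- Step 0: almost harmonic coboundaries. -/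
theorem exists_good (G : Type) [Group G] [DecidableEq G] [Infinite G] (S : Finset G)
    (hS : SymOne S) (hgen : Subgroup.closure (S : Set G) = ⊤) (hsub : SubExp G)
    (η : ℝ) (hη : 0 < η) :
    ∃ (E : Type) (_ : NormedAddCommGroup E) (_ : InnerProductSpace ℝ E) (c : Coc G E),
      Good S c η := by
  obtain ⟨j, hj⟩ := h98g_exists hS hgen hsub (2 * η ^ 2) (by positivity)
  set d := h98gD S (2 * j) with hd
  have hdpos : 0 < d := h98gD_pos hS hgen _
  set ξ := h98gX S j with hξ
  set w : ℝ := (Real.sqrt (2 * d))⁻¹ with hw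
  have hw2 : w ^ 2 = (2 * d)⁻¹ := by
    rw [hw, inv_pow, Real.sq_sqrt (by positivity)]
  have hPX : ∀ i, Pm S (h98gL G) (h98gX S i) = h98gX S (i + 1) := by
    intro i
    rw [h98gX, h98gX, pow_succ']
    rfl
  refine ⟨h98gE G, h98gNorm G, h98gInner G,
    { L := h98gL G
      b := fun g => w • (ξ - h98gL G g ξ)
      coc := ?_ }, ?_, ?_⟩
  · intro g h
    rw [map_smul, ← smul_add, map_sub, map_mul]
    congr 1
    change ξ - h98gL G g (h98gL G h ξ) = _
    abel
  · change av S (fun s => ‖w • (ξ - h98gL G s ξ)‖ ^ 2) = 1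
    have h1 : (fun s => ‖w • (ξ - h98gL G s ξ)‖ ^ 2) =
        fun s => (w ^ 2) • (‖ξ - h98gL G s ξ‖ ^ 2) := by
      funext s
      rw [norm_smul, mul_pow, Real.norm_eq_abs, sq_abs, smul_eq_mul]
    rw [h1]
    have h2 := map_av (LinearMap.lsmul ℝ ℝ (w ^ 2)) S (fun s => ‖ξ - h98gL G s ξ‖ ^ 2)
    simp only [LinearMap.lsmul_apply] at h2
    rw [← h2, disp_av hS, ← real_inner_self_eq_norm_sq, hξ, h98gp_two hS, hPX, h98gp_two hS, hw2,
      smul_eq_mul]
    have h3 : h98gp S (j + j) - h98gp S (j + (j + 1)) = d := by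
      rw [hd, h98gD, two_mul]
      rfl
    rw [h3]
    field_simp
  · change ‖av S (fun s => w • (ξ - h98gL G s ξ))‖ ≤ η
    have h1 : av S (fun s => w • (ξ - h98gL G s ξ)) = w • (ξ - Pm S (h98gL G) ξ) := by
      have h2 := map_av (LinearMap.lsmul ℝ (h98gE G) w) S (fun s => ξ - h98gL G s ξ)
      simp only [LinearMap.lsmul_apply] at h2
      rw [← h2]
      congr 1
      rw [Pm_apply]
      have h3 : av S (fun _ : G => ξ) = ξ := av_const hS ξ
      have h4 : av S (fun s => ξ - h98gL G s ξ) = av S (fun _ : G => ξ) -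
          av S (fun s => h98gL G s ξ) := by
        simp only [av, Finset.sum_sub_distrib, smul_sub]
        abel
      rw [h4, h3]
    rw [h1]
    have h4 : ‖w • (ξ - Pm S (h98gL G) ξ)‖ ^ 2 ≤ η ^ 2 := by
      rw [norm_smul, mul_pow, Real.norm_eq_abs, sq_abs, hw2, norm_sub_sq_real, hξ, hPX,
        ← real_inner_self_eq_norm_sq, ← real_inner_self_eq_norm_sq, h98gp_two hS, h98gp_two hS,
        h98gp_two hS]
      have h5 : h98gp S (j + j) - 2 * h98gp S (j + (j + 1)) + h98gp S (j + 1 + (j + 1)) =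
          d - h98gD S (2 * j + 1) := by
        rw [hd, h98gD, h98gD, show j + j = 2 * j by ring, show j + (j + 1) = 2 * j + 1 by ring,
          show j + 1 + (j + 1) = 2 * j + 1 + 1 by ring]
        ring
      rw [h5]
      have h6 : h98gD S (2 * j + 1) / d * d = h98gD S (2 * j + 1) := div_mul_cancel₀ _ hdpos.ne'
      have h7 : d - h98gD S (2 * j + 1) ≤ 2 * η ^ 2 * d := by
        have := mul_le_mul_of_nonneg_right hj hdpos.le
        rw [sub_mul, one_mul, h6] at this
        exact this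
      calc (2 * d)⁻¹ * (d - h98gD S (2 * j + 1)) ≤ (2 * d)⁻¹ * (2 * η ^ 2 * d) :=
            mul_le_mul_of_nonneg_left h7 (by positivity)
        _ = η ^ 2 := by field_simp
    exact abs_le_of_sq_le_sq' h4 hη.le |>.2

end Pool.Agent.Helper41.Gap
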