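import Pool.Agent.Helper41.Gap.Defs

set_option autoImplicit false

open scoped Pointwise RealInnerProductSpace TensorProduct
open ProbabilityTheory MeasureTheory Module

namespace Pool.Agent.Helper41.Gap

variable {G : Type} [Group G] [DecidableEq G]

private theorem ks_mono {T : Finset G} (hT : SymOne T) {a b : ℕ} (h : a ≤ b) : T ^ a ⊆ T ^ b :=
  Finset.pow_subset_pow_right hT.one h

private theorem ks_inv {T : Finset G} (hT : SymOne T) {a : ℕ} {g : G} (h : g ∈ T ^ a) :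
    g⁻¹ ∈ T ^ a := by
  have hTi : T⁻¹ = T := by
    ext x
    rw [Finset.mem_inv']
    exact ⟨fun hx => by simpa using hT.inv _ hx, fun hx => hT.inv _ hx⟩
  have h1 : g⁻¹ ∈ (T ^ a)⁻¹ := Finset.inv_mem_inv h
  rw [← _root_.inv_pow, hTi] at h1
  exact h1

/-- the sets of almost kernel elements -/
private noncomputable def ksM {W : Type} [NormedAddCommGroup W] (T : Finset G) (ψ : G → W)
    (q : ℕ) (θ : ℝ) : Finset G := by
  classical exact (T ^ q).filter (fun x => ‖ψ x‖ ≤ θ ∧ ‖ψ x⁻¹‖ ≤ θ)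

private theorem mem_ksM {W : Type} [NormedAddCommGroup W] {T : Finset G} {ψ : G → W} {q : ℕ}
    {θ : ℝ} {x : G} : x ∈ ksM T ψ q θ ↔ x ∈ T ^ q ∧ ‖ψ x‖ ≤ θ ∧ ‖ψ x⁻¹‖ ≤ θ := by
  unfold ksM
  simp only [Finset.mem_filter]

private theorem ks_chain {W : Type} [NormedAddCommGroup W] (T : Finset G) (hT : SymOne T)
    (ψ : G → W) (Q : ℕ) (θ : ℕ → ℝ) (hθ : ∀ j, θ j ≤ θ (j + 1))
    (hQ2 : (T ^ (Q * (2 * Q + 6))).card < 2 ^ Q) :
    ∃ j < Q, ∀ x ∈ ksM T ψ (4 + 2 * (j + 1)) (θ (j + 1)),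
      x ∈ Subgroup.closure (ksM T ψ (4 + 2 * j) (θ j) : Set G) := by
  by_contra hcon
  push Not at hcon
  have key : ∀ j ≤ Q, ∃ X : Finset G, X ⊆ T ^ (j * (2 * Q + 6)) ∧
      (∀ x ∈ X, x ∈ Subgroup.closure (ksM T ψ (4 + 2 * j) (θ j) : Set G)) ∧ X.card = 2 ^ j := by
    intro j
    induction j with
    | zero =>
      intro _
      refine ⟨{1}, ?_, ?_, by simp⟩
      · simp
      · intro x hx
        rw [Finset.mem_singleton] at hx
        rw [hx]; exact one_mem _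
    | succ j ih =>
      intro hj
      obtain ⟨X, h1, h2, h3⟩ := ih (by omega)
      obtain ⟨y, hy1, hy2⟩ := hcon j (by omega)
      have hsub : Subgroup.closure (ksM T ψ (4 + 2 * j) (θ j) : Set G) ≤
          Subgroup.closure (ksM T ψ (4 + 2 * (j + 1)) (θ (j + 1)) : Set G) := by
        apply Subgroup.closure_mono
        intro x hx
        rw [Finset.mem_coe, mem_ksM] at hx ⊢
        exact ⟨ks_mono hT (by omega) hx.1, hx.2.1.trans (hθ j), hx.2.2.trans (hθ j)⟩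
      have hyK : y ∈ Subgroup.closure (ksM T ψ (4 + 2 * (j + 1)) (θ (j + 1)) : Set G) :=
        Subgroup.subset_closure hy1
      refine ⟨X ∪ X.image (fun x => x * y), ?_, ?_, ?_⟩
      · intro x hx
        rw [Finset.mem_union, Finset.mem_image] at hx
        rcases hx with hx | ⟨z, hz, rfl⟩
        · exact ks_mono hT (by gcongr; omega) (h1 hx)
        · have hy3 : y ∈ T ^ (2 * Q + 6) := ks_mono hT (by omega) (mem_ksM.1 hy1).1
          have := Finset.mul_mem_mul (h1 hz) hy3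
          rw [← pow_add] at this
          convert this using 2
          ring
      · intro x hx
        rw [Finset.mem_union, Finset.mem_image] at hx
        rcases hx with hx | ⟨z, hz, rfl⟩
        · exact hsub (h2 x hx)
        · exact mul_mem (hsub (h2 z hz)) hyK
      · rw [Finset.card_union_of_disjoint, Finset.card_image_of_injective _
          (mul_left_injective y), h3, pow_succ]
        · ring
        · rw [Finset.disjoint_left]
          intro x hx hx2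
          rw [Finset.mem_image] at hx2
          obtain ⟨z, hz, rfl⟩ := hx2
          apply hy2
          have := mul_mem (inv_mem (h2 z hz)) (h2 _ hx)
          rwa [inv_mul_cancel_left] at this
  obtain ⟨X, h1, _, h3⟩ := key Q le_rfl
  have := Finset.card_le_card h1
  omega

theorem kernel_step {W : Type} [NormedAddCommGroup W] [NormedSpace ℝ W]
    (T : Finset G) (hT : SymOne T) (ψ : G → W) (hψ : ψ 1 = 0)
    (n Q QB : ℕ) (hn : 1 ≤ n) (hQ : 1 ≤ Q) (ω : ℝ) (hω0 : 0 ≤ ω)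
    (hadd : ∀ q₁ q₂ : ℕ, q₁ + q₂ ≤ QB → ∀ g ∈ T ^ q₁, ∀ h ∈ T ^ q₂,
      ‖ψ (g * h) - ψ g - ψ h‖ ≤ ω)
    (hQB : 4 * (n + 1) * (2 * Q + 6) ≤ QB)
    (ht0 : ∃ t ∈ T, 1 ≤ ‖ψ t‖)
    (hω : 1000 * (n + 1) * (2 * Q + 6) * 8 ^ Q * ω ≤ 1)
    (hQ2 : (T ^ (Q * (2 * Q + 6))).card < 2 ^ Q) :
    ∃ (q : ℕ) (M : Finset G), q ≤ 2 * Q + 4 ∧ SymOne M ∧ M ⊆ T ^ q ∧
      (∀ t ∈ T, ∀ x ∈ Subgroup.closure (M : Set G), t * x * t⁻¹ ∈ Subgroup.closure (M : Set G)) ∧
      (∀ t ∈ T, ∀ t' ∈ T, cm t t' ∈ Subgroup.closure (M : Set G)) ∧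
      ∀ r : ℕ, 1 ≤ r → r ≤ n → r * (M ^ r).card ≤ (T ^ (r * (q + 1))).card := by
  have hn' : (1 : ℝ) ≤ n := by exact_mod_cast hn
  have h8 : (1 : ℝ) ≤ 8 ^ Q := one_le_pow₀ (by norm_num)
  have hn1 : (0 : ℝ) < n + 1 := by linarith
  have hc0 : (0 : ℝ) < 16 * (n + 1) * 8 ^ Q := by positivity
  have hωs : 1000 * (n + 1) * 8 ^ Q * ω ≤ 1 := by
    have h1 : (1 : ℝ) ≤ 2 * Q + 6 := by
      have : (0 : ℝ) ≤ Q := Nat.cast_nonneg Q
      linarith
    have h2 : 1000 * ((n : ℝ) + 1) * 8 ^ Q * ω ≤ 1000 * (n + 1) * 8 ^ Q * ω * (2 * Q + 6) := by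
      have h3 : 0 ≤ 1000 * ((n : ℝ) + 1) * 8 ^ Q * ω := by positivity
      exact le_mul_of_one_le_right h3 h1
    linarith
  obtain ⟨j, hj, hcl⟩ := ks_chain T hT ψ Q (fun j => 8 ^ j / (16 * (n + 1) * 8 ^ Q)) (by
    intro j
    apply div_le_div_of_nonneg_right _ hc0.le
    rw [pow_succ]
    have : (0 : ℝ) ≤ 8 ^ j := by positivity
    linarith) hQ2
  obtain ⟨θ, hθ⟩ : ∃ θ : ℝ, θ = 8 ^ j / (16 * (n + 1) * 8 ^ Q) := ⟨_, rfl⟩
  have hθ2 : (8 : ℝ) ^ (j + 1) / (16 * (n + 1) * 8 ^ Q) = 8 * θ := by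
    rw [hθ, pow_succ]; ring
  simp only [hθ2, ← hθ] at hcl
  have hj8 : (1 : ℝ) ≤ 8 ^ j := one_le_pow₀ (by norm_num)
  have hωθ : 60 * ω ≤ θ := by
    rw [hθ, le_div_iff₀ hc0]
    have : 60 * ω * (16 * (n + 1) * 8 ^ Q) ≤ 1000 * (n + 1) * 8 ^ Q * ω := by
      have h3 : 0 ≤ ((n : ℝ) + 1) * 8 ^ Q * ω := by positivity
      linarith
    linarith
  have hθ1 : 16 * (n + 1) * θ ≤ 1 := by
    rw [hθ]
    have h1 : 16 * ((n : ℝ) + 1) * (8 ^ j / (16 * (n + 1) * 8 ^ Q)) = 8 ^ j / 8 ^ Q := by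
      field_simp
    rw [h1, div_le_one (by positivity)]
    exact pow_le_pow_right₀ (by norm_num) hj.le
  have hθ0 : 0 ≤ θ := by linarith
  have hB : ∀ a b : ℕ, a + b ≤ 4 * (n + 1) * (2 * Q + 6) → ∀ g ∈ T ^ a, ∀ h ∈ T ^ b,
      ‖ψ (g * h)‖ ≤ ‖ψ g + ψ h‖ + ω := by
    intro a b hab g hg h hh
    have h1 := hadd a b (hab.trans hQB) g hg h hh
    have h2 : ψ (g * h) = (ψ (g * h) - ψ g - ψ h) + (ψ g + ψ h) := by abel
    have h3 := norm_add_le (ψ (g * h) - ψ g - ψ h) (ψ g + ψ h)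
    rw [← h2] at h3
    linarith
  have hQB2 : 2 * (2 * Q + 6) ≤ QB := by
    refine le_trans ?_ hQB
    have : 2 ≤ 4 * (n + 1) := by omega
    exact Nat.mul_le_mul_right _ this
  -- inverse
  have hinvt : ∀ t ∈ T, ‖ψ t + ψ t⁻¹‖ ≤ ω := by
    intro t ht
    have h1 := hadd 1 1 (by omega) t (by rwa [pow_one]) t⁻¹ (by rw [pow_one]; exact hT.inv t ht)
    rw [mul_inv_cancel, hψ, zero_sub] at h1
    rw [← norm_neg, neg_add]
    simpa [sub_eq_add_neg] using h1
  have hconj : ∀ t ∈ T, ∀ q, q + 2 ≤ 2 * Q + 6 → ∀ x ∈ T ^ q, ‖ψ (t * x * t⁻¹)‖ ≤ ‖ψ x‖ + 3 * ω := by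
    intro t ht q hq x hx
    have htx : t * x ∈ T ^ (q + 1) := by
      have := Finset.mul_mem_mul ht hx
      rw [← pow_succ'] at this; exact this
    have h1 := hadd (q + 1) 1 (by omega) (t * x) htx t⁻¹ (by rw [pow_one]; exact hT.inv t ht)
    have h2 := hadd 1 q (by omega) t (by rwa [pow_one]) x hx
    have h3 := hinvt t ht
    have e : ψ (t * x * t⁻¹) = (ψ (t * x * t⁻¹) - ψ (t * x) - ψ t⁻¹) + (ψ (t * x) - ψ t - ψ x) +
      (ψ t + ψ t⁻¹) + ψ x := by abel
    rw [e]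
    refine (norm_add_le _ _).trans ?_
    have h4 := norm_add_le ((ψ (t * x * t⁻¹) - ψ (t * x) - ψ t⁻¹) + (ψ (t * x) - ψ t - ψ x))
      (ψ t + ψ t⁻¹)
    have h5 := norm_add_le (ψ (t * x * t⁻¹) - ψ (t * x) - ψ t⁻¹) (ψ (t * x) - ψ t - ψ x)
    linarith
  have hcm4 : ∀ t ∈ T, ∀ t' ∈ T, cm t t' ∈ T ^ 4 ∧ ‖ψ (cm t t')‖ ≤ 5 * ω := by
    intro t ht t' ht'
    have hti := hT.inv t ht
    have hti' := hT.inv t' ht'
    have m2 : t * t' ∈ T ^ 2 := by rw [sq]; exact Finset.mul_mem_mul ht ht'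
    have m3 : t * t' * t⁻¹ ∈ T ^ 3 := by
      rw [pow_succ]; exact Finset.mul_mem_mul m2 hti
    have m4 : t * t' * t⁻¹ * t'⁻¹ ∈ T ^ 4 := by
      rw [pow_succ]; exact Finset.mul_mem_mul m3 hti'
    refine ⟨m4, ?_⟩
    have h1 := hadd 1 1 (by omega) t (by rwa [pow_one]) t' (by rwa [pow_one])
    have h2 := hadd 2 1 (by omega) (t * t') m2 t⁻¹ (by rwa [pow_one])
    have h3 := hadd 3 1 (by omega) (t * t' * t⁻¹) m3 t'⁻¹ (by rwa [pow_one])
    have h4 := hinvt t ht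
    have h5 := hinvt t' ht'
    have e : ψ (cm t t') = (ψ (t * t' * t⁻¹ * t'⁻¹) - ψ (t * t' * t⁻¹) - ψ t'⁻¹) +
      (ψ (t * t' * t⁻¹) - ψ (t * t') - ψ t⁻¹) + (ψ (t * t') - ψ t - ψ t') +
      (ψ t + ψ t⁻¹) + (ψ t' + ψ t'⁻¹) := by
      unfold cm; abel
    rw [e]
    refine (norm_add_le _ _).trans ?_
    have g1 := norm_add_le ((ψ (t * t' * t⁻¹ * t'⁻¹) - ψ (t * t' * t⁻¹) - ψ t'⁻¹) +
      (ψ (t * t' * t⁻¹) - ψ (t * t') - ψ t⁻¹) + (ψ (t * t') - ψ t - ψ t')) (ψ t + ψ t⁻¹)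
    have g2 := norm_add_le ((ψ (t * t' * t⁻¹ * t'⁻¹) - ψ (t * t' * t⁻¹) - ψ t'⁻¹) +
      (ψ (t * t' * t⁻¹) - ψ (t * t') - ψ t⁻¹)) (ψ (t * t') - ψ t - ψ t')
    have g3 := norm_add_le (ψ (t * t' * t⁻¹ * t'⁻¹) - ψ (t * t' * t⁻¹) - ψ t'⁻¹)
      (ψ (t * t' * t⁻¹) - ψ (t * t') - ψ t⁻¹)
    linarith
  set M := ksM T ψ (4 + 2 * j) θ with hM
  have hMsub : M ⊆ T ^ (4 + 2 * j) := fun x hx => (mem_ksM.1 hx).1
  have hMψ : ∀ x ∈ M, ‖ψ x‖ ≤ θ := fun x hx => (mem_ksM.1 hx).2.1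
  refine ⟨4 + 2 * j, M, by omega, ⟨?_, ?_⟩, hMsub, ?_, ?_, ?_⟩
  · rw [mem_ksM]
    refine ⟨ks_mono hT (Nat.zero_le _) (by simp), ?_, ?_⟩ <;> simp [hψ, hθ0]
  · intro x hx
    rw [mem_ksM] at hx ⊢
    exact ⟨ks_inv hT hx.1, hx.2.2, by rw [inv_inv]; exact hx.2.1⟩
  · intro t ht x hx
    induction hx using Subgroup.closure_induction with
    | mem x hx =>
      rw [Finset.mem_coe, mem_ksM] at hx
      apply hcl
      rw [mem_ksM]
      refine ⟨?_, ?_, ?_⟩
      · have m1 : t * x ∈ T ^ (4 + 2 * j + 1) := by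
          have := Finset.mul_mem_mul ht hx.1
          rw [← pow_succ'] at this; exact this
        have m2 : t * x * t⁻¹ ∈ T ^ (4 + 2 * j + 1 + 1) := by
          rw [pow_succ]; exact Finset.mul_mem_mul m1 (hT.inv t ht)
        exact m2
      · have := hconj t ht (4 + 2 * j) (by omega) x hx.1
        linarith [hx.2.1]
      · have h1 := hconj t ht (4 + 2 * j) (by omega) x⁻¹ (ks_inv hT hx.1)
        have h2 : (t * x * t⁻¹)⁻¹ = t * x⁻¹ * t⁻¹ := by group
        rw [h2]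
        linarith [hx.2.2]
    | one => simp only [mul_one, mul_inv_cancel]; exact one_mem _
    | mul x y _ _ hx hy =>
      have : t * (x * y) * t⁻¹ = (t * x * t⁻¹) * (t * y * t⁻¹) := by group
      rw [this]; exact mul_mem hx hy
    | inv x _ hx =>
      have : t * x⁻¹ * t⁻¹ = (t * x * t⁻¹)⁻¹ := by group
      rw [this]; exact inv_mem hx
  · intro t ht t' ht'
    apply Subgroup.subset_closure
    rw [Finset.mem_coe, mem_ksM]
    refine ⟨ks_mono hT (by omega) (hcm4 t ht t' ht').1, ?_, ?_⟩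
    · linarith [(hcm4 t ht t' ht').2]
    · have h2 : (cm t t')⁻¹ = cm t' t := by unfold cm; group
      rw [h2]
      linarith [(hcm4 t' ht' t ht).2]
  · intro r hr hrn
    obtain ⟨t, htT, ht1⟩ := ht0
    -- estimates on powers
    have hsz : ∀ k ≤ n, k + k * (4 + 2 * j) + (k + k * (4 + 2 * j)) ≤
        4 * (n + 1) * (2 * Q + 6) := by
      intro k hk
      have h1 : k + k * (4 + 2 * j) + (k + k * (4 + 2 * j)) = 2 * (k * (5 + 2 * j)) := by ring
      have h2 : k * (5 + 2 * j) ≤ n * (2 * Q + 6) := Nat.mul_le_mul hk (by omega)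
      have h3 : 4 * (n + 1) * (2 * Q + 6) = 2 * (n * (2 * Q + 6)) + 2 * (n * (2 * Q + 6)) +
        4 * (2 * Q + 6) := by ring
      omega
    have hMr : ∀ k ≤ n, ∀ x ∈ M ^ k, x ∈ T ^ (k * (4 + 2 * j)) ∧ ‖ψ x‖ ≤ k * (θ + ω) := by
      intro k
      induction k with
      | zero =>
        intro _ x hx
        rw [pow_zero, Finset.mem_one] at hx
        rw [hx, hψ]
        simp
      | succ k ih =>
        intro hk x hx
        rw [pow_succ, Finset.mem_mul] at hx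
        obtain ⟨a, ha, b, hb, rfl⟩ := hx
        obtain ⟨h1, h2⟩ := ih (by omega) a ha
        have h3 := hMsub hb
        have h4 := hMψ b hb
        refine ⟨?_, ?_⟩
        · have := Finset.mul_mem_mul h1 h3
          rw [← pow_add] at this
          convert this using 2
          ring
        · have h5 := hB _ _ (by
            have := hsz (k + 1) hk
            have e1 : (k + 1) * (4 + 2 * j) = k * (4 + 2 * j) + (4 + 2 * j) := by ring
            omega) a h1 b h3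
          have h6 := norm_add_le (ψ a) (ψ b)
          push_cast
          linarith
    have htk : ∀ k ≤ n, t ^ k ∈ T ^ k ∧ ‖ψ (t ^ k) - (k : ℝ) • ψ t‖ ≤ k * ω := by
      intro k
      induction k with
      | zero => intro _; simp [hψ]
      | succ k ih =>
        intro hk
        obtain ⟨h1, h2⟩ := ih (by omega)
        refine ⟨?_, ?_⟩
        · rw [pow_succ, pow_succ]; exact Finset.mul_mem_mul h1 htT
        · have h3 := hadd k 1 (by
            have := hsz (k + 1) hk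
            omega) (t ^ k) h1 t (by rwa [pow_one])
          have e : ψ (t ^ (k + 1)) - ((k + 1 : ℕ) : ℝ) • ψ t =
            (ψ (t ^ k * t) - ψ (t ^ k) - ψ t) + (ψ (t ^ k) - (k : ℝ) • ψ t) := by
            rw [pow_succ]; push_cast; rw [add_smul, one_smul]; abel
          rw [e]
          refine (norm_add_le _ _).trans ?_
          push_cast
          linarith
    -- injectivity
    have hne : ∀ k, 1 ≤ k → k ≤ n → ∀ x ∈ M ^ r, ∀ y ∈ M ^ r, x ≠ t ^ k * y := by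
      intro k hk1 hkn x hx y hy hxy
      obtain ⟨h1, h2⟩ := hMr r hrn x hx
      obtain ⟨h3, h4⟩ := hMr r hrn y hy
      obtain ⟨h5, h6⟩ := htk k hkn
      have h7 := hadd k (r * (4 + 2 * j)) (by
        have g1 := hsz k hkn
        have g2 := hsz r hrn
        have g3 : k + r * (4 + 2 * j) ≤ n + n * (4 + 2 * j) := by gcongr
        have g4 := hsz n le_rfl
        omega) (t ^ k) h5 y h3
      rw [← hxy] at h7
      have hk' : (1 : ℝ) ≤ k := by exact_mod_cast hk1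
      have hkn' : (k : ℝ) ≤ n := by exact_mod_cast hkn
      have hrn' : (r : ℝ) ≤ n := by exact_mod_cast hrn
      have e : (k : ℝ) • ψ t = ψ x - ψ y - (ψ x - ψ (t ^ k) - ψ y) -
        (ψ (t ^ k) - (k : ℝ) • ψ t) := by abel
      have h8 : ‖(k : ℝ) • ψ t‖ ≤ ‖ψ x‖ + ‖ψ y‖ + ω + k * ω := by
        rw [e]
        refine (norm_sub_le _ _).trans ?_
        have g1 := norm_sub_le (ψ x - ψ y) (ψ x - ψ (t ^ k) - ψ y)
        have g2 := norm_sub_le (ψ x) (ψ y)
        linarith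
      rw [norm_smul, Real.norm_of_nonneg (by linarith)] at h8
      have h9 : (k : ℝ) ≤ k * ‖ψ t‖ := le_mul_of_one_le_right (by linarith) ht1
      have h10 : (r : ℝ) * (θ + ω) ≤ n * (θ + ω) :=
        mul_le_mul_of_nonneg_right hrn' (by linarith)
      have h11 : (k : ℝ) * ω ≤ n * ω := mul_le_mul_of_nonneg_right hkn' hω0
      have h12 : (n : ℝ) * ω * 60 ≤ n * θ := by
        have := mul_le_mul_of_nonneg_left hωθ (by linarith : (0 : ℝ) ≤ n)
        linarith
      have h13 : 16 * (n * θ) ≤ 1 := by linarith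
      have h14 : ω ≤ n * ω := le_mul_of_one_le_left hω0 hn'
      linarith
    have hcard : (Finset.range r ×ˢ (M ^ r)).card = r * (M ^ r).card := by
      rw [Finset.card_product, Finset.card_range]
    rw [← hcard]
    apply Finset.card_le_card_of_injOn (fun p => t ^ p.1 * p.2)
    · rintro ⟨i, x⟩ hp
      simp only [Finset.coe_product, Finset.coe_range, Set.mem_prod, Set.mem_Iio,
        Finset.mem_coe] at hp ⊢
      have h1 := (htk i (by omega)).1
      have h2 := (hMr r hrn x hp.2).1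
      have h3 := Finset.mul_mem_mul h1 h2
      rw [← pow_add] at h3
      refine ks_mono hT ?_ h3
      have : r * (4 + 2 * j + 1) = r * (4 + 2 * j) + r := by ring
      omega
    · rintro ⟨i, x⟩ hp ⟨i', x'⟩ hp' heq
      simp only [Finset.coe_product, Finset.coe_range, Set.mem_prod, Set.mem_Iio,
        Finset.mem_coe] at hp hp'
      simp only at heq
      rcases lt_trichotomy i i' with h | h | h
      · exfalso
        apply hne (i' - i) (by omega) (by omega) x hp.2 x' hp'.2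
        have h1 : t ^ i' = t ^ i * t ^ (i' - i) := by rw [← pow_add]; congr 1; omega
        rw [h1, mul_assoc] at heq
        exact mul_left_cancel heq
      · subst h
        rw [mul_left_cancel heq]
      · exfalso
        apply hne (i - i') (by omega) (by omega) x' hp'.2 x hp.2
        have h1 : t ^ i = t ^ i' * t ^ (i - i') := by rw [← pow_add]; congr 1; omega
        rw [h1, mul_assoc] at heq
        exact (mul_left_cancel heq).symm

end Pool.Agent.Helper41.Gap
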