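import Pool.Agent.Helper41.Gap.Defs

set_option autoImplicit false

open scoped Pointwise RealInnerProductSpace TensorProduct
open ProbabilityTheory MeasureTheory Module

namespace Pool.Agent.Helper41.Gap

variable {G : Type} [Group G] [DecidableEq G]

omit [DecidableEq G] in
private theorem oprod_succ' (x : ℕ → G) (a : ℕ → ℕ) (k : ℕ) :
    oprod x a (k + 1) = oprod x a k * x k ^ a k := by
  simp [oprod, List.range_succ]

omit [DecidableEq G] in
private theorem oprod_congr' (x : ℕ → G) (a a' : ℕ → ℕ) (k : ℕ) (h : ∀ i < k, a i = a' i) :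
    oprod x a k = oprod x a' k := by
  induction k with
  | zero => rfl
  | succ k ih =>
    rw [oprod_succ', oprod_succ', ih (fun i hi => h i (by omega)), h k (by omega)]

private theorem oprod_mem' (x : ℕ → G) (a : ℕ → ℕ) (k A : ℕ) (ha : ∀ i, a i < A)
    (S : Finset G) (hS : SymOne S) (r : ℕ → ℕ) (hx : ∀ i < k, x i ∈ S ^ (r i)) :
    oprod x a k ∈ S ^ (A * ∑ i ∈ Finset.range k, r i) := by
  induction k with
  | zero => simp [oprod]
  | succ k ih =>
    rw [oprod_succ', Finset.sum_range_succ, mul_add, pow_add]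
    refine Finset.mul_mem_mul (ih fun i hi => hx i (by omega)) ?_
    have h1 : x k ^ a k ∈ (S ^ (r k)) ^ (a k) := Finset.pow_mem_pow (hx k (by omega))
    rw [← pow_mul] at h1
    refine Finset.pow_subset_pow_right hS.one ?_ h1
    rw [mul_comm]
    exact Nat.mul_le_mul_right _ (ha k).le

private theorem card_of_inj' (x : ℕ → G) (k A : ℕ)
    (S : Finset G) (hS : SymOne S) (r : ℕ → ℕ) (hx : ∀ i < k, x i ∈ S ^ (r i))
    (hinj : ∀ a a' : ℕ → ℕ, (∀ i, a i < A) → (∀ i, a' i < A) → oprod x a k = oprod x a' k →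
      ∀ i < k, (∀ j < i, a j = a' j) → ¬ a' i < a i) :
    A ^ k ≤ (S ^ (A * ∑ i ∈ Finset.range k, r i)).card := by
  rcases Nat.eq_zero_or_pos A with hA | hA
  · subst hA
    rcases Nat.eq_zero_or_pos k with hk | hk
    · subst hk; simp
    · rw [zero_pow (by omega)]; exact Nat.zero_le _
  · let e : (Fin k → Fin A) → ℕ → ℕ := fun f i => if h : i < k then (f ⟨i, h⟩ : ℕ) else 0
    have he : ∀ f i, e f i < A := by
      intro f i
      simp only [e]
      split_ifs with h
      · exact (f ⟨i, h⟩).2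
      · exact hA
    have hc : Fintype.card (Fin k → Fin A) = A ^ k := by simp
    rw [← hc, ← Finset.card_univ]
    refine Finset.card_le_card_of_injOn (fun f => oprod x (e f) k) ?_ ?_
    · intro f _
      exact oprod_mem' x (e f) k A (he f) S hS r hx
    · intro f _ g _ hfg
      by_contra hne
      have h1 : ∃ i, i < k ∧ e f i ≠ e g i := by
        by_contra hcon
        push Not at hcon
        apply hne
        funext i
        have := hcon i i.2
        simp only [e, i.2, dif_pos] at this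
        exact Fin.ext this
      classical
      have h2 := Nat.find_spec h1
      have h3 : ∀ j < Nat.find h1, e f j = e g j := by
        intro j hj
        have := Nat.find_min h1 hj
        by_contra hcon
        exact this ⟨by omega, hcon⟩
      rcases lt_or_gt_of_ne h2.2 with h4 | h4
      · exact hinj (e g) (e f) (he g) (he f) hfg.symm _ h2.1 (fun j hj => (h3 j hj).symm) h4
      · exact hinj (e f) (e g) (he f) (he g) hfg _ h2.1 h3 h4

omit [DecidableEq G] in
private theorem tail' (N : G → ℝ) (hN0 : ∀ g, 0 ≤ N g) (hone : N 1 = 0)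
    (hmul : ∀ g h, N (g * h) ≤ N g + N h) (x : ℕ → G) (a : ℕ → ℕ) (A : ℕ) (ha : ∀ i, a i < A)
    (i n : ℕ) : ∃ t, oprod x a (i + 1 + n) = oprod x a i * x i ^ a i * t ∧
      N t ≤ A * ∑ j ∈ Finset.Ioo i (i + 1 + n), N (x j) := by
  have hpow : ∀ (g : G) (m : ℕ), N (g ^ m) ≤ m * N g := by
    intro g m
    induction m with
    | zero => simp [hone]
    | succ m ih =>
      rw [pow_succ]
      refine (hmul _ _).trans ?_
      push_cast
      linarith
  induction n with
  | zero =>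
    refine ⟨1, ?_, ?_⟩
    · rw [mul_one, add_zero, oprod_succ']
    · rw [hone]
      exact mul_nonneg (Nat.cast_nonneg _) (Finset.sum_nonneg fun j _ => hN0 _)
  | succ n ih =>
    obtain ⟨t, ht, hNt⟩ := ih
    refine ⟨t * x (i + 1 + n) ^ a (i + 1 + n), ?_, ?_⟩
    · rw [← add_assoc, oprod_succ', ht]; simp only [mul_assoc]
    · have hI : Finset.Ioo i (i + 1 + (n + 1)) = insert (i + 1 + n) (Finset.Ioo i (i + 1 + n)) := by
        ext j
        simp only [Finset.mem_Ioo, Finset.mem_insert]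
        omega
      rw [hI, Finset.sum_insert (by simp), mul_add]
      refine (hmul _ _).trans ?_
      have h1 := hpow (x (i + 1 + n)) (a (i + 1 + n))
      have h2 : ((a (i + 1 + n) : ℕ) : ℝ) * N (x (i + 1 + n)) ≤ A * N (x (i + 1 + n)) := by
        apply mul_le_mul_of_nonneg_right _ (hN0 _)
        exact_mod_cast (ha _).le
      linarith

theorem prod_inj (N : G → ℝ) (hN0 : ∀ g, 0 ≤ N g) (hone : N 1 = 0)
    (hmul : ∀ g h, N (g * h) ≤ N g + N h)
    (hinv : ∀ g, N g⁻¹ = N g) (x : ℕ → G) (k A : ℕ)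
    (h : ∀ i < k, ∀ a, 1 ≤ a → a < A →
      2 * A * ∑ j ∈ Finset.Ioo i k, N (x j) < N (x i ^ a))
    (S : Finset G) (hS : SymOne S) (r : ℕ → ℕ) (hx : ∀ i < k, x i ∈ S ^ (r i)) :
    A ^ k ≤ (S ^ (A * ∑ i ∈ Finset.range k, r i)).card := by
  refine card_of_inj' x k A S hS r hx ?_
  intro a a' ha ha' hp i hi hlt hcon
  obtain ⟨n, rfl⟩ : ∃ n, k = i + 1 + n := ⟨k - (i + 1), by omega⟩
  obtain ⟨t, ht, hNt⟩ := tail' N hN0 hone hmul x a A ha i n
  obtain ⟨t', ht', hNt'⟩ := tail' N hN0 hone hmul x a' A ha' i n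
  rw [ht, ht', oprod_congr' x a a' i hlt, mul_assoc, mul_assoc] at hp
  have hp1 := mul_left_cancel hp
  obtain ⟨b, hb⟩ : ∃ b, a i = a' i + b := ⟨a i - a' i, by omega⟩
  rw [hb, pow_add, mul_assoc] at hp1
  have hp2 := mul_left_cancel hp1
  have hp3 : x i ^ b = t' * t⁻¹ := by rw [← hp2]; group
  have h1 := h i hi b (by omega) (by have := ha i; omega)
  rw [hp3] at h1
  have h2 := hmul t' t⁻¹
  rw [hinv] at h2
  linarith

theorem prod_inj_add {W : Type} [NormedAddCommGroup W] [NormedSpace ℝ W] (φ : G → W) (x : ℕ → G) (k A : ℕ)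
    (err : ℝ)
    (happ : ∀ a : ℕ → ℕ, (∀ i, a i < A) →
      ‖φ (oprod x a k) - ∑ i ∈ Finset.range k, a i • φ (x i)‖ ≤ err)
    (hsep : ∀ i < k, A * ∑ j ∈ Finset.Ioo i k, ‖φ (x j)‖ + 2 * err < ‖φ (x i)‖)
    (S : Finset G) (hS : SymOne S) (r : ℕ → ℕ) (hx : ∀ i < k, x i ∈ S ^ (r i)) :
    A ^ k ≤ (S ^ (A * ∑ i ∈ Finset.range k, r i)).card := by
  refine card_of_inj' x k A S hS r hx ?_
  intro a a' ha ha' hp i hi hlt hcon
  have h1 := happ a ha
  have h2 := happ a' ha'
  rw [hp] at h1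
  set Z := φ (oprod x a' k)
  have h3 : ‖∑ j ∈ Finset.range k, ((a j : ℝ) - a' j) • φ (x j)‖ ≤ 2 * err := by
    have e1 : ∑ j ∈ Finset.range k, ((a j : ℝ) - a' j) • φ (x j) =
        (Z - ∑ i ∈ Finset.range k, a' i • φ (x i)) - (Z - ∑ i ∈ Finset.range k, a i • φ (x i)) := by
      rw [sub_sub_sub_cancel_left, ← Finset.sum_sub_distrib]
      refine Finset.sum_congr rfl fun j _ => ?_
      rw [sub_smul, Nat.cast_smul_eq_nsmul, Nat.cast_smul_eq_nsmul]
    rw [e1]
    refine (norm_sub_le _ _).trans ?_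
    linarith
  have hsplit : ∑ j ∈ Finset.range k, ((a j : ℝ) - a' j) • φ (x j) =
      ((a i : ℝ) - a' i) • φ (x i) + ∑ j ∈ Finset.Ioo i k, ((a j : ℝ) - a' j) • φ (x j) := by
    have hsub : insert i (Finset.Ioo i k) ⊆ Finset.range k := by
      intro j
      simp only [Finset.mem_insert, Finset.mem_Ioo, Finset.mem_range]
      omega
    rw [← Finset.sum_subset hsub, Finset.sum_insert (by simp)]
    intro j hj hj'
    simp only [Finset.mem_insert, Finset.mem_Ioo, Finset.mem_range] at hj hj'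
    rw [hlt j (by omega), sub_self, zero_smul]
  have h4 : ‖∑ j ∈ Finset.Ioo i k, ((a j : ℝ) - a' j) • φ (x j)‖ ≤
      A * ∑ j ∈ Finset.Ioo i k, ‖φ (x j)‖ := by
    refine (norm_sum_le _ _).trans ?_
    rw [Finset.mul_sum]
    refine Finset.sum_le_sum fun j _ => ?_
    rw [norm_smul]
    apply mul_le_mul_of_nonneg_right _ (norm_nonneg _)
    rw [Real.norm_eq_abs, abs_le]
    have e1 : (a j : ℝ) ≤ A := by exact_mod_cast (ha j).le
    have e2 : (a' j : ℝ) ≤ A := by exact_mod_cast (ha' j).le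
    have e3 : (0 : ℝ) ≤ a j := Nat.cast_nonneg _
    have e4 : (0 : ℝ) ≤ a' j := Nat.cast_nonneg _
    constructor <;> linarith
  have h5 : ‖φ (x i)‖ ≤ ‖((a i : ℝ) - a' i) • φ (x i)‖ := by
    rw [norm_smul]
    have e1 : (1 : ℝ) ≤ ‖(a i : ℝ) - a' i‖ := by
      have : (a' i : ℝ) + 1 ≤ a i := by exact_mod_cast hcon
      rw [Real.norm_eq_abs, abs_of_nonneg (by linarith)]
      linarith
    nlinarith [norm_nonneg (φ (x i))]
  have h6 : ‖((a i : ℝ) - a' i) • φ (x i)‖ ≤ 2 * err + A * ∑ j ∈ Finset.Ioo i k, ‖φ (x j)‖ := by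
    have e1 : ((a i : ℝ) - a' i) • φ (x i) =
        (∑ j ∈ Finset.range k, ((a j : ℝ) - a' j) • φ (x j)) -
        ∑ j ∈ Finset.Ioo i k, ((a j : ℝ) - a' j) • φ (x j) := by
      rw [hsplit, add_sub_cancel_right]
    rw [e1]
    refine (norm_sub_le _ _).trans ?_
    linarith
  have h7 := hsep i hi
  linarith

end Pool.Agent.Helper41.Gap
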