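import Pool.Agent.Helper41.Gap.Defs

set_option autoImplicit false

open scoped Pointwise RealInnerProductSpace TensorProduct
open ProbabilityTheory MeasureTheory Module

namespace Pool.Agent.Helper41.Gap

theorem seq_lower (y : ℕ → ℝ) (n : ℕ) (a Y χ δ : ℝ) (ha : 1 ≤ a) (hY : y 0 ≤ Y)
    (h0 : ∀ k, 0 ≤ y k) (hχ : 0 < χ) (hχY : χ ≤ Y) (h1 : χ ≤ y 1)
    (hrec : ∀ k < n, y (k + 1) ^ 2 ≤ a * y k * y (k + 2) + δ)
    (hδ : δ ≤ (χ * (χ / Y) ^ n * ((2 * a) ^ (n ^ 2))⁻¹) ^ 2 / 2) :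
    ∀ k ≤ n, χ * (χ / Y) ^ n * ((2 * a) ^ (n ^ 2))⁻¹ ≤ y (k + 1) := by
  have hYpos : 0 < Y := lt_of_lt_of_le hχ hχY
  set q : ℝ := χ / Y with hq
  set b : ℝ := 2 * a with hb
  have hq0 : 0 < q := div_pos hχ hYpos
  have hq1 : q ≤ 1 := (div_le_one hYpos).mpr hχY
  have hb1 : 1 ≤ b := by rw [hb]; linarith
  have hb0 : 0 < b := by linarith
  set ζ : ℝ := χ * q ^ n * (b ^ (n ^ 2))⁻¹ with hζ
  have hζ0 : 0 < ζ := by positivity
  have hT : ∀ k : ℕ, (k + 1) * (k + 1 + 1) / 2 = k * (k + 1) / 2 + (k + 1) := by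
    intro k
    have : (k + 1) * (k + 1 + 1) = k * (k + 1) + (k + 1) * 2 := by ring
    rw [this, Nat.add_mul_div_right _ _ (by norm_num)]
  have hmono : ∀ k ≤ n, ζ ≤ χ * q ^ k * (b ^ (k * (k + 1) / 2))⁻¹ := by
    intro k hk
    have e1 : q ^ n ≤ q ^ k := pow_le_pow_of_le_one hq0.le hq1 hk
    have e2 : k * (k + 1) / 2 ≤ n ^ 2 := by
      rcases Nat.eq_zero_or_pos k with h | h
      · subst h; simp
      · apply Nat.div_le_of_le_mul
        nlinarith
    have e3 : (b ^ (n ^ 2))⁻¹ ≤ (b ^ (k * (k + 1) / 2))⁻¹ :=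
      inv_anti₀ (by positivity) (pow_le_pow_right₀ hb1 e2)
    rw [hζ]
    apply mul_le_mul (mul_le_mul_of_nonneg_left e1 hχ.le) e3 (by positivity) (by positivity)
  have key : ∀ k ≤ n, χ * q ^ k * (b ^ (k * (k + 1) / 2))⁻¹ ≤ y (k + 1) ∧
      χ * y k ≤ y (k + 1) * Y * b ^ k := by
    intro k
    induction k with
    | zero =>
      intro _
      refine ⟨by simpa using h1, ?_⟩
      have : χ * y 0 ≤ y 1 * Y := by
        calc χ * y 0 ≤ χ * Y := mul_le_mul_of_nonneg_left hY hχ.le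
          _ ≤ y 1 * Y := mul_le_mul_of_nonneg_right h1 hYpos.le
      simpa using this
    | succ k ih =>
      intro hk
      obtain ⟨i1, i2⟩ := ih (by omega)
      have hk' : k < n := by omega
      have hz : ζ ≤ y (k + 1) := (hmono k (by omega)).trans i1
      have hypos : 0 < y (k + 1) := lt_of_lt_of_le hζ0 hz
      have hr := hrec k hk'
      have hsq : ζ ^ 2 ≤ y (k + 1) ^ 2 := pow_le_pow_left₀ hζ0.le hz 2
      have h2 : y (k + 1) ^ 2 ≤ b * y k * y (k + 2) := by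
        rw [hb]; nlinarith
      have h3 : χ * y (k + 1) ≤ y (k + 2) * Y * b ^ (k + 1) := by
        have h4 : χ * y (k + 1) ^ 2 ≤ y (k + 1) * (y (k + 2) * Y * b ^ (k + 1)) := by
          calc χ * y (k + 1) ^ 2 ≤ χ * (b * y k * y (k + 2)) := mul_le_mul_of_nonneg_left h2 hχ.le
            _ = (χ * y k) * (b * y (k + 2)) := by ring
            _ ≤ (y (k + 1) * Y * b ^ k) * (b * y (k + 2)) :=
              mul_le_mul_of_nonneg_right i2 (mul_nonneg hb0.le (h0 _))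
            _ = y (k + 1) * (y (k + 2) * Y * b ^ (k + 1)) := by ring
        have h5 : y (k + 1) * (χ * y (k + 1)) ≤ y (k + 1) * (y (k + 2) * Y * b ^ (k + 1)) := by
          calc y (k + 1) * (χ * y (k + 1)) = χ * y (k + 1) ^ 2 := by ring
            _ ≤ _ := h4
        exact le_of_mul_le_mul_left h5 hypos
      refine ⟨?_, h3⟩
      rw [hT k, pow_add b, mul_inv]
      have hbk : 0 < b ^ (k + 1) := by positivity
      have e5 : y (k + 1) * q * (b ^ (k + 1))⁻¹ ≤ y (k + 2) := by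
        rw [mul_inv_le_iff₀ hbk, hq, mul_div_assoc', div_le_iff₀ hYpos]
        nlinarith [h3]
      calc χ * q ^ (k + 1) * ((b ^ (k * (k + 1) / 2))⁻¹ * (b ^ (k + 1))⁻¹)
          = (χ * q ^ k * (b ^ (k * (k + 1) / 2))⁻¹) * (q * (b ^ (k + 1))⁻¹) := by ring
        _ ≤ y (k + 1) * (q * (b ^ (k + 1))⁻¹) :=
            mul_le_mul_of_nonneg_right i1 (by positivity)
        _ = y (k + 1) * q * (b ^ (k + 1))⁻¹ := by ring
        _ ≤ y (k + 2) := e5
  intro k hk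
  exact (hmono k hk).trans (key k hk).1

end Pool.Agent.Helper41.Gap
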