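import Pool.Agent.Helper41.Gap.NNSq
import Pool.Agent.Helper41.Gap.Seq
import Pool.Agent.Helper41.Gap.ProdInj

set_option autoImplicit false

open scoped Pointwise RealInnerProductSpace TensorProduct
open ProbabilityTheory MeasureTheory Module

namespace Pool.Agent.Helper41.Gap

variable {G : Type} [Group G] [DecidableEq G]
variable {E : Type} [NormedAddCommGroup E] [InnerProductSpace ℝ E]
variable {S : Finset G} {c : Coc G E} {V : Submodule ℝ E} [FiniteDimensional ℝ V] {σ : ℝ}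

private theorem lc_pow_mono (hS : SymOne S) {a b : ℕ} (h : a ≤ b) : S ^ a ⊆ S ^ b :=
  Finset.pow_subset_pow_right hS.one h

private theorem lc_inv_mem (hS : SymOne S) {a : ℕ} {g : G} (hg : g ∈ S ^ a) : g⁻¹ ∈ S ^ a := by
  have h1 : S⁻¹ = S := by
    ext x
    rw [Finset.mem_inv']
    exact ⟨fun h => by simpa using hS.inv _ h, fun h => hS.inv _ h⟩
  have h2 : g⁻¹ ∈ (S ^ a)⁻¹ := Finset.inv_mem_inv hg
  rwa [← _root_.inv_pow, h1] at h2

private theorem lc_cm_mem (hS : SymOne S) {a b : ℕ} {g h : G} (hg : g ∈ S ^ a) (hh : h ∈ S ^ b) :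
    cm g h ∈ S ^ (2 * a + 2 * b) := by
  have h1 : 2 * a + 2 * b = a + b + a + b := by ring
  rw [h1, pow_add, pow_add, pow_add]
  exact Finset.mul_mem_mul (Finset.mul_mem_mul (Finset.mul_mem_mul hg hh) (lc_inv_mem hS hg))
    (lc_inv_mem hS hh)

/-- iterated commutators -/
private def lcc (g h : G) : ℕ → G
  | 0 => h
  | k + 1 => cm g (lcc g h k)

/-- their lengths -/
private def lcr (m : ℕ) : ℕ → ℕ
  | 0 => m
  | k + 1 => 2 * m + 2 * lcr m k

private theorem lcr_eq (m : ℕ) : ∀ k, lcr m k + 2 * m = 3 * 2 ^ k * m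
  | 0 => by
    rw [lcr]
    ring
  | k + 1 => by
    rw [lcr]
    have := lcr_eq m k
    rw [pow_succ]
    linarith

private theorem lcr_sum (m : ℕ) : ∀ k, ∑ i ∈ Finset.range k, lcr m i ≤ 3 * 2 ^ k * m
  | 0 => by simp
  | k + 1 => by
    rw [Finset.sum_range_succ]
    have h1 := lcr_sum m k
    have h2 := lcr_eq m k
    rw [pow_succ]
    linarith

private theorem lcc_mem (hS : SymOne S) {m : ℕ} {g h : G} (hg : g ∈ S ^ m) (hh : h ∈ S ^ m) :
    ∀ k, lcc g h k ∈ S ^ (lcr m k)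
  | 0 => hh
  | k + 1 => lc_cm_mem hS hg (lcc_mem hS hg hh k)

/-- Linear part: commutators of elements of `T` are almost trivial on `V`. -/
theorem lin_comm (hS : SymOne S) (hA : AInv S c V σ) (m n A : ℕ) (ε χ : ℝ) (T : Finset G)
    (hT : T ⊆ S ^ m) (hTN : ∀ t ∈ T, NN c V t ≤ ε) (hm : 1 ≤ m) (hn : 1 ≤ n) (hA1 : 1 ≤ A)
    (hε : 0 < ε) (hε1 : (finrank ℝ V : ℝ) * ε ≤ 1 / 2) (hε2 : ε ≤ 1 / 8)
    (hAε : A * ε ≤ 1 / 64)
    (hgr : (S ^ (A * (2 ^ (n + 2) * m))).card < A ^ n)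
    (hχ : 0 < χ) (hχ2 : χ ≤ 1) (ζ : ℝ)
    (hζ : ζ = χ * (χ / 2) ^ n * ((4 * ((finrank ℝ V : ℝ) + 1)) ^ (n ^ 2))⁻¹)
    (hσ : 10000 * ((finrank ℝ V : ℝ) + 1) * A * (2 ^ (n + 3) * m) * σ ≤ ζ ^ 2 * ε) :
    ∀ g ∈ T, ∀ h ∈ T, NN c V (cm g h) ≤ χ := by
  intro g hgT h hhT
  by_contra hcon
  push Not at hcon
  set d : ℝ := (finrank ℝ V : ℝ) with hd
  have hd0 : 0 ≤ d := by rw [hd]; positivity
  have hσ0 : 0 ≤ σ := hA.nonneg
  have hA1' : (1 : ℝ) ≤ A := by exact_mod_cast hA1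
  have hm1' : (1 : ℝ) ≤ m := by exact_mod_cast hm
  have hg := hT hgT
  have hh := hT hhT
  -- `ζ`
  have hζ0 : 0 < ζ := by
    rw [hζ]
    positivity
  have hζχ : ζ ≤ χ := by
    rw [hζ]
    have h1 : (χ / 2) ^ n ≤ 1 := pow_le_one₀ (by positivity) (by linarith)
    have h2 : ((4 * (d + 1)) ^ (n ^ 2))⁻¹ ≤ 1 := by
      apply inv_le_one_of_one_le₀
      exact one_le_pow₀ (by linarith)
    calc χ * (χ / 2) ^ n * ((4 * (d + 1)) ^ (n ^ 2))⁻¹ ≤ χ * 1 * 1 := by gcongr
      _ = χ := by ring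
  have hζ1 : ζ ≤ 1 := hζχ.trans hχ2
  have hζ2 : ζ ^ 2 ≤ ζ := by nlinarith
  -- the basic error
  set e : ℝ := 2 ^ (n + 3) * m * σ with he
  have he0 : 0 ≤ e := by rw [he]; positivity
  have heA : 10000 * (d + 1) * (A * e) ≤ ζ ^ 2 * ε := by
    rw [he]
    calc 10000 * (d + 1) * (A * (2 ^ (n + 3) * m * σ))
        = 10000 * (d + 1) * A * (2 ^ (n + 3) * m) * σ := by ring
      _ ≤ _ := hσ
  have hAe : e ≤ A * e := by nlinarith
  have hde : 10000 * (d + 1) * e ≤ ζ ^ 2 * ε :=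
    le_trans (mul_le_mul_of_nonneg_left hAe (by positivity)) heA
  have hdde : 0 ≤ d * e := mul_nonneg hd0 he0
  have he1 : 10000 * e ≤ ζ ^ 2 * ε := by nlinarith
  have he2 : 10000 * (d * e) ≤ ζ ^ 2 * ε := by nlinarith
  have hζε : ζ ^ 2 * ε ≤ ζ * ε := mul_le_mul_of_nonneg_right hζ2 hε.le
  have hlen : ∀ k ≤ n, ((m : ℝ) + lcr m k) * σ ≤ e / 2 := by
    intro k hk
    have h1 := lcr_eq m k
    have h2 : 2 ^ k ≤ 2 ^ n := Nat.pow_le_pow_right (by norm_num) hk
    have h3 : m + lcr m k ≤ 4 * 2 ^ n * m := by nlinarith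
    have h4 : ((m : ℝ) + lcr m k) ≤ 4 * 2 ^ n * m := by exact_mod_cast h3
    have h5 : e / 2 = 4 * 2 ^ n * m * σ := by
      rw [he, pow_add]
      ring
    rw [h5]
    exact mul_le_mul_of_nonneg_right h4 hσ0
  let y : ℕ → ℝ := fun k => NN c V (lcc g h k)
  have hy0 : ∀ k, 0 ≤ y k := fun k => NN_nonneg _
  have hmem : ∀ k, lcc g h k ∈ S ^ (lcr m k) := lcc_mem hS hg hh
  have hrec1 : ∀ k ≤ n, y (k + 1) ≤ 2 * ε * y k + 5 * e := by
    intro k hk
    have h1 : y (k + 1) ≤ 2 * NN c V g * NN c V (lcc g h k) + 10 * ((m : ℝ) + lcr m k) * σ :=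
      NN_comm hS hA m (lcr m k) hg (hmem k)
    have h2 := hlen k hk
    have h3 : NN c V g * NN c V (lcc g h k) ≤ ε * y k :=
      mul_le_mul_of_nonneg_right (hTN g hgT) (hy0 k)
    nlinarith
  have hyε : ∀ k ≤ n + 1, y k ≤ ε := by
    intro k
    induction k with
    | zero => exact fun _ => hTN h hhT
    | succ k ih =>
      intro hk
      have h1 := ih (by omega)
      have h2 := hrec1 k (by omega)
      nlinarith
  have hrec2 : ∀ k < n, y (k + 1) ^ 2 ≤ (2 * (d + 1)) * y k * y (k + 2) + 112 * (d * e) := by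
    intro k hk
    have h1 := NN_comm_sq hS hA m (lcr m k) hg (hmem k)
      (by
        have h2 := hyε k (by omega)
        calc d * NN c V (lcc g h k) ≤ d * ε := mul_le_mul_of_nonneg_left h2 hd0
          _ ≤ 1 / 2 := hε1)
      (by
        have h2 := hlen k hk.le
        calc d * (((m : ℝ) + lcr m k) * σ) ≤ d * (e / 2) := mul_le_mul_of_nonneg_left h2 hd0
          _ ≤ 1 := by nlinarith)
    have h2 := hlen k hk.le
    have h3 : d * (((m : ℝ) + lcr m k) * σ) ≤ d * (e / 2) := mul_le_mul_of_nonneg_left h2 hd0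
    change y (k + 1) ^ 2 ≤ 2 * d * y k * y (k + 2) + 224 * d * (((m : ℝ) + lcr m k) * σ) at h1
    have h4 : 0 ≤ y k * y (k + 2) := mul_nonneg (hy0 _) (hy0 _)
    nlinarith
  have hlow : ∀ k ≤ n, ζ ≤ y (k + 1) := by
    have h1 := seq_lower y n (2 * (d + 1)) 2 χ (112 * (d * e)) (by linarith)
      ((hyε 0 (by omega)).trans (by linarith)) hy0 hχ (by linarith) hcon.le hrec2
      (by
        have h2 : χ * (χ / 2) ^ n * ((2 * (2 * (d + 1))) ^ (n ^ 2))⁻¹ = ζ := by
          rw [hζ]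
          ring_nf
        rw [h2]
        nlinarith)
    intro k hk
    have h2 := h1 k hk
    have h3 : χ * (χ / 2) ^ n * ((2 * (2 * (d + 1))) ^ (n ^ 2))⁻¹ = ζ := by
      rw [hζ]
      ring_nf
    rwa [h3] at h2
  have hlow0 : ζ ≤ y 0 := by
    have h1 := hrec1 0 (by omega)
    have h2 : χ < y (0 + 1) := hcon
    have h3 := hy0 0
    have h4 : ζ * ε ≤ χ * ε := mul_le_mul_of_nonneg_right hζχ hε.le
    have h5 : ε * y 0 ≤ 1 / 8 * y 0 := mul_le_mul_of_nonneg_right hε2 h3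
    nlinarith
  have hlow' : ∀ k ≤ n + 1, ζ ≤ y k := by
    intro k hk
    rcases Nat.eq_zero_or_pos k with h1 | h1
    · rw [h1]
      exact hlow0
    · obtain ⟨j, rfl⟩ := Nat.exists_eq_succ_of_ne_zero h1.ne'
      exact hlow j (by omega)
  have hdec : ∀ k ≤ n, y (k + 1) ≤ 3 * ε * y k := by
    intro k hk
    have h1 := hrec1 k hk
    have h2 := hlow' k (by omega)
    have h3 : ζ * ε ≤ y k * ε := mul_le_mul_of_nonneg_right h2 hε.le
    nlinarith
  have hsum : ∀ t i, i + t = n → ∑ j ∈ Finset.Ioo i n, y j ≤ 5 * ε * y i := by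
    intro t
    induction t with
    | zero =>
      intro i hi
      have h1 : Finset.Ioo i n = ∅ := Finset.Ioo_eq_empty (by omega)
      rw [h1, Finset.sum_empty]
      have := hy0 i
      positivity
    | succ t ih =>
      intro i hi
      have h1 := ih (i + 1) (by omega)
      have h2 := hdec i (by omega)
      have h3 : ∑ j ∈ Finset.Ioo i n, y j ≤ y (i + 1) + ∑ j ∈ Finset.Ioo (i + 1) n, y j := by
        have h4 : Finset.Ioo i n ⊆ insert (i + 1) (Finset.Ioo (i + 1) n) := by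
          intro j hj
          rw [Finset.mem_insert, Finset.mem_Ioo]
          rw [Finset.mem_Ioo] at hj
          omega
        have h5 : (i + 1) ∉ Finset.Ioo (i + 1) n := by simp
        calc ∑ j ∈ Finset.Ioo i n, y j ≤ ∑ j ∈ insert (i + 1) (Finset.Ioo (i + 1) n), y j :=
              Finset.sum_le_sum_of_subset_of_nonneg h4 fun j _ _ => hy0 j
          _ = _ := Finset.sum_insert h5
      have h6 := hy0 (i + 1)
      have h7 := hy0 i
      have h8 : ε * y (i + 1) ≤ 1 / 8 * y (i + 1) := mul_le_mul_of_nonneg_right hε2 h6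
      nlinarith
  have hprod := prod_inj (NN c V) NN_nonneg NN_one NN_mul NN_inv (lcc g h) n A
    (by
      intro i hi a ha1 haA
      have h1 : ∑ j ∈ Finset.Ioo i n, NN c V (lcc g h j) ≤ 5 * ε * y i :=
        hsum (n - i) i (by omega)
      have h2 := NN_pow_ge hS hA (lcr m i) (hmem i) a
      have h3 := hlow' i (by omega)
      have h4 : 0 < y i := lt_of_lt_of_le hζ0 h3
      have h5 := hyε i (by omega)
      have ha1' : (1 : ℝ) ≤ a := by exact_mod_cast ha1
      have haA' : (a : ℝ) ≤ A := by exact_mod_cast haA.le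
      have h6 : 2 * (A : ℝ) * ∑ j ∈ Finset.Ioo i n, NN c V (lcc g h j) ≤ 5 / 32 * y i := by
        calc 2 * (A : ℝ) * ∑ j ∈ Finset.Ioo i n, NN c V (lcc g h j)
            ≤ 2 * (A : ℝ) * (5 * ε * y i) := mul_le_mul_of_nonneg_left h1 (by positivity)
          _ = 10 * (A * ε) * y i := by ring
          _ ≤ 10 * (1 / 64) * y i := by gcongr
          _ = 5 / 32 * y i := by ring
      have h7 : ((a : ℝ) * y i) ≤ 1 / 64 := by
        calc (a : ℝ) * y i ≤ A * ε := mul_le_mul haA' h5 h4.le (by positivity)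
          _ ≤ 1 / 64 := hAε
      have h8 : (lcr m i : ℝ) * σ ≤ e / 2 := by
        have h9 := hlen i hi.le
        have h10 : 0 ≤ (m : ℝ) * σ := by positivity
        nlinarith
      have h9 : e ≤ y i / 100 := by
        have h10 : ζ * ε ≤ ζ * 1 := mul_le_mul_of_nonneg_left (by linarith) hζ0.le
        nlinarith
      have h10 : (a : ℝ) * y i - (a : ℝ) ^ 2 / 2 * y i ^ 2 - 2 * a * (lcr m i) * σ
          = a * (y i - (a * y i) / 2 * y i - 2 * (lcr m i * σ)) := by ring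
      change (a : ℝ) * y i - (a : ℝ) ^ 2 / 2 * y i ^ 2 - 2 * a * (lcr m i) * σ ≤ _ at h2
      rw [h10] at h2
      have h11 : 1 / 2 * y i ≤ y i - (a * y i) / 2 * y i - 2 * (lcr m i * σ) := by
        have h12 : (a * y i) * y i ≤ 1 / 64 * y i := mul_le_mul_of_nonneg_right h7 h4.le
        nlinarith
      have h12 : 1 / 2 * y i ≤ a * (y i - (a * y i) / 2 * y i - 2 * (lcr m i * σ)) := by
        have h13 : 0 ≤ y i - (a * y i) / 2 * y i - 2 * (lcr m i * σ) := by linarith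
        nlinarith
      linarith)
    S hS (lcr m) (fun i _ => hmem i)
  have hle : A * ∑ i ∈ Finset.range n, lcr m i ≤ A * (2 ^ (n + 2) * m) := by
    have h1 := lcr_sum m n
    refine Nat.mul_le_mul_left A (h1.trans ?_)
    rw [pow_add]
    have : 3 * 2 ^ n ≤ 2 ^ n * 2 ^ 2 := by
      have := Nat.zero_le (2 ^ n)
      omega
    exact Nat.mul_le_mul_right m this
  have hcard := Finset.card_le_card (lc_pow_mono hS hle)
  omega

end Pool.Agent.Helper41.Gap
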