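import Pool.Agent.Helper41.Gap.Ex

set_option autoImplicit false

open scoped Pointwise RealInnerProductSpace TensorProduct
open ProbabilityTheory MeasureTheory Module

namespace Pool.Agent.Helper41.Gap

variable {G : Type} [Group G] [DecidableEq G]
variable {X : Type} [NormedAddCommGroup X] [InnerProductSpace ℝ X]

private theorem card_pos' {S : Finset G} (hS : SymOne S) : 0 < (S.card : ℝ) := by
  exact_mod_cast Finset.card_pos.2 ⟨1, hS.one⟩

private theorem Pm_eq (S : Finset G) (L : G →* (X ≃ₗᵢ[ℝ] X)) (x : X) :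
    Pm S L x = (1 / 2 : ℝ) • x + ((2 * (S.card : ℝ))⁻¹) • ∑ s ∈ S, L s x := by
  simp [Pm, LinearMap.sum_apply]

theorem Pm_apply (S : Finset G) (L : G →* (X ≃ₗᵢ[ℝ] X)) (x : X) :
    Pm S L x = av S (fun s => L s x) := by
  rw [Pm_eq, av, map_one]
  rfl

theorem Pm_pow_apply (S : Finset G) (L : G →* (X ≃ₗᵢ[ℝ] X)) (k : ℕ) (x : X) :
    (Pm S L ^ k) x = ex S k (fun g => L g x) := by
  induction k generalizing x with
  | zero =>
    simp only [ex, map_one, pow_zero]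
    rfl
  | succ k ih =>
    rw [pow_succ]
    change (Pm S L ^ k) (Pm S L x) = _
    rw [ih]
    simp only [ex]
    congr 1
    funext g
    rw [Pm_apply]
    have := map_av ((L g).toLinearEquiv : X →ₗ[ℝ] X) S (fun s => L s x)
    simp only [LinearEquiv.coe_coe, LinearIsometryEquiv.coe_toLinearEquiv] at this
    rw [this]
    congr 1
    funext s
    rw [map_mul]
    rfl

private theorem inner_L (L : G →* (X ≃ₗᵢ[ℝ] X)) (s : G) (x y : X) :
    ⟪L s x, y⟫ = ⟪x, L s⁻¹ y⟫ := by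
  rw [← LinearIsometryEquiv.inner_map_map (L s⁻¹) (L s x) y]
  congr 1
  have h : L s⁻¹ * L s = 1 := by rw [← map_mul, inv_mul_cancel, map_one]
  exact congrArg (fun f : X ≃ₗᵢ[ℝ] X => f x) h

private theorem sum_inv {S : Finset G} (hS : SymOne S) (F : G → ℝ) :
    ∑ s ∈ S, F s⁻¹ = ∑ s ∈ S, F s :=
  Finset.sum_nbij' (fun s => s⁻¹) (fun s => s⁻¹) (fun s hs => hS.inv s hs)
    (fun s hs => hS.inv s hs) (fun s _ => inv_inv s) (fun s _ => inv_inv s) (fun s _ => rfl)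

theorem Pm_symm {S : Finset G} (hS : SymOne S) (L : G →* (X ≃ₗᵢ[ℝ] X)) (x y : X) :
    ⟪Pm S L x, y⟫ = ⟪x, Pm S L y⟫ := by
  rw [Pm_eq, Pm_eq, inner_add_left, inner_add_right, real_inner_smul_left, real_inner_smul_left,
    real_inner_smul_right, real_inner_smul_right, sum_inner, inner_sum]
  congr 2
  rw [← sum_inv hS (fun s => ⟪x, L s y⟫)]
  exact Finset.sum_congr rfl (fun s _ => inner_L L s x y)

theorem Pm_nonneg {S : Finset G} (hS : SymOne S) (L : G →* (X ≃ₗᵢ[ℝ] X)) (x : X) :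
    0 ≤ ⟪x, Pm S L x⟫ := by
  have hc := card_pos' hS
  rw [Pm_eq, inner_add_right, real_inner_smul_right, real_inner_smul_right, inner_sum,
    real_inner_self_eq_norm_sq]
  have h1 : -((S.card : ℝ) * ‖x‖ ^ 2) ≤ ∑ s ∈ S, ⟪x, L s x⟫ := by
    rw [← nsmul_eq_mul, ← Finset.sum_const, ← Finset.sum_neg_distrib]
    apply Finset.sum_le_sum
    intro s _
    have := abs_le.1 (abs_real_inner_le_norm x (L s x))
    rw [LinearIsometryEquiv.norm_map] at this
    nlinarith [this.1]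
  have h2 : (2 * (S.card : ℝ))⁻¹ * -((S.card : ℝ) * ‖x‖ ^ 2) ≤
      (2 * (S.card : ℝ))⁻¹ * ∑ s ∈ S, ⟪x, L s x⟫ :=
    mul_le_mul_of_nonneg_left h1 (by positivity)
  have h3 : (2 * (S.card : ℝ))⁻¹ * -((S.card : ℝ) * ‖x‖ ^ 2) = - (1 / 2 * ‖x‖ ^ 2) := by
    field_simp
  linarith

theorem norm_Pm_le {S : Finset G} (hS : SymOne S) (L : G →* (X ≃ₗᵢ[ℝ] X)) (x : X) :
    ‖Pm S L x‖ ≤ ‖x‖ := by
  have hc := card_pos' hS
  rw [Pm_eq]
  refine (norm_add_le _ _).trans ?_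
  rw [norm_smul, norm_smul]
  have h1 : ‖∑ s ∈ S, L s x‖ ≤ (S.card : ℝ) * ‖x‖ := by
    refine (norm_sum_le _ _).trans ?_
    rw [← nsmul_eq_mul, ← Finset.sum_const]
    exact Finset.sum_le_sum (fun s _ => (LinearIsometryEquiv.norm_map (L s) x).le)
  have h2 : ‖(2 * (S.card : ℝ))⁻¹‖ * ‖∑ s ∈ S, L s x‖ ≤ (2 * (S.card : ℝ))⁻¹ * ((S.card : ℝ) * ‖x‖) := by
    rw [Real.norm_of_nonneg (by positivity)]
    exact mul_le_mul_of_nonneg_left h1 (by positivity)
  have h3 : (2 * (S.card : ℝ))⁻¹ * ((S.card : ℝ) * ‖x‖) = 1 / 2 * ‖x‖ := by field_simp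
  have h4 : ‖(1 / 2 : ℝ)‖ = 1 / 2 := by norm_num
  rw [h4]
  linarith

/-- Cauchy-Schwarz for a symmetric positive semidefinite operator -/
private theorem cs_psd (T : X →ₗ[ℝ] X) (hs : ∀ x y, ⟪T x, y⟫ = ⟪x, T y⟫) (hp : ∀ x, 0 ≤ ⟪x, T x⟫)
    (x y : X) : ⟪x, T y⟫ ^ 2 ≤ ⟪x, T x⟫ * ⟪y, T y⟫ := by
  have h : ∀ t : ℝ, 0 ≤ ⟪y, T y⟫ * (t * t) + (2 * ⟪x, T y⟫) * t + ⟪x, T x⟫ := by
    intro t
    have h1 := hp (x + t • y)
    have h2 : ⟪y, T x⟫ = ⟪x, T y⟫ := by rw [← hs y x, real_inner_comm]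
    rw [map_add, map_smul, inner_add_left, inner_add_right, inner_add_right,
      real_inner_smul_left, real_inner_smul_left, real_inner_smul_right, real_inner_smul_right,
      h2] at h1
    linarith
  have h3 := discrim_le_zero h
  rw [discrim] at h3
  nlinarith

theorem Pm_sq_le {S : Finset G} (hS : SymOne S) (L : G →* (X ≃ₗᵢ[ℝ] X)) (x : X) :
    ‖Pm S L x‖ ^ 2 ≤ ⟪x, Pm S L x⟫ := by
  have h1 := cs_psd (Pm S L) (Pm_symm hS L) (Pm_nonneg hS L) x (Pm S L x)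
  rw [← Pm_symm hS L x (Pm S L x), real_inner_self_eq_norm_sq] at h1
  have h2 : ⟪Pm S L x, Pm S L (Pm S L x)⟫ ≤ ‖Pm S L x‖ ^ 2 := by
    refine (real_inner_le_norm _ _).trans ?_
    rw [sq]
    exact mul_le_mul_of_nonneg_left (norm_Pm_le hS L _) (norm_nonneg _)
  have h3 := Pm_nonneg hS L x
  rcases eq_or_lt_of_le (norm_nonneg (Pm S L x)) with h | h
  · rw [← h]; simpa using h3
  · have h4 : 0 < ‖Pm S L x‖ ^ 2 := by positivity
    nlinarith

theorem phi_add {S : Finset G} (hS : SymOne S) (L : G →* (X ≃ₗᵢ[ℝ] X)) (x : X) (j k : ℕ) :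
    ⟪(Pm S L ^ j) x, (Pm S L ^ k) x⟫ = phi S L x (j + k) := by
  induction j generalizing k with
  | zero => simp [phi]
  | succ j ih =>
    rw [pow_succ']
    change ⟪Pm S L ((Pm S L ^ j) x), (Pm S L ^ k) x⟫ = _
    rw [Pm_symm hS]
    have h : Pm S L ((Pm S L ^ k) x) = (Pm S L ^ (k + 1)) x := by rw [pow_succ']; rfl
    rw [h, ih]
    congr 1
    ring

private theorem P_succ (S : Finset G) (L : G →* (X ≃ₗᵢ[ℝ] X)) (k : ℕ) (x : X) :
    (Pm S L ^ (k + 1)) x = Pm S L ((Pm S L ^ k) x) := by rw [pow_succ']; rfl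

theorem phi_nonneg {S : Finset G} (hS : SymOne S) (L : G →* (X ≃ₗᵢ[ℝ] X)) (x : X) (k : ℕ) :
    0 ≤ phi S L x k := by
  rcases Nat.even_or_odd' k with ⟨j, h | h⟩
  · rw [h, two_mul, ← phi_add hS, real_inner_self_eq_norm_sq]; positivity
  · rw [h, show 2 * j + 1 = j + (j + 1) by ring, ← phi_add hS, P_succ]
    exact Pm_nonneg hS L _

theorem phi_anti {S : Finset G} (hS : SymOne S) (L : G →* (X ≃ₗᵢ[ℝ] X)) (x : X) :
    Antitone (phi S L x) := by
  refine antitone_nat_of_succ_le (fun k => ?_)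
  rcases Nat.even_or_odd' k with ⟨j, h | h⟩
  · rw [h, show 2 * j + 1 = j + (j + 1) by ring, two_mul, ← phi_add hS, ← phi_add hS, P_succ]
    refine (real_inner_le_norm _ _).trans ?_
    rw [real_inner_self_eq_norm_mul_norm]
    exact mul_le_mul_of_nonneg_left (norm_Pm_le hS L _) (norm_nonneg _)
  · rw [h, show 2 * j + 1 + 1 = (j + 1) + (j + 1) by ring, show 2 * j + 1 = j + (j + 1) by ring,
      ← phi_add hS, ← phi_add hS, P_succ, real_inner_self_eq_norm_sq]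
    exact Pm_sq_le hS L _

private theorem z_facts {S : Finset G} (hS : SymOne S) (L : G →* (X ≃ₗᵢ[ℝ] X)) (x : X) (j : ℕ) :
    ⟪(Pm S L ^ j) x - (Pm S L ^ (j + 1)) x, (Pm S L ^ j) x - (Pm S L ^ (j + 1)) x⟫ =
      phi S L x (2 * j) - 2 * phi S L x (2 * j + 1) + phi S L x (2 * j + 2) ∧
    ⟪(Pm S L ^ j) x - (Pm S L ^ (j + 1)) x,
      Pm S L ((Pm S L ^ j) x - (Pm S L ^ (j + 1)) x)⟫ =
      phi S L x (2 * j + 1) - 2 * phi S L x (2 * j + 2) + phi S L x (2 * j + 3) := by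
  constructor
  · rw [inner_sub_left, inner_sub_right, inner_sub_right, phi_add hS, phi_add hS, phi_add hS,
      phi_add hS, show j + j = 2 * j by ring, show j + (j + 1) = 2 * j + 1 by ring,
      show j + 1 + j = 2 * j + 1 by ring, show j + 1 + (j + 1) = 2 * j + 2 by ring]
    ring
  · rw [map_sub, ← P_succ, ← P_succ, inner_sub_left, inner_sub_right, inner_sub_right,
      phi_add hS, phi_add hS, phi_add hS,
      phi_add hS, show j + (j + 1) = 2 * j + 1 by ring, show j + (j + 1 + 1) = 2 * j + 2 by ring,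
      show j + 1 + (j + 1) = 2 * j + 2 by ring, show j + 1 + (j + 1 + 1) = 2 * j + 3 by ring]
    ring

theorem phi_diff_anti {S : Finset G} (hS : SymOne S) (L : G →* (X ≃ₗᵢ[ℝ] X)) (x : X) :
    Antitone (fun k => phi S L x k - phi S L x (k + 1)) := by
  refine antitone_nat_of_succ_le (fun k => ?_)
  rcases Nat.even_or_odd' k with ⟨j, h | h⟩
  · have h1 := (z_facts hS L x j).1
    have h2 : 0 ≤ ⟪(Pm S L ^ j) x - (Pm S L ^ (j + 1)) x,
      (Pm S L ^ j) x - (Pm S L ^ (j + 1)) x⟫ := real_inner_self_nonneg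
    rw [h1] at h2
    rw [h]
    change phi S L x (2 * j + 1) - phi S L x (2 * j + 2) ≤ _
    linarith
  · have h1 := (z_facts hS L x j).2
    have h2 := Pm_nonneg hS L ((Pm S L ^ j) x - (Pm S L ^ (j + 1)) x)
    rw [h1] at h2
    rw [h]
    change phi S L x (2 * j + 2) - phi S L x (2 * j + 3) ≤
      phi S L x (2 * j + 1) - phi S L x (2 * j + 2)
    linarith

theorem phi_diff_le {S : Finset G} (hS : SymOne S) (L : G →* (X ≃ₗᵢ[ℝ] X)) (x : X) (k : ℕ) :
    phi S L x k - phi S L x (k + 1) ≤ ‖x‖ ^ 2 / (k + 1) := by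
  have h1 : ∀ m : ℕ, m ≤ k + 1 → (m : ℝ) * (phi S L x k - phi S L x (k + 1)) ≤
      phi S L x 0 - phi S L x m := by
    intro m
    induction m with
    | zero => intro _; simp
    | succ m ih =>
      intro hm
      have h2 := ih (by omega)
      have h3 := phi_diff_anti hS L x (show m ≤ k by omega)
      simp only at h3
      push_cast
      linarith
  have h4 := h1 (k + 1) le_rfl
  have h5 := phi_nonneg hS L x (k + 1)
  have h6 : phi S L x 0 = ‖x‖ ^ 2 := by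
    simp only [phi, pow_zero]
    exact real_inner_self_eq_norm_sq x
  rw [le_div_iff₀ (by positivity)]
  push_cast at h4
  linarith

theorem phi_diff_logconvex {S : Finset G} (hS : SymOne S) (L : G →* (X ≃ₗᵢ[ℝ] X)) (x : X) (k : ℕ) :
    (phi S L x (k + 1) - phi S L x (k + 2)) ^ 2 ≤
      (phi S L x k - phi S L x (k + 1)) * (phi S L x (k + 2) - phi S L x (k + 3)) := by
  have hsymm : ∀ (m : ℕ) (a b : X), ⟪(Pm S L ^ m) a, b⟫ = ⟪a, (Pm S L ^ m) b⟫ := by
    intro m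
    induction m with
    | zero => intro a b; simp
    | succ m ih =>
      intro a b
      rw [P_succ, Pm_symm hS, ih, pow_succ]
      rfl
  have h := cs_psd (Pm S L ^ k - Pm S L ^ (k + 1)) (fun a b => by
    rw [LinearMap.sub_apply, LinearMap.sub_apply, inner_sub_left, inner_sub_right, hsymm, hsymm])
    (fun a => by
      rw [LinearMap.sub_apply, inner_sub_right]
      have := phi_anti hS L a (show k ≤ k + 1 by omega)
      simp only [phi] at this
      linarith) x (Pm S L x)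
  have hP : ∀ m : ℕ, (Pm S L ^ m) (Pm S L x) = (Pm S L ^ (m + 1)) x := by
    intro m; rw [pow_succ]; rfl
  have h1 : Pm S L x = (Pm S L ^ 1) x := by rw [pow_one]
  simp only [LinearMap.sub_apply, inner_sub_right, hP] at h
  rw [h1] at h
  simp only [phi_add hS] at h
  have e1 : ⟪x, (Pm S L ^ (k + 1)) x⟫ = phi S L x (k + 1) := rfl
  have e2 : ⟪x, (Pm S L ^ (k + 1 + 1)) x⟫ = phi S L x (k + 2) := rfl
  have e3 : ⟪x, (Pm S L ^ k) x⟫ = phi S L x k := rfl
  rw [e1, e2, e3, show 1 + (k + 1) = k + 2 by ring, show 1 + (k + 1 + 1) = k + 3 by ring] at h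
  exact h

private theorem norm_sub_L (L : G →* (X ≃ₗᵢ[ℝ] X)) (x : X) (s : G) :
    ‖x - L s x‖ ^ 2 = 2 * ‖x‖ ^ 2 - 2 * ⟪x, L s x⟫ := by
  rw [norm_sub_sq_real, LinearIsometryEquiv.norm_map]
  ring

theorem disp_av {S : Finset G} (hS : SymOne S) (L : G →* (X ≃ₗᵢ[ℝ] X)) (x : X) :
    av S (fun s => ‖x - L s x‖ ^ 2) = 2 * (‖x‖ ^ 2 - ⟪x, Pm S L x⟫) := by
  have hc := card_pos' hS
  rw [av, Pm_eq, inner_add_right, real_inner_smul_right, real_inner_smul_right, inner_sum,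
    real_inner_self_eq_norm_sq]
  simp only [norm_sub_L, smul_eq_mul]
  rw [Finset.sum_sub_distrib, Finset.sum_const, nsmul_eq_mul, ← Finset.mul_sum, map_one]
  have h1 : ⟪x, (1 : X ≃ₗᵢ[ℝ] X) x⟫ = ‖x‖ ^ 2 := real_inner_self_eq_norm_sq x
  rw [h1]
  field_simp
  ring

theorem disp_le {S : Finset G} (hS : SymOne S) (L : G →* (X ≃ₗᵢ[ℝ] X)) (x : X) {s : G}
    (hs : s ∈ S) : ‖x - L s x‖ ^ 2 ≤ 4 * (S.card : ℝ) * (‖x‖ ^ 2 - ⟪x, Pm S L x⟫) := by
  have h := le_av hS (F := fun s => ‖x - L s x‖ ^ 2) (by positivity)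
    (fun s _ => by positivity) hs
  rw [disp_av hS] at h
  linarith

end Pool.Agent.Helper41.Gap
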