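import Pool.Agent.Helper41.Gap.CocBasic

set_option autoImplicit false

open scoped Pointwise RealInnerProductSpace TensorProduct
open ProbabilityTheory MeasureTheory Module

namespace Pool.Agent.Helper41.Gap

variable {G : Type} [Group G] [DecidableEq G]
variable {E : Type} [NormedAddCommGroup E] [InnerProductSpace ℝ E]
variable {S : Finset G} {c : Coc G E} {V : Submodule ℝ E} [FiniteDimensional ℝ V] {σ : ℝ}

omit [DecidableEq G] in
private theorem nnb_mul (c : Coc G E) (g h : G) (v : E) : c.L (g * h) v = c.L g (c.L h v) := by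
  rw [map_mul]; rfl

omit [DecidableEq G] in
private theorem nnb_one (c : Coc G E) (v : E) : c.L (1 : G) v = v := by
  rw [map_one]; rfl

omit [DecidableEq G] in
private theorem nnb_inv (c : Coc G E) (g : G) (v : E) : c.L g⁻¹ (c.L g v) = v := by
  rw [← nnb_mul, inv_mul_cancel, nnb_one]

omit [DecidableEq G] in
private theorem nnb_inv' (c : Coc G E) (g : G) (v : E) : c.L g (c.L g⁻¹ v) = v := by
  rw [← nnb_mul, mul_inv_cancel, nnb_one]

omit [DecidableEq G] in
private theorem nnb_adj (c : Coc G E) (g : G) (x y : E) : ⟪x, c.L g y⟫ = ⟪c.L g⁻¹ x, y⟫ := by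
  rw [← (c.L g⁻¹).inner_map_map x (c.L g y), nnb_inv]

private theorem nnb_sq {a b : ℝ} (ha : 0 ≤ a) (hb : 0 ≤ b) (h : a * a ≤ b * a) : a ≤ b := by
  rcases ha.eq_or_lt with h0 | h0
  · rw [← h0]; exact hb
  · exact le_of_mul_le_mul_right h h0

private theorem nnb_dist (V : Submodule ℝ E) [FiniteDimensional ℝ V] (x : E) :
    ‖x - V.starProjection x‖ ≤ ‖x‖ := by
  apply nnb_sq (norm_nonneg _) (norm_nonneg _)
  have h1 : ⟪x - V.starProjection x, V.starProjection x⟫ = 0 :=
    V.starProjection_inner_eq_zero x _ (V.starProjection_apply_mem x)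
  have h2 : ‖x - V.starProjection x‖ * ‖x - V.starProjection x‖ =
      ⟪x - V.starProjection x, x⟫ := by
    rw [← real_inner_self_eq_norm_mul_norm]
    conv_lhs => rw [inner_sub_right, h1, sub_zero]
  rw [h2, mul_comm]
  exact real_inner_le_norm _ _

private theorem nnb_inv_mem {S : Finset G} (hS : SymOne S) (r : ℕ) {g : G} (hg : g ∈ S ^ r) :
    g⁻¹ ∈ S ^ r := by
  have h1 : S⁻¹ = S := by
    ext x
    rw [Finset.mem_inv']
    exact ⟨fun h => by simpa using hS.inv _ h, fun h => hS.inv _ h⟩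
  have h2 : g⁻¹ ∈ (S ^ r)⁻¹ := Finset.inv_mem_inv hg
  rwa [← _root_.inv_pow, h1] at h2

theorem inv_pow (hS : SymOne S) (hA : AInv S c V σ) (r : ℕ) {g : G} (hg : g ∈ S ^ r) {v : E}
    (hv : v ∈ V) : ‖c.L g v - V.starProjection (c.L g v)‖ ≤ r * σ * ‖v‖ := by
  induction r generalizing g v with
  | zero =>
    rw [pow_zero, Finset.mem_one] at hg
    subst hg
    rw [nnb_one, V.starProjection_eq_self_iff.2 hv]
    simp
  | succ r ih =>
    rw [pow_succ', Finset.mem_mul] at hg
    obtain ⟨s, hs, h, hh, rfl⟩ := hg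
    rw [nnb_mul]
    set w := V.starProjection (c.L h v) with hw
    set e := c.L h v - w with he
    have hwV : w ∈ V := V.starProjection_apply_mem _
    have h1 : c.L h v = w + e := by rw [he]; abel
    have h2 : ‖e‖ ≤ r * σ * ‖v‖ := ih hh hv
    have h3 : ‖w‖ ≤ ‖v‖ := (V.norm_starProjection_apply_le _).trans (by rw [(c.L h).norm_map])
    have h4 := hA.inv s hs w hwV
    have h5 := nnb_dist V (c.L s e)
    rw [(c.L s).norm_map] at h5
    rw [h1, map_add, map_add]
    have h6 : c.L s w + c.L s e - (V.starProjection (c.L s w) + V.starProjection (c.L s e)) =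
        (c.L s w - V.starProjection (c.L s w)) + (c.L s e - V.starProjection (c.L s e)) := by abel
    rw [h6]
    refine (norm_add_le _ _).trans ?_
    have h7 : σ * ‖w‖ ≤ σ * ‖v‖ := mul_le_mul_of_nonneg_left h3 hA.nonneg
    push_cast
    nlinarith

theorem adj_pow (hS : SymOne S) (hA : AInv S c V σ) (r : ℕ) {g : G} (hg : g ∈ S ^ r) (x : E) :
    ‖V.starProjection (c.L g (x - V.starProjection x))‖ ≤ r * σ * ‖x‖ := by
  set y := V.starProjection (c.L g (x - V.starProjection x)) with hy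
  have hyV : y ∈ V := V.starProjection_apply_mem _
  apply nnb_sq (norm_nonneg _) (by have := hA.nonneg; positivity)
  have h1 : ‖y‖ * ‖y‖ = ⟪y, c.L g (x - V.starProjection x)⟫ := by
    rw [← real_inner_self_eq_norm_mul_norm]
    conv_lhs => rw [hy]
    rw [V.inner_starProjection_left_eq_right, V.starProjection_eq_self_iff.2 hyV,
      real_inner_comm]
  have h2 : ⟪V.starProjection (c.L g⁻¹ y), x - V.starProjection x⟫ = 0 := by
    rw [real_inner_comm]
    exact V.starProjection_inner_eq_zero x _ (V.starProjection_apply_mem _)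
  have h3 : ⟪y, c.L g (x - V.starProjection x)⟫ =
      ⟪c.L g⁻¹ y - V.starProjection (c.L g⁻¹ y), x - V.starProjection x⟫ := by
    rw [inner_sub_left, h2, sub_zero, nnb_adj]
  rw [h1, h3]
  refine (real_inner_le_norm _ _).trans ?_
  have h4 := inv_pow hS hA r (nnb_inv_mem hS r hg) hyV
  have h5 := nnb_dist V x
  calc _ ≤ (r * σ * ‖y‖) * ‖x‖ := by
        apply mul_le_mul h4 h5 (norm_nonneg _)
        have := hA.nonneg; positivity
    _ = r * σ * ‖x‖ * ‖y‖ := by ring

theorem NN_nonneg (g : G) : 0 ≤ NN c V g := by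
  unfold NN
  positivity

private theorem nnb_apply (c : Coc G E) (V : Submodule ℝ E) (g : G) (v : V) :
    (((c.L g).toContinuousLinearEquiv.toContinuousLinearMap - ContinuousLinearMap.id ℝ E).comp
    V.subtypeL) v = c.L g v - v := rfl

theorem NN_le {g : G} {x : ℝ} (hx : 0 ≤ x) (h : ∀ v ∈ V, ‖c.L g v - v‖ ≤ x * ‖v‖) :
    NN c V g ≤ x := by
  apply ContinuousLinearMap.opNorm_le_bound _ hx
  intro v
  rw [nnb_apply]
  exact h v v.2

theorem NN_spec (g : G) {v : E} (hv : v ∈ V) : ‖c.L g v - v‖ ≤ NN c V g * ‖v‖ := by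
  have h := ContinuousLinearMap.le_opNorm
    (((c.L g).toContinuousLinearEquiv.toContinuousLinearMap - ContinuousLinearMap.id ℝ E).comp
    V.subtypeL) ⟨v, hv⟩
  rw [nnb_apply] at h
  exact h

theorem NN_le_two (g : G) : NN c V g ≤ 2 := by
  apply NN_le (by norm_num)
  intro v _
  refine (norm_sub_le _ _).trans ?_
  rw [(c.L g).norm_map]
  linarith

theorem NN_one : NN c V (1 : G) = 0 := by
  refine le_antisymm (NN_le le_rfl fun v _ => ?_) (NN_nonneg _)
  rw [nnb_one]; simp

private theorem nnb_NN_inv_le (g : G) : NN c V g⁻¹ ≤ NN c V g := by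
  refine NN_le (NN_nonneg _) fun v hv => ?_
  have h1 : ‖c.L g⁻¹ v - v‖ = ‖v - c.L g v‖ := by
    rw [← (c.L g).norm_map (c.L g⁻¹ v - v), map_sub, nnb_inv']
  rw [h1, norm_sub_rev]
  exact NN_spec g hv

theorem NN_inv (g : G) : NN c V g⁻¹ = NN c V g := by
  refine le_antisymm (nnb_NN_inv_le g) ?_
  have h := nnb_NN_inv_le (c := c) (V := V) g⁻¹
  rwa [inv_inv] at h

theorem NN_mul (g h : G) : NN c V (g * h) ≤ NN c V g + NN c V h := by
  refine NN_le (add_nonneg (NN_nonneg _) (NN_nonneg _)) fun v hv => ?_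
  have h1 : c.L (g * h) v - v = c.L g (c.L h v - v) + (c.L g v - v) := by
    rw [nnb_mul, map_sub]; abel
  rw [h1]
  refine (norm_add_le _ _).trans ?_
  rw [(c.L g).norm_map]
  have h2 := NN_spec (c := c) (V := V) g hv
  have h3 := NN_spec (c := c) (V := V) h hv
  linarith

theorem NN_pow_le (g : G) (n : ℕ) : NN c V (g ^ n) ≤ n * NN c V g := by
  induction n with
  | zero => rw [pow_zero, NN_one]; simp
  | succ n ih =>
    rw [pow_succ]
    refine (NN_mul _ _).trans ?_
    push_cast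
    linarith

theorem NN_adj (g : G) (y : E) : ‖V.starProjection (c.L g y - y)‖ ≤ NN c V g * ‖y‖ := by
  set z := V.starProjection (c.L g y - y) with hz
  have hzV : z ∈ V := V.starProjection_apply_mem _
  apply nnb_sq (norm_nonneg _) (mul_nonneg (NN_nonneg _) (norm_nonneg _))
  have h1 : ‖z‖ * ‖z‖ = ⟪z, c.L g y - y⟫ := by
    rw [← real_inner_self_eq_norm_mul_norm]
    conv_lhs => rw [hz]
    rw [V.inner_starProjection_left_eq_right, V.starProjection_eq_self_iff.2 hzV,
      real_inner_comm]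
  have h2 : ⟪z, c.L g y - y⟫ = ⟪c.L g⁻¹ z - z, y⟫ := by
    rw [inner_sub_right, inner_sub_left, nnb_adj]
  rw [h1, h2]
  refine (real_inner_le_norm _ _).trans ?_
  have h3 := NN_spec (c := c) (V := V) g⁻¹ hzV
  rw [NN_inv] at h3
  calc _ ≤ (NN c V g * ‖z‖) * ‖y‖ := mul_le_mul_of_nonneg_right h3 (norm_nonneg _)
    _ = NN c V g * ‖y‖ * ‖z‖ := by ring

theorem NN_mul_inv (hS : SymOne S) (hA : AInv S c V σ) (b : ℕ) {g h : G} (hh : h ∈ S ^ b) {x : ℝ}
    (hx : 0 ≤ x) (hgh : ∀ v ∈ V, ‖c.L g v - c.L h v‖ ≤ x * ‖v‖) :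
    NN c V (g * h⁻¹) ≤ x + 2 * b * σ := by
  have hσ := hA.nonneg
  refine NN_le (by positivity) fun v hv => ?_
  set w := V.starProjection (c.L h⁻¹ v) with hw
  set e := c.L h⁻¹ v - w with he
  have hwV : w ∈ V := V.starProjection_apply_mem _
  have h1 : c.L h⁻¹ v = w + e := by rw [he]; abel
  have h2 : ‖e‖ ≤ b * σ * ‖v‖ := inv_pow hS hA b (nnb_inv_mem hS b hh) hv
  have h3 : ‖w‖ ≤ ‖v‖ := (V.norm_starProjection_apply_le _).trans (by rw [(c.L h⁻¹).norm_map])
  have h4 : c.L (g * h⁻¹) v - v = (c.L g w - c.L h w) + (c.L g e - c.L h e) := by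
    rw [nnb_mul]
    conv_lhs => rw [← nnb_inv' c h v]
    rw [nnb_inv, h1, map_add, map_add]
    abel
  rw [h4]
  refine (norm_add_le _ _).trans ?_
  have h5 := hgh w hwV
  have h6 : ‖c.L g e - c.L h e‖ ≤ 2 * ‖e‖ := by
    refine (norm_sub_le _ _).trans ?_
    rw [(c.L g).norm_map, (c.L h).norm_map]
    linarith
  have h7 : x * ‖w‖ ≤ x * ‖v‖ := mul_le_mul_of_nonneg_left h3 hx
  nlinarith

private theorem nnb_two (hS : SymOne S) (hA : AInv S c V σ) (b : ℕ) (g : G) {h : G}
    (hh : h ∈ S ^ b) {v : E} (hv : v ∈ V) :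
    ‖c.L g (c.L h v - v) - (c.L h v - v)‖ ≤ (NN c V g * NN c V h + 2 * b * σ) * ‖v‖ := by
  set w := V.starProjection (c.L h v - v) with hw
  set e := (c.L h v - v) - w with he
  have hwV : w ∈ V := V.starProjection_apply_mem _
  have h1 : c.L h v - v = w + e := by rw [he]; abel
  have h2 : ‖e‖ ≤ b * σ * ‖v‖ := by
    have h3 := inv_pow hS hA b hh hv
    have h4 : e = c.L h v - V.starProjection (c.L h v) := by
      rw [he, hw, map_sub, V.starProjection_eq_self_iff.2 hv]
      abel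
    rw [h4]; exact h3
  have h3 : ‖w‖ ≤ NN c V h * ‖v‖ :=
    (V.norm_starProjection_apply_le _).trans (NN_spec h hv)
  have h4 := NN_spec (c := c) (V := V) g hwV
  rw [h1, map_add]
  have h5 : c.L g w + c.L g e - (w + e) = (c.L g w - w) + (c.L g e - e) := by abel
  rw [h5]
  refine (norm_add_le _ _).trans ?_
  have h6 : ‖c.L g e - e‖ ≤ 2 * ‖e‖ := by
    refine (norm_sub_le _ _).trans ?_
    rw [(c.L g).norm_map]
    linarith
  have h7 : NN c V g * ‖w‖ ≤ NN c V g * (NN c V h * ‖v‖) :=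
    mul_le_mul_of_nonneg_left h3 (NN_nonneg _)
  nlinarith

theorem NN_comm (hS : SymOne S) (hA : AInv S c V σ) (a b : ℕ) {g h : G} (hg : g ∈ S ^ a)
    (hh : h ∈ S ^ b) : NN c V (cm g h) ≤ 2 * NN c V g * NN c V h + 10 * (a + b) * σ := by
  have hσ := hA.nonneg
  have e1 : cm g h = (g * h) * (h * g)⁻¹ := by simp [cm, mul_assoc]
  have hmem : h * g ∈ S ^ (b + a) := by
    rw [pow_add]; exact Finset.mul_mem_mul hh hg
  rw [e1]
  have hNg := NN_nonneg (c := c) (V := V) g
  have hNh := NN_nonneg (c := c) (V := V) h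
  have h1 := NN_mul_inv hS hA (b + a) (g := g * h) (h := h * g) hmem
    (x := 2 * NN c V g * NN c V h + 2 * (a + b) * σ) (by positivity) (by
      intro v hv
      have h2 := nnb_two hS hA b g hh hv
      have h3 := nnb_two hS hA a h hg hv
      have h4 : c.L (g * h) v - c.L (h * g) v =
          (c.L g (c.L h v - v) - (c.L h v - v)) - (c.L h (c.L g v - v) - (c.L g v - v)) := by
        rw [nnb_mul, nnb_mul, map_sub, map_sub]; abel
      rw [h4]
      refine (norm_sub_le _ _).trans ?_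
      linarith)
  refine h1.trans ?_
  push_cast
  have : 0 ≤ ((a : ℝ) + b) * σ := by positivity
  linarith

theorem NN_pow_ge (hS : SymOne S) (hA : AInv S c V σ) (a : ℕ) {g : G} (hg : g ∈ S ^ a) (n : ℕ) :
    n * NN c V g - n ^ 2 / 2 * NN c V g ^ 2 - 2 * n * a * σ ≤ NN c V (g ^ n) := by
  have hσ := hA.nonneg
  have hN := NN_nonneg (c := c) (V := V) g
  have key : ∀ n : ℕ, ∀ v ∈ V, ‖c.L (g ^ n) v - v - (n : ℝ) • (c.L g v - v)‖ ≤
      ((n : ℝ) ^ 2 / 2 * NN c V g ^ 2 + 2 * n * a * σ) * ‖v‖ := by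
    intro n v hv
    induction n with
    | zero => rw [pow_zero, nnb_one]; simp
    | succ n ih =>
      have h1 : c.L (g ^ (n + 1)) v - v - ((n + 1 : ℕ) : ℝ) • (c.L g v - v) =
          (c.L (g ^ n) v - v - (n : ℝ) • (c.L g v - v)) +
          (c.L (g ^ n) (c.L g v - v) - (c.L g v - v)) := by
        rw [pow_succ, nnb_mul, map_sub]
        push_cast
        rw [add_smul, one_smul]
        abel
      rw [h1]
      refine (norm_add_le _ _).trans ?_
      have h2 := nnb_two hS hA a (g ^ n) hg hv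
      have h3 : NN c V (g ^ n) * NN c V g ≤ n * NN c V g * NN c V g :=
        mul_le_mul_of_nonneg_right (NN_pow_le g n) hN
      have h4 : (NN c V (g ^ n) * NN c V g + 2 * a * σ) * ‖v‖ ≤
          (n * NN c V g * NN c V g + 2 * a * σ) * ‖v‖ :=
        mul_le_mul_of_nonneg_right (by linarith) (norm_nonneg _)
      push_cast
      have h5 : 0 ≤ NN c V g ^ 2 * ‖v‖ := by positivity
      nlinarith
  rcases Nat.eq_zero_or_pos n with hn | hn
  · subst hn
    simp only [Nat.cast_zero, zero_mul, mul_zero, pow_zero, NN_one]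
    norm_num
  · have hn' : (0 : ℝ) < n := by exact_mod_cast hn
    set B := NN c V (g ^ n) + ((n : ℝ) ^ 2 / 2 * NN c V g ^ 2 + 2 * n * a * σ) with hB
    have hB0 : 0 ≤ B := by
      have := NN_nonneg (c := c) (V := V) (g ^ n)
      positivity
    have h1 : NN c V g ≤ B / n := by
      refine NN_le (by positivity) fun v hv => ?_
      have h2 := key n v hv
      have h3 := NN_spec (c := c) (V := V) (g ^ n) hv
      have h4 : (n : ℝ) • (c.L g v - v) = (c.L (g ^ n) v - v) -
          (c.L (g ^ n) v - v - (n : ℝ) • (c.L g v - v)) := by abel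
      have h5 : (n : ℝ) * ‖c.L g v - v‖ ≤ B * ‖v‖ := by
        have h6 : (n : ℝ) * ‖c.L g v - v‖ = ‖(n : ℝ) • (c.L g v - v)‖ := by
          rw [norm_smul, Real.norm_eq_abs, abs_of_pos hn']
        rw [h6, h4]
        refine (norm_sub_le _ _).trans ?_
        rw [hB]
        linarith
      rw [div_mul_eq_mul_div, le_div_iff₀ hn']
      linarith
    rw [le_div_iff₀ hn'] at h1
    rw [hB] at h1
    linarith

end Pool.Agent.Helper41.Gap
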