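import Pool.Agent.Helper41.Gap.NNBasic

set_option autoImplicit false

open scoped Pointwise RealInnerProductSpace TensorProduct
open ProbabilityTheory MeasureTheory Module

namespace Pool.Agent.Helper41.Gap

/-- normality of an isometry -/
private theorem nnsq_normal {W : Type} [NormedAddCommGroup W] [InnerProductSpace ℝ W]
    (T : W ≃ₗᵢ[ℝ] W) (X : W) : ‖T X - X‖ ^ 2 ≤ ‖X‖ * ‖T (T X - X) - (T X - X)‖ := by
  have e1 : ‖T X - X‖ ^ 2 = -⟪T (T X - X) - (T X - X), T X⟫ := by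
    rw [map_sub, ← real_inner_self_eq_norm_sq]
    simp only [inner_sub_left, inner_sub_right, LinearIsometryEquiv.inner_map_map]
    rw [real_inner_comm (T X) X]
    ring
  rw [e1]
  refine (neg_le_abs _).trans ((abs_real_inner_le_norm _ _).trans ?_)
  rw [T.norm_map, mul_comm]

/-- the estimate for two commuting isometric actions -/
private theorem nnsq_abs {G : Type} [Group G] {W : Type} [NormedAddCommGroup W]
    [InnerProductSpace ℝ W] (M R : G →* (W ≃ₗᵢ[ℝ] W)) (hMR : ∀ k l x, M k (R l x) = R l (M k x))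
    (p : W) (g h : G) {εg εh εc q : ℝ} (h1 : ‖M g (R g p) - p‖ ≤ εg)
    (h2 : ‖M h (R h p) - p‖ ≤ εh) (h3 : ‖M (cm g h) (R (cm g h) p) - p‖ ≤ εc)
    (h4 : ‖R (cm g h)⁻¹ (M (cm g h) p - p) - (M (cm g h) p - p)‖ ≤ q)
    (hX : ‖M h p - p‖ ≤ 1 / 2) :
    ‖M (cm g h) p - p‖ ^ 2 ≤ ‖M h p - p‖ * (‖M (cm g (cm g h)) p - p‖ + q + 2 * εc + 2 * εg +
      4 * (εg + εh)) + 4 * (εg + εh) + 4 * (εg + εh) ^ 2 := by
  have hMm : ∀ k l x, M (k * l) x = M k (M l x) := fun k l x => by rw [map_mul]; rfl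
  have hRm : ∀ k l x, R (k * l) x = R k (R l x) := fun k l x => by rw [map_mul]; rfl
  have hM1 : ∀ x, M 1 x = x := fun x => by rw [map_one]; rfl
  have hR1 : ∀ x, R 1 x = x := fun x => by rw [map_one]; rfl
  -- `M k p - p'` type bounds
  have hsub : ∀ k (x : W), ‖M k x - x‖ ≤ 2 * ‖x‖ := fun k x => by
    refine (norm_sub_le _ _).trans ?_
    rw [(M k).norm_map]; linarith
  set c := cm g h with hc
  set c' := cm g c with hc'
  set Y := M c p - p with hY
  set X := M h p - p with hXd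
  set T : W → W := fun x => M g (R g x) with hT
  have hTsub : ∀ x y, T (x - y) = T x - T y := fun x y => by simp only [hT, map_sub]
  have hTn : ∀ x, ‖T x‖ = ‖x‖ := fun x => by simp only [hT, (M g).norm_map, (R g).norm_map]
  have hTM : ∀ k x, T (M k x) = M (g * k * g⁻¹) (T x) := by
    intro k x
    simp only [hT]
    rw [← hMR k g x, ← hMm, ← hMm]
    group
  have hTR : ∀ k x, T (R k x) = R (g * k * g⁻¹) (T x) := by
    intro k x
    simp only [hT]
    rw [← hRm, ← hMR (g) (g * k * g⁻¹), ← hRm]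
    group
  -- the first difference
  set E1 := T X - X - R h⁻¹ Y with hE1
  have hE1n : ‖E1‖ ≤ 2 * εg + 2 * εh := by
    have e1 : T X - X = (M (g * h * g⁻¹) p - M h p) + (M (g * h * g⁻¹) (T p - p) - (T p - p)) := by
      rw [hXd, hTsub, hTM, map_sub]; abel
    have e2 : M (g * h * g⁻¹) p - M h p = M c (M h p) - M h p := by
      rw [← hMm, hc, cm]; group
    have e3 : M h p = R h⁻¹ (M h (R h p)) := by
      rw [← hMR, ← hRm, inv_mul_cancel, hR1]
    have e4 : M c (M h p) - M h p = R h⁻¹ Y + R h⁻¹ (M c (M h (R h p) - p) -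
        (M h (R h p) - p)) := by
      rw [e3, hMR, hY]
      simp only [map_sub]
      abel
    have e5 : E1 = R h⁻¹ (M c (M h (R h p) - p) - (M h (R h p) - p)) +
        (M (g * h * g⁻¹) (T p - p) - (T p - p)) := by
      rw [hE1, e1, e2, e4]; abel
    rw [e5]
    refine (norm_add_le _ _).trans ?_
    rw [(R h⁻¹).norm_map]
    have e6 := hsub c (M h (R h p) - p)
    have e7 := hsub (g * h * g⁻¹) (T p - p)
    have e8 : ‖T p - p‖ ≤ εg := h1
    linarith
  -- the second difference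
  have hZ : ‖T (R h⁻¹ Y) - R h⁻¹ Y‖ ≤ ‖M c' p - p‖ + q + 2 * εc + 2 * εg := by
    have e1 : T Y = (M (g * c * g⁻¹) p - p) +
        (M (g * c * g⁻¹) (T p - p) - (T p - p)) := by
      rw [hY, hTsub, hTM, map_sub]; abel
    have e2 : M (g * c * g⁻¹) p - p = (M c' (M c p) - M c p) + Y := by
      have : g * c * g⁻¹ = c' * c := by rw [hc', cm]; group
      rw [this, hMm, hY]; abel
    have e3 : M c p = R c⁻¹ (M c (R c p)) := by
      rw [← hMR, ← hRm, inv_mul_cancel, hR1]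
    have e4 : M c' (M c p) - M c p = R c⁻¹ ((M c' p - p) + (M c' (M c (R c p) - p) -
        (M c (R c p) - p))) := by
      rw [e3, hMR]
      simp only [map_sub, map_add]
      abel
    have e5 : g * h⁻¹ * g⁻¹ = h⁻¹ * c⁻¹ := by rw [hc, cm]; group
    have e6 : T (R h⁻¹ Y) - R h⁻¹ Y = R (h⁻¹ * c⁻¹) (R c⁻¹ ((M c' p - p) +
        (M c' (M c (R c p) - p) - (M c (R c p) - p)))) + R (h⁻¹ * c⁻¹)
        (M (g * c * g⁻¹) (T p - p) - (T p - p)) + R h⁻¹ (R c⁻¹ Y - Y) := by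
      rw [hTR, e1, e2, e4, e5]
      simp only [map_add, map_sub, hRm]
      abel
    rw [e6]
    refine (norm_add₃_le).trans ?_
    simp only [LinearIsometryEquiv.norm_map]
    have e7 := norm_add_le (M c' p - p) (M c' (M c (R c p) - p) - (M c (R c p) - p))
    have e8 := hsub c' (M c (R c p) - p)
    have e9 := hsub (g * c * g⁻¹) (T p - p)
    have e10 : ‖T p - p‖ ≤ εg := h1
    linarith
  have hε0 : 0 ≤ εg := (norm_nonneg _).trans h1
  have hεh : 0 ≤ εh := (norm_nonneg _).trans h2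
  have hZ2 : ‖T (T X - X) - (T X - X)‖ ≤ ‖M c' p - p‖ + q + 2 * εc + 2 * εg +
      4 * (εg + εh) := by
    have e1 : T X - X = R h⁻¹ Y + E1 := by rw [hE1]; abel
    have e2 : T (T X - X) - (T X - X) = (T (R h⁻¹ Y) - R h⁻¹ Y) + (T E1 - E1) := by
      rw [e1]
      simp only [hT, map_add]
      abel
    rw [e2]
    refine (norm_add_le _ _).trans ?_
    have e3 : ‖T E1 - E1‖ ≤ 2 * ‖E1‖ := by
      refine (norm_sub_le _ _).trans ?_
      rw [hTn]; linarith
    linarith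
  -- normality
  have hnorm : ‖T X - X‖ ^ 2 ≤ ‖X‖ * ‖T (T X - X) - (T X - X)‖ :=
    nnsq_normal ((R g).trans (M g)) X
  have hTX : ‖T X - X‖ ≤ 1 := by
    refine (norm_sub_le _ _).trans ?_
    rw [hTn]; linarith
  have hYn : ‖Y‖ ≤ ‖T X - X‖ + (2 * εg + 2 * εh) := by
    have e1 : R h⁻¹ Y = (T X - X) - E1 := by rw [hE1]; abel
    rw [← (R h⁻¹).norm_map Y, e1]
    exact (norm_sub_le _ _).trans (by linarith)
  have hXn : 0 ≤ ‖X‖ := norm_nonneg _
  have hY0 : 0 ≤ ‖Y‖ := norm_nonneg _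
  have hA0 : 0 ≤ ‖T X - X‖ := norm_nonneg _
  calc ‖Y‖ ^ 2 ≤ (‖T X - X‖ + (2 * εg + 2 * εh)) ^ 2 := by gcongr
    _ = ‖T X - X‖ ^ 2 + ‖T X - X‖ * (4 * (εg + εh)) + 4 * (εg + εh) ^ 2 := by ring
    _ ≤ ‖X‖ * ‖T (T X - X) - (T X - X)‖ + 1 * (4 * (εg + εh)) + 4 * (εg + εh) ^ 2 := by
        gcongr
    _ ≤ ‖X‖ * (‖M c' p - p‖ + q + 2 * εc + 2 * εg + 4 * (εg + εh)) + 1 * (4 * (εg + εh)) +
        4 * (εg + εh) ^ 2 := by gcongr
    _ = _ := by ring

/-- action on the first factor -/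
private noncomputable def nnM {G : Type} [Group G] {E : Type} [NormedAddCommGroup E]
    [InnerProductSpace ℝ E] (c : Coc G E) : G →* ((E ⊗[ℝ] E) ≃ₗᵢ[ℝ] (E ⊗[ℝ] E)) where
  toFun g := TensorProduct.congrIsometry (c.L g) (LinearIsometryEquiv.refl ℝ E)
  map_one' := by
    rw [map_one]
    ext x
    change TensorProduct.congrIsometry _ _ x = x
    rw [show (1 : E ≃ₗᵢ[ℝ] E) = LinearIsometryEquiv.refl ℝ E from rfl,
      TensorProduct.congrIsometry_refl_refl]
    rfl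
  map_mul' g h := by
    rw [map_mul]
    ext x
    change TensorProduct.congrIsometry _ _ x = TensorProduct.congrIsometry _ _
      (TensorProduct.congrIsometry _ _ x)
    induction x using TensorProduct.induction_on with
    | zero => simp
    | tmul a b => rfl
    | add a b ha hb => rw [map_add, map_add, map_add, ha, hb]

/-- action on the second factor -/
private noncomputable def nnR {G : Type} [Group G] {E : Type} [NormedAddCommGroup E]
    [InnerProductSpace ℝ E] (c : Coc G E) : G →* ((E ⊗[ℝ] E) ≃ₗᵢ[ℝ] (E ⊗[ℝ] E)) where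
  toFun g := TensorProduct.congrIsometry (LinearIsometryEquiv.refl ℝ E) (c.L g)
  map_one' := by
    rw [map_one]
    ext x
    change TensorProduct.congrIsometry _ _ x = x
    rw [show (1 : E ≃ₗᵢ[ℝ] E) = LinearIsometryEquiv.refl ℝ E from rfl,
      TensorProduct.congrIsometry_refl_refl]
    rfl
  map_mul' g h := by
    rw [map_mul]
    ext x
    change TensorProduct.congrIsometry _ _ x = TensorProduct.congrIsometry _ _
      (TensorProduct.congrIsometry _ _ x)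
    induction x using TensorProduct.induction_on with
    | zero => simp
    | tmul a b => rfl
    | add a b ha hb => rw [map_add, map_add, map_add, ha, hb]

section
variable {G : Type} [Group G] [DecidableEq G]
variable {E : Type} [NormedAddCommGroup E] [InnerProductSpace ℝ E]
variable {S : Finset G} {c : Coc G E} {V : Submodule ℝ E} [FiniteDimensional ℝ V] {σ : ℝ}

omit [DecidableEq G] in
private theorem nnM_tmul (k : G) (x y : E) : nnM c k (x ⊗ₜ[ℝ] y) = c.L k x ⊗ₜ[ℝ] y := rfl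

omit [DecidableEq G] in
private theorem nnR_tmul (k : G) (x y : E) : nnR c k (x ⊗ₜ[ℝ] y) = x ⊗ₜ[ℝ] c.L k y := rfl

omit [DecidableEq G] in
private theorem nn_comm (k l : G) (x : E ⊗[ℝ] E) : nnM c k (nnR c l x) = nnR c l (nnM c k x) := by
  induction x using TensorProduct.induction_on with
  | zero => simp
  | tmul a b => rfl
  | add a b ha hb => rw [map_add, map_add, map_add, map_add, ha, hb]

/-- the projection as a tensor -/
private noncomputable def nnp (V : Submodule ℝ E) [FiniteDimensional ℝ V] : E ⊗[ℝ] E :=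
  ∑ i, (stdOrthonormalBasis ℝ V i : E) ⊗ₜ[ℝ] (stdOrthonormalBasis ℝ V i : E)

private theorem nn_orth (i j : Fin (finrank ℝ V)) :
    ⟪(stdOrthonormalBasis ℝ V i : E), (stdOrthonormalBasis ℝ V j : E)⟫ = if i = j then 1 else 0 := by
  have h := orthonormal_iff_ite.1 (stdOrthonormalBasis ℝ V).orthonormal i j
  exact h

private theorem nn_norm_sum (x : Fin (finrank ℝ V) → E) :
    ‖∑ i, x i ⊗ₜ[ℝ] (stdOrthonormalBasis ℝ V i : E)‖ ^ 2 = ∑ i, ‖x i‖ ^ 2 := by
  rw [← real_inner_self_eq_norm_sq]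
  simp only [sum_inner, inner_sum, TensorProduct.inner_tmul, nn_orth]
  simp

private theorem nn_norm_sum_le {n : ℕ} (x y : Fin n → E) :
    ‖∑ i, x i ⊗ₜ[ℝ] y i‖ ^ 2 ≤ (∑ i, ‖x i‖ ^ 2) * ∑ i, ‖y i‖ ^ 2 := by
  have h1 : ‖∑ i, x i ⊗ₜ[ℝ] y i‖ ≤ ∑ i, ‖x i‖ * ‖y i‖ := by
    refine (norm_sum_le _ _).trans (le_of_eq ?_)
    simp only [TensorProduct.norm_tmul]
  calc ‖∑ i, x i ⊗ₜ[ℝ] y i‖ ^ 2 ≤ (∑ i, ‖x i‖ * ‖y i‖) ^ 2 := by gcongr
    _ ≤ _ := Finset.sum_mul_sq_le_sq_mul_sq _ _ _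

omit [DecidableEq G] in
private theorem nn_M_sub (k : G) : nnM c k (nnp V) - nnp V =
    ∑ i, (c.L k (stdOrthonormalBasis ℝ V i : E) - (stdOrthonormalBasis ℝ V i : E)) ⊗ₜ[ℝ]
      (stdOrthonormalBasis ℝ V i : E) := by
  simp only [nnp, map_sum, nnM_tmul, TensorProduct.sub_tmul, Finset.sum_sub_distrib]

omit [DecidableEq G] in
private theorem nn_N2 (k : G) : ‖nnM c k (nnp V) - nnp V‖ ^ 2 =
    ∑ i, ‖c.L k (stdOrthonormalBasis ℝ V i : E) - (stdOrthonormalBasis ℝ V i : E)‖ ^ 2 := by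
  rw [nn_M_sub, nn_norm_sum]

private theorem nn_le (k : G) : NN c V k ≤ ‖nnM c k (nnp V) - nnp V‖ := by
  refine NN_le (norm_nonneg _) fun v hv => ?_
  have h1 : v = ∑ i, ⟪(stdOrthonormalBasis ℝ V i : E), v⟫ • (stdOrthonormalBasis ℝ V i : E) := by
    have h2 := (stdOrthonormalBasis ℝ V).sum_repr' ⟨v, hv⟩
    have h3 := congrArg (Subtype.val) h2
    simp only [Submodule.coe_sum, Submodule.coe_smul] at h3
    exact h3.symm
  have h4 : ∑ i, ⟪(stdOrthonormalBasis ℝ V i : E), v⟫ ^ 2 = ‖v‖ ^ 2 := by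
    have h5 := (stdOrthonormalBasis ℝ V).sum_sq_norm_inner_right (⟨v, hv⟩ : V)
    simp only [Real.norm_eq_abs, sq_abs] at h5
    exact h5
  have h6 : c.L k v - v = ∑ i, ⟪(stdOrthonormalBasis ℝ V i : E), v⟫ •
      (c.L k (stdOrthonormalBasis ℝ V i : E) - (stdOrthonormalBasis ℝ V i : E)) := by
    conv_lhs => rw [h1]
    simp only [map_sum, map_smul, smul_sub, Finset.sum_sub_distrib]
  have h7 : ‖c.L k v - v‖ ≤ ∑ i, |⟪(stdOrthonormalBasis ℝ V i : E), v⟫| *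
      ‖c.L k (stdOrthonormalBasis ℝ V i : E) - (stdOrthonormalBasis ℝ V i : E)‖ := by
    rw [h6]
    refine (norm_sum_le _ _).trans (le_of_eq ?_)
    simp only [norm_smul, Real.norm_eq_abs]
  have h8 : ‖c.L k v - v‖ ^ 2 ≤ (‖nnM c k (nnp V) - nnp V‖ * ‖v‖) ^ 2 := by
    calc ‖c.L k v - v‖ ^ 2 ≤ (∑ i, |⟪(stdOrthonormalBasis ℝ V i : E), v⟫| *
      ‖c.L k (stdOrthonormalBasis ℝ V i : E) - (stdOrthonormalBasis ℝ V i : E)‖) ^ 2 := by gcongr
      _ ≤ (∑ i, |⟪(stdOrthonormalBasis ℝ V i : E), v⟫| ^ 2) * ∑ i,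
        ‖c.L k (stdOrthonormalBasis ℝ V i : E) - (stdOrthonormalBasis ℝ V i : E)‖ ^ 2 :=
          Finset.sum_mul_sq_le_sq_mul_sq _ _ _
      _ = _ := by
          simp only [sq_abs]
          rw [h4, ← nn_N2, mul_pow]; ring
  exact (pow_le_pow_iff_left₀ (norm_nonneg _) (by positivity) two_ne_zero).1 h8

private theorem nn_ge (k : G) : ‖nnM c k (nnp V) - nnp V‖ ^ 2 ≤ (finrank ℝ V : ℝ) * NN c V k ^ 2 := by
  rw [nn_N2]
  refine (Finset.sum_le_card_nsmul _ _ (NN c V k ^ 2) fun i _ => ?_).trans (by simp)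
  have h1 := NN_spec (c := c) (V := V) k (stdOrthonormalBasis ℝ V i).2
  have h2 : ‖(stdOrthonormalBasis ℝ V i : E)‖ = 1 := by
    have := (stdOrthonormalBasis ℝ V).orthonormal.1 i
    exact this
  rw [h2, mul_one] at h1
  gcongr

private theorem nn_q (k : G) : ‖nnR c k⁻¹ (nnM c k (nnp V) - nnp V) -
    (nnM c k (nnp V) - nnp V)‖ ≤ ‖nnM c k (nnp V) - nnp V‖ ^ 2 := by
  have h1 : nnR c k⁻¹ (nnM c k (nnp V) - nnp V) - (nnM c k (nnp V) - nnp V) =
      ∑ i, (c.L k (stdOrthonormalBasis ℝ V i : E) - (stdOrthonormalBasis ℝ V i : E)) ⊗ₜ[ℝ]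
      (c.L k⁻¹ (stdOrthonormalBasis ℝ V i : E) - (stdOrthonormalBasis ℝ V i : E)) := by
    rw [nn_M_sub]
    simp only [map_sum, nnR_tmul, TensorProduct.tmul_sub, Finset.sum_sub_distrib]
  have h2 : ∀ i, ‖c.L k⁻¹ (stdOrthonormalBasis ℝ V i : E) - (stdOrthonormalBasis ℝ V i : E)‖ =
      ‖c.L k (stdOrthonormalBasis ℝ V i : E) - (stdOrthonormalBasis ℝ V i : E)‖ := by
    intro i
    rw [← (c.L k).norm_map, map_sub, ← norm_neg, neg_sub]
    congr 2
    have : c.L k (c.L k⁻¹ (stdOrthonormalBasis ℝ V i : E)) =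
      (c.L (k * k⁻¹)) (stdOrthonormalBasis ℝ V i : E) := by rw [map_mul]; rfl
    rw [this, mul_inv_cancel, map_one]
    rfl
  have h3 := nn_norm_sum_le
    (fun i => c.L k (stdOrthonormalBasis ℝ V i : E) - (stdOrthonormalBasis ℝ V i : E))
    (fun i => c.L k⁻¹ (stdOrthonormalBasis ℝ V i : E) - (stdOrthonormalBasis ℝ V i : E))
  simp only [h2] at h3
  rw [← nn_N2, ← pow_two] at h3
  rw [h1]
  exact (pow_le_pow_iff_left₀ (norm_nonneg _) (by positivity) two_ne_zero).1 h3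

private theorem nn_eps (hS : SymOne S) (hA : AInv S c V σ) (a : ℕ) {g : G} (hg : g ∈ S ^ a) :
    ‖nnM c g (nnR c g (nnp V)) - nnp V‖ ^ 2 ≤ 2 * (finrank ℝ V : ℝ) * (a * σ) ^ 2 := by
  have hp : ‖nnp V‖ ^ 2 = finrank ℝ V := by
    rw [nnp, nn_norm_sum]
    have h2 : ∀ i, ‖(stdOrthonormalBasis ℝ V i : E)‖ = 1 :=
      fun i => (stdOrthonormalBasis ℝ V).orthonormal.1 i
    simp [h2]
  have hin : ⟪nnM c g (nnR c g (nnp V)), nnp V⟫ =
      ∑ i, ‖V.starProjection (c.L g (stdOrthonormalBasis ℝ V i : E))‖ ^ 2 := by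
    have h1 : ⟪nnM c g (nnR c g (nnp V)), nnp V⟫ = ∑ i, ∑ j,
        ⟪c.L g (stdOrthonormalBasis ℝ V i : E), (stdOrthonormalBasis ℝ V j : E)⟫ ^ 2 := by
      simp only [nnp, map_sum, nnR_tmul, nnM_tmul, sum_inner, inner_sum, TensorProduct.inner_tmul,
        pow_two]
      rw [Finset.sum_comm]
    rw [h1]
    refine Finset.sum_congr rfl fun i _ => ?_
    have h5 := (stdOrthonormalBasis ℝ V).sum_sq_norm_inner_right
      (V.orthogonalProjectionOnto (c.L g (stdOrthonormalBasis ℝ V i : E)))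
    simp only [Real.norm_eq_abs, sq_abs] at h5
    have h6 : ‖V.starProjection (c.L g (stdOrthonormalBasis ℝ V i : E))‖ =
      ‖V.orthogonalProjectionOnto (c.L g (stdOrthonormalBasis ℝ V i : E))‖ := rfl
    rw [h6, ← h5]
    refine Finset.sum_congr rfl fun j _ => ?_
    rw [Submodule.inner_orthogonalProjectionOnto_eq_of_mem_left, real_inner_comm]
  have h3 : ∀ i, 1 - (a * σ) ^ 2 ≤
      ‖V.starProjection (c.L g (stdOrthonormalBasis ℝ V i : E))‖ ^ 2 := by
    intro i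
    have h2 : ‖(stdOrthonormalBasis ℝ V i : E)‖ = 1 := (stdOrthonormalBasis ℝ V).orthonormal.1 i
    have h4 := Gap.inv_pow hS hA a hg (stdOrthonormalBasis ℝ V i).2
    rw [h2, mul_one] at h4
    have h5 : ‖c.L g (stdOrthonormalBasis ℝ V i : E)‖ ^ 2 =
        ‖V.starProjection (c.L g (stdOrthonormalBasis ℝ V i : E))‖ ^ 2 +
        ‖c.L g (stdOrthonormalBasis ℝ V i : E) -
          V.starProjection (c.L g (stdOrthonormalBasis ℝ V i : E))‖ ^ 2 := by
      rw [← Submodule.starProjection_orthogonal_val]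
      exact Submodule.norm_sq_eq_add_norm_sq_starProjection
        (c.L g (stdOrthonormalBasis ℝ V i : E)) V
    rw [(c.L g).norm_map, h2] at h5
    have h6 : ‖c.L g (stdOrthonormalBasis ℝ V i : E) -
          V.starProjection (c.L g (stdOrthonormalBasis ℝ V i : E))‖ ^ 2 ≤ (a * σ) ^ 2 := by
      gcongr
    linarith
  have h7 : (finrank ℝ V : ℝ) * (1 - (a * σ) ^ 2) ≤ ⟪nnM c g (nnR c g (nnp V)), nnp V⟫ := by
    rw [hin]
    have := Finset.card_nsmul_le_sum Finset.univ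
      (fun i => ‖V.starProjection (c.L g (stdOrthonormalBasis ℝ V i : E))‖ ^ 2) _ fun i _ => h3 i
    simpa using this
  rw [norm_sub_sq_real]
  simp only [LinearIsometryEquiv.norm_map]
  rw [hp]
  linarith

private theorem nn_inv_mem (hS : SymOne S) (a : ℕ) {g : G} (hg : g ∈ S ^ a) : g⁻¹ ∈ S ^ a := by
  induction a generalizing g with
  | zero =>
    rw [pow_zero, Finset.mem_one] at hg ⊢
    rw [hg, inv_one]
  | succ n ih =>
    rw [pow_succ, Finset.mem_mul] at hg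
    obtain ⟨x, hx, s, hs, rfl⟩ := hg
    rw [mul_inv_rev, pow_succ']
    exact Finset.mul_mem_mul (hS.inv s hs) (ih hx)

private theorem nn_cm_mem (hS : SymOne S) (a b : ℕ) {g h : G} (hg : g ∈ S ^ a) (hh : h ∈ S ^ b) :
    cm g h ∈ S ^ (2 * (a + b)) := by
  have h1 : cm g h = g * h * g⁻¹ * h⁻¹ := rfl
  have h2 : 2 * (a + b) = a + b + a + b := by ring
  rw [h1, h2, pow_add, pow_add, pow_add]
  exact Finset.mul_mem_mul (Finset.mul_mem_mul (Finset.mul_mem_mul hg hh) (nn_inv_mem hS a hg))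
    (nn_inv_mem hS b hh)

/-- Iterated commutators do not collapse: normality of the adjoint action. -/
theorem NN_comm_sq (hS : SymOne S) (hA : AInv S c V σ) (a b : ℕ) {g h : G} (hg : g ∈ S ^ a)
    (hh : h ∈ S ^ b) (h1 : (finrank ℝ V : ℝ) * NN c V h ≤ 1 / 2)
    (h2 : (finrank ℝ V : ℝ) * ((a + b) * σ) ≤ 1) :
    NN c V (cm g h) ^ 2 ≤ 2 * (finrank ℝ V : ℝ) * NN c V h * NN c V (cm g (cm g h)) +
      224 * (finrank ℝ V : ℝ) * ((a + b) * σ) := by
  have hσ := hA.nonneg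
  rcases Nat.eq_zero_or_pos (finrank ℝ V) with hd | hd
  · have h3 := nn_le (c := c) (V := V) (cm g h)
    have h4 := nn_ge (c := c) (V := V) (cm g h)
    rw [hd] at h4 ⊢
    simp only [Nat.cast_zero, zero_mul, mul_zero, add_zero] at h4 ⊢
    calc NN c V (cm g h) ^ 2 ≤ ‖nnM c (cm g h) (nnp V) - nnp V‖ ^ 2 := by
          gcongr
          exact NN_nonneg _
      _ ≤ 0 := h4
  set D : ℝ := (finrank ℝ V : ℝ) with hD
  have hD1 : 1 ≤ D := by
    rw [hD]
    exact_mod_cast hd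
  have hD0 : 0 < D := by linarith
  have heps : ∀ (n : ℕ) (k : G), k ∈ S ^ n →
      ‖nnM c k (nnR c k (nnp V)) - nnp V‖ ≤ 3 / 2 * D * (n * σ) := by
    intro n k hk
    have e1 := nn_eps hS hA n hk
    have e2 : 2 * D * ((n : ℝ) * σ) ^ 2 ≤ (3 / 2 * D * (n * σ)) ^ 2 := by
      have e3 : (3 / 2 * D * ((n : ℝ) * σ)) ^ 2 = (9 / 4 * D ^ 2) * ((n : ℝ) * σ) ^ 2 := by ring
      rw [e3]
      have e4 : 2 * D ≤ 9 / 4 * D ^ 2 := by nlinarith
      gcongr
    exact (pow_le_pow_iff_left₀ (norm_nonneg _) (by positivity) two_ne_zero).1 (e1.trans e2)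
  have hX0 : 0 ≤ NN c V h := NN_nonneg _
  have hX : ‖nnM c h (nnp V) - nnp V‖ ≤ 1 / 2 := by
    have e1 := nn_ge (c := c) (V := V) h
    have e2 : D * NN c V h ^ 2 ≤ (D * NN c V h) ^ 2 := by
      have : (D * NN c V h) ^ 2 = D * (D * NN c V h ^ 2) := by ring
      rw [this]
      have e5 : 0 ≤ D * NN c V h ^ 2 := by positivity
      nlinarith
    have e3 : (D * NN c V h) ^ 2 ≤ (1 / 2) ^ 2 := by gcongr
    exact (pow_le_pow_iff_left₀ (norm_nonneg _) (by norm_num) two_ne_zero).1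
      (e1.trans (e2.trans e3))
  have key := nnsq_abs (nnM c) (nnR c) nn_comm (nnp V) g h (heps a g hg) (heps b h hh)
    (heps _ _ (nn_cm_mem hS a b hg hh)) (nn_q (c := c) (V := V) (cm g h)) hX
  set t : ℝ := D * ((a + b) * σ) with ht
  have ht0 : 0 ≤ t := by positivity
  set Y : ℝ := ‖nnM c (cm g h) (nnp V) - nnp V‖ with hY
  set X : ℝ := ‖nnM c h (nnp V) - nnp V‖ with hXX
  set Z : ℝ := ‖nnM c (cm g (cm g h)) (nnp V) - nnp V‖ with hZ
  have hY0 : 0 ≤ Y := norm_nonneg _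
  have hXn : 0 ≤ X := norm_nonneg _
  have hZn : 0 ≤ Z := norm_nonneg _
  have hXZ : X * Z ≤ D * (NN c V h * NN c V (cm g (cm g h))) := by
    have e1 := nn_ge (c := c) (V := V) h
    have e2 := nn_ge (c := c) (V := V) (cm g (cm g h))
    have e3 : (X * Z) ^ 2 ≤ (D * (NN c V h * NN c V (cm g (cm g h)))) ^ 2 := by
      have e4 : (X * Z) ^ 2 = X ^ 2 * Z ^ 2 := by ring
      have e5 : (D * (NN c V h * NN c V (cm g (cm g h)))) ^ 2 =
        (D * NN c V h ^ 2) * (D * NN c V (cm g (cm g h)) ^ 2) := by ring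
      rw [e4, e5]
      exact mul_le_mul e1 e2 (by positivity) (by positivity)
    have e6 : 0 ≤ NN c V (cm g (cm g h)) := NN_nonneg _
    exact (pow_le_pow_iff_left₀ (by positivity) (by positivity) two_ne_zero).1 e3
  have e1 : 3 / 2 * D * ((a : ℝ) * σ) + 3 / 2 * D * ((b : ℝ) * σ) = 3 / 2 * t := by
    rw [ht]; ring
  have e2 : 3 / 2 * D * (((2 * (a + b) : ℕ) : ℝ) * σ) = 3 * t := by
    rw [ht]; push_cast; ring
  have e3 : 3 / 2 * D * ((a : ℝ) * σ) ≤ 3 / 2 * t := by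
    rw [← e1]
    have : 0 ≤ 3 / 2 * D * ((b : ℝ) * σ) := by positivity
    linarith
  rw [e1, e2] at key
  have e4 : X * (Z + Y ^ 2 + 2 * (3 * t) + 2 * (3 / 2 * D * ((a : ℝ) * σ)) + 4 * (3 / 2 * t)) ≤
      X * Z + 1 / 2 * (Y ^ 2 + 15 * t) := by
    have e5 : X * (Z + Y ^ 2 + 2 * (3 * t) + 2 * (3 / 2 * D * ((a : ℝ) * σ)) + 4 * (3 / 2 * t)) =
      X * Z + X * (Y ^ 2 + 2 * (3 * t) + 2 * (3 / 2 * D * ((a : ℝ) * σ)) + 4 * (3 / 2 * t)) := by
      ring
    rw [e5]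
    have e6 : Y ^ 2 + 2 * (3 * t) + 2 * (3 / 2 * D * ((a : ℝ) * σ)) + 4 * (3 / 2 * t) ≤
      Y ^ 2 + 15 * t := by linarith
    have e7 : 0 ≤ 3 / 2 * D * ((a : ℝ) * σ) := by positivity
    have e8 : X * (Y ^ 2 + 2 * (3 * t) + 2 * (3 / 2 * D * ((a : ℝ) * σ)) + 4 * (3 / 2 * t)) ≤
      1 / 2 * (Y ^ 2 + 15 * t) := by
      apply mul_le_mul hX e6 (by positivity) (by norm_num)
    linarith
  have e9 : (3 / 2 * t) ^ 2 ≤ 9 / 4 * t := by nlinarith
  have hle : NN c V (cm g h) ^ 2 ≤ Y ^ 2 := by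
    have := nn_le (c := c) (V := V) (cm g h)
    have h0 : 0 ≤ NN c V (cm g h) := NN_nonneg _
    gcongr
  have e10 : 224 * D * ((a + b) * σ) = 224 * t := by rw [ht]; ring
  rw [e10]
  nlinarith

end

end Pool.Agent.Helper41.Gap
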