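import Pool.Agent.Helper41.Gap.NNBasic

set_option autoImplicit false

open scoped Pointwise RealInnerProductSpace TensorProduct
open ProbabilityTheory MeasureTheory Module

namespace Pool.Agent.Helper41.Gap

variable {G : Type} [Group G] [DecidableEq G]
variable {E : Type} [NormedAddCommGroup E] [InnerProductSpace ℝ E]
variable {S : Finset G} {c : Coc G E} {V : Submodule ℝ E} [FiniteDimensional ℝ V] {σ : ℝ}

/-- Matrix entries of the compression of the representation to `V`. -/
noncomputable def net_rho (c : Coc G E) (V : Submodule ℝ E) [FiniteDimensional ℝ V] (g : G)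
    (i j : Fin (finrank ℝ V)) : ℝ :=
  ⟪((stdOrthonormalBasis ℝ V i : V) : E), c.L g ((stdOrthonormalBasis ℝ V j : V) : E)⟫

/-- The cell of the matrix. -/
noncomputable def net_cell (c : Coc G E) (V : Submodule ℝ E) [FiniteDimensional ℝ V] (x : ℝ)
    (g : G) : Fin (finrank ℝ V) × Fin (finrank ℝ V) → ℤ :=
  fun p => ⌊net_rho c V g p.1 p.2 * x⌋

omit [DecidableEq G] in
theorem net_rho_abs (g : G) (i j : Fin (finrank ℝ V)) : |net_rho c V g i j| ≤ 1 := by
  have h := abs_real_inner_le_norm ((stdOrthonormalBasis ℝ V i : V) : E)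
    (c.L g ((stdOrthonormalBasis ℝ V j : V) : E))
  have h1 : ‖((stdOrthonormalBasis ℝ V i : V) : E)‖ = 1 := by
    rw [← Submodule.coe_norm]; exact (stdOrthonormalBasis ℝ V).orthonormal.1 i
  have h2 : ‖(c.L g ((stdOrthonormalBasis ℝ V j : V) : E))‖ = 1 := by
    rw [LinearIsometryEquiv.norm_map, ← Submodule.coe_norm]
    exact (stdOrthonormalBasis ℝ V).orthonormal.1 j
  rw [h1, h2, mul_one] at h
  exact h

omit [DecidableEq G] in
theorem net_cell_mem {x : ℝ} (hx : 0 ≤ x) (g : G) :
    net_cell c V x g ∈ Fintype.piFinset (fun _ => Finset.Icc ⌊-x⌋ ⌊x⌋) := by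
  rw [Fintype.mem_piFinset]
  intro p
  rw [Finset.mem_Icc]
  have h := abs_le.1 (net_rho_abs (c := c) (V := V) g p.1 p.2)
  constructor
  · apply Int.floor_le_floor
    nlinarith [h.1]
  · apply Int.floor_le_floor
    nlinarith [h.2]

theorem net_card {x : ℝ} (hx : 0 ≤ x) (d : ℕ) :
    ((Fintype.piFinset (fun _ : Fin d × Fin d => Finset.Icc ⌊-x⌋ ⌊x⌋)).card : ℝ) ≤
      (2 * x + 2) ^ (d ^ 2) := by
  rw [Fintype.card_piFinset, Finset.prod_const, Finset.card_univ, Fintype.card_prod,
    Fintype.card_fin, Int.card_Icc, ← pow_two]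
  push_cast
  apply pow_le_pow_left₀ (Nat.cast_nonneg _)
  have h1 : (((⌊x⌋ + 1 - ⌊-x⌋).toNat : ℤ) : ℝ) = ((⌊x⌋ + 1 - ⌊-x⌋ : ℤ) : ℝ) := by
    rw [Int.toNat_of_nonneg]
    have := Int.floor_le_floor (show -x ≤ x by linarith)
    omega
  have h2 : (((⌊x⌋ + 1 - ⌊-x⌋).toNat : ℕ) : ℝ) = ((⌊x⌋ + 1 - ⌊-x⌋ : ℤ) : ℝ) := by
    rw [← h1]; norm_cast
  rw [h2]
  push_cast
  have h3 := Int.floor_le x
  have h4 := Int.sub_one_lt_floor (-x)
  linarith

omit [DecidableEq G] in
theorem net_close {ε : ℝ} (hε : 0 < ε) {g g' : G}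
    (h : net_cell c V (4 * (finrank ℝ V : ℝ) / ε) g = net_cell c V (4 * (finrank ℝ V : ℝ) / ε) g')
    {v : E} (hv : v ∈ V) : ‖V.starProjection (c.L g v - c.L g' v)‖ ≤ ε / 4 * ‖v‖ := by
  set d := finrank ℝ V with hd
  set e := stdOrthonormalBasis ℝ V with he
  have hnorm : ∀ w : V, ‖(w : E)‖ ^ 2 = ∑ i, ⟪((e i : V) : E), (w : E)⟫ ^ 2 := by
    intro w
    have := e.sum_sq_norm_inner_right w
    rw [← Submodule.coe_norm, ← this]
    refine Finset.sum_congr rfl fun i _ => ?_
    rw [Real.norm_eq_abs, sq_abs]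
    rfl
  -- the entries are close
  have hent : ∀ i j, |net_rho c V g i j - net_rho c V g' i j| ≤ ε / (4 * d) := by
    intro i j
    have hd0 : (0 : ℝ) < d := by
      have : 0 < d := lt_of_le_of_lt (Nat.zero_le _) i.2
      exact_mod_cast this
    have h1 := congrFun h (i, j)
    unfold net_cell at h1
    have h2 := Int.abs_sub_lt_one_of_floor_eq_floor h1
    simp only at h2
    rw [← sub_mul, abs_mul, abs_of_pos (by positivity : (0 : ℝ) < 4 * (d : ℝ) / ε)] at h2
    have h3 : |net_rho c V g i j - net_rho c V g' i j| < 1 / (4 * (d : ℝ) / ε) := by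
      rw [lt_div_iff₀ (by positivity)]
      exact h2
    have h4 : 1 / (4 * (d : ℝ) / ε) = ε / (4 * d) := by
      field_simp
    rw [h4] at h3
    exact h3.le
  -- the square of the norm
  have hPw : ∀ (w : E) (i : Fin d), ⟪((e i : V) : E), V.starProjection w⟫ = ⟪((e i : V) : E), w⟫ := by
    intro w i
    rw [← Submodule.inner_starProjection_left_eq_right,
      Submodule.starProjection_eq_self_iff.2 (e i).2]
  have hexp : v = ∑ j, ⟪((e j : V) : E), v⟫ • ((e j : V) : E) := by
    have := congrArg (fun w : V => (w : E)) (e.sum_repr' ⟨v, hv⟩)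
    simp only [Submodule.coe_sum, Submodule.coe_smul] at this
    exact this.symm
  have hcoef : ∀ i, ⟪((e i : V) : E), c.L g v - c.L g' v⟫ =
      ∑ j, ⟪((e j : V) : E), v⟫ * (net_rho c V g i j - net_rho c V g' i j) := by
    intro i
    have h1 : ∀ g : G, c.L g v = ∑ j, ⟪((e j : V) : E), v⟫ • c.L g ((e j : V) : E) := by
      intro g
      conv_lhs => rw [hexp]
      rw [map_sum]
      refine Finset.sum_congr rfl fun j _ => ?_
      rw [map_smul]
    rw [h1 g, h1 g', ← Finset.sum_sub_distrib, inner_sum]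
    refine Finset.sum_congr rfl fun j _ => ?_
    rw [← smul_sub, inner_smul_right, inner_sub_right]
    rfl
  have hsq : ‖V.starProjection (c.L g v - c.L g' v)‖ ^ 2 ≤ (ε / 4 * ‖v‖) ^ 2 := by
    have h1 := hnorm (V.orthogonalProjectionOnto (c.L g v - c.L g' v))
    rw [Submodule.coe_orthogonalProjectionOnto_apply] at h1
    rw [h1]
    have h2 : ‖v‖ ^ 2 = ∑ j, ⟪((e j : V) : E), v⟫ ^ 2 := hnorm ⟨v, hv⟩
    calc ∑ i, ⟪((e i : V) : E), V.starProjection (c.L g v - c.L g' v)⟫ ^ 2
        ≤ ∑ _i : Fin d, ‖v‖ ^ 2 * (d * (ε / (4 * d)) ^ 2) := by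
          refine Finset.sum_le_sum fun i _ => ?_
          rw [hPw, hcoef]
          refine (Finset.sum_mul_sq_le_sq_mul_sq _ _ _).trans ?_
          rw [← h2]
          refine mul_le_mul_of_nonneg_left ?_ (by positivity)
          calc ∑ j, (net_rho c V g i j - net_rho c V g' i j) ^ 2
              ≤ ∑ _j : Fin d, (ε / (4 * d)) ^ 2 := by
                refine Finset.sum_le_sum fun j _ => ?_
                rw [← sq_abs]
                exact pow_le_pow_left₀ (abs_nonneg _) (hent i j) 2
            _ = d * (ε / (4 * d)) ^ 2 := by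
                rw [Finset.sum_const, Finset.card_univ, Fintype.card_fin, nsmul_eq_mul]
      _ = d * (‖v‖ ^ 2 * (d * (ε / (4 * d)) ^ 2)) := by
          rw [Finset.sum_const, Finset.card_univ, Fintype.card_fin, nsmul_eq_mul]
      _ ≤ (ε / 4 * ‖v‖) ^ 2 := by
          rcases Nat.eq_zero_or_pos d with h0 | h0
          · rw [h0]
            simp only [Nat.cast_zero, zero_mul]
            positivity
          · have h0' : (0 : ℝ) < d := by exact_mod_cast h0
            apply le_of_eq
            field_simp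
            try ring
  exact abs_le_of_sq_le_sq' hsq (by positivity) |>.2

theorem exists_net (hS : SymOne S) (hA : AInv S c V σ) (ε : ℝ) (hε : 0 < ε) (hε1 : ε ≤ 1) (I : ℕ)
    (hI : (8 * (finrank ℝ V : ℝ) / ε + 2) ^ ((finrank ℝ V) ^ 2) ≤ I)
    (hσ : (4 * I + 1) * σ ≤ ε / 2) :
    ∃ U : Finset G, U ⊆ S ^ I ∧ U.card ≤ I ∧ ∀ k : ℕ, ∀ g ∈ S ^ k,
      ∃ w ∈ (TT S c V (2 * I + 1) ε) ^ k, ∃ u ∈ U, g = w * u := by
  classical
  set d := finrank ℝ V with hd
  set x : ℝ := 4 * (d : ℝ) / ε with hx
  have hx0 : 0 ≤ x := by positivity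
  set cell := net_cell c V x with hcell
  set R : ℕ → Finset (Fin d × Fin d → ℤ) := fun j => (S ^ j).image cell with hR
  have hmono : ∀ j k, j ≤ k → R j ⊆ R k := fun j k hjk =>
    Finset.image_subset_image (Finset.pow_subset_pow_right hS.one hjk)
  have hcard : ∀ j, (R j).card ≤ I := by
    intro j
    have h1 : (R j).card ≤ (Fintype.piFinset
        (fun _ : Fin d × Fin d => Finset.Icc ⌊-x⌋ ⌊x⌋)).card := by
      apply Finset.card_le_card
      intro f hf
      rw [hR, Finset.mem_image] at hf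
      obtain ⟨g, _, rfl⟩ := hf
      exact net_cell_mem hx0 g
    have h2 := net_card hx0 d
    have h3 : 2 * x + 2 = 8 * (d : ℝ) / ε + 2 := by rw [hx]; ring
    rw [h3] at h2
    have h4 : (((R j).card : ℕ) : ℝ) ≤ I := by
      refine le_trans ?_ (h2.trans hI)
      exact_mod_cast h1
    exact_mod_cast h4
  obtain ⟨j, hjI, hj⟩ : ∃ j, j < I ∧ R (j + 1) = R j := by
    by_contra hcon
    push Not at hcon
    have h1 : ∀ j, j ≤ I → j + 1 ≤ (R j).card := by
      intro j
      induction j with
      | zero =>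
        intro _
        rw [Nat.succ_le_iff, Finset.card_pos]
        exact ⟨cell 1, Finset.mem_image_of_mem _ (by simp)⟩
      | succ j ih =>
        intro hj
        have h2 := ih (by omega)
        have h3 : R j ⊂ R (j + 1) :=
          (hmono j (j + 1) (by omega)).ssubset_of_ne (fun h => hcon j (by omega) h.symm)
        have := Finset.card_lt_card h3
        omega
    have h2 := h1 I le_rfl
    have h3 := hcard I
    omega
  -- representatives
  have hrep : ∀ ξ : Fin d × Fin d → ℤ, ∃ u : G, ξ ∈ R j → (u ∈ S ^ j ∧ cell u = ξ) ∧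
      (ξ = cell 1 → u = 1) := by
    intro ξ
    by_cases h : ξ ∈ R j
    · by_cases h1 : ξ = cell 1
      · exact ⟨1, fun _ => ⟨⟨Finset.one_mem_pow hS.one, h1.symm⟩, fun _ => rfl⟩⟩
      · obtain ⟨u, hu, hu2⟩ := Finset.mem_image.1 h
        exact ⟨u, fun _ => ⟨⟨hu, hu2⟩, fun h2 => absurd h2 h1⟩⟩
    · exact ⟨1, fun h2 => absurd h2 h⟩
  choose u hu using hrep
  refine ⟨(R j).image u, ?_, Finset.card_image_le.trans (hcard j), ?_⟩
  · intro g hg
    obtain ⟨ξ, hξ, rfl⟩ := Finset.mem_image.1 hg
    exact Finset.pow_subset_pow_right hS.one hjI.le (hu ξ hξ).1.1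
  · intro k
    induction k with
    | zero =>
      intro g hg
      rw [pow_zero, Finset.mem_one] at hg
      subst hg
      have h1 : cell 1 ∈ R j := Finset.mem_image_of_mem _ (Finset.one_mem_pow hS.one)
      refine ⟨1, by simp, 1, ?_, by simp⟩
      exact Finset.mem_image.2 ⟨cell 1, h1, (hu _ h1).2 rfl⟩
    | succ k ih =>
      intro g hg
      rw [pow_succ, Finset.mem_mul] at hg
      obtain ⟨g', hg', s, hs, rfl⟩ := hg
      obtain ⟨w, hw, u', hu', rfl⟩ := ih g' hg'
      obtain ⟨ξ, hξ, rfl⟩ := Finset.mem_image.1 hu'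
      have h1 : u ξ * s ∈ S ^ (j + 1) := by
        rw [pow_succ]
        exact Finset.mul_mem_mul (hu ξ hξ).1.1 hs
      have h2 : cell (u ξ * s) ∈ R j := by
        rw [← hj]; exact Finset.mem_image_of_mem _ h1
      have h3 := (hu _ h2).1
      set u2 := u (cell (u ξ * s)) with hu2
      have hinvmem : u2⁻¹ ∈ S ^ j := by
        have hSinv : S⁻¹ ⊆ S := by
          intro a ha
          rw [Finset.mem_inv] at ha
          obtain ⟨b, hb, rfl⟩ := ha
          exact hS.inv b hb
        have := Finset.inv_mem_inv h3.1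
        rw [← _root_.inv_pow] at this
        exact Finset.pow_subset_pow_left hSinv this
      have ht : u ξ * s * u2⁻¹ ∈ TT S c V (2 * I + 1) ε := by
        unfold TT
        rw [Finset.mem_filter]
        constructor
        · have h4 : u ξ * s * u2⁻¹ ∈ S ^ ((j + 1) + j) := by
            rw [pow_add]; exact Finset.mul_mem_mul h1 hinvmem
          exact Finset.pow_subset_pow_right hS.one (by omega) h4
        · have h5 : ∀ v ∈ V, ‖c.L (u ξ * s) v - c.L u2 v‖ ≤ (ε / 4 + (2 * j + 1) * σ) * ‖v‖ := by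
            intro v hv
            have h6 := net_close (c := c) (V := V) hε (g := u ξ * s) (g' := u2) h3.2.symm hv
            have h7 := Gap.inv_pow hS hA (j + 1) h1 hv
            have h8 := Gap.inv_pow hS hA j h3.1 hv
            have h9 : c.L (u ξ * s) v - c.L u2 v = V.starProjection (c.L (u ξ * s) v - c.L u2 v) +
                (c.L (u ξ * s) v - V.starProjection (c.L (u ξ * s) v)) -
                (c.L u2 v - V.starProjection (c.L u2 v)) := by
              rw [map_sub]; abel
            rw [h9]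
            refine (norm_sub_le _ _).trans ?_
            refine (add_le_add (norm_add_le _ _) le_rfl).trans ?_
            push_cast at h7
            nlinarith [h6, h7, h8]
          have h10 := NN_mul_inv (c := c) (V := V) hS hA j h3.1
            (by have := hA.nonneg; positivity) h5
          refine h10.trans ?_
          have hj2 : (4 * (j : ℝ) + 1) ≤ 4 * I + 1 := by
            have : (j : ℝ) ≤ I := by exact_mod_cast hjI.le
            linarith
          have h11 := mul_le_mul_of_nonneg_right hj2 hA.nonneg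
          linarith
      refine ⟨w * (u ξ * s * u2⁻¹), ?_, u2, Finset.mem_image_of_mem _ h2, by group⟩
      rw [pow_succ]
      exact Finset.mul_mem_mul hw ht

end Pool.Agent.Helper41.Gap
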