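import Pool.Agent.Helper41.Gap.NNBasic

set_option autoImplicit false

open scoped Pointwise RealInnerProductSpace TensorProduct
open ProbabilityTheory MeasureTheory Module

namespace Pool.Agent.Helper41.Gap

variable {G : Type} [Group G] [DecidableEq G]
variable {E : Type} [NormedAddCommGroup E] [InnerProductSpace ℝ E]
variable {S : Finset G} {c : Coc G E} {V : Submodule ℝ E} [FiniteDimensional ℝ V] {σ : ℝ}

omit [DecidableEq G] in
theorem ntv_sb_mul (v : E) (g h : G) : sb c v (g * h) = sb c v g + c.L g (sb c v h) := by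
  unfold sb
  rw [c.coc, map_mul, map_sub, map_sub]
  change _ + _ - (v - c.L g (c.L h v)) = _
  abel

omit [DecidableEq G] in
theorem ntv_norm_L (g : G) (x : E) : ‖c.L g x‖ = ‖x‖ := LinearIsometryEquiv.norm_map _ _

theorem ntv_proj_le (x : E) : ‖V.starProjection x‖ ≤ ‖x‖ :=
  (V.starProjection.le_opNorm x).trans
    (mul_le_of_le_one_left (norm_nonneg _) V.starProjection_norm_le)

/-- The upper estimate for a compressed translate. -/
theorem ntv_upper (hS : SymOne S) (hA : AInv S c V σ) (r : ℕ) {g : G} (hg : g ∈ S ^ r) (x : E) :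
    ‖V.starProjection (c.L g x)‖ ≤ ‖V.starProjection x‖ + r * σ * ‖x‖ := by
  have h1 : V.starProjection (c.L g x) = V.starProjection (c.L g (V.starProjection x)) +
      V.starProjection (c.L g (x - V.starProjection x)) := by
    rw [← map_add, ← map_add, add_sub_cancel]
  rw [h1]
  refine (norm_add_le _ _).trans (add_le_add ?_ (adj_pow hS hA r hg x))
  exact (ntv_proj_le _).trans (ntv_norm_L _ _).le

/-- The lower estimate for a compressed translate. -/
theorem ntv_lower (hS : SymOne S) (hA : AInv S c V σ) (r : ℕ) {g : G} (hg : g ∈ S ^ r) (x : E) :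
    ‖V.starProjection x‖ - 2 * (r * σ * ‖x‖) ≤ ‖V.starProjection (c.L g x)‖ := by
  have hr : (0 : ℝ) ≤ r * σ := by have := hA.nonneg; positivity
  have h1 : V.starProjection (c.L g x) = c.L g (V.starProjection x) -
      (c.L g (V.starProjection x) - V.starProjection (c.L g (V.starProjection x))) +
      V.starProjection (c.L g (x - V.starProjection x)) := by
    rw [map_sub, map_sub]; abel
  have h2 := Gap.inv_pow hS hA r hg (V.starProjection_apply_mem x)
  have h3 := adj_pow hS hA r hg x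
  have h4 := mul_le_mul_of_nonneg_left (ntv_proj_le (V := V) x) hr
  have h5 := ntv_norm_L (c := c) g (V.starProjection x)
  have h6 := norm_sub_norm_le (c.L g (V.starProjection x)) ((c.L g (V.starProjection x) -
    V.starProjection (c.L g (V.starProjection x))) -
      V.starProjection (c.L g (x - V.starProjection x)))
  have h7 := norm_sub_le (c.L g (V.starProjection x) -
    V.starProjection (c.L g (V.starProjection x)))
      (V.starProjection (c.L g (x - V.starProjection x)))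
  have h8 : c.L g (V.starProjection x) - (c.L g (V.starProjection x) -
      V.starProjection (c.L g (V.starProjection x)) -
        V.starProjection (c.L g (x - V.starProjection x))) = V.starProjection (c.L g x) := by
    rw [h1]; abel
  rw [h8] at h6
  linarith

theorem ntv_sq {A B δ : ℝ} (hA : 0 ≤ A) (hB : 0 ≤ B) (hδ : 0 ≤ δ) (h : B - δ ≤ A) :
    B ^ 2 - 2 * B * δ ≤ A ^ 2 := by
  rcases le_total δ B with h1 | h1
  · nlinarith
  · nlinarith

/-- The word estimate. -/
theorem ntv_word (hS : SymOne S) (hA : AInv S c V σ) (m : ℕ) (T : Finset G) (hT : T ⊆ S ^ m)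
    (v : E) (γ B : ℝ) (hγ : ∀ t ∈ T, ‖V.starProjection (sb c v t)‖ ≤ γ)
    (hB : ∀ t ∈ T, ‖sb c v t‖ ≤ B) (hB0 : 0 ≤ B) (hb1 : sb c v 1 = 0) (j : ℕ) :
    ∀ w ∈ T ^ j, ‖V.starProjection (sb c v w)‖ ≤ j * γ + j * (j * m * σ * B) := by
  have hσ0 := hA.nonneg
  induction j with
  | zero =>
    intro w hw
    rw [pow_zero, Finset.mem_one] at hw
    subst hw
    rw [hb1]
    simp
  | succ j ih =>
    intro w hw
    rw [pow_succ, Finset.mem_mul] at hw
    obtain ⟨w', hw', t, ht, rfl⟩ := hw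
    have h1 : w' ∈ S ^ (j * m) := by
      rw [mul_comm, pow_mul]
      exact Finset.pow_subset_pow_left hT hw'
    have h2 := ntv_upper hS hA (j * m) h1 (sb c v t)
    have h3 := ih w' hw'
    rw [ntv_sb_mul, map_add]
    refine (norm_add_le _ _).trans ?_
    have h4 := hγ t ht
    have h5 : ((j * m : ℕ) : ℝ) * σ * ‖sb c v t‖ ≤ ((j * m : ℕ) : ℝ) * σ * B :=
      mul_le_mul_of_nonneg_left (hB t ht) (by positivity)
    push_cast at h2 h5 ⊢
    have h6 : 0 ≤ (m : ℝ) * σ * B := by positivity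
    have h7 : (0 : ℝ) ≤ j := Nat.cast_nonneg j
    nlinarith [mul_nonneg h7 h6]

theorem shift_nontrivial (hS : SymOne S) (hA : AInv S c V σ) {η : ℝ} (hg : Good S c η)
    (m I k : ℕ) (Θ β R : ℝ) (T U : Finset G) (hT : T ⊆ S ^ m) (hU : U ⊆ S ^ I) (hT1 : SymOne T)
    (hm : 1 ≤ m) (hI : 1 ≤ I)
    (hnet : ∀ k : ℕ, ∀ g ∈ S ^ k, ∃ w ∈ T ^ k, ∃ u ∈ U, g = w * u)
    (hΘ : 0 < Θ) (hΘ1 : Θ ≤ 1)
    (hen : Θ ≤ av S (fun s => ‖V.starProjection (c.b s)‖ ^ 2))
    (v : E) (hv : v ∈ V) (hβ : β = √(2 * (S.card : ℝ))) (hR : R = β * I + 4 * ‖v‖ + 1)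
    (hk1 : 64 * R ^ 2 / Θ ≤ k) (hk2 : (k : ℝ) ≤ 128 * R ^ 2 / Θ)
    (hσ : (k : ℝ) ^ 3 * m * σ * (10 * β ^ 2 * m + 2 * ‖v‖) ≤ 1 / 2 * Θ / 8)
    (hη : 2 * (S.card : ℝ) * k ^ 2 * η ≤ 1 / 8 * Θ) :
    ∃ t ∈ T, Θ / (48 * R) ≤ ‖V.starProjection (sb c v t)‖ := by
  by_contra hcon
  push Not at hcon
  have hσ0 := hA.nonneg
  have hScard : (1 : ℝ) ≤ (S.card : ℝ) := by
    have : 0 < S.card := Finset.card_pos.2 ⟨1, hS.one⟩
    exact_mod_cast this
  have hβsq : β ^ 2 = 2 * (S.card : ℝ) := by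
    rw [hβ, Real.sq_sqrt (by positivity)]
  have hβ1 : 1 ≤ β := by
    rw [hβ]
    apply Real.le_sqrt_of_sq_le
    linarith
  have hI' : (1 : ℝ) ≤ I := by exact_mod_cast hI
  have hm' : (1 : ℝ) ≤ m := by exact_mod_cast hm
  have hv0 := norm_nonneg v
  have hβI : 0 ≤ β * I := by positivity
  have hR1 : 1 ≤ R := by rw [hR]; linarith
  have hk0 : (64 : ℝ) ≤ k := by
    refine le_trans ?_ hk1
    rw [le_div_iff₀ hΘ]
    nlinarith
  have hkΘ1 : 64 * R ^ 2 ≤ k * Θ := by rwa [div_le_iff₀ hΘ] at hk1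
  have hkΘ2 : k * Θ ≤ 128 * R ^ 2 := by rwa [le_div_iff₀ hΘ] at hk2
  -- consequence of the smallness of sigma
  have hσ1 : (k : ℝ) * (k * m * σ * (β * m + 2 * ‖v‖)) ≤ 1 / 16 := by
    have h1 : β * m + 2 * ‖v‖ ≤ 10 * β ^ 2 * m + 2 * ‖v‖ := by
      have h0 : β ≤ 10 * β ^ 2 := by nlinarith
      have h0' : β * m ≤ 10 * β ^ 2 * m :=
        mul_le_mul_of_nonneg_right h0 (by linarith)
      linarith
    have h2 : (k : ℝ) * (k * m * σ * (β * m + 2 * ‖v‖)) ≤
        (k : ℝ) ^ 3 * m * σ * (10 * β ^ 2 * m + 2 * ‖v‖) := by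
      have h3 : (k : ℝ) * (k * m * σ * (β * m + 2 * ‖v‖)) =
        ((k : ℝ) ^ 2 * m * σ) * (β * m + 2 * ‖v‖) := by ring
      rw [h3]
      have h4 : (k : ℝ) ^ 2 * m * σ ≤ (k : ℝ) ^ 3 * m * σ := by
        have : (k : ℝ) ^ 2 ≤ (k : ℝ) ^ 3 := pow_le_pow_right₀ (by linarith) (by norm_num)
        exact mul_le_mul_of_nonneg_right (mul_le_mul_of_nonneg_right this (by positivity)) hσ0
      exact mul_le_mul h4 h1 (by positivity) (by positivity)
    linarith
  have hσ2 : 2 * (k : ℝ) ^ 2 * σ ≤ 1 / 16 := by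
    have h2 : 2 * (k : ℝ) ^ 2 * σ ≤ (k : ℝ) ^ 3 * m * σ * (10 * β ^ 2 * m + 2 * ‖v‖) := by
      have h4 : (k : ℝ) ^ 2 * σ ≤ (k : ℝ) ^ 3 * m * σ := by
        have h5 : (k : ℝ) ^ 2 ≤ (k : ℝ) ^ 3 := pow_le_pow_right₀ (by linarith) (by norm_num)
        have h6 : (k : ℝ) ^ 3 * 1 ≤ (k : ℝ) ^ 3 * m :=
          mul_le_mul_of_nonneg_left hm' (by positivity)
        exact mul_le_mul_of_nonneg_right (by linarith) hσ0
      have h7 : 2 ≤ 10 * β ^ 2 * m + 2 * ‖v‖ := by nlinarith
      calc 2 * (k : ℝ) ^ 2 * σ = ((k : ℝ) ^ 2 * σ) * 2 := by ring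
        _ ≤ _ := mul_le_mul h4 h7 (by norm_num) (by positivity)
    linarith
  -- bounds for the shifted cocycle
  have hb1 : sb c v 1 = 0 := by
    unfold sb
    rw [coc_one, map_one]
    simp
  have hB : ∀ t ∈ T, ‖sb c v t‖ ≤ β * m + 2 * ‖v‖ := by
    intro t ht
    have h1 := norm_b_le hS hg m (hT ht)
    rw [← hβ] at h1
    unfold sb
    refine (norm_sub_le _ _).trans ?_
    have h2 := norm_sub_le v (c.L t v)
    rw [ntv_norm_L] at h2
    linarith
  -- upper bound for all g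
  have hup : ∀ g ∈ S ^ k, ‖V.starProjection (c.b g)‖ ≤ 11 / 3 * R := by
    intro g hgk
    obtain ⟨w, hw, u, hu, rfl⟩ := hnet k g hgk
    have h1 := ntv_word hS hA m T hT v (Θ / (48 * R)) (β * m + 2 * ‖v‖)
      (fun t ht => (hcon t ht).le) hB (by positivity) hb1 k w hw
    have h2 := norm_b_le hS hg I (hU hu)
    rw [← hβ] at h2
    have h3 : c.b (w * u) = sb c v w + (v - c.L w v) + c.L w (c.b u) := by
      rw [c.coc]; unfold sb; abel
    rw [h3, map_add, map_add]
    refine (norm_add_le _ _).trans ?_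
    refine (add_le_add (norm_add_le _ _) le_rfl).trans ?_
    have h4 : ‖V.starProjection (v - c.L w v)‖ ≤ 2 * ‖v‖ := by
      refine (ntv_proj_le _).trans ((norm_sub_le _ _).trans ?_)
      rw [ntv_norm_L]; linarith
    have h5 : ‖V.starProjection (c.L w (c.b u))‖ ≤ I * β := by
      refine (ntv_proj_le _).trans ?_
      rw [ntv_norm_L]; exact h2
    have h6 : (k : ℝ) * (Θ / (48 * R)) ≤ 8 / 3 * R := by
      rw [← mul_div_assoc, div_le_iff₀ (by positivity)]
      nlinarith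
    nlinarith
  -- the energy
  have hQ := ex_energy hS hg (V.starProjection) V.starProjection_norm_le k
  rw [abs_le] at hQ
  have hlow : ∀ i ∈ Finset.range k, Θ - 4 * i * σ ≤
      ex S i (fun x => av S (fun s => ‖V.starProjection (c.L x (c.b s))‖ ^ 2)) := by
    intro i _
    have h1 : ex S i (fun _ : G => Θ - 4 * i * σ) ≤
        ex S i (fun x => av S (fun s => ‖V.starProjection (c.L x (c.b s))‖ ^ 2)) := by
      apply ex_mono hS
      intro x hx
      have h2 : av S (fun s => ‖V.starProjection (c.b s)‖ ^ 2 - 4 * i * σ * ‖c.b s‖ ^ 2) ≤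
          av S (fun s => ‖V.starProjection (c.L x (c.b s))‖ ^ 2) := by
        have h3 : ∀ s : G, ‖V.starProjection (c.b s)‖ ^ 2 - 4 * i * σ * ‖c.b s‖ ^ 2 ≤
            ‖V.starProjection (c.L x (c.b s))‖ ^ 2 := by
          intro s
          have h4 := ntv_sq (norm_nonneg _) (norm_nonneg _) (by positivity)
            (ntv_lower hS hA i hx (c.b s))
          refine le_trans ?_ h4
          have h5 := ntv_proj_le (V := V) (c.b s)
          have h6 : 0 ≤ (i : ℝ) * σ := by positivity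
          have h7 := mul_le_mul_of_nonneg_left h5
            (mul_nonneg h6 (norm_nonneg (c.b s)))
          nlinarith
        have h8 := ex_mono (S := S) hS 1 (F := fun s => ‖V.starProjection (c.b s)‖ ^ 2 -
          4 * i * σ * ‖c.b s‖ ^ 2) (F' := fun s => ‖V.starProjection (c.L x (c.b s))‖ ^ 2)
          (fun s _ => h3 s)
        rwa [ex_one, ex_one] at h8
      refine le_trans ?_ h2
      have h9 : av S (fun s => ‖V.starProjection (c.b s)‖ ^ 2 - 4 * i * σ * ‖c.b s‖ ^ 2) =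
          av S (fun s => ‖V.starProjection (c.b s)‖ ^ 2) -
            4 * i * σ * av S (fun s => ‖c.b s‖ ^ 2) := by
        unfold av
        simp only [smul_eq_mul, Finset.sum_sub_distrib, ← Finset.mul_sum]
        ring
      rw [h9, hg.energy, mul_one]
      linarith
    rwa [ex_const hS] at h1
  have hsum := Finset.sum_le_sum hlow
  have hsum2 : (k : ℝ) * Θ - 2 * k ^ 2 * σ ≤ ∑ i ∈ Finset.range k, (Θ - 4 * (i : ℝ) * σ) := by
    rw [Finset.sum_sub_distrib, Finset.sum_const, Finset.card_range, nsmul_eq_mul]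
    have h1 : ∑ i ∈ Finset.range k, 4 * (i : ℝ) * σ = 4 * σ * ∑ i ∈ Finset.range k, (i : ℝ) := by
      rw [Finset.mul_sum]
      refine Finset.sum_congr rfl fun i _ => by ring
    have h2 : ∑ i ∈ Finset.range k, (i : ℝ) = (k : ℝ) * (k - 1) / 2 := by
      have := Finset.sum_range_id_mul_two k
      have h3 : ((∑ i ∈ Finset.range k, i : ℕ) : ℝ) * 2 = (k : ℝ) * ((k - 1 : ℕ) : ℝ) := by
        exact_mod_cast this
      rw [Nat.cast_sub (by
        have : (1 : ℝ) ≤ k := by linarith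
        exact_mod_cast this)] at h3
      push_cast at h3
      linarith
    rw [h1, h2]
    have h4 : (0 : ℝ) ≤ σ * k := by positivity
    nlinarith
  obtain ⟨g, hgk, hgF⟩ := exists_ge hS k (fun g => ‖V.starProjection (c.b g)‖ ^ 2)
  have h10 := hup g hgk
  have h11 : ‖V.starProjection (c.b g)‖ ^ 2 ≤ (11 / 3 * R) ^ 2 :=
    pow_le_pow_left₀ (norm_nonneg _) h10 2
  have h12 : 64 * R ^ 2 - 1 ≤ (11 / 3 * R) ^ 2 := by
    have h13 := hQ.1
    linarith
  nlinarith

end Pool.Agent.Helper41.Gap
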