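import Pool.Agent.Helper41.Gap.Defs

set_option autoImplicit false

open scoped Pointwise RealInnerProductSpace TensorProduct
open ProbabilityTheory MeasureTheory Module

namespace Pool.Agent.Helper41.Gap

private theorem na_fg_inj {P Γ : Type} [Group P] [Group Γ] (f : P →* Γ)
    (hf : Function.Injective f) (hfg : ∀ K : Subgroup Γ, K.FG) (K : Subgroup P) : K.FG := by
  rw [← Group.fg_iff_subgroup_fg]
  have : Group.FG (K.map f) := (Group.fg_iff_subgroup_fg _).2 (hfg _)
  exact Group.fg_of_surjective (f := (K.equivMapOfInjective f hf).symm.toMonoidHom)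
    (K.equivMapOfInjective f hf).symm.surjective

private theorem na_fg_surj {P Q : Type} [Group P] [Group Q] (f : P →* Q)
    (hf : Function.Surjective f) (hfg : ∀ K : Subgroup P, K.FG) (K : Subgroup Q) : K.FG := by
  rw [← Group.fg_iff_subgroup_fg]
  have : Group.FG (K.comap f) := (Group.fg_iff_subgroup_fg _).2 (hfg _)
  exact Group.fg_of_surjective (f := f.subgroupComap K)
    (MonoidHom.subgroupComap_surjective_of_surjective f K hf)

/-- a nilpotent group of finite exponent all of whose subgroups are finitely generated is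
finite -/
private theorem na_finite (n : ℕ) (hn : 0 < n) (P : Type) [Group P] [Group.IsNilpotent P] :
    (∀ K : Subgroup P, K.FG) → (∀ x : P, x ^ n = 1) → Finite P := by
  refine Group.nilpotent_center_quotient_ind
    (P := fun (P : Type) [Group P] [Group.IsNilpotent P] =>
      (∀ K : Subgroup P, K.FG) → (∀ x : P, x ^ n = 1) → Finite P) P ?_ ?_
  · intro P _ _ _ _
    infer_instance
  · intro P _ _ ih hfg hexp
    have h1 : Finite (P ⧸ Subgroup.center P) := by
      refine ih (na_fg_surj (QuotientGroup.mk' _) (QuotientGroup.mk'_surjective _) hfg) ?_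
      intro x
      obtain ⟨y, rfl⟩ := QuotientGroup.mk'_surjective _ x
      rw [← map_pow, hexp, map_one]
    have h2 : Finite (Subgroup.center P) := by
      have : Group.FG (Subgroup.center P) := (Group.fg_iff_subgroup_fg _).2 (hfg _)
      let : CommGroup (Subgroup.center P) :=
        { (inferInstance : Group (Subgroup.center P)) with
          mul_comm := fun a b => Subtype.ext ((Subgroup.mem_center_iff.1 b.2) a) }
      refine CommGroup.finite_of_fg_isMulTorsion _ ?_
      intro x
      refine isOfFinOrder_iff_pow_eq_one.2 ⟨n, hn, ?_⟩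
      exact Subtype.ext (hexp x)
    exact Finite.of_equiv _ (Subgroup.groupEquivQuotientProdSubgroup (s := Subgroup.center P)).symm

theorem exists_normal_abelian {Γ : Type} [Group Γ] (hfg : ∀ K : Subgroup Γ, K.FG)
    (N : Subgroup Γ) [N.Normal] (hN : VNil N) (hinf : Infinite N) :
    ∃ A : Subgroup Γ, A.Normal ∧ A ≠ ⊥ ∧ A ≤ N ∧ (∀ x ∈ A, ∀ y ∈ A, x * y = y * x) := by
  obtain ⟨H, hHfi, hHn⟩ := hN
  have := hHfi
  have := hHn
  -- a normal nilpotent subgroup of finite index
  set N0 : Subgroup N := H.normalCore with hN0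
  have hN0n : Group.IsNilpotent N0 := by
    have h1 : N0 ≤ H := H.normalCore_le
    have : Group.IsNilpotent (N0.subgroupOf H) := Subgroup.isNilpotent _
    exact Group.nilpotent_of_mulEquiv (Subgroup.subgroupOfEquivOfLe h1)
  have hN0fi : N0.FiniteIndex := Subgroup.finiteIndex_normalCore _
  set n : ℕ := N0.index with hn
  have hn0 : 0 < n := Nat.pos_of_ne_zero hN0fi.index_ne_zero
  have hpow : ∀ x : N, x ^ n ∈ N0 := fun x => Subgroup.pow_index_mem N0 x
  -- the verbal subgroup
  set V0 : Subgroup Γ := Subgroup.closure {y | ∃ x ∈ N, y = x ^ n} with hV0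
  have hV0N : V0 ≤ N := by
    rw [hV0, Subgroup.closure_le]
    rintro y ⟨x, hx, rfl⟩
    exact N.pow_mem hx n
  have hV0N0 : V0 ≤ N0.map N.subtype := by
    rw [hV0, Subgroup.closure_le]
    rintro y ⟨x, hx, rfl⟩
    exact ⟨(⟨x, hx⟩ : N) ^ n, hpow _, rfl⟩
  have hV0norm : V0.Normal := by
    refine ⟨fun y hy g => ?_⟩
    have h1 : V0 ≤ V0.comap (MulAut.conj g).toMonoidHom := by
      conv_lhs => rw [hV0]
      rw [Subgroup.closure_le]
      rintro z ⟨x, hx, rfl⟩
      change (MulAut.conj g) (x ^ n) ∈ V0
      rw [map_pow, MulAut.conj_apply]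
      exact Subgroup.subset_closure ⟨_, ‹N.Normal›.conj_mem x hx g, rfl⟩
    exact h1 hy
  have hV0n : Group.IsNilpotent V0 := by
    have : Group.IsNilpotent (N0.map N.subtype) :=
      Group.nilpotent_of_mulEquiv (N0.equivMapOfInjective N.subtype N.subtype_injective)
    have : Group.IsNilpotent (V0.subgroupOf (N0.map N.subtype)) := Subgroup.isNilpotent _
    exact Group.nilpotent_of_mulEquiv (Subgroup.subgroupOfEquivOfLe hV0N0)
  have hV0ne : V0 ≠ ⊥ := by
    intro hbot
    have hexp : ∀ x : N, x ^ n = 1 := by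
      intro x
      have h1 : ((x : Γ)) ^ n ∈ V0 := Subgroup.subset_closure ⟨_, x.2, rfl⟩
      rw [hbot, Subgroup.mem_bot] at h1
      exact Subtype.ext h1
    have hfinN0 : Finite N0 := by
      refine na_finite n hn0 N0 ?_ ?_
      · exact na_fg_inj (N.subtype.comp N0.subtype)
          (N.subtype_injective.comp N0.subtype_injective) hfg
      · intro x
        exact Subtype.ext (hexp x)
    have hfinQ : Finite (N ⧸ N0) := inferInstance
    have : Finite N := Finite.of_equiv _
      (Subgroup.groupEquivQuotientProdSubgroup (s := N0)).symm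
    exact not_finite N
  have : Nontrivial V0 := (Subgroup.nontrivial_iff_ne_bot V0).2 hV0ne
  refine ⟨(Subgroup.center V0).map V0.subtype, inferInstance, ?_, ?_, ?_⟩
  · intro h
    rw [Subgroup.map_eq_bot_iff_of_injective _ V0.subtype_injective] at h
    exact Group.IsNilpotent.center_ne_bot V0 h
  · exact (Subgroup.map_subtype_le _).trans hV0N
  · rintro x ⟨x', hx', rfl⟩ y ⟨y', hy', rfl⟩
    have h1 := (Subgroup.mem_center_iff.1 hx') y'
    have h2 := congrArg V0.subtype h1
    rw [map_mul, map_mul] at h2
    exact h2.symm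

end Pool.Agent.Helper41.Gap
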