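import Pool.Agent.Helper41.Gap.Defs

/-!
# Gap: numerical lemmas for the one step proposition
-/

set_option autoImplicit false

namespace Pool.Agent.Helper41.Gap.Num

open Real

/-- Comparison of consecutive powers. -/
theorem pw {k : ℝ} (hk : 10 ^ 10 ≤ k) (i : ℕ) : 10 ^ 10 * k ^ i ≤ k ^ (i + 1) := by
  have h : k ^ (i + 1) = k * k ^ i := by rw [pow_succ, mul_comm]
  rw [h]
  have : (0 : ℝ) ≤ k ^ i := by
    apply pow_nonneg; linarith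
  nlinarith

theorem pw_one {k : ℝ} (hk : 10 ^ 10 ≤ k) (i : ℕ) : 1 ≤ k ^ i := by
  apply one_le_pow₀; linarith

/-- All comparisons at once. -/
theorem pws {k : ℝ} (hk : 10 ^ 10 ≤ k) :
    (10 ^ 10 * k ^ 1 ≤ k ^ 2 ∧ 10 ^ 10 * k ^ 2 ≤ k ^ 3 ∧ 10 ^ 10 * k ^ 3 ≤ k ^ 4 ∧
      10 ^ 10 * k ^ 4 ≤ k ^ 5 ∧ 10 ^ 10 * k ^ 5 ≤ k ^ 6 ∧ 10 ^ 10 * k ^ 6 ≤ k ^ 7 ∧
      10 ^ 10 * k ^ 7 ≤ k ^ 8) ∧
    (10 ^ 10 * k ^ 8 ≤ k ^ 9 ∧ 10 ^ 10 * k ^ 9 ≤ k ^ 10 ∧ 10 ^ 10 * k ^ 10 ≤ k ^ 11 ∧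
      10 ^ 10 * k ^ 11 ≤ k ^ 12 ∧ 10 ^ 10 * k ^ 12 ≤ k ^ 13 ∧ 10 ^ 10 * k ^ 13 ≤ k ^ 14) ∧
    (10 ^ 10 * k ^ 14 ≤ k ^ 16 ∧ 10 ^ 10 * k ^ 16 ≤ k ^ 17 ∧ 10 ^ 10 * k ^ 17 ≤ k ^ 21 ∧
      10 ^ 10 * k ^ 21 ≤ k ^ 29 ∧ 10 ^ 10 * k ^ 29 ≤ k ^ 30 ∧ 10 ^ 10 * k ^ 30 ≤ k ^ 31) := by
  have h := pw hk
  have hm : ∀ {i j : ℕ}, i ≤ j → k ^ i ≤ k ^ j := fun hij =>
    pow_le_pow_right₀ (by linarith) hij
  refine ⟨⟨h 1, h 2, h 3, h 4, h 5, h 6, h 7⟩, ⟨h 8, h 9, h 10, h 11, h 12, h 13⟩,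
    (h 14).trans (hm (by norm_num)), h 16, (h 17).trans (hm (by norm_num)),
    (h 21).trans (hm (by norm_num)), h 29, h 30⟩

/-- `x ^ 2` is below the exponential. -/
theorem pow_le_exp {k : ℝ} (hk : 10 ^ 10 ≤ k) : 10 ^ 20 * k ^ 4 ≤ exp k := by
  have h1 : (k / 8) ≤ exp (k / 8) := by
    have := add_one_le_exp (k / 8); linarith
  have h2 : (k / 8) ^ 8 ≤ exp (k / 8) ^ 8 := by
    have : 0 ≤ k / 8 := by linarith
    gcongr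
  have h3 : exp (k / 8) ^ 8 = exp k := by
    rw [← exp_nat_mul]; congr 1; push_cast; ring
  rw [h3] at h2
  refine le_trans ?_ h2
  have h4 : ((10 : ℝ) ^ 10) ^ 4 ≤ k ^ 4 := by gcongr
  have h5 : (0 : ℝ) ≤ k ^ 4 := by positivity
  have : (k / 8) ^ 8 = k ^ 4 * k ^ 4 / 8 ^ 8 := by ring
  rw [this]
  rw [le_div_iff₀ (by norm_num)]
  nlinarith

theorem two_pow_le (n : ℕ) : (2 : ℝ) ^ n ≤ exp n := by
  have h : (2 : ℝ) ≤ exp 1 := by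
    have := add_one_le_exp (1 : ℝ); linarith
  calc (2 : ℝ) ^ n ≤ exp 1 ^ n := by gcongr
    _ = exp n := by rw [← exp_nat_mul]; simp

theorem two_pow_eq (n : ℕ) : (2 : ℝ) ^ n = exp (n * log 2) := by
  rw [exp_nat_mul, exp_log (by norm_num)]

/-- `A = 2 ^ (16 K)`. -/
theorem A_le (K : ℕ) : ((2 : ℝ) ^ (16 * K)) ≤ exp (12 * K) := by
  rw [two_pow_eq]
  apply exp_le_exp.2
  have := log_two_lt_d9
  have hK : (0 : ℝ) ≤ K := by positivity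
  push_cast
  nlinarith

theorem A_ge (K : ℕ) : exp (11 * K) ≤ ((2 : ℝ) ^ (16 * K)) := by
  rw [two_pow_eq]
  apply exp_le_exp.2
  have := log_two_gt_d9
  have hK : (0 : ℝ) ≤ K := by positivity
  push_cast
  nlinarith

theorem mul_exp {x y a b : ℝ} (hy0 : 0 ≤ y) (hx : x ≤ exp a) (hy : y ≤ exp b) :
    x * y ≤ exp (a + b) := by
  rw [exp_add]
  exact mul_le_mul hx hy hy0 (exp_pos a).le

theorem add_exp {x y a : ℝ} (hx : x ≤ exp a) (hy : y ≤ exp a) : x + y ≤ exp (a + 1) := by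
  rw [exp_add]
  have h : (2 : ℝ) ≤ exp 1 := by
    have := add_one_le_exp (1 : ℝ); linarith
  have h0 := exp_pos a
  nlinarith

theorem pow_exp {x a : ℝ} (hx0 : 0 ≤ x) (hx : x ≤ exp a) (n : ℕ) : x ^ n ≤ exp (n * a) := by
  rw [exp_nat_mul]
  exact pow_le_pow_left₀ hx0 hx n

theorem mono_exp {x a b : ℝ} (hx : x ≤ exp a) (h : a ≤ b) : x ≤ exp b :=
  hx.trans (exp_le_exp.2 h)

theorem num_le_exp {x k : ℝ} (hk : 10 ^ 10 ≤ k) (hx : x ≤ 10 ^ 20 * k ^ 4) : x ≤ exp k :=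
  hx.trans (pow_le_exp hk)

theorem const_le_exp {x k : ℝ} (hk : 10 ^ 10 ≤ k) (hx : x ≤ 10 ^ 20) : x ≤ exp k := by
  apply num_le_exp hk
  have := pw_one hk 4
  nlinarith

theorem d_le_exp {d k : ℝ} (hk : 10 ^ 10 ≤ k) (hd : d ≤ 17000 * k ^ 2) :
    10 ^ 10 * (d + 1) ≤ exp k := by
  apply num_le_exp hk
  have h1 := pw_one hk 2
  have h4 : k ^ 4 = k ^ 2 * k ^ 2 := by ring
  nlinarith

/-- First bound: the number `ζ` of the linear part. -/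
theorem zeta1 {k : ℝ} {K : ℕ} (hk : 10 ^ 10 ≤ k) (hK : k = K) {d : ℕ}
    (hd : (d : ℝ) ≤ 17000 * k ^ 2) :
    exp (-28 * k ^ 29) ≤ exp (-27 * k ^ 21) * (exp (-27 * k ^ 21) / 2) ^ (K ^ 8) *
      ((4 * ((d : ℝ) + 1)) ^ ((K ^ 8) ^ 2))⁻¹ := by
  obtain ⟨p1, p2, p3⟩ := pws hk
  have hn : ((K ^ 8 : ℕ) : ℝ) = k ^ 8 := by rw [hK]; push_cast; ring
  have h2 : exp (-27 * k ^ 21 - 1) ≤ exp (-27 * k ^ 21) / 2 := by
    rw [exp_sub]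
    have h : (2 : ℝ) ≤ exp 1 := by
      have := add_one_le_exp (1 : ℝ); linarith
    gcongr
  have h3 : exp (k ^ 8 * (-27 * k ^ 21 - 1)) ≤ (exp (-27 * k ^ 21) / 2) ^ (K ^ 8) := by
    rw [← hn, exp_nat_mul]
    gcongr
  have h4 : (4 * ((d : ℝ) + 1)) ^ ((K ^ 8) ^ 2) ≤ exp (k ^ 16 * k) := by
    have := pow_exp (x := 4 * ((d : ℝ) + 1)) (a := k) (by positivity)
      (by have := d_le_exp hk hd
          have hd0 : (0 : ℝ) ≤ d := by positivity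
          nlinarith) ((K ^ 8) ^ 2)
    refine this.trans (exp_le_exp.2 (le_of_eq ?_))
    push_cast
    rw [← hK]; ring
  have h5 : exp (-(k ^ 16 * k)) ≤ ((4 * ((d : ℝ) + 1)) ^ ((K ^ 8) ^ 2))⁻¹ := by
    rw [exp_neg]
    apply inv_anti₀ (by positivity) h4
  calc exp (-28 * k ^ 29) ≤ exp (-27 * k ^ 21 + k ^ 8 * (-27 * k ^ 21 - 1) + -(k ^ 16 * k)) := by
        apply exp_le_exp.2
        have e1 : k ^ 8 * (-27 * k ^ 21 - 1) = -27 * k ^ 29 - k ^ 8 := by ring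
        have e2 : k ^ 16 * k = k ^ 17 := by ring
        rw [e1, e2]
        have := pw_one hk 8
        linarith [p1.1, p2.1, p2.2.1, p2.2.2.1, p2.2.2.2.1, p2.2.2.2.2.1, p2.2.2.2.2.2, p3.1,
          p3.2.1, p3.2.2.1, p3.2.2.2.1]
    _ = exp (-27 * k ^ 21) * exp (k ^ 8 * (-27 * k ^ 21 - 1)) * exp (-(k ^ 16 * k)) := by
        rw [exp_add, exp_add]
    _ ≤ _ := by gcongr

theorem eps_ge {k : ℝ} {K : ℕ} (hk : 10 ^ 10 ≤ k) (hK : k = K) {ε : ℝ}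
    (hε : ε = 1 / (64 * 2 ^ (16 * K))) : exp (-13 * k) ≤ ε := by
  rw [hε, neg_mul, exp_neg, ← one_div]
  apply one_div_le_one_div_of_le (by positivity)
  have h1 := mul_exp (x := 64) (y := (2 : ℝ) ^ (16 * K)) (a := k) (b := 12 * k) (by positivity)
    (const_le_exp hk (by norm_num)) (by rw [hK]; exact A_le K)
  refine h1.trans (exp_le_exp.2 (by linarith))

theorem eps_le {k : ℝ} {K : ℕ} (hK : k = K) {ε : ℝ}
    (hε : ε = 1 / (64 * 2 ^ (16 * K))) : ε ≤ exp (-11 * k) := by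
  rw [hε, neg_mul, exp_neg, ← one_div]
  apply one_div_le_one_div_of_le (by positivity)
  have := A_ge K
  rw [← hK] at this
  have h0 : (0 : ℝ) < 2 ^ (16 * K) := by positivity
  linarith

/-- Second hypothesis on `σ` of the linear part. -/
theorem num_lin {k : ℝ} {K : ℕ} (hk : 10 ^ 10 ≤ k) (hK : k = K) {d m : ℕ}
    (hd : (d : ℝ) ≤ 17000 * k ^ 2) (hm : (m : ℝ) ≤ exp (k ^ 6)) {σ ε ζ : ℝ} (hσ0 : 0 ≤ σ)
    (hσ : σ ≤ exp (-(k ^ 30) / 3)) (hε : ε = 1 / (64 * 2 ^ (16 * K)))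
    (hζ : exp (-28 * k ^ 29) ≤ ζ) :
    10000 * ((d : ℝ) + 1) * (2 ^ (16 * K) : ℕ) * (2 ^ (K ^ 8 + 3) * m) * σ ≤ ζ ^ 2 * ε := by
  obtain ⟨p1, p2, p3⟩ := pws hk
  have h1 : 10000 * ((d : ℝ) + 1) ≤ exp k := by
    have := d_le_exp hk hd
    have hd0 : (0 : ℝ) ≤ d := by positivity
    nlinarith
  have h2 : (((2 ^ (16 * K) : ℕ)) : ℝ) ≤ exp (12 * k) := by
    push_cast; rw [hK]; exact A_le K
  have h3 : (2 : ℝ) ^ (K ^ 8 + 3) ≤ exp (k ^ 8 + 3) := by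
    refine (two_pow_le _).trans (exp_le_exp.2 ?_)
    push_cast; rw [hK]
  have h4 := mul_exp (by positivity) h1 h2
  have h5 := mul_exp (by positivity) h3 hm
  have h6 := mul_exp (by positivity) h4 h5
  have h7 := mul_exp hσ0 h6 hσ
  refine h7.trans ?_
  have h8 : exp (-56 * k ^ 29 + -13 * k) ≤ ζ ^ 2 * ε := by
    rw [exp_add]
    have : exp (-56 * k ^ 29) = exp (-28 * k ^ 29) ^ 2 := by
      rw [← exp_nat_mul]; congr 1; push_cast; ring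
    rw [this]
    have := eps_ge hk hK hε
    gcongr
  refine le_trans (exp_le_exp.2 ?_) h8
  have := pw_one hk 6
  linarith [p1.1, p1.2.1, p1.2.2.1, p1.2.2.2.1, p1.2.2.2.2.1, p1.2.2.2.2.2.1, p1.2.2.2.2.2.2,
    p2.1, p2.2.1, p2.2.2.1, p2.2.2.2.1, p2.2.2.2.2.1, p2.2.2.2.2.2, p3.1,
    p3.2.1, p3.2.2.1, p3.2.2.2.1, p3.2.2.2.2.1]

theorem K8_le_exp {k : ℝ} {K n : ℕ} (hk : 10 ^ 10 ≤ k) (hK : k = K) (hn : n = K ^ 8) :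
    (n : ℝ) ≤ exp (2 * k) := by
  have h := pow_le_exp hk
  have h0 : (0 : ℝ) ≤ k ^ 4 := by positivity
  have h1 : k ^ 4 ≤ exp k := by nlinarith
  rw [hn]
  push_cast
  rw [← hK]
  calc k ^ 8 = (k ^ 4) ^ 2 := by ring
    _ ≤ exp k ^ 2 := by gcongr
    _ = exp (2 * k) := by rw [← exp_nat_mul]; norm_num

theorem sqrt_le_exp {k : ℝ} (hk : 10 ^ 10 ≤ k) {s : ℕ} (hs : (s : ℝ) ≤ exp k) :
    √(2 * (s : ℝ)) ≤ exp k := by
  apply sqrt_le_iff.2 ⟨(exp_pos _).le, ?_⟩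
  have h : (2 : ℝ) ≤ exp k := const_le_exp hk (by norm_num)
  have h0 := exp_pos k
  nlinarith

theorem one_le_sqrt {s : ℕ} (hs : 1 ≤ s) : 1 ≤ √(2 * (s : ℝ)) := by
  apply le_sqrt_of_sq_le
  have : (1 : ℝ) ≤ s := by exact_mod_cast hs
  linarith

theorem len_le_exp {k : ℝ} {K n m : ℕ} (hK : k = K) (hn : n = K ^ 8)
    (hm : (m : ℝ) ≤ exp (k ^ 6)) (j : ℕ) :
    (2 : ℝ) ^ (n + j) * m ≤ exp (k ^ 8 + j + k ^ 6) := by
  have h3 : (2 : ℝ) ^ (n + j) ≤ exp (k ^ 8 + j) := by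
    refine (two_pow_le _).trans (exp_le_exp.2 ?_)
    rw [hn]; push_cast; rw [hK]
  exact mul_exp (by positivity) h3 hm

theorem num_trans {k : ℝ} {K n A m s : ℕ} (hk : 10 ^ 10 ≤ k) (hK : k = K) (hn : n = K ^ 8)
    (hA : A = 2 ^ (16 * K)) (hm1 : 1 ≤ m) (hm : (m : ℝ) ≤ exp (k ^ 6)) (hs1 : 1 ≤ s)
    (hs : (s : ℝ) ≤ exp k) {σ ε Y ζ χ χ₂ : ℝ} (hσ0 : 0 ≤ σ)
    (hσ : σ ≤ exp (-(k ^ 30) / 3)) (hε : ε = 1 / (64 * A)) (hχ : χ = exp (-27 * k ^ 21))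
    (hχ₂ : χ₂ = exp (-10 * k ^ 13)) (hY : Y = √(2 * (s : ℝ)) * (2 ^ (n + 4) * m))
    (hζ : ζ = χ₂ * (χ₂ / Y) ^ n * ((2 : ℝ) ^ (n ^ 2))⁻¹) :
    χ₂ ≤ Y ∧ ζ ≤ 1 ∧ 100 * (n * A : ℝ) ^ 2 * χ * Y ^ 2 ≤ ζ ^ 2 * ε ∧
      100 * (n * A : ℝ) ^ 2 * (2 ^ (n + 4) * m) * σ * Y ^ 2 ≤ ζ ^ 2 * ε ∧
      20 * (2 ^ (n + 4) * m) * σ ≤ χ := by
  obtain ⟨p1, p2, p3⟩ := pws hk
  have hm1' : (1 : ℝ) ≤ m := by exact_mod_cast hm1
  have hY1 : 1 ≤ Y := by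
    rw [hY]
    have h1 := one_le_sqrt hs1
    have h2 : (1 : ℝ) ≤ 2 ^ (n + 4) := one_le_pow₀ (by norm_num)
    exact one_le_mul_of_one_le_of_one_le h1 (one_le_mul_of_one_le_of_one_le h2 hm1')
  have hχ₂1 : χ₂ ≤ 1 := by
    rw [hχ₂]
    apply exp_le_one_iff.2
    have := pw_one hk 13
    linarith
  have hχ₂0 : 0 < χ₂ := by rw [hχ₂]; exact exp_pos _
  have hYe : Y ≤ exp (2 * k ^ 8) := by
    rw [hY]
    refine mono_exp (mul_exp (by positivity) (sqrt_le_exp hk hs) (len_le_exp hK hn hm 4)) ?_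
    push_cast
    have := pw_one hk 6
    linarith [p1.1, p1.2.1, p1.2.2.1, p1.2.2.2.1, p1.2.2.2.2.1, p1.2.2.2.2.2.1, p1.2.2.2.2.2.2]
  have hY0 : 0 < Y := by linarith
  have hnr : (n : ℝ) = k ^ 8 := by rw [hn, hK]; push_cast; ring
  have hζ0 : 0 < ζ := by rw [hζ]; positivity
  have hζ1 : ζ ≤ 1 := by
    rw [hζ]
    have h1 : (χ₂ / Y) ^ n ≤ 1 := pow_le_one₀ (by positivity) ((div_le_one hY0).2 (by linarith))
    have h2 : ((2 : ℝ) ^ (n ^ 2))⁻¹ ≤ 1 := by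
      apply inv_le_one_of_one_le₀
      exact one_le_pow₀ (by norm_num)
    have h3 : (0 : ℝ) ≤ (χ₂ / Y) ^ n := by positivity
    have h4 : (0 : ℝ) ≤ ((2 : ℝ) ^ (n ^ 2))⁻¹ := by positivity
    calc χ₂ * (χ₂ / Y) ^ n * ((2 : ℝ) ^ (n ^ 2))⁻¹ ≤ 1 * 1 * 1 := by gcongr
      _ = 1 := by norm_num
  have hζe : exp (-11 * k ^ 21) ≤ ζ := by
    have h1 : exp (-10 * k ^ 13 - 2 * k ^ 8) ≤ χ₂ / Y := by
      rw [exp_sub, hχ₂]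
      gcongr
    have h2 : exp (k ^ 8 * (-10 * k ^ 13 - 2 * k ^ 8)) ≤ (χ₂ / Y) ^ n := by
      rw [← hnr, exp_nat_mul]
      gcongr
      rw [hnr]; exact h1
    have h3 : exp (-(k ^ 16)) ≤ ((2 : ℝ) ^ (n ^ 2))⁻¹ := by
      rw [exp_neg]
      apply inv_anti₀ (by positivity)
      refine (two_pow_le _).trans (le_of_eq ?_)
      push_cast; rw [hnr]; congr 1; ring
    calc exp (-11 * k ^ 21) ≤ exp (-10 * k ^ 13 + k ^ 8 * (-10 * k ^ 13 - 2 * k ^ 8) + -(k ^ 16)) := by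
          apply exp_le_exp.2
          have e1 : k ^ 8 * (-10 * k ^ 13 - 2 * k ^ 8) = -10 * k ^ 21 - 2 * k ^ 16 := by ring
          rw [e1]
          have := pw_one hk 13
          linarith [p2.2.2.2.2.1, p2.2.2.2.2.2, p3.1, p3.2.1, p3.2.2.1]
      _ = exp (-10 * k ^ 13) * exp (k ^ 8 * (-10 * k ^ 13 - 2 * k ^ 8)) * exp (-(k ^ 16)) := by
          rw [exp_add, exp_add]
      _ ≤ _ := by
          rw [hζ, hχ₂]
          rw [hχ₂] at h2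
          gcongr
  have hε' : ε = 1 / (64 * 2 ^ (16 * K)) := by rw [hε, hA]; push_cast; ring
  have hεg := eps_ge hk hK hε'
  have hR : exp (-22 * k ^ 21 + -13 * k) ≤ ζ ^ 2 * ε := by
    rw [exp_add]
    have : exp (-22 * k ^ 21) = exp (-11 * k ^ 21) ^ 2 := by
      rw [← exp_nat_mul]; congr 1; push_cast; ring
    rw [this]
    gcongr
  have hnA : 100 * ((n : ℝ) * A) ^ 2 ≤ exp (29 * k) := by
    have h1 : (A : ℝ) ≤ exp (12 * k) := by rw [hA, hK]; push_cast; exact A_le K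
    have h2 := mul_exp (by positivity) (K8_le_exp hk hK hn) h1
    have h3 := pow_exp (by positivity) h2 2
    have h4 := mul_exp (by positivity) (const_le_exp (x := 100) hk (by norm_num)) h3
    refine mono_exp h4 (by push_cast; linarith)
  have hY2 : Y ^ 2 ≤ exp (4 * k ^ 8) := by
    refine mono_exp (pow_exp hY0.le hYe 2) (by push_cast; linarith)
  have hlen := len_le_exp hK hn hm 4
  have q1 := pw_one hk 6
  refine ⟨by linarith, hζ1, ?_, ?_, ?_⟩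
  · refine le_trans ?_ hR
    have h1 := mul_exp (x := 100 * ((n : ℝ) * A) ^ 2) (by rw [hχ]; positivity) hnA
      (le_of_eq hχ)
    have h2 := mul_exp (by positivity) h1 hY2
    refine mono_exp h2 ?_
    linarith [p1.1, p1.2.1, p1.2.2.1, p1.2.2.2.1, p1.2.2.2.2.1, p1.2.2.2.2.2.1, p1.2.2.2.2.2.2,
      p2.1, p2.2.1, p2.2.2.1, p2.2.2.2.1, p2.2.2.2.2.1, p2.2.2.2.2.2, p3.1,
      p3.2.1, p3.2.2.1]
  · refine le_trans ?_ hR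
    have h1 := mul_exp (x := 100 * ((n : ℝ) * A) ^ 2) (by positivity) hnA hlen
    have h2 := mul_exp hσ0 h1 hσ
    have h3 := mul_exp (by positivity) h2 hY2
    refine mono_exp h3 ?_
    push_cast
    linarith [p1.1, p1.2.1, p1.2.2.1, p1.2.2.2.1, p1.2.2.2.2.1, p1.2.2.2.2.2.1, p1.2.2.2.2.2.2,
      p2.1, p2.2.1, p2.2.2.1, p2.2.2.2.1, p2.2.2.2.2.1, p2.2.2.2.2.2, p3.1,
      p3.2.1, p3.2.2.1, p3.2.2.2.1, p3.2.2.2.2.1]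
  · rw [hχ]
    have h1 := mul_exp (x := 20) (by positivity) (const_le_exp (x := 20) hk (by norm_num)) hlen
    have h2 := mul_exp hσ0 h1 hσ
    refine mono_exp h2 ?_
    push_cast
    linarith [p1.1, p1.2.1, p1.2.2.1, p1.2.2.2.1, p1.2.2.2.2.1, p1.2.2.2.2.2.1, p1.2.2.2.2.2.2,
      p2.1, p2.2.1, p2.2.2.1, p2.2.2.2.1, p2.2.2.2.2.1, p2.2.2.2.2.2, p3.1,
      p3.2.1, p3.2.2.1, p3.2.2.2.1, p3.2.2.2.2.1]

theorem num_comm {k : ℝ} {m s : ℕ} (hk : 10 ^ 10 ≤ k)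
    (hm : (m : ℝ) ≤ exp (k ^ 6)) (hs : (s : ℝ) ≤ exp k) {σ χ χ₂ χ₄ β : ℝ} (hσ0 : 0 ≤ σ)
    (hσ : σ ≤ exp (-(k ^ 30) / 3)) (hχ : χ = exp (-27 * k ^ 21))
    (hχ₂ : χ₂ = exp (-10 * k ^ 13)) (hχ₄ : χ₄ = exp (-4 * k ^ 13)) (hβ : β = √(2 * (s : ℝ))) :
    β * m * (4 * χ₂ + 24 * β * m * χ + 8 * β * m ^ 2 * σ) ≤ χ₄ ^ 2 := by
  obtain ⟨p1, p2, p3⟩ := pws hk
  have q1 := pw_one hk 6
  have hβ0 : 0 ≤ β := by rw [hβ]; positivity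
  have hβe : β ≤ exp k := by rw [hβ]; exact sqrt_le_exp hk hs
  have h1 : 4 * χ₂ ≤ exp (-19 / 2 * k ^ 13) := by
    refine mono_exp (mul_exp (by rw [hχ₂]; positivity) (const_le_exp (x := 4) hk (by norm_num))
      (le_of_eq hχ₂)) ?_
    linarith [p1.1, p1.2.1, p1.2.2.1, p1.2.2.2.1, p1.2.2.2.2.1, p1.2.2.2.2.2.1, p1.2.2.2.2.2.2,
      p2.1, p2.2.1, p2.2.2.1, p2.2.2.2.1, p2.2.2.2.2.1]
  have h2 : 24 * β * m * χ ≤ exp (-19 / 2 * k ^ 13) := by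
    have a1 := mul_exp hβ0 (const_le_exp (x := 24) hk (by norm_num)) hβe
    have a2 := mul_exp (by positivity) a1 hm
    have a3 := mul_exp (by rw [hχ]; positivity) a2 (le_of_eq hχ)
    refine mono_exp a3 ?_
    linarith [p1.1, p1.2.1, p1.2.2.1, p1.2.2.2.1, p1.2.2.2.2.1, p1.2.2.2.2.2.1, p1.2.2.2.2.2.2,
      p2.1, p2.2.1, p2.2.2.1, p2.2.2.2.1, p2.2.2.2.2.1, p2.2.2.2.2.2, p3.1,
      p3.2.1, p3.2.2.1]
  have h3 : 8 * β * m ^ 2 * σ ≤ exp (-19 / 2 * k ^ 13) := by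
    have a1 := mul_exp hβ0 (const_le_exp (x := 8) hk (by norm_num)) hβe
    have a2 := mul_exp (by positivity) a1 (pow_exp (by positivity) hm 2)
    have a3 := mul_exp hσ0 a2 hσ
    refine mono_exp a3 ?_
    push_cast
    linarith [p1.1, p1.2.1, p1.2.2.1, p1.2.2.2.1, p1.2.2.2.2.1, p1.2.2.2.2.2.1, p1.2.2.2.2.2.2,
      p2.1, p2.2.1, p2.2.2.1, p2.2.2.2.1, p2.2.2.2.2.1, p2.2.2.2.2.2, p3.1,
      p3.2.1, p3.2.2.1, p3.2.2.2.1, p3.2.2.2.2.1]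
  have h4 := add_exp (add_exp h1 h2) (h3.trans (exp_le_exp.2 (by linarith)))
  have h5 : 0 ≤ 4 * χ₂ + 24 * β * m * χ + 8 * β * m ^ 2 * σ := by
    rw [hχ, hχ₂]; positivity
  have h6 := mul_exp h5 (mul_exp (by positivity) hβe hm) h4
  refine h6.trans ?_
  have : χ₄ ^ 2 = exp (-8 * k ^ 13) := by
    rw [hχ₄, ← exp_nat_mul]; congr 1; push_cast; ring
  rw [this]
  apply exp_le_exp.2
  linarith [p1.1, p1.2.1, p1.2.2.1, p1.2.2.2.1, p1.2.2.2.2.1, p1.2.2.2.2.2.1, p1.2.2.2.2.2.2,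
      p2.1, p2.2.1, p2.2.2.1, p2.2.2.2.1, p2.2.2.2.2.1]

end Pool.Agent.Helper41.Gap.Num
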