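import Pool.Agent.Helper41.Gap.Num

/-!
# Gap: numerical lemmas for the one step proposition, second part
-/

set_option autoImplicit false

namespace Pool.Agent.Helper41.Gap.Num

open Real

theorem le_exp_of_sq {x a : ℝ} (h : x ^ 2 ≤ exp (2 * a)) : x ≤ exp a := by
  have : exp (2 * a) = exp a ^ 2 := by rw [← exp_nat_mul]; norm_num
  rw [this] at h
  exact le_of_sq_le_sq h (exp_pos a).le

/-- Bounds on the shift vector. -/
theorem num_shift1 {k : ℝ} {m s tc d : ℕ} (hk : 10 ^ 10 ≤ k)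
    (hm : (m : ℝ) ≤ exp (k ^ 6)) (hs : (s : ℝ) ≤ exp k) (htc : (tc : ℝ) ≤ exp (2 * k ^ 9))
    (hd : (d : ℝ) ≤ 17000 * k ^ 2) {F Q w nv : ℝ}
    (hF : F = tc * (m * √(2 * (s : ℝ))) ^ 2) (hQ : Q = exp (20 * k ^ 10))
    (hw1 : w ^ 2 ≤ d * F / Q ^ 2) (hw2 : w ^ 2 * nv ^ 2 ≤ (d : ℝ) ^ 2 * F ^ 2 / Q)
    (hw3 : nv ^ 2 ≤ d * F * Q ^ (d + 1)) :
    w ≤ exp (-19 * k ^ 10) ∧ w * nv ≤ exp (-(19 / 2) * k ^ 10) ∧ nv ≤ exp (1 / 10 * k ^ 13) := by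
  obtain ⟨p1, p2, p3⟩ := pws hk
  have q1 := pw_one hk 6
  have hF0 : 0 ≤ F := by rw [hF]; positivity
  have hFe : F ≤ exp (3 * k ^ 9) := by
    rw [hF]
    have a1 := mul_exp (by positivity) hm (sqrt_le_exp hk hs)
    have a2 := mul_exp (by positivity) htc (pow_exp (by positivity) a1 2)
    refine mono_exp a2 ?_
    push_cast
    linarith [p1.1, p1.2.1, p1.2.2.1, p1.2.2.2.1, p1.2.2.2.2.1, p1.2.2.2.2.2.1, p1.2.2.2.2.2.2,
      p2.1]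
  have hde : (d : ℝ) ≤ exp k := by
    have := d_le_exp hk hd
    have hd0 : (0 : ℝ) ≤ d := by positivity
    nlinarith
  have hdF : (d : ℝ) * F ≤ exp (k + 3 * k ^ 9) := mul_exp hF0 hde hFe
  refine ⟨?_, ?_, ?_⟩
  · apply le_exp_of_sq
    refine hw1.trans ?_
    have : (Q ^ 2)⁻¹ = exp (-40 * k ^ 10) := by
      rw [hQ, ← exp_nat_mul, ← exp_neg]; congr 1; push_cast; ring
    rw [div_eq_mul_inv, this]
    refine mono_exp (mul_exp (exp_pos _).le hdF le_rfl) ?_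
    linarith [p1.1, p1.2.1, p1.2.2.1, p1.2.2.2.1, p1.2.2.2.2.1, p1.2.2.2.2.2.1, p1.2.2.2.2.2.2,
      p2.1, p2.2.1]
  · apply le_exp_of_sq
    rw [mul_pow]
    refine hw2.trans ?_
    have : Q⁻¹ = exp (-20 * k ^ 10) := by
      rw [hQ, ← exp_neg]; congr 1; ring
    rw [← mul_pow, div_eq_mul_inv, this]
    refine mono_exp (mul_exp (exp_pos _).le (pow_exp (by positivity) hdF 2) le_rfl) ?_
    push_cast
    linarith [p1.1, p1.2.1, p1.2.2.1, p1.2.2.2.1, p1.2.2.2.2.1, p1.2.2.2.2.2.1, p1.2.2.2.2.2.2,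
      p2.1, p2.2.1]
  · apply le_exp_of_sq
    refine hw3.trans ?_
    have h1 : Q ^ (d + 1) ≤ exp (20 * k ^ 10 * (17000 * k ^ 2 + 1)) := by
      rw [hQ, ← exp_nat_mul]
      apply exp_le_exp.2
      push_cast
      have : (0 : ℝ) ≤ k ^ 10 := by positivity
      nlinarith
    refine mono_exp (mul_exp (by rw [hQ]; positivity) hdF h1) ?_
    have e : 20 * k ^ 10 * (17000 * k ^ 2 + 1) = 340000 * k ^ 12 + 20 * k ^ 10 := by ring
    rw [e]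
    linarith [p1.1, p1.2.1, p1.2.2.1, p1.2.2.2.1, p1.2.2.2.2.1, p1.2.2.2.2.2.1, p1.2.2.2.2.2.2,
      p2.1, p2.2.1, p2.2.2.1, p2.2.2.2.1, p2.2.2.2.2.1]

/-- The radius `R`. -/
theorem num_R {k : ℝ} {I s : ℕ} (hk : 10 ^ 10 ≤ k) (hI : (I : ℝ) ≤ exp (k ^ 6))
    (hs : (s : ℝ) ≤ exp k) {nv R : ℝ} (hnv0 : 0 ≤ nv)
    (hnv : nv ≤ exp (1 / 10 * k ^ 13)) (hR : R = √(2 * (s : ℝ)) * I + 4 * nv + 1) :
    1 ≤ R ∧ R ≤ exp (1 / 5 * k ^ 13) := by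
  obtain ⟨p1, p2, p3⟩ := pws hk
  have q1 := pw_one hk 6
  refine ⟨by rw [hR]; have : 0 ≤ √(2 * (s : ℝ)) * I := by positivity
             linarith, ?_⟩
  rw [hR]
  have hpk : ∀ {a : ℝ}, a ≤ k ^ 8 → a ≤ k + 1 / 10 * k ^ 13 := by
    intro a ha
    linarith [p1.1, p1.2.1, p1.2.2.1, p1.2.2.2.1, p1.2.2.2.2.1, p1.2.2.2.2.2.1, p1.2.2.2.2.2.2,
      p2.1, p2.2.1, p2.2.2.1, p2.2.2.2.1, p2.2.2.2.2.1]
  have h1 : √(2 * (s : ℝ)) * I ≤ exp (k + 1 / 10 * k ^ 13) :=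
    mono_exp (mul_exp (by positivity) (sqrt_le_exp hk hs) hI)
      (hpk (by
        linarith [p1.1, p1.2.1, p1.2.2.1, p1.2.2.2.1, p1.2.2.2.2.1, p1.2.2.2.2.2.1,
          p1.2.2.2.2.2.2]))
  have h2 : 4 * nv ≤ exp (k + 1 / 10 * k ^ 13) :=
    mul_exp hnv0 (const_le_exp hk (by norm_num)) hnv
  have h3 : (1 : ℝ) ≤ exp (k + 1 / 10 * k ^ 13 + 1) := by
    apply one_le_exp
    have := pw_one hk 13
    linarith
  refine mono_exp (add_exp (add_exp h1 h2) h3) ?_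
  linarith [p1.1, p1.2.1, p1.2.2.1, p1.2.2.2.1, p1.2.2.2.2.1, p1.2.2.2.2.2.1, p1.2.2.2.2.2.2,
      p2.1, p2.2.1, p2.2.2.1, p2.2.2.2.1, p2.2.2.2.2.1]

theorem num_shift2 {k : ℝ} {I m s tc : ℕ} (hk : 10 ^ 10 ≤ k)
    (hm : (m : ℝ) ≤ exp (k ^ 6)) (hI : (I : ℝ) ≤ exp (k ^ 6)) (hs : (s : ℝ) ≤ exp k)
    (htc : (tc : ℝ) ≤ exp (2 * k ^ 9)) {w nv σ χ χ₄ R B : ℝ} (hw0 : 0 ≤ w) (hnv0 : 0 ≤ nv)
    (hw : w ≤ exp (-19 * k ^ 10)) (hwn : w * nv ≤ exp (-(19 / 2) * k ^ 10))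
    (hnv : nv ≤ exp (1 / 10 * k ^ 13)) (hσ0 : 0 ≤ σ)
    (hσ : σ ≤ exp (-(k ^ 30) / 3)) (hχ : χ = exp (-27 * k ^ 21))
    (hχ₄ : χ₄ = exp (-4 * k ^ 13)) (hR : R = √(2 * (s : ℝ)) * I + 4 * nv + 1)
    (hB : 1 / (9000 * k ^ 2) / (48 * R) ≤ B) :
    0 < B ∧ 2 * (w + tc * (m * σ * (m * √(2 * (s : ℝ)) + 2 * nv)) +
        tc * (χ₄ + 3 * χ * (m * √(2 * (s : ℝ)) + 2 * nv) +
          2 * m * σ * (m * √(2 * (s : ℝ)) + 2 * nv))) * B ≤ (exp (-4 * k ^ 10) * B) ^ 2 ∧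
      m * σ * (m * √(2 * (s : ℝ)) + 2 * nv) ≤ exp (-4 * k ^ 10) * B := by
  obtain ⟨p1, p2, p3⟩ := pws hk
  have q1 := pw_one hk 6
  obtain ⟨hR1, hRe⟩ := num_R hk hI hs hnv0 hnv hR
  have hk2 : (0 : ℝ) < k ^ 2 := by positivity
  have hc : (0 : ℝ) < 432000 * k ^ 2 * R := by positivity
  have hBc : 1 / (432000 * k ^ 2 * R) ≤ B := by
    refine le_trans (le_of_eq ?_) hB
    field_simp
    norm_num
  have hB0 : 0 < B := lt_of_lt_of_le (by positivity) hBc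
  have hc1 : 432000 * k ^ 2 ≤ exp k := by
    apply num_le_exp hk
    have := pw_one hk 2
    have e : k ^ 4 = k ^ 2 * k ^ 2 := by ring
    rw [e]
    nlinarith
  -- the quantity `1 / B`
  have hinv : 1 ≤ (432000 * k ^ 2 * R) * B := by
    rw [div_le_iff₀ hc] at hBc
    linarith
  set b : ℝ := m * √(2 * (s : ℝ)) + 2 * nv with hb
  have hb0 : 0 ≤ b := by positivity
  have hbe : b ≤ exp (1 / 5 * k ^ 13) := by
    have h1 : m * √(2 * (s : ℝ)) ≤ exp (k + 1 / 10 * k ^ 13) := by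
      refine mono_exp (mul_exp (by positivity) hm (sqrt_le_exp hk hs)) ?_
      linarith [p1.1, p1.2.1, p1.2.2.1, p1.2.2.2.1, p1.2.2.2.2.1, p1.2.2.2.2.2.1, p1.2.2.2.2.2.2,
        p2.1, p2.2.1, p2.2.2.1, p2.2.2.2.1, p2.2.2.2.2.1]
    have h2 : 2 * nv ≤ exp (k + 1 / 10 * k ^ 13) :=
      mul_exp hnv0 (const_le_exp hk (by norm_num)) hnv
    refine mono_exp (add_exp h1 h2) ?_
    linarith [p1.1, p1.2.1, p1.2.2.1, p1.2.2.2.1, p1.2.2.2.2.1, p1.2.2.2.2.2.1, p1.2.2.2.2.2.2,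
        p2.1, p2.2.1, p2.2.2.1, p2.2.2.2.1, p2.2.2.2.2.1]
  -- bound on `w * R`
  have hwR : w * R ≤ exp (-9 * k ^ 10) := by
    have e : w * R = w * (√(2 * (s : ℝ)) * I) + 4 * (w * nv) + w := by rw [hR]; ring
    rw [e]
    have h1 : w * (√(2 * (s : ℝ)) * I) ≤ exp (-(19 / 2) * k ^ 10 + k) := by
      refine mono_exp (mul_exp (by positivity) hw
        (mul_exp (by positivity) (sqrt_le_exp hk hs) hI)) ?_
      linarith [p1.1, p1.2.1, p1.2.2.1, p1.2.2.2.1, p1.2.2.2.2.1, p1.2.2.2.2.2.1,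
        p1.2.2.2.2.2.2, p2.1, p2.2.1]
    have h2 : 4 * (w * nv) ≤ exp (-(19 / 2) * k ^ 10 + k) := by
      refine mono_exp (mul_exp (by positivity) (const_le_exp (x := 4) hk (by norm_num)) hwn) ?_
      linarith
    have h3 : w ≤ exp (-(19 / 2) * k ^ 10 + k + 1) := by
      refine mono_exp hw ?_
      have := pw_one hk 10
      linarith
    refine mono_exp (add_exp (add_exp h1 h2) h3) ?_
    linarith [p1.1, p1.2.1, p1.2.2.1, p1.2.2.2.1, p1.2.2.2.2.1, p1.2.2.2.2.2.1,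
        p1.2.2.2.2.2.2, p2.1, p2.2.1]
  -- error terms
  have hχe : 3 * χ * b ≤ exp (-4 * k ^ 13) := by
    have h1 := mul_exp (x := 3) (by rw [hχ]; positivity) (const_le_exp hk (by norm_num))
      (le_of_eq hχ)
    refine mono_exp (mul_exp hb0 h1 hbe) ?_
    linarith [p1.1, p1.2.1, p1.2.2.1, p1.2.2.2.1, p1.2.2.2.2.1, p1.2.2.2.2.2.1,
        p1.2.2.2.2.2.2, p2.1, p2.2.1, p2.2.2.1, p2.2.2.2.1, p2.2.2.2.2.1, p2.2.2.2.2.2,
        p3.1, p3.2.1, p3.2.2.1]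
  have hσe : m * σ * b ≤ exp (-5 * k ^ 13) := by
    have h1 := mul_exp hσ0 hm hσ
    refine mono_exp (mul_exp hb0 h1 hbe) ?_
    linarith [p1.1, p1.2.1, p1.2.2.1, p1.2.2.2.1, p1.2.2.2.2.1, p1.2.2.2.2.2.1,
        p1.2.2.2.2.2.2, p2.1, p2.2.1, p2.2.2.1, p2.2.2.2.1, p2.2.2.2.2.1, p2.2.2.2.2.2,
        p3.1, p3.2.1, p3.2.2.1, p3.2.2.2.1, p3.2.2.2.2.1]
  have hσe2 : 2 * m * σ * b ≤ exp (-4 * k ^ 13) := by
    have h1 := mul_exp (x := 2) (by positivity) (const_le_exp hk (by norm_num)) hσe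
    have e : 2 * m * σ * b = 2 * (m * σ * b) := by ring
    rw [e]
    refine mono_exp h1 ?_
    linarith [p1.1, p1.2.1, p1.2.2.1, p1.2.2.2.1, p1.2.2.2.2.1, p1.2.2.2.2.2.1,
        p1.2.2.2.2.2.2, p2.1, p2.2.1, p2.2.2.1, p2.2.2.2.1, p2.2.2.2.2.1]
  have hsum : χ₄ + 3 * χ * b + 2 * m * σ * b ≤ exp (-4 * k ^ 13 + 2) := by
    have h := add_exp (add_exp (le_of_eq hχ₄) hχe) (hσe2.trans (exp_le_exp.2 (by linarith)))
    refine mono_exp h (by linarith)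
  have hsum0 : 0 ≤ χ₄ + 3 * χ * b + 2 * m * σ * b := by
    rw [hχ₄, hχ]; positivity
  have herr : (tc * (m * σ * b) + tc * (χ₄ + 3 * χ * b + 2 * m * σ * b)) * R ≤
      exp (-9 * k ^ 10) := by
    have h1 := mul_exp (by positivity) htc hσe
    have h2 := mul_exp hsum0 htc hsum
    have h3 : tc * (m * σ * b) ≤ exp (2 * k ^ 9 + (-4 * k ^ 13 + 2)) := by
      refine mono_exp h1 ?_
      have := pw_one hk 13
      linarith
    have h4 := add_exp h3 h2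
    have h5 := mul_exp (by linarith) h4 hRe
    refine mono_exp h5 ?_
    have := pw_one hk 9
    linarith [p2.1, p2.2.1, p2.2.2.1, p2.2.2.2.1, p2.2.2.2.2.1]
  have hmain : 2 * (w + tc * (m * σ * b) + tc * (χ₄ + 3 * χ * b + 2 * m * σ * b)) ≤
      exp (-8 * k ^ 10) * B := by
    have h1 : (w + tc * (m * σ * b) + tc * (χ₄ + 3 * χ * b + 2 * m * σ * b)) * R ≤
        exp (-9 * k ^ 10 + 1) := by
      have := add_exp hwR herr
      refine le_trans (le_of_eq ?_) this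
      ring
    have h0 : 0 ≤ w + tc * (m * σ * b) + tc * (χ₄ + 3 * χ * b + 2 * m * σ * b) := by
      have : 0 ≤ tc * (m * σ * b) := by positivity
      have : 0 ≤ tc * (χ₄ + 3 * χ * b + 2 * m * σ * b) := by positivity
      linarith
    have h2 := mul_exp (by positivity) (mul_exp (by positivity)
      (const_le_exp (x := 2) hk (by norm_num)) hc1) h1
    have h3 : 2 * (432000 * k ^ 2) *
        ((w + tc * (m * σ * b) + tc * (χ₄ + 3 * χ * b + 2 * m * σ * b)) * R) ≤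
        exp (-8 * k ^ 10) := by
      refine mono_exp h2 ?_
      have := pw_one hk 10
      linarith [p1.1, p1.2.1, p1.2.2.1, p1.2.2.2.1, p1.2.2.2.2.1, p1.2.2.2.2.2.1,
        p1.2.2.2.2.2.2, p2.1, p2.2.1]
    calc 2 * (w + tc * (m * σ * b) + tc * (χ₄ + 3 * χ * b + 2 * m * σ * b))
        ≤ 2 * (w + tc * (m * σ * b) + tc * (χ₄ + 3 * χ * b + 2 * m * σ * b)) *
          ((432000 * k ^ 2 * R) * B) := by
          apply le_mul_of_one_le_right _ hinv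
          positivity
      _ = (2 * (432000 * k ^ 2) *
        ((w + tc * (m * σ * b) + tc * (χ₄ + 3 * χ * b + 2 * m * σ * b)) * R)) * B := by ring
      _ ≤ exp (-8 * k ^ 10) * B := by gcongr
  refine ⟨hB0, ?_, ?_⟩
  · have e : (exp (-4 * k ^ 10) * B) ^ 2 = exp (-8 * k ^ 10) * B * B := by
      rw [mul_pow, ← exp_nat_mul, sq, ← mul_assoc]
      congr 3
      push_cast; ring
    rw [e]
    gcongr
  · have h1 : (m * σ * b) * (432000 * k ^ 2 * R) ≤ exp (-4 * k ^ 10) := by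
      refine mono_exp (mul_exp (by positivity) hσe (mul_exp (by positivity) hc1 hRe)) ?_
      linarith [p1.1, p1.2.1, p1.2.2.1, p1.2.2.2.1, p1.2.2.2.2.1, p1.2.2.2.2.2.1,
        p1.2.2.2.2.2.2, p2.1, p2.2.1, p2.2.2.1, p2.2.2.2.1, p2.2.2.2.2.1]
    calc m * σ * b ≤ m * σ * b * ((432000 * k ^ 2 * R) * B) :=
          le_mul_of_one_le_right (by positivity) hinv
      _ = (m * σ * b) * (432000 * k ^ 2 * R) * B := by ring
      _ ≤ _ := by gcongr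

end Pool.Agent.Helper41.Gap.Num
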