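import Pool.Agent.Helper41.Gap.Num2

/-!
# Gap: numerical lemmas for the one step proposition, third part
-/

set_option autoImplicit false

namespace Pool.Agent.Helper41.Gap.Num

open Real

theorem pow12_le_exp {k : ℝ} (hk : 10 ^ 10 ≤ k) : 10 ^ 20 * k ^ 12 ≤ exp k := by
  have h1 : (k / 16) ≤ exp (k / 16) := by
    have := add_one_le_exp (k / 16); linarith
  have h2 : (k / 16) ^ 16 ≤ exp (k / 16) ^ 16 := by
    have : 0 ≤ k / 16 := by linarith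
    gcongr
  have h3 : exp (k / 16) ^ 16 = exp k := by
    rw [← exp_nat_mul]; congr 1; push_cast; ring
  rw [h3] at h2
  refine le_trans ?_ h2
  have h4 : ((10 : ℝ) ^ 10) ^ 4 ≤ k ^ 4 := by gcongr
  have h5 : (0 : ℝ) ≤ k ^ 12 := by positivity
  have : (k / 16) ^ 16 = k ^ 4 * k ^ 12 / 16 ^ 16 := by ring
  rw [this]
  rw [le_div_iff₀ (by norm_num)]
  have h6 : 10 ^ 20 * k ^ 12 * 16 ^ 16 ≤ ((10 : ℝ) ^ 10) ^ 4 * k ^ 12 := by
    have : (10 : ℝ) ^ 20 * 16 ^ 16 ≤ (10 ^ 10) ^ 4 := by norm_num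
    nlinarith
  exact h6.trans (by gcongr)

theorem Q_le_exp {k : ℝ} {K Q : ℕ} (hk : 10 ^ 10 ≤ k) (hK : k = K) (hQ : Q = K ^ 10) :
    (10 ^ 10 * ((Q : ℝ) + 1)) ≤ exp k := by
  refine le_trans ?_ (pow12_le_exp hk)
  have h : (Q : ℝ) = k ^ 10 := by rw [hQ, hK]; push_cast; ring
  rw [h]
  have h1 := pw_one hk 10
  have h2 := pw_one hk 2
  have e : k ^ 12 = k ^ 2 * k ^ 10 := by ring
  rw [e]
  nlinarith

theorem c2_le_exp {k : ℝ} (hk : 10 ^ 10 ≤ k) : 1152000 * k ^ 2 ≤ exp k := by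
  apply num_le_exp hk
  have e : k ^ 4 = k ^ 2 * k ^ 2 := by ring
  have h2 := pw_one hk 2
  rw [e]
  nlinarith

theorem num_nontriv {k : ℝ} {m s : ℕ} (hk : 10 ^ 10 ≤ k)
    (hm : (m : ℝ) ≤ exp (k ^ 6)) (hs : (s : ℝ) ≤ exp k) {nv σ R η : ℝ} (hnv0 : 0 ≤ nv)
    (hnv : nv ≤ exp (1 / 10 * k ^ 13)) (hσ0 : 0 ≤ σ)
    (hσ : σ ≤ exp (-(k ^ 30) / 3)) (hR1 : 1 ≤ R) (hR : R ≤ exp (1 / 5 * k ^ 13)) (hη0 : 0 ≤ η)
    (hη : η ≤ exp (-k ^ 14)) :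
    ∃ t : ℕ, 64 * R ^ 2 / (1 / (9000 * k ^ 2)) ≤ t ∧ (t : ℝ) ≤ 128 * R ^ 2 / (1 / (9000 * k ^ 2)) ∧
      (t : ℝ) ^ 3 * m * σ * (10 * √(2 * (s : ℝ)) ^ 2 * m + 2 * nv) ≤
        1 / 2 * (1 / (9000 * k ^ 2)) / 8 ∧
      2 * (s : ℝ) * t ^ 2 * η ≤ 1 / 8 * (1 / (9000 * k ^ 2)) := by
  obtain ⟨p1, p2, p3⟩ := pws hk
  have q1 := pw_one hk 6
  have hk2 : (1 : ℝ) ≤ k ^ 2 := pw_one hk 2
  have hR2 : 1 ≤ R ^ 2 := one_le_pow₀ hR1
  have e1 : 64 * R ^ 2 / (1 / (9000 * k ^ 2)) = 576000 * k ^ 2 * R ^ 2 := by field_simp; ring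
  have e2 : 128 * R ^ 2 / (1 / (9000 * k ^ 2)) = 1152000 * k ^ 2 * R ^ 2 := by field_simp; ring
  have h0 : 1 ≤ k ^ 2 * R ^ 2 := one_le_mul_of_one_le_of_one_le hk2 hR2
  refine ⟨⌈64 * R ^ 2 / (1 / (9000 * k ^ 2))⌉₊, Nat.le_ceil _, ?_, ?_, ?_⟩
  · have := (Nat.ceil_lt_add_one (a := 64 * R ^ 2 / (1 / (9000 * k ^ 2))) (by positivity)).le
    rw [e1] at this ⊢
    rw [e2]
    nlinarith
  all_goals
    have ht := (Nat.ceil_lt_add_one (a := 64 * R ^ 2 / (1 / (9000 * k ^ 2))) (by positivity)).le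
    set t := ⌈64 * R ^ 2 / (1 / (9000 * k ^ 2))⌉₊ with htdef
    rw [e1] at ht
    have htc : (t : ℝ) ≤ 1152000 * k ^ 2 * R ^ 2 := by
      have e3 : 1152000 * k ^ 2 * R ^ 2 = 576000 * k ^ 2 * R ^ 2 + 576000 * (k ^ 2 * R ^ 2) := by
        ring
      rw [e3]
      linarith
    have hc1 : 1152000 * k ^ 2 ≤ exp k := c2_le_exp hk
    have hte : (t : ℝ) ≤ exp (k + 2 / 5 * k ^ 13) := by
      refine htc.trans (mono_exp (mul_exp (by positivity) hc1 (pow_exp (by positivity) hR 2)) ?_)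
      push_cast; linarith
    have hΘ : exp (-k) ≤ 1 / 2 * (1 / (9000 * k ^ 2)) / 8 := by
      have h1 : 144000 * k ^ 2 ≤ exp k := by linarith
      have e : 1 / 2 * (1 / (9000 * k ^ 2)) / 8 = 1 / (144000 * k ^ 2) := by
        field_simp; norm_num
      rw [e, exp_neg, ← one_div]
      exact one_div_le_one_div_of_le (by positivity) h1
  · refine le_trans ?_ hΘ
    have h1 : √(2 * (s : ℝ)) ^ 2 ≤ exp (2 * k) := by
      refine mono_exp (pow_exp (by positivity) (sqrt_le_exp hk hs) 2) (by push_cast; linarith)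
    have h2 : 10 * √(2 * (s : ℝ)) ^ 2 * m ≤ exp (1 / 5 * k ^ 13) := by
      refine mono_exp (mul_exp (by positivity) (mul_exp (by positivity)
        (const_le_exp (x := 10) hk (by norm_num)) h1) hm) ?_
      linarith [p1.1, p1.2.1, p1.2.2.1, p1.2.2.2.1, p1.2.2.2.2.1, p1.2.2.2.2.2.1, p1.2.2.2.2.2.2,
        p2.1, p2.2.1, p2.2.2.1, p2.2.2.2.1, p2.2.2.2.2.1]
    have h3 : 2 * nv ≤ exp (1 / 5 * k ^ 13) := by
      refine mono_exp (mul_exp hnv0 (const_le_exp (x := 2) hk (by norm_num)) hnv) ?_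
      linarith [p1.1, p1.2.1, p1.2.2.1, p1.2.2.2.1, p1.2.2.2.2.1, p1.2.2.2.2.2.1, p1.2.2.2.2.2.2,
        p2.1, p2.2.1, p2.2.2.1, p2.2.2.2.1, p2.2.2.2.2.1]
    have h4 := add_exp h2 h3
    have h5 := mul_exp hσ0 (mul_exp (by positivity) (pow_exp (by positivity) hte 3) hm) hσ
    refine mono_exp (mul_exp (by positivity) h5 h4) ?_
    push_cast
    linarith [p1.1, p1.2.1, p1.2.2.1, p1.2.2.2.1, p1.2.2.2.2.1, p1.2.2.2.2.2.1, p1.2.2.2.2.2.2,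
      p2.1, p2.2.1, p2.2.2.1, p2.2.2.2.1, p2.2.2.2.2.1, p2.2.2.2.2.2, p3.1,
      p3.2.1, p3.2.2.1, p3.2.2.2.1, p3.2.2.2.2.1]
  · have hΘ' : exp (-k) ≤ 1 / 8 * (1 / (9000 * k ^ 2)) := by
      refine hΘ.trans ?_
      have : (0 : ℝ) < 1 / (9000 * k ^ 2) := by positivity
      linarith
    refine le_trans ?_ hΘ'
    have h1 := mul_exp (by positivity) (const_le_exp (x := 2) hk (by norm_num)) hs
    have h2 := mul_exp (by positivity) h1 (pow_exp (by positivity) hte 2)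
    refine mono_exp (mul_exp hη0 h2 hη) ?_
    push_cast
    linarith [p1.1, p1.2.1, p1.2.2.1, p1.2.2.2.1, p1.2.2.2.2.1, p1.2.2.2.2.2.1, p1.2.2.2.2.2.2,
      p2.1, p2.2.1, p2.2.2.1, p2.2.2.2.1, p2.2.2.2.2.1, p2.2.2.2.2.2]

theorem num_kernel {k : ℝ} {K Q n QB : ℕ} (hk : 10 ^ 10 ≤ k) (hK : k = K) (hQ : Q = K ^ 10)
    (hn : n = ⌈exp (3 * k ^ 8)⌉₊) (hQB : QB = 4 * (n + 1) * (2 * Q + 6)) {ω : ℝ}
    (hω : ω = (QB : ℝ) ^ 2 * (2 * exp (-4 * k ^ 10))) :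
    1000 * ((n : ℝ) + 1) * (2 * Q + 6) * 8 ^ Q * ω ≤ 1 := by
  obtain ⟨p1, p2, p3⟩ := pws hk
  have q1 := pw_one hk 8
  have hn1 : (n : ℝ) + 1 ≤ exp (4 * k ^ 8) := by
    have h1 := (Nat.ceil_lt_add_one (a := exp (3 * k ^ 8)) (exp_pos _).le).le
    rw [← hn] at h1
    have h2 : (n : ℝ) + 1 ≤ exp (3 * k ^ 8) + 2 := by linarith
    refine h2.trans (mono_exp (add_exp le_rfl (const_le_exp (x := 2) hk (by norm_num) |>.trans
      (exp_le_exp.2 ?_))) ?_)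
    · linarith [p1.1, p1.2.1, p1.2.2.1, p1.2.2.2.1, p1.2.2.2.2.1, p1.2.2.2.2.2.1, p1.2.2.2.2.2.2]
    · linarith
  have hQ1 : 2 * (Q : ℝ) + 6 ≤ exp k := by
    have := Q_le_exp hk hK hQ
    have h0 : (0 : ℝ) ≤ Q := by positivity
    nlinarith
  have hQBe : (QB : ℝ) ≤ exp (2 * k + 4 * k ^ 8) := by
    rw [hQB]; push_cast
    refine mono_exp (mul_exp (by positivity) (mul_exp (by positivity)
      (const_le_exp (x := 4) hk (by norm_num)) hn1) hQ1) (by linarith)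
  have h8 : (8 : ℝ) ^ Q ≤ exp (3 * k ^ 10) := by
    have e : (8 : ℝ) ^ Q = 2 ^ (3 * Q) := by rw [pow_mul]; norm_num
    rw [e]
    refine (two_pow_le _).trans (exp_le_exp.2 ?_)
    rw [hQ, hK]; push_cast; linarith
  have hωe : ω ≤ exp (2 * (2 * k + 4 * k ^ 8) + (k + -4 * k ^ 10)) := by
    rw [hω]
    refine mono_exp (mul_exp (by positivity) (pow_exp (by positivity) hQBe 2)
      (mul_exp (by positivity) (const_le_exp (x := 2) hk (by norm_num)) le_rfl)) ?_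
    push_cast; linarith
  have hω0 : 0 ≤ ω := by rw [hω]; positivity
  have h1 := mul_exp hω0 (mul_exp (by positivity) (mul_exp (by positivity)
    (mul_exp (by positivity) (const_le_exp (x := 1000) hk (by norm_num)) hn1) hQ1) h8) hωe
  refine h1.trans (exp_le_one_iff.2 ?_)
  linarith [p1.1, p1.2.1, p1.2.2.1, p1.2.2.2.1, p1.2.2.2.2.1, p1.2.2.2.2.2.1, p1.2.2.2.2.2.2,
    p2.1, p2.2.1]

/-- Growth in exponential form. -/
theorem grow_exp {k Λ X : ℝ} (hk : 10 ^ 10 ≤ k) (hΛ1 : 1 ≤ Λ) (hΛ : log Λ ≤ k ^ 8) {c : ℕ → ℕ}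
    (hc : ∀ r, 1 ≤ c r)
    (hg : ∀ r : ℕ, 1 ≤ r → log (Λ * r) ≤ k ^ 31 → log (c r) ≤ k * log (Λ * r)) {r : ℕ}
    (hr : 1 ≤ r) (hX : (r : ℝ) ≤ exp X) (hX2 : k ^ 8 + X ≤ k ^ 31) :
    (c r : ℝ) ≤ exp (k * (k ^ 8 + X)) := by
  have hr' : (1 : ℝ) ≤ r := by exact_mod_cast hr
  have h1 : log (Λ * r) ≤ k ^ 8 + X := by
    rw [log_mul (by linarith) (by linarith)]
    have : log r ≤ X := (log_le_iff_le_exp (by linarith)).2 hX
    linarith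
  have h2 := hg r hr (h1.trans hX2)
  have hc' : (0 : ℝ) < c r := by exact_mod_cast hc r
  rw [← log_le_iff_le_exp hc']
  refine h2.trans ?_
  have : 0 ≤ k := by linarith
  gcongr

theorem num_glin {k : ℝ} {K n A m j : ℕ} (hk : 10 ^ 10 ≤ k) (hK : k = K) (hn : n = K ^ 8)
    (hA : A = 2 ^ (16 * K)) (hm : (m : ℝ) ≤ exp (k ^ 6)) (hj : j ≤ 3) :
    ((A * (2 ^ (n + j) * m) : ℕ) : ℝ) ≤ exp (2 * k ^ 8) ∧ k ^ 8 + 2 * k ^ 8 ≤ k ^ 31 ∧
      exp (k * (k ^ 8 + 2 * k ^ 8)) < ((A ^ n : ℕ) : ℝ) := by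
  obtain ⟨p1, p2, p3⟩ := pws hk
  have q1 := pw_one hk 6
  refine ⟨?_, ?_, ?_⟩
  · push_cast
    have h1 : (A : ℝ) ≤ exp (12 * k) := by rw [hA, hK]; push_cast; exact A_le K
    refine mono_exp (mul_exp (by positivity) h1 (len_le_exp hK hn hm j)) ?_
    have : (j : ℝ) ≤ 3 := by exact_mod_cast hj
    linarith [p1.1, p1.2.1, p1.2.2.1, p1.2.2.2.1, p1.2.2.2.2.1, p1.2.2.2.2.2.1, p1.2.2.2.2.2.2]
  · have q2 := pw_one hk 8
    linarith [p2.1, p2.2.1, p2.2.2.1, p2.2.2.2.1, p2.2.2.2.2.1, p2.2.2.2.2.2, p3.1,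
      p3.2.1, p3.2.2.1, p3.2.2.2.1, p3.2.2.2.2.1, p3.2.2.2.2.2]
  · have h1 : exp (11 * k) ≤ A := by rw [hA, hK]; push_cast; exact A_ge K
    have h2 : exp (11 * k) ^ n ≤ (A : ℝ) ^ n := by gcongr
    rw [← exp_nat_mul] at h2
    push_cast
    refine lt_of_lt_of_le (exp_lt_exp.2 ?_) h2
    have : (n : ℝ) = k ^ 8 := by rw [hn, hK]; push_cast; ring
    rw [this]
    have e1 : k * (k ^ 8 + 2 * k ^ 8) = 3 * k ^ 9 := by ring
    have e2 : k ^ 8 * (11 * k) = 11 * k ^ 9 := by ring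
    rw [e1, e2]
    have := pw_one hk 9
    linarith

theorem num_gker {k : ℝ} {K Q m x : ℕ} (hk : 10 ^ 10 ≤ k) (hK : k = K) (hQ : Q = K ^ 10)
    (hm : (m : ℝ) ≤ exp (k ^ 6)) (hx : x ≤ 2 * Q + 6) :
    ((Q * (m * x) : ℕ) : ℝ) ≤ exp (k ^ 8) ∧ k ^ 8 + k ^ 8 ≤ k ^ 31 ∧
      exp (k * (k ^ 8 + k ^ 8)) < ((2 ^ Q : ℕ) : ℝ) := by
  obtain ⟨p1, p2, p3⟩ := pws hk
  have q1 := pw_one hk 6
  have q8 := pw_one hk 8
  have hQ1 : 2 * (Q : ℝ) + 6 ≤ exp k := by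
    have := Q_le_exp hk hK hQ
    have h0 : (0 : ℝ) ≤ Q := by positivity
    nlinarith
  have hQ2 : (Q : ℝ) ≤ exp k := by
    have h0 : (0 : ℝ) ≤ Q := by positivity
    linarith
  have hx' : (x : ℝ) ≤ exp k := by
    have : (x : ℝ) ≤ 2 * (Q : ℝ) + 6 := by exact_mod_cast hx
    linarith
  refine ⟨?_, ?_, ?_⟩
  · push_cast
    refine mono_exp (mul_exp (by positivity) hQ2 (mul_exp (by positivity) hm hx')) ?_
    linarith [p1.1, p1.2.1, p1.2.2.1, p1.2.2.2.1, p1.2.2.2.2.1, p1.2.2.2.2.2.1, p1.2.2.2.2.2.2]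
  · linarith [p2.1, p2.2.1, p2.2.2.1, p2.2.2.2.1, p2.2.2.2.2.1, p2.2.2.2.2.2, p3.1,
      p3.2.1, p3.2.2.1, p3.2.2.2.1, p3.2.2.2.2.1, p3.2.2.2.2.2]
  · push_cast
    rw [two_pow_eq]
    apply exp_lt_exp.2
    have h1 : (Q : ℝ) = k ^ 10 := by rw [hQ, hK]; push_cast; ring
    rw [h1]
    have h2 := log_two_gt_d9
    have e1 : k * (k ^ 8 + k ^ 8) = 2 * k ^ 9 := by ring
    rw [e1]
    have q10 := pw_one hk 10
    have q9 := pw_one hk 9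
    nlinarith [p2.2.1]

/-- The net parameter. -/
theorem num_net {k : ℝ} {K d I m : ℕ} (hk : 10 ^ 10 ≤ k) (hK : k = K)
    (hd : (d : ℝ) ≤ 17000 * k ^ 2) {ε σ : ℝ} (hε : ε = 1 / (64 * 2 ^ (16 * K)))
    (hI : I = ⌈(8 * (d : ℝ) / ε + 2) ^ (d ^ 2)⌉₊) (hm : m = 2 * I + 1) (hσ0 : 0 ≤ σ)
    (hσ : σ ≤ exp (-(k ^ 30) / 3)) :
    1 ≤ I ∧ (I : ℝ) ≤ exp (k ^ 6) ∧ (m : ℝ) ≤ exp (k ^ 6) ∧
      (4 * (I : ℝ) + 1) * σ ≤ ε / 2 ∧ (d : ℝ) * ε ≤ 1 / 2 ∧ ε ≤ 1 / 8 := by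
  obtain ⟨p1, p2, p3⟩ := pws hk
  have q1 := pw_one hk 6
  have hε0 : 0 < ε := by rw [hε]; positivity
  have hεg := eps_ge hk hK hε
  have hεl := eps_le hK hε
  have hde := d_le_exp hk hd
  have hd0 : (0 : ℝ) ≤ d := by positivity
  have hbase : 8 * (d : ℝ) / ε + 2 ≤ exp (15 * k) := by
    have h1 : 1 / ε ≤ exp (13 * k) := by
      rw [div_le_iff₀ hε0]
      calc (1 : ℝ) = exp (13 * k) * exp (-13 * k) := by rw [← exp_add]; simp
        _ ≤ exp (13 * k) * ε := by gcongr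
    have h2 : 8 * (d : ℝ) / ε ≤ exp (k + 13 * k) := by
      rw [div_eq_mul_one_div]
      exact mul_exp (by positivity) (by nlinarith) h1
    refine mono_exp (add_exp h2 ((const_le_exp (x := 2) hk (by norm_num)).trans
      (exp_le_exp.2 (by linarith)))) (by linarith)
  have hbig : (8 * (d : ℝ) / ε + 2) ^ (d ^ 2) ≤ exp (1 / 2 * k ^ 6) := by
    refine mono_exp (pow_exp (by positivity) hbase _) ?_
    push_cast
    have h1 : (d : ℝ) ^ 2 ≤ (17000 * k ^ 2) ^ 2 := by gcongr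
    have h2 : (d : ℝ) ^ 2 * (15 * k) ≤ (17000 * k ^ 2) ^ 2 * (15 * k) := by
      have : 0 ≤ 15 * k := by linarith
      gcongr
    refine h2.trans ?_
    have e : (17000 * k ^ 2) ^ 2 * (15 * k) = 4335000000 * k ^ 5 := by ring
    rw [e]
    linarith [p1.2.2.2.2.1]
  have hb1 : (1 : ℝ) ≤ (8 * (d : ℝ) / ε + 2) ^ (d ^ 2) := by
    apply one_le_pow₀
    have : 0 ≤ 8 * (d : ℝ) / ε := by positivity
    linarith
  have hI1 : 1 ≤ I := by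
    rw [hI]
    apply Nat.one_le_iff_ne_zero.2
    intro h
    rw [Nat.ceil_eq_zero] at h
    linarith
  have hIl : (I : ℝ) ≤ exp (1 / 2 * k ^ 6) + 1 := by
    rw [hI]
    refine (Nat.ceil_lt_add_one (by positivity)).le.trans (by linarith)
  have h4 : 4 * (exp (1 / 2 * k ^ 6) + 1) + 1 ≤ exp (k ^ 6) := by
    have h5 : exp (k ^ 6) = exp (1 / 2 * k ^ 6) * exp (1 / 2 * k ^ 6) := by
      rw [← exp_add]; congr 1; ring
    rw [h5]
    have h6 : (10 : ℝ) ≤ exp (1 / 2 * k ^ 6) := by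
      have := add_one_le_exp (1 / 2 * k ^ 6)
      have : (10 : ℝ) ^ 10 ≤ k ^ 6 := by
        linarith [p1.1, p1.2.1, p1.2.2.1, p1.2.2.2.1, p1.2.2.2.2.1]
      linarith
    nlinarith
  refine ⟨hI1, by linarith [exp_pos (1 / 2 * k ^ 6)], ?_, ?_, ?_, ?_⟩
  · rw [hm]; push_cast
    linarith [exp_pos (1 / 2 * k ^ 6)]
  · have h5 : 4 * (I : ℝ) + 1 ≤ exp (k ^ 6) := by linarith
    have h6 := mul_exp hσ0 h5 hσ
    refine h6.trans ?_
    have h7 : exp (-14 * k) ≤ ε / 2 := by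
      have : exp (-14 * k) = exp (-13 * k) * exp (-k) := by rw [← exp_add]; congr 1; ring
      rw [this]
      have h8 : exp (-k) ≤ 1 / 2 := by
        rw [exp_neg, ← one_div]
        exact one_div_le_one_div_of_le (by norm_num) (const_le_exp hk (by norm_num))
      calc exp (-13 * k) * exp (-k) ≤ ε * (1 / 2) := by gcongr
        _ = ε / 2 := by ring
    refine le_trans (exp_le_exp.2 ?_) h7
    linarith [p1.1, p1.2.1, p1.2.2.1, p1.2.2.2.1, p1.2.2.2.2.1, p1.2.2.2.2.2.1, p1.2.2.2.2.2.2,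
      p2.1, p2.2.1, p2.2.2.1, p2.2.2.2.1, p2.2.2.2.2.1, p2.2.2.2.2.2, p3.1,
      p3.2.1, p3.2.2.1, p3.2.2.2.1, p3.2.2.2.2.1]
  · have h1 : (d : ℝ) * ε ≤ exp k * exp (-11 * k) := by
      apply mul_le_mul _ hεl hε0.le (exp_pos _).le
      nlinarith
    rw [← exp_add] at h1
    refine h1.trans ?_
    have : exp (k + -11 * k) = (exp (10 * k))⁻¹ := by rw [← exp_neg]; congr 1; ring
    rw [this, ← one_div]
    apply one_div_le_one_div_of_le (by norm_num)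
    have := add_one_le_exp (10 * k)
    linarith
  · refine hεl.trans ?_
    have : exp (-11 * k) = (exp (11 * k))⁻¹ := by rw [← exp_neg]; congr 1; ring
    rw [this, ← one_div]
    apply one_div_le_one_div_of_le (by norm_num)
    have := add_one_le_exp (11 * k)
    linarith

/-- The time scale. -/
theorem num_tau {k Λ : ℝ} {K s τ : ℕ} (hk : 10 ^ 10 ≤ k) (hK : k = K) (hs1 : 1 ≤ s)
    (hs : (s : ℝ) ≤ exp k) (hτ : τ = ⌈exp (k ^ 30)⌉₊) (hΛ1 : 1 ≤ Λ) (hΛ : log Λ ≤ k ^ 8)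
    {c : ℕ → ℕ} (hc : ∀ r, 1 ≤ c r)
    (hg : ∀ r : ℕ, 1 ≤ r → log (Λ * r) ≤ k ^ 31 → log (c r) ≤ k * log (Λ * r)) :
    20000 * (s : ℝ) * (log (c (τ ^ 5)) + 2) ^ 2 ≤ τ ∧ (100 : ℝ) ≤ τ ∧
      (s : ℝ) ^ 3 * (10 ^ 10 * k ^ 5) ^ 6 ≤ τ ∧ log (c (τ ^ 5)) ≤ 6 * k * log τ ∧
      (τ : ℝ) ^ (-(1 / 3 : ℝ)) ≤ exp (-(k ^ 30) / 3) := by
  obtain ⟨p1, p2, p3⟩ := pws hk
  have q30 := pw_one hk 30
  have q13 := pw_one hk 13
  have q8 := pw_one hk 8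
  have hτ1 : exp (k ^ 30) ≤ τ := by rw [hτ]; exact Nat.le_ceil _
  have hτ2 : (τ : ℝ) ≤ exp (k ^ 30 + 1) := by
    have h1 := (Nat.ceil_lt_add_one (a := exp (k ^ 30)) (exp_pos _).le).le
    rw [← hτ] at h1
    exact h1.trans (add_exp le_rfl (one_le_exp (by linarith)))
  have hτ0 : (0 : ℝ) < τ := lt_of_lt_of_le (exp_pos _) hτ1
  have hτn : 1 ≤ τ := by exact_mod_cast hτ0
  have hlog1 : k ^ 30 ≤ log τ := (le_log_iff_exp_le hτ0).2 hτ1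
  have hlog2 : log τ ≤ k ^ 30 + 1 := (log_le_iff_le_exp hτ0).2 hτ2
  have hk30 : k ^ 8 + 3 ≤ k ^ 30 ∧ k ≤ k ^ 30 ∧ (k ^ 8 + (5 * k ^ 30 + 5) ≤ k ^ 31) ∧
      31 * k + 3 * k + 10 ≤ k ^ 30 := by
    refine ⟨?_, ?_, ?_, ?_⟩ <;>
    linarith [p1.1, p1.2.1, p1.2.2.1, p1.2.2.2.1, p1.2.2.2.2.1, p1.2.2.2.2.2.1, p1.2.2.2.2.2.2,
      p2.1, p2.2.1, p2.2.2.1, p2.2.2.2.1, p2.2.2.2.2.1, p2.2.2.2.2.2, p3.1,
      p3.2.1, p3.2.2.1, p3.2.2.2.1, p3.2.2.2.2.1, p3.2.2.2.2.2]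
  have hr1 : 1 ≤ τ ^ 5 := Nat.one_le_pow _ _ hτn
  have hlogr : log (Λ * (τ ^ 5 : ℕ)) = log Λ + 5 * log τ := by
    rw [log_mul (by linarith) (by positivity)]
    push_cast
    rw [log_pow]; push_cast; ring
  have hg1 : log (c (τ ^ 5)) ≤ k * (log Λ + 5 * log τ) := by
    rw [← hlogr]
    apply hg _ hr1
    rw [hlogr]
    linarith [hk30.2.2.1]
  have hk0 : 0 ≤ k := by linarith
  have hfour : log (c (τ ^ 5)) ≤ 6 * k * log τ := by
    refine hg1.trans ?_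
    have : log Λ + 5 * log τ ≤ 6 * log τ := by linarith [hk30.1]
    calc k * (log Λ + 5 * log τ) ≤ k * (6 * log τ) := by gcongr
      _ = _ := by ring
  have hlc0 : 0 ≤ log (c (τ ^ 5)) := log_nonneg (by exact_mod_cast hc _)
  have hlc : log (c (τ ^ 5)) + 2 ≤ 10 * k ^ 31 := by
    have h1 : 6 * k * log τ ≤ 6 * k * (k ^ 30 + 1) := by gcongr
    have e : 6 * k * (k ^ 30 + 1) = 6 * k ^ 31 + 6 * k := by ring
    have q31 := pw_one hk 31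
    linarith [hk30.2.1, p3.2.2.2.2.2]
  have hk31 : (10 * k ^ 31) ^ 2 ≤ exp (16 * k) := by
    have h := pow_le_exp hk
    have h4 : k ^ 4 ≤ exp k := by
      have : (0 : ℝ) ≤ k ^ 4 := by positivity
      nlinarith
    have h5 : (k ^ 4) ^ 15 ≤ exp k ^ 15 := by gcongr
    have h6 : 100 * k ^ 2 ≤ exp k := by
      have h2 := pw_one hk 2
      have e : k ^ 4 = k ^ 2 * k ^ 2 := by ring
      rw [e] at h
      nlinarith
    have e : (10 * k ^ 31) ^ 2 = (100 * k ^ 2) * (k ^ 4) ^ 15 := by ring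
    rw [e]
    have e2 : exp (16 * k) = exp k * exp k ^ 15 := by
      rw [← exp_nat_mul, ← exp_add]; congr 1; push_cast; ring
    rw [e2]
    gcongr
  refine ⟨?_, ?_, ?_, hfour, ?_⟩
  · have h1 : 20000 * (s : ℝ) * (log (c (τ ^ 5)) + 2) ^ 2 ≤
        20000 * (s : ℝ) * (10 * k ^ 31) ^ 2 := by gcongr
    have h2 := mul_exp (by positivity) (mul_exp (by positivity)
      (const_le_exp (x := 20000) hk (by norm_num)) hs) hk31
    refine h1.trans (h2.trans ((exp_le_exp.2 ?_).trans hτ1))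
    linarith [hk30.2.2.2]
  · have := add_one_le_exp (k ^ 30)
    linarith
  · have h1 : (10 ^ 10 * k ^ 5) ^ 6 ≤ exp (31 * k) := by
      have h := pow12_le_exp hk
      have h4 : 10 ^ 10 * k ^ 5 ≤ exp k := by
        refine le_trans ?_ h
        have e : k ^ 12 = k ^ 7 * k ^ 5 := by ring
        rw [e]
        have := pw_one hk 7
        have : (0 : ℝ) ≤ k ^ 5 := by positivity
        nlinarith
      refine mono_exp (pow_exp (by positivity) h4 6) (by push_cast; linarith)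
    have h2 := mul_exp (by positivity) (pow_exp (by positivity) hs 3) h1
    refine h2.trans ((exp_le_exp.2 ?_).trans hτ1)
    push_cast
    linarith [hk30.2.2.2]
  · have h1 : (τ : ℝ) ^ (-(1 / 3 : ℝ)) = exp (log τ * (-(1 / 3))) := by
      rw [rpow_def_of_pos hτ0]
    rw [h1]
    apply exp_le_exp.2
    linarith

end Pool.Agent.Helper41.Gap.Num
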