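import Pool.Agent.Helper41.Gap.NNBasic

set_option autoImplicit false

open scoped Pointwise RealInnerProductSpace TensorProduct
open ProbabilityTheory MeasureTheory Module

namespace Pool.Agent.Helper41.Gap

variable {G : Type} [Group G] [DecidableEq G]
variable {E : Type} [NormedAddCommGroup E] [InnerProductSpace ℝ E]
variable {S : Finset G} {c : Coc G E} {V : Submodule ℝ E} [FiniteDimensional ℝ V] {σ : ℝ}

theorem psi_add (hS : SymOne S) (hA : AInv S c V σ) (m : ℕ) (T : Finset G) (hT1 : SymOne T)
    (hT : T ⊆ S ^ m) (v : E) (hv : v ∈ V) (ω₁ B₁ : ℝ) (hω0 : 0 ≤ ω₁) (hB0 : 0 ≤ B₁)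
    (hω : ∀ t ∈ T, ∀ h ∈ T,
      ‖c.L t (V.starProjection (sb c v h)) - V.starProjection (sb c v h)‖ ≤ ω₁)
    (hB : ∀ t ∈ T, ‖sb c v t‖ ≤ B₁) (q₁ q₂ : ℕ) (g h : G) (hg : g ∈ T ^ q₁) (hh : h ∈ T ^ q₂) :
    ‖V.starProjection (sb c v (g * h)) - V.starProjection (sb c v g) -
      V.starProjection (sb c v h)‖ ≤ ((q₁ : ℝ) + q₂) ^ 2 * (ω₁ + m * σ * B₁) := by
  have hσ := hA.nonneg
  set K : ℝ := ω₁ + m * σ * B₁ with hK
  have hK0 : 0 ≤ K := by positivity
  have hLm : ∀ (x y : G) (z : E), c.L (x * y) z = c.L x (c.L y z) := by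
    intro x y z
    rw [map_mul]; rfl
  -- the shifted cocycle is a cocycle
  have hcoc : ∀ x y : G, sb c v (x * y) = sb c v x + c.L x (sb c v y) := by
    intro x y
    simp only [sb, c.coc, hLm, map_sub]
    abel
  have hPP : ∀ x : E, V.starProjection (x - V.starProjection x) = 0 := by
    intro x
    rw [map_sub]
    have := Submodule.starProjection_eq_self_iff.mpr (Submodule.starProjection_apply_mem V x)
    rw [this, sub_self]
  -- one letter
  have hletter : ∀ (q : ℕ) (w : G), w ∈ T ^ q → ∀ t ∈ T,
      ‖c.L w (V.starProjection (sb c v t)) - V.starProjection (sb c v t)‖ ≤ q * ω₁ := by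
    intro q
    induction q with
    | zero =>
      intro w hw t _
      have : w = 1 := by simpa using hw
      subst this
      simp
    | succ q ih =>
      intro w hw t ht
      rw [pow_succ, Finset.mem_mul] at hw
      obtain ⟨w', hw', t', ht', rfl⟩ := hw
      set x := V.starProjection (sb c v t)
      have e : c.L (w' * t') x - x = c.L w' (c.L t' x - x) + (c.L w' x - x) := by
        rw [hLm, map_sub]; abel
      rw [e]
      refine (norm_add_le _ _).trans ?_
      rw [LinearIsometryEquiv.norm_map]
      have a1 := hω t' ht' t ht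
      have a2 := ih w' hw' t ht
      push_cast
      linarith
  have hword : ∀ (q : ℕ) (w : G), w ∈ T ^ q → ∀ t ∈ T,
      ‖V.starProjection (c.L w (sb c v t) - sb c v t)‖ ≤ q * K := by
    intro q w hw t ht
    have hw' : w ∈ S ^ (m * q) := by
      rw [pow_mul]
      exact Finset.pow_subset_pow_left hT hw
    set x := sb c v t
    have e : V.starProjection (c.L w x - x) = V.starProjection (c.L w (V.starProjection x) -
        V.starProjection x) + V.starProjection (c.L w (x - V.starProjection x)) := by
      have h1 : c.L w x - x = (c.L w (V.starProjection x) - V.starProjection x) +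
          c.L w (x - V.starProjection x) - (x - V.starProjection x) := by
        rw [map_sub]; abel
      rw [h1, map_sub, map_add, hPP x, sub_zero]
    rw [e]
    refine (norm_add_le _ _).trans ?_
    have a1 : ‖V.starProjection (c.L w (V.starProjection x) - V.starProjection x)‖ ≤ q * ω₁ :=
      (Submodule.norm_starProjection_apply_le V _).trans (hletter q w hw t ht)
    have a2 := adj_pow hS hA (m * q) hw' x
    have a3 : ((m * q : ℕ) : ℝ) * σ * ‖x‖ ≤ q * (m * σ * B₁) := by
      push_cast
      have : (m : ℝ) * q * σ * ‖x‖ ≤ (m : ℝ) * q * σ * B₁ :=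
        mul_le_mul_of_nonneg_left (hB t ht) (by positivity)
      linarith
    rw [hK]
    linarith
  have hmain : ∀ (q : ℕ) (h : G), h ∈ T ^ q →
      ‖V.starProjection (c.L g (sb c v h) - sb c v h)‖ ≤ ((q₁ : ℝ) * q + q ^ 2) * K := by
    intro q
    induction q with
    | zero =>
      intro h hh
      have : h = 1 := by simpa using hh
      subst this
      have h0 : sb c v (1 : G) = 0 := by
        have := hcoc 1 1
        rw [mul_one, map_one] at this
        have h2 : sb c v (1 : G) = sb c v 1 + sb c v 1 := this
        exact left_eq_add.mp h2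
      rw [h0]
      simp
    | succ q ih =>
      intro h hh
      rw [pow_succ, Finset.mem_mul] at hh
      obtain ⟨h', hh', t, ht, rfl⟩ := hh
      have e : c.L g (sb c v (h' * t)) - sb c v (h' * t) =
          (c.L g (sb c v h') - sb c v h') + (c.L (g * h') (sb c v t) - sb c v t) -
            (c.L h' (sb c v t) - sb c v t) := by
        rw [hcoc, map_add, hLm]; abel
      rw [e, map_sub, map_add]
      have b1 := ih h' hh'
      have hgh : g * h' ∈ T ^ (q₁ + q) := by
        rw [pow_add]; exact Finset.mul_mem_mul hg hh'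
      have b2 := hword (q₁ + q) (g * h') hgh t ht
      have b3 := hword q h' hh' t ht
      refine (norm_sub_le _ _).trans ?_
      have b4 := norm_add_le (V.starProjection (c.L g (sb c v h') - sb c v h'))
        (V.starProjection (c.L (g * h') (sb c v t) - sb c v t))
      push_cast at b2 ⊢
      nlinarith
  have e : V.starProjection (sb c v (g * h)) - V.starProjection (sb c v g) -
      V.starProjection (sb c v h) = V.starProjection (c.L g (sb c v h) - sb c v h) := by
    rw [hcoc, map_add, map_sub]; abel
  rw [e]
  refine (hmain q₂ h hh).trans (mul_le_mul_of_nonneg_right ?_ hK0)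
  have : (0 : ℝ) ≤ (q₁ : ℝ) * q₂ := by positivity
  nlinarith [sq_nonneg (q₁ : ℝ)]

end Pool.Agent.Helper41.Gap
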