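import Pool.Agent.Helper41.Gap.NNBasic

set_option autoImplicit false

open scoped Pointwise RealInnerProductSpace TensorProduct
open ProbabilityTheory MeasureTheory Module

namespace Pool.Agent.Helper41.Gap

/-- Abstract spectral cut: choose `v` which removes the part of the divergence on large eigenvalues. -/
private theorem shift_spectral {W : Type*} [NormedAddCommGroup W] [InnerProductSpace ℝ W]
    [FiniteDimensional ℝ W] {ι : Type*} (T : Finset ι) (X Xs : ι → W →ₗ[ℝ] W)
    (hX : ∀ i x y, ⟪X i x, y⟫ = ⟪x, Xs i y⟫) (u : ι → W) (F Q : ℝ)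
    (hF : ∑ i ∈ T, ‖u i‖ ^ 2 ≤ F) (hQ : 1 < Q) :
    ∃ v : W, ‖∑ i ∈ T, Xs i (u i - X i v)‖ ^ 2 ≤ (finrank ℝ W : ℝ) * F / Q ^ 2 ∧
      ‖∑ i ∈ T, Xs i (u i - X i v)‖ ^ 2 * ‖v‖ ^ 2 ≤ (finrank ℝ W : ℝ) ^ 2 * F ^ 2 / Q ∧
      ‖v‖ ^ 2 ≤ (finrank ℝ W : ℝ) * F * Q ^ (finrank ℝ W + 1) := by
  have hF0 : 0 ≤ F := le_trans (Finset.sum_nonneg fun i _ => by positivity) hF
  have hQ0 : 0 < Q := by linarith
  let Q0 : W →ₗ[ℝ] W := ∑ i ∈ T, (Xs i) ∘ₗ (X i)
  have hQ0app : ∀ x, Q0 x = ∑ i ∈ T, Xs i (X i x) := by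
    intro x
    simp only [Q0, LinearMap.sum_apply, LinearMap.comp_apply]
  have hsym : Q0.IsSymmetric := by
    intro x y
    rw [hQ0app, hQ0app, sum_inner, inner_sum]
    refine Finset.sum_congr rfl fun i _ => ?_
    rw [real_inner_comm, ← hX, real_inner_comm, hX]
  let f := hsym.eigenvectorBasis rfl
  let lam := hsym.eigenvalues rfl
  have hlam : ∀ k, Q0 (f k) = lam k • f k := by
    intro k
    exact hsym.apply_eigenvectorBasis rfl k
  have hfn : ∀ k, ⟪f k, f k⟫ = 1 := by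
    intro k
    rw [real_inner_self_eq_norm_sq, f.orthonormal.1 k]; norm_num
  have hlam2 : ∀ k, lam k = ∑ i ∈ T, ‖X i (f k)‖ ^ 2 := by
    intro k
    have h1 : ⟪f k, Q0 (f k)⟫ = lam k := by
      rw [hlam, inner_smul_right, hfn, mul_one]
    rw [← h1, hQ0app, inner_sum]
    refine Finset.sum_congr rfl fun i _ => ?_
    rw [← hX, real_inner_self_eq_norm_sq]
  have hlam0 : ∀ k, 0 ≤ lam k := by
    intro k; rw [hlam2]; exact Finset.sum_nonneg fun i _ => by positivity
  let w0 : W := ∑ i ∈ T, Xs i (u i)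
  let a : Fin (finrank ℝ W) → ℝ := fun k => ⟪f k, w0⟫
  have ha : ∀ k, a k ^ 2 ≤ lam k * F := by
    intro k
    have h1 : a k = ∑ i ∈ T, ⟪X i (f k), u i⟫ := by
      simp only [a, w0, inner_sum]
      exact Finset.sum_congr rfl fun i _ => (hX i _ _).symm
    have h2 : |a k| ≤ ∑ i ∈ T, ‖X i (f k)‖ * ‖u i‖ := by
      rw [h1]
      refine (Finset.abs_sum_le_sum_abs _ _).trans (Finset.sum_le_sum fun i _ => ?_)
      exact abs_real_inner_le_norm _ _
    have h3 : (∑ i ∈ T, ‖X i (f k)‖ * ‖u i‖) ^ 2 ≤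
        (∑ i ∈ T, ‖X i (f k)‖ ^ 2) * ∑ i ∈ T, ‖u i‖ ^ 2 :=
      Finset.sum_mul_sq_le_sq_mul_sq _ _ _
    calc a k ^ 2 = |a k| ^ 2 := (sq_abs _).symm
      _ ≤ (∑ i ∈ T, ‖X i (f k)‖ * ‖u i‖) ^ 2 := by gcongr
      _ ≤ (∑ i ∈ T, ‖X i (f k)‖ ^ 2) * ∑ i ∈ T, ‖u i‖ ^ 2 := h3
      _ ≤ lam k * F := by rw [← hlam2]; exact mul_le_mul_of_nonneg_left hF (hlam0 k)
  -- the gap
  have hgap : ∃ j : ℕ, j ≤ finrank ℝ W ∧
      ∀ k, ¬ ((Q ^ (j + 2))⁻¹ < lam k ∧ lam k ≤ (Q ^ (j + 1))⁻¹) := by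
    by_contra hcon
    push Not at hcon
    have h1 : ∀ j : Fin (finrank ℝ W + 1), ∃ k : Fin (finrank ℝ W),
        (Q ^ ((j : ℕ) + 2))⁻¹ < lam k ∧ lam k ≤ (Q ^ ((j : ℕ) + 1))⁻¹ :=
      fun j => hcon j (by have := j.2; omega)
    choose k hk using h1
    obtain ⟨j, j', hne, heq⟩ := Fintype.exists_ne_map_eq_of_card_lt k (by simp)
    have key : ∀ j j' : Fin (finrank ℝ W + 1), k j = k j' → ¬ j < j' := by
      intro j j' heq hlt
      have h2 := (hk j).1
      have h3 := (hk j').2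
      rw [← heq] at h3
      have h4 : (Q ^ ((j' : ℕ) + 1))⁻¹ ≤ (Q ^ ((j : ℕ) + 2))⁻¹ := by
        apply inv_anti₀ (by positivity)
        exact pow_le_pow_right₀ hQ.le (by have : (j : ℕ) < j' := hlt; omega)
      linarith
    rcases lt_or_gt_of_ne hne with h | h
    · exact key _ _ heq h
    · exact key _ _ heq.symm h
  obtain ⟨j, hj, hgapj⟩ := hgap
  let g1 : Fin (finrank ℝ W) → ℝ := fun k =>
    if (Q ^ (j + 1))⁻¹ < lam k then (lam k)⁻¹ * a k else 0
  let g2 : Fin (finrank ℝ W) → ℝ := fun k =>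
    if (Q ^ (j + 1))⁻¹ < lam k then 0 else a k
  have hnorm : ∀ g : Fin (finrank ℝ W) → ℝ, ‖∑ k, g k • f k‖ ^ 2 = ∑ k, g k ^ 2 := by
    intro g
    rw [← real_inner_self_eq_norm_sq, f.orthonormal.inner_sum]
    refine Finset.sum_congr rfl fun k _ => ?_
    simp [pow_two]
  let v : W := ∑ k, g1 k • f k
  have hdiv : ∑ i ∈ T, Xs i (u i - X i v) = ∑ k, g2 k • f k := by
    have h1 : ∑ i ∈ T, Xs i (u i - X i v) = w0 - Q0 v := by
      rw [hQ0app, ← Finset.sum_sub_distrib]
      exact Finset.sum_congr rfl fun i _ => by rw [map_sub]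
    have h2 : w0 = ∑ k, a k • f k := (f.sum_repr' w0).symm
    have h3 : Q0 v = ∑ k, (g1 k * lam k) • f k := by
      simp only [v, map_sum, map_smul]
      refine Finset.sum_congr rfl fun k _ => ?_
      rw [hlam, smul_smul]
    rw [h1, h3]
    nth_rewrite 1 [h2]
    rw [← Finset.sum_sub_distrib]
    refine Finset.sum_congr rfl fun k _ => ?_
    rw [← sub_smul]
    congr 1
    simp only [g1, g2]
    split_ifs with h
    · have : lam k ≠ 0 := by
        have : 0 < (Q ^ (j + 1))⁻¹ := by positivity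
        linarith
      field_simp
      ring
    · ring
  have hv2 : ‖v‖ ^ 2 ≤ (finrank ℝ W : ℝ) * F * Q ^ (j + 1) := by
    simp only [v]
    rw [hnorm]
    calc ∑ k, g1 k ^ 2 ≤ ∑ _k : Fin (finrank ℝ W), F * Q ^ (j + 1) := by
          refine Finset.sum_le_sum fun k _ => ?_
          simp only [g1]
          split_ifs with h
          · have hp : 0 < (Q ^ (j + 1))⁻¹ := by positivity
            have hl : 0 < lam k := by linarith
            have h5 : (lam k)⁻¹ ≤ Q ^ (j + 1) := by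
              rw [inv_le_comm₀ hl (by positivity)]; exact h.le
            calc ((lam k)⁻¹ * a k) ^ 2 = (lam k)⁻¹ ^ 2 * a k ^ 2 := by ring
              _ ≤ (lam k)⁻¹ ^ 2 * (lam k * F) := by gcongr; exact ha k
              _ = (lam k)⁻¹ * F := by field_simp
              _ ≤ Q ^ (j + 1) * F := by gcongr
              _ = F * Q ^ (j + 1) := by ring
          · have : (0 : ℝ) ≤ F * Q ^ (j + 1) := by positivity
            simpa using this
      _ = (finrank ℝ W : ℝ) * F * Q ^ (j + 1) := by simp; ring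
  have hd2 : ‖∑ i ∈ T, Xs i (u i - X i v)‖ ^ 2 ≤ (finrank ℝ W : ℝ) * F / Q ^ (j + 2) := by
    rw [hdiv, hnorm]
    calc ∑ k, g2 k ^ 2 ≤ ∑ _k : Fin (finrank ℝ W), F * (Q ^ (j + 2))⁻¹ := by
          refine Finset.sum_le_sum fun k _ => ?_
          simp only [g2]
          split_ifs with h
          · have : (0 : ℝ) ≤ F * (Q ^ (j + 2))⁻¹ := by positivity
            simpa using this
          · have h6 : lam k ≤ (Q ^ (j + 2))⁻¹ := by
              by_contra hc
              exact hgapj k ⟨not_le.1 hc, not_lt.1 h⟩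
            calc a k ^ 2 ≤ lam k * F := ha k
              _ ≤ (Q ^ (j + 2))⁻¹ * F := by gcongr
              _ = F * (Q ^ (j + 2))⁻¹ := by ring
      _ = (finrank ℝ W : ℝ) * F / Q ^ (j + 2) := by simp; ring
  refine ⟨v, hd2.trans ?_, ?_, hv2.trans ?_⟩
  · apply div_le_div_of_nonneg_left (by positivity) (by positivity)
    exact pow_le_pow_right₀ hQ.le (by omega)
  · calc ‖∑ i ∈ T, Xs i (u i - X i v)‖ ^ 2 * ‖v‖ ^ 2 ≤
        ((finrank ℝ W : ℝ) * F / Q ^ (j + 2)) * ((finrank ℝ W : ℝ) * F * Q ^ (j + 1)) := by gcongr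
      _ = (finrank ℝ W : ℝ) ^ 2 * F ^ 2 / Q := by field_simp; ring
  · gcongr
    · exact hQ.le

variable {G : Type} [Group G] [DecidableEq G]
variable {E : Type} [NormedAddCommGroup E] [InnerProductSpace ℝ E]
variable {S : Finset G} {c : Coc G E} {V : Submodule ℝ E} [FiniteDimensional ℝ V] {σ : ℝ}

private theorem shift_P_norm (x : E) : ‖V.starProjection x‖ ≤ ‖x‖ := by
  have h := V.starProjection.le_opNorm x
  have h2 := V.starProjection_norm_le
  calc ‖V.starProjection x‖ ≤ ‖V.starProjection‖ * ‖x‖ := h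
    _ ≤ 1 * ‖x‖ := by gcongr
    _ = ‖x‖ := one_mul _

private theorem shift_P_mem {v : E} (hv : v ∈ V) : V.starProjection v = v :=
  Submodule.starProjection_eq_self_iff.2 hv

private theorem shift_P_inner (x y : E) (hy : y ∈ V) : ⟪V.starProjection x, y⟫ = ⟪x, y⟫ := by
  have h := Submodule.starProjection_inner_eq_zero (K := V) x y hy
  rw [inner_sub_left] at h
  linarith

omit [DecidableEq G] in
/-- adjoint of the compression -/
private theorem shift_adj (g : G) {x y : E} (hx : x ∈ V) (hy : y ∈ V) :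
    ⟪V.starProjection (c.L g x), y⟫ = ⟪x, V.starProjection (c.L g⁻¹ y)⟫ := by
  rw [shift_P_inner _ _ hy, real_inner_comm (V.starProjection (c.L g⁻¹ y)) x,
    shift_P_inner _ _ hx, real_inner_comm x (c.L g⁻¹ y)]
  have h : c.L g (c.L g⁻¹ y) = y := by
    have : (c.L g * c.L g⁻¹) y = y := by rw [← map_mul, mul_inv_cancel, map_one]; rfl
    exact this
  calc ⟪c.L g x, y⟫ = ⟪c.L g x, c.L g (c.L g⁻¹ y)⟫ := by rw [h]
    _ = ⟪x, c.L g⁻¹ y⟫ := (c.L g).inner_map_map _ _

omit [DecidableEq G] in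
private theorem shift_LL (g h : G) (x : E) : c.L (g * h) x = c.L g (c.L h x) := by
  rw [map_mul]; rfl

/-- `psi h = P s(h)` up to the commutation error `kap` -/
private theorem shift_kap (hS : SymOne S) (hA : AInv S c V σ) (m : ℕ) (χ χ₄ β : ℝ)
    (hχ : 0 ≤ χ) {v : E} {t h : G} (ht : t ∈ S ^ m) (hh : h ∈ S ^ m)
    (hβt : ‖c.b t‖ ≤ β) (hβh : ‖c.b h‖ ≤ β) (hcm : NN c V (cm t h) ≤ χ)
    (htr : ‖V.starProjection (c.b (cm t h))‖ ≤ χ₄) :
    ‖(V.starProjection (c.L t (V.starProjection (sb c v h))) - V.starProjection (sb c v h)) -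
      (V.starProjection (c.L h (V.starProjection (sb c v t))) - V.starProjection (sb c v t))‖ ≤
      χ₄ + 3 * χ * (β + 2 * ‖v‖) + 2 * m * σ * (β + 2 * ‖v‖) := by
  have hβ : 0 ≤ β := (norm_nonneg _).trans hβt
  have hσ := hA.nonneg
  have hs : ∀ g : G, ‖c.b g‖ ≤ β → ‖sb c v g‖ ≤ β + 2 * ‖v‖ := by
    intro g hg
    unfold sb
    have h1 : ‖c.b g - (v - c.L g v)‖ ≤ ‖c.b g‖ + (‖v‖ + ‖c.L g v‖) :=
      (norm_sub_le _ _).trans (by gcongr; exact norm_sub_le _ _)
    rw [(c.L g).norm_map] at h1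
    linarith
  have hcoc : ∀ g k : G, sb c v (g * k) = sb c v g + c.L g (sb c v k) := by
    intro g k
    unfold sb
    rw [c.coc, shift_LL, map_sub, map_sub]
    abel
  have hth : sb c v (t * h) = sb c v (cm t h) + c.L (cm t h) (sb c v (h * t)) := by
    rw [← hcoc]
    congr 1
    unfold cm; group
  set B := β + 2 * ‖v‖ with hB
  have hB0 : 0 ≤ B := by positivity
  have e1 : V.starProjection (sb c v (cm t h)) =
      V.starProjection (sb c v (t * h)) - V.starProjection (c.L (cm t h) (sb c v (h * t))) := by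
    rw [hth, map_add]; abel
  have e2 : (V.starProjection (c.L t (V.starProjection (sb c v h))) - V.starProjection (sb c v h)) -
      (V.starProjection (c.L h (V.starProjection (sb c v t))) - V.starProjection (sb c v t)) =
      V.starProjection (sb c v (cm t h)) +
      V.starProjection (c.L (cm t h) (sb c v (h * t)) - sb c v (h * t)) -
      V.starProjection (c.L t (sb c v h - V.starProjection (sb c v h))) +
      V.starProjection (c.L h (sb c v t - V.starProjection (sb c v t))) := by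
    rw [e1]
    simp only [map_sub, hcoc t h, hcoc h t, map_add]
    abel
  have n1 : ‖V.starProjection (sb c v (cm t h))‖ ≤ χ₄ + χ * ‖v‖ := by
    have h1 : sb c v (cm t h) = c.b (cm t h) + (c.L (cm t h) v - v) := by unfold sb; abel
    rw [h1, map_add]
    refine (norm_add_le _ _).trans (add_le_add htr ?_)
    exact (NN_adj _ _).trans (by gcongr)
  have n2 : ‖V.starProjection (c.L (cm t h) (sb c v (h * t)) - sb c v (h * t))‖ ≤ χ * (2 * B) := by
    refine (NN_adj _ _).trans ?_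
    have h1 : ‖sb c v (h * t)‖ ≤ 2 * B := by
      rw [hcoc]
      refine (norm_add_le _ _).trans ?_
      rw [(c.L h).norm_map]
      have := hs h hβh
      have := hs t hβt
      linarith
    gcongr
  have n3 : ‖V.starProjection (c.L t (sb c v h - V.starProjection (sb c v h)))‖ ≤ m * σ * B := by
    refine (adj_pow hS hA m ht _).trans ?_
    have := hs h hβh
    gcongr
  have n4 : ‖V.starProjection (c.L h (sb c v t - V.starProjection (sb c v t)))‖ ≤ m * σ * B := by
    refine (adj_pow hS hA m hh _).trans ?_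
    have := hs t hβt
    gcongr
  rw [e2]
  have hvB : χ * ‖v‖ ≤ χ * B := by
    apply mul_le_mul_of_nonneg_left _ hχ
    have := norm_nonneg v
    rw [hB]; linarith
  calc _ ≤ ‖V.starProjection (sb c v (cm t h))‖ +
        ‖V.starProjection (c.L (cm t h) (sb c v (h * t)) - sb c v (h * t))‖ +
        ‖V.starProjection (c.L t (sb c v h - V.starProjection (sb c v h)))‖ +
        ‖V.starProjection (c.L h (sb c v t - V.starProjection (sb c v t)))‖ := by
        refine (norm_add_le _ _).trans (add_le_add_left ?_ _)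
        refine (norm_sub_le _ _).trans (add_le_add_left ?_ _)
        exact norm_add_le _ _
    _ ≤ (χ₄ + χ * ‖v‖) + χ * (2 * B) + m * σ * B + m * σ * B := by gcongr
    _ ≤ χ₄ + 3 * χ * B + 2 * m * σ * B := by linarith

/-- the compressions almost commute -/
private theorem shift_comm (hS : SymOne S) (hA : AInv S c V σ) (m : ℕ) (χ : ℝ)
    {x : E} {t h : G} (ht : t ∈ S ^ m) (hh : h ∈ S ^ m)
    (hcm : NN c V (cm h t) ≤ χ) :
    ‖V.starProjection (c.L h (V.starProjection (c.L t x))) -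
      V.starProjection (c.L t (V.starProjection (c.L h x)))‖ ≤ (χ + 2 * (m * σ)) * ‖x‖ := by
  have e : V.starProjection (c.L h (V.starProjection (c.L t x))) -
      V.starProjection (c.L t (V.starProjection (c.L h x))) =
      V.starProjection (c.L (cm h t) (c.L (t * h) x) - c.L (t * h) x) -
      V.starProjection (c.L h (c.L t x - V.starProjection (c.L t x))) +
      V.starProjection (c.L t (c.L h x - V.starProjection (c.L h x))) := by
    have h1 : c.L (cm h t) (c.L (t * h) x) = c.L h (c.L t x) := by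
      rw [← shift_LL, ← shift_LL]
      congr 2
      unfold cm; group
    rw [h1, shift_LL t h]
    simp only [map_sub]
    abel
  rw [e]
  have n1 : ‖V.starProjection (c.L (cm h t) (c.L (t * h) x) - c.L (t * h) x)‖ ≤ χ * ‖x‖ := by
    refine (NN_adj _ _).trans ?_
    rw [(c.L (t * h)).norm_map]
    gcongr
  have n2 := adj_pow hS hA m hh (c.L t x)
  have n3 := adj_pow hS hA m ht (c.L h x)
  rw [(c.L t).norm_map] at n2
  rw [(c.L h).norm_map] at n3
  calc _ ≤ ‖V.starProjection (c.L (cm h t) (c.L (t * h) x) - c.L (t * h) x)‖ +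
        ‖V.starProjection (c.L h (c.L t x - V.starProjection (c.L t x)))‖ +
        ‖V.starProjection (c.L t (c.L h x - V.starProjection (c.L h x)))‖ := by
        refine (norm_add_le _ _).trans (add_le_add_left ?_ _)
        exact norm_sub_le _ _
    _ ≤ χ * ‖x‖ + m * σ * ‖x‖ + m * σ * ‖x‖ := by gcongr
    _ = (χ + 2 * (m * σ)) * ‖x‖ := by ring

theorem harmonic_shift (hS : SymOne S) (hA : AInv S c V σ) (m : ℕ) (ε χ χ₄ β F Q : ℝ)
    (T : Finset G) (hT1 : SymOne T) (hT : T ⊆ S ^ m) (hm : 1 ≤ m) (hχ : 0 ≤ χ) (hχ₄ : 0 ≤ χ₄)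
    (hQ : 1 < Q) (hTN : ∀ t ∈ T, NN c V t ≤ 1)
    (hcomm : ∀ g ∈ T, ∀ h ∈ T, NN c V (cm g h) ≤ χ)
    (htr : ∀ g ∈ T, ∀ h ∈ T, ‖V.starProjection (c.b (cm g h))‖ ≤ χ₄)
    (hβ : ∀ t ∈ T, ‖c.b t‖ ≤ β) (hF : F = T.card * β ^ 2) :
    ∃ v ∈ V, ∃ w : ℝ, 0 ≤ w ∧ w ^ 2 ≤ (finrank ℝ V : ℝ) * F / Q ^ 2 ∧
      w ^ 2 * ‖v‖ ^ 2 ≤ (finrank ℝ V : ℝ) ^ 2 * F ^ 2 / Q ∧
      ‖v‖ ^ 2 ≤ (finrank ℝ V : ℝ) * F * Q ^ (finrank ℝ V + 1) ∧
      ∀ B' : ℝ, (∀ t ∈ T, ‖V.starProjection (sb c v t)‖ ≤ B') →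
        ∀ t ∈ T, ∀ h ∈ T, ‖c.L t (V.starProjection (sb c v h)) - V.starProjection (sb c v h)‖ ^ 2 ≤
          2 * (w + T.card * (m * σ * (β + 2 * ‖v‖)) +
            T.card * (χ₄ + 3 * χ * (β + 2 * ‖v‖) + 2 * m * σ * (β + 2 * ‖v‖))) * B' := by
  have h1T := hT1.one
  have hβ0 : 0 ≤ β := (norm_nonneg _).trans (hβ 1 h1T)
  have hσ := hA.nonneg
  let pr : E →ₗ[ℝ] V := V.orthogonalProjectionOnto.toLinearMap
  let rho : G → V →ₗ[ℝ] V := fun t => pr ∘ₗ ((c.L t).toLinearEquiv : E →ₗ[ℝ] E) ∘ₗ V.subtype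
  have hpr : ∀ x, ((pr x : V) : E) = V.starProjection x := fun x => rfl
  have hrho : ∀ t (x : V), ((rho t x : V) : E) = V.starProjection (c.L t x) := fun t x => rfl
  let X : G → V →ₗ[ℝ] V := fun t => LinearMap.id - rho t
  have hXa : ∀ t (x : V), ((X t x : V) : E) = x - V.starProjection (c.L t x) := fun t x => rfl
  obtain ⟨v, h1, h2, h3⟩ := shift_spectral T X (fun t => X t⁻¹) (by
      intro t x y
      rw [Submodule.coe_inner, Submodule.coe_inner, hXa, hXa, inner_sub_left, inner_sub_right]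
      congr 1
      exact shift_adj t x.2 y.2) (fun t => pr (c.b t)) F Q (by
      rw [hF]
      calc ∑ i ∈ T, ‖pr (c.b i)‖ ^ 2 ≤ ∑ _i ∈ T, β ^ 2 := by
            refine Finset.sum_le_sum fun i hi => ?_
            have h5 : ‖pr (c.b i)‖ ≤ β := by
              rw [Submodule.coe_norm, hpr]
              exact (shift_P_norm _).trans (hβ i hi)
            gcongr
        _ = T.card * β ^ 2 := by simp) hQ
  have hdiv : (((∑ i ∈ T, X i⁻¹ (pr (c.b i) - X i v) : V)) : E)
      = ∑ i ∈ T, (V.starProjection (sb c v i) -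
        V.starProjection (c.L i⁻¹ (V.starProjection (sb c v i)))) := by
    rw [AddSubmonoidClass.coe_finsetSum]
    refine Finset.sum_congr rfl fun i _ => ?_
    have h5 : ((pr (c.b i) - X i v : V) : E) = V.starProjection (sb c v i) := by
      unfold sb
      rw [map_sub, map_sub, shift_P_mem v.2, Submodule.coe_sub, hpr, hXa]
    rw [hXa, h5]
  refine ⟨v, v.2, ‖∑ i ∈ T, X i⁻¹ (pr (c.b i) - X i v)‖,
    norm_nonneg _, h1, h2, h3, ?_⟩
  have hnd : ‖∑ i ∈ T, X i⁻¹ (pr (c.b i) - X i v)‖ = ‖∑ i ∈ T, (V.starProjection (sb c v i) -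
        V.starProjection (c.L i⁻¹ (V.starProjection (sb c v i))))‖ := by
    rw [← hdiv]; rfl
  rw [hnd]
  clear hnd
  clear h1 h2 h3 hdiv
  intro B' hB' t ht h hh
  have hB0 : 0 ≤ B' := (norm_nonneg _).trans (hB' 1 h1T)
  set B := β + 2 * ‖(v : E)‖ with hB
  have hBn : 0 ≤ B := by positivity
  have hsb : ∀ g ∈ T, ‖V.starProjection (sb c v g)‖ ≤ B := by
    intro g hg
    refine (shift_P_norm _).trans ?_
    unfold sb
    have h1 : ‖c.b g - ((v : E) - c.L g v)‖ ≤ ‖c.b g‖ + (‖(v : E)‖ + ‖c.L g v‖) :=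
      (norm_sub_le _ _).trans (by gcongr; exact norm_sub_le _ _)
    rw [(c.L g).norm_map] at h1
    have := hβ g hg
    linarith
  set psi : G → E := fun g => V.starProjection (sb c v g) with hpsi
  have hpV : ∀ g, psi g ∈ V := fun g => Submodule.starProjection_apply_mem _ _
  have hXn : ∀ g ∈ T, ∀ x ∈ V, ‖V.starProjection (c.L g x) - x‖ ≤ ‖x‖ := by
    intro g hg x hx
    have h1 : V.starProjection (c.L g x) - x = V.starProjection (c.L g x - x) := by
      rw [map_sub, shift_P_mem hx]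
    rw [h1]
    refine (NN_adj _ _).trans ?_
    calc NN c V g * ‖x‖ ≤ 1 * ‖x‖ := by gcongr; exact hTN g hg
      _ = ‖x‖ := one_mul _
  set kap := χ₄ + 3 * χ * B + 2 * m * σ * B with hkap
  have hkap0 : 0 ≤ kap := by positivity
  set div := ∑ i ∈ T, (psi i - V.starProjection (c.L i⁻¹ (psi i))) with hdivd
  -- each term
  have hterm : ∀ k ∈ T, ‖V.starProjection (c.L t (psi k)) - psi k‖ ^ 2 ≤
      ⟪V.starProjection (c.L k⁻¹ (psi k)) - psi k, V.starProjection (c.L t⁻¹ (psi t)) - psi t⟫ +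
        (kap * B' + (χ + 2 * (m * σ)) * B * B') := by
    intro k hk
    set A := V.starProjection (c.L t (psi k)) - psi k with hAdef
    have hAV : A ∈ V := V.sub_mem (Submodule.starProjection_apply_mem _ _) (hpV k)
    set D := V.starProjection (c.L k (psi t)) - psi t with hDdef
    have hk1 : ‖A - D‖ ≤ kap := shift_kap hS hA m χ χ₄ β hχ (hT ht) (hT hk) (hβ t ht) (hβ k hk)
      (hcomm t ht k hk) (htr t ht k hk)
    have hAn : ‖A‖ ≤ B' := (hXn t ht _ (hpV k)).trans (hB' k hk)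
    have e1 : ‖A‖ ^ 2 = ⟪A, D⟫ + ⟪A, A - D⟫ := by
      rw [← inner_add_right, ← real_inner_self_eq_norm_sq]; congr 1; abel
    have e2 : ⟪A, A - D⟫ ≤ kap * B' := by
      refine (real_inner_le_norm _ _).trans ?_
      rw [mul_comm]
      gcongr
    -- move the compression of `k` to the other side
    have e3 : ⟪A, D⟫ = ⟪V.starProjection (c.L k⁻¹ A) - A, psi t⟫ := by
      have h5 := shift_adj (c := c) k⁻¹ hAV (hpV t)
      rw [inv_inv] at h5
      have h6 : ⟪A, D⟫ = ⟪A, V.starProjection (c.L k (psi t))⟫ - ⟪A, psi t⟫ :=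
        inner_sub_right _ _ _
      have h7 : ⟪V.starProjection (c.L k⁻¹ A) - A, psi t⟫ =
          ⟪V.starProjection (c.L k⁻¹ A), psi t⟫ - ⟪A, psi t⟫ := inner_sub_left _ _ _
      rw [h6, h7, h5]
    have e4 : V.starProjection (c.L k⁻¹ A) - A =
        (V.starProjection (c.L t (V.starProjection (c.L k⁻¹ (psi k)) - psi k)) -
          (V.starProjection (c.L k⁻¹ (psi k)) - psi k)) +
        (V.starProjection (c.L k⁻¹ (V.starProjection (c.L t (psi k)))) -
          V.starProjection (c.L t (V.starProjection (c.L k⁻¹ (psi k))))) := by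
      rw [hAdef]
      simp only [map_sub]
      abel
    have hkS : k⁻¹ ∈ S ^ m := hT (hT1.inv k hk)
    have e5 : ‖V.starProjection (c.L k⁻¹ (V.starProjection (c.L t (psi k)))) -
          V.starProjection (c.L t (V.starProjection (c.L k⁻¹ (psi k))))‖ ≤
        (χ + 2 * (m * σ)) * B := by
      refine (shift_comm hS hA m χ (hT ht) hkS (hcomm _ (hT1.inv k hk) _ ht)).trans ?_
      gcongr
      exact hsb k hk
    have e6 : ⟪V.starProjection (c.L t (V.starProjection (c.L k⁻¹ (psi k)) - psi k)) -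
          (V.starProjection (c.L k⁻¹ (psi k)) - psi k), psi t⟫ =
        ⟪V.starProjection (c.L k⁻¹ (psi k)) - psi k, V.starProjection (c.L t⁻¹ (psi t)) - psi t⟫ := by
      rw [inner_sub_left, inner_sub_right]
      congr 1
      exact shift_adj t (V.sub_mem (Submodule.starProjection_apply_mem _ _) (hpV k)) (hpV t)
    have e7 : ⟪V.starProjection (c.L k⁻¹ (V.starProjection (c.L t (psi k)))) -
          V.starProjection (c.L t (V.starProjection (c.L k⁻¹ (psi k)))), psi t⟫ ≤
        (χ + 2 * (m * σ)) * B * B' := by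
      refine (real_inner_le_norm _ _).trans ?_
      have := hB' t ht
      gcongr
    rw [e1, e3, e4, inner_add_left, e6]
    linarith
  have hsum : ∑ k ∈ T, ‖V.starProjection (c.L t (psi k)) - psi k‖ ^ 2 ≤
      ‖div‖ * B' + T.card * (kap * B' + (χ + 2 * (m * σ)) * B * B') := by
    refine (Finset.sum_le_sum hterm).trans ?_
    rw [Finset.sum_add_distrib, ← sum_inner, Finset.sum_const, nsmul_eq_mul]
    have e8 : ∑ k ∈ T, (V.starProjection (c.L k⁻¹ (psi k)) - psi k) = - div := by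
      rw [hdivd, ← Finset.sum_neg_distrib]
      exact Finset.sum_congr rfl fun k _ => by abel
    rw [e8]
    have e9 : ⟪-div, V.starProjection (c.L t⁻¹ (psi t)) - psi t⟫ ≤ ‖div‖ * B' := by
      refine (real_inner_le_norm _ _).trans ?_
      rw [norm_neg]
      have h5 := (hXn _ (hT1.inv t ht) _ (hpV t)).trans (hB' t ht)
      gcongr
    linarith
  have hone : ‖V.starProjection (c.L t (psi h)) - psi h‖ ^ 2 ≤
      ∑ k ∈ T, ‖V.starProjection (c.L t (psi k)) - psi k‖ ^ 2 :=
    Finset.single_le_sum (f := fun k => ‖V.starProjection (c.L t (psi k)) - psi k‖ ^ 2)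
      (fun k _ => by positivity) hh
  -- Pythagoras
  have hpyth : ‖c.L t (psi h) - psi h‖ ^ 2 = ‖V.starProjection (c.L t (psi h)) - psi h‖ ^ 2 +
      ‖c.L t (psi h) - V.starProjection (c.L t (psi h))‖ ^ 2 := by
    have h5 : c.L t (psi h) - psi h = (V.starProjection (c.L t (psi h)) - psi h) +
      (c.L t (psi h) - V.starProjection (c.L t (psi h))) := by abel
    have h6 : ⟪V.starProjection (c.L t (psi h)) - psi h,
        c.L t (psi h) - V.starProjection (c.L t (psi h))⟫ = 0 := by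
      rw [real_inner_comm]
      exact Submodule.starProjection_inner_eq_zero _ _
        (V.sub_mem (Submodule.starProjection_apply_mem _ _) (hpV h))
    rw [h5, norm_add_sq_real, h6]; ring
  have hlast : ‖c.L t (psi h) - V.starProjection (c.L t (psi h))‖ ^ 2 ≤ m * σ * B * B' := by
    have h5 := inv_pow hS hA m (hT ht) (hpV h)
    have h6 : ‖c.L t (psi h) - V.starProjection (c.L t (psi h))‖ ≤ ‖psi h‖ := by
      have h7 : ‖c.L t (psi h)‖ ^ 2 = ‖V.starProjection (c.L t (psi h))‖ ^ 2 +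
          ‖c.L t (psi h) - V.starProjection (c.L t (psi h))‖ ^ 2 := by
        have h8 : c.L t (psi h) = V.starProjection (c.L t (psi h)) +
          (c.L t (psi h) - V.starProjection (c.L t (psi h))) := by abel
        have h9 : ⟪V.starProjection (c.L t (psi h)),
            c.L t (psi h) - V.starProjection (c.L t (psi h))⟫ = 0 := by
          rw [real_inner_comm]
          exact Submodule.starProjection_inner_eq_zero _ _ (Submodule.starProjection_apply_mem _ _)
        nth_rewrite 1 [h8]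
        rw [norm_add_sq_real, h9]; ring
      rw [(c.L t).norm_map] at h7
      apply le_of_sq_le_sq _ (norm_nonneg _)
      nlinarith [norm_nonneg (V.starProjection (c.L t (psi h)))]
    have h10 : ‖psi h‖ ≤ B := hsb h hh
    have h11 : ‖psi h‖ ≤ B' := hB' h hh
    calc ‖c.L t (psi h) - V.starProjection (c.L t (psi h))‖ ^ 2
        = ‖c.L t (psi h) - V.starProjection (c.L t (psi h))‖ *
          ‖c.L t (psi h) - V.starProjection (c.L t (psi h))‖ := pow_two _
      _ ≤ (m * σ * ‖psi h‖) * ‖psi h‖ := by gcongr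
      _ ≤ m * σ * B * B' := by gcongr
  rw [hpyth]
  have hcard : (1 : ℝ) ≤ T.card := by
    have : 0 < T.card := Finset.card_pos.2 ⟨1, h1T⟩
    exact_mod_cast this
  have f1 : m * σ * B * B' ≤ T.card * (m * σ * B * B') := by
    have : 0 ≤ m * σ * B * B' := by positivity
    nlinarith
  have f2 : 0 ≤ ‖div‖ * B' := by positivity
  have f3 : 0 ≤ T.card * (χ * B * B') := by positivity
  have f4 : 0 ≤ T.card * (m * σ * B * B') := by positivity
  have f5 : 0 ≤ T.card * (χ₄ * B') := by positivity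
  rw [hkap] at hsum
  nlinarith

end Pool.Agent.Helper41.Gap
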