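import Pool.Agent.Helper41.Gap.Defs

set_option autoImplicit false

open scoped Pointwise RealInnerProductSpace TensorProduct
open ProbabilityTheory MeasureTheory Module

namespace Pool.Agent.Helper41.Gap

variable {G : Type} [Group G] [DecidableEq G]

private def gsgGr : List G → Prop
  | [] => True
  | x :: l => x ∉ Subgroup.closure {y | y ∈ l} ∧ gsgGr l

private def gsgPr : List G → Finset G
  | [] => {1}
  | x :: l => gsgPr l ∪ (gsgPr l).image (fun p => x * p)

omit [DecidableEq G] in
private theorem gsg_closure_mono (x : G) (l : List G) :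
    Subgroup.closure {y | y ∈ l} ≤ Subgroup.closure {y | y ∈ x :: l} :=
  Subgroup.closure_mono (fun _ hy => List.mem_cons_of_mem x hy)

private theorem gsgPr_closure (l : List G) : ∀ p ∈ gsgPr l, p ∈ Subgroup.closure {y | y ∈ l} := by
  induction l with
  | nil => intro p hp; simp only [gsgPr, Finset.mem_singleton] at hp; subst hp; exact one_mem _
  | cons x l ih =>
    intro p hp
    simp only [gsgPr, Finset.mem_union, Finset.mem_image] at hp
    rcases hp with hp | ⟨q, hq, rfl⟩
    · exact gsg_closure_mono x l (ih p hp)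
    · exact mul_mem (Subgroup.subset_closure (by simp)) (gsg_closure_mono x l (ih q hq))

private theorem gsgPr_card (l : List G) (h : gsgGr l) : (gsgPr l).card = 2 ^ l.length := by
  induction l with
  | nil => simp [gsgPr]
  | cons x l ih =>
    obtain ⟨hx, hl⟩ := h
    rw [gsgPr, Finset.card_union_of_disjoint, Finset.card_image_of_injective _
      (mul_right_injective x), ih hl, List.length_cons, pow_succ]
    · ring
    · rw [Finset.disjoint_left]
      intro p hp hp'
      rw [Finset.mem_image] at hp'
      obtain ⟨q, hq, hqp⟩ := hp'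
      apply hx
      have h1 := gsgPr_closure l p hp
      have h2 := gsgPr_closure l q hq
      have h3 : x = p * q⁻¹ := by rw [← hqp]; group
      rw [h3]
      exact mul_mem h1 (inv_mem h2)

private theorem gsgPr_subset (S M : Finset G) (hS : SymOne S) (q : ℕ) (hMS : M ⊆ S ^ q)
    (l : List G) (hl : ∀ x ∈ l, x ∈ M) : gsgPr l ⊆ S ^ (l.length * q) := by
  induction l with
  | nil => simp [gsgPr]
  | cons x l ih =>
    have ih' := ih (fun y hy => hl y (List.mem_cons_of_mem x hy))
    intro p hp
    simp only [gsgPr, Finset.mem_union, Finset.mem_image] at hp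
    rw [List.length_cons, add_mul, one_mul, add_comm, pow_add]
    rcases hp with hp | ⟨r, hr, rfl⟩
    · have h1 : (1 : G) ∈ S ^ q := Finset.one_mem_pow hS.one
      rw [← one_mul p]
      exact Finset.mul_mem_mul h1 (ih' hp)
    · exact Finset.mul_mem_mul (hMS (hl x (by simp))) (ih' hr)

theorem small_generating (S M : Finset G) (hS : SymOne S) (hM : SymOne M) (q J : ℕ)
    (hMS : M ⊆ S ^ q) (hJ : (S ^ (J * q)).card < 2 ^ J) :
    ∃ M' : Finset G, SymOne M' ∧ M' ⊆ M ∧ M'.card ≤ 2 * J + 1 ∧
      Subgroup.closure (M' : Set G) = Subgroup.closure (M : Set G) := by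
  have key : ∀ n : ℕ, (∃ l : List G, (∀ x ∈ l, x ∈ M) ∧ l.length ≤ n ∧
      Subgroup.closure {y | y ∈ l} = Subgroup.closure (M : Set G)) ∨
      (∃ l : List G, gsgGr l ∧ (∀ x ∈ l, x ∈ M) ∧ l.length = n) := by
    intro n
    induction n with
    | zero => exact Or.inr ⟨[], trivial, by simp, rfl⟩
    | succ n ih =>
      rcases ih with ⟨l, h1, h2, h3⟩ | ⟨l, h1, h2, h3⟩
      · exact Or.inl ⟨l, h1, by omega, h3⟩
      · by_cases h4 : Subgroup.closure {y | y ∈ l} = Subgroup.closure (M : Set G)
        · exact Or.inl ⟨l, h2, by omega, h4⟩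
        · have h5 : ¬ (M : Set G) ⊆ Subgroup.closure {y | y ∈ l} := by
            intro h6
            apply h4
            apply le_antisymm
            · exact Subgroup.closure_mono (fun y hy => h2 y hy)
            · rwa [Subgroup.closure_le]
          rw [Set.not_subset] at h5
          obtain ⟨x, hx, hx'⟩ := h5
          refine Or.inr ⟨x :: l, ⟨hx', h1⟩, ?_, by simp [h3]⟩
          intro y hy
          rcases List.mem_cons.1 hy with hy | hy
          · subst hy; exact hx
          · exact h2 y hy
  rcases key J with ⟨l, h1, h2, h3⟩ | ⟨l, h1, h2, h3⟩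
  · refine ⟨insert 1 (l.toFinset ∪ l.toFinset⁻¹), ⟨by simp, ?_⟩, ?_, ?_, ?_⟩
    · intro s hs
      simp only [Finset.mem_insert, Finset.mem_union, List.mem_toFinset, Finset.mem_inv'] at hs ⊢
      rcases hs with hs | hs | hs
      · left; rw [hs, inv_one]
      · right; right; rwa [inv_inv]
      · right; left; exact hs
    · intro s hs
      simp only [Finset.mem_insert, Finset.mem_union, List.mem_toFinset, Finset.mem_inv'] at hs
      rcases hs with hs | hs | hs
      · rw [hs]; exact hM.one
      · exact h1 s hs
      · have := hM.inv _ (h1 _ hs)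
        rwa [inv_inv] at this
    · refine (Finset.card_insert_le _ _).trans ?_
      have h4 := Finset.card_union_le l.toFinset l.toFinset⁻¹
      have h5 : (l.toFinset⁻¹).card = l.toFinset.card := Finset.card_inv _
      have h6 := List.toFinset_card_le l
      omega
    · rw [← h3]
      apply le_antisymm
      · rw [Subgroup.closure_le]
        intro s hs
        simp only [Finset.coe_insert, Finset.coe_union, Set.mem_insert_iff, Set.mem_union,
          Finset.mem_coe, List.mem_toFinset, Finset.mem_inv'] at hs
        rcases hs with hs | hs | hs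
        · rw [hs]; exact one_mem _
        · exact Subgroup.subset_closure hs
        · have : s⁻¹ ∈ Subgroup.closure {y | y ∈ l} := Subgroup.subset_closure hs
          exact inv_mem_iff.1 this
      · apply Subgroup.closure_mono
        intro s hs
        simp only [Finset.coe_insert, Finset.coe_union, Set.mem_insert_iff, Set.mem_union,
          Finset.mem_coe, List.mem_toFinset]
        exact Or.inr (Or.inl hs)
  · exfalso
    have h4 := gsgPr_card l h1
    have h5 := Finset.card_le_card (gsgPr_subset S M hS q hMS l h2)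
    rw [h4, h3] at h5
    omega

theorem comm_closure (T : Finset G) (N : Subgroup G) (hT : SymOne T)
    (h1 : ∀ t ∈ T, ∀ x ∈ N, t * x * t⁻¹ ∈ N) (h2 : ∀ t ∈ T, ∀ t' ∈ T, cm t t' ∈ N) :
    (∀ h ∈ Subgroup.closure (T : Set G), ∀ x ∈ N, h * x * h⁻¹ ∈ N) ∧
    (∀ h ∈ Subgroup.closure (T : Set G), ∀ h' ∈ Subgroup.closure (T : Set G), cm h h' ∈ N) := by
  have key : ∀ h ∈ Subgroup.closure (T : Set G),
      (∀ x ∈ N, h * x * h⁻¹ ∈ N) ∧ (∀ x ∈ N, h⁻¹ * x * h ∈ N) := by
    intro h hh
    induction hh using Subgroup.closure_induction with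
    | mem t ht =>
      refine ⟨h1 t ht, fun x hx => ?_⟩
      have := h1 t⁻¹ (hT.inv t ht) x hx
      rwa [inv_inv] at this
    | one => simp
    | mul a b _ _ ha hb =>
      refine ⟨fun x hx => ?_, fun x hx => ?_⟩
      · have := ha.1 _ (hb.1 x hx)
        rwa [show a * b * x * (a * b)⁻¹ = a * (b * x * b⁻¹) * a⁻¹ by group]
      · have := hb.2 _ (ha.2 x hx)
        rwa [show (a * b)⁻¹ * x * (a * b) = b⁻¹ * (a⁻¹ * x * a) * b by group]
    | inv a _ ha => exact ⟨by simpa using ha.2, by simpa using ha.1⟩
  have key2 : ∀ t' ∈ T, ∀ h ∈ Subgroup.closure (T : Set G), cm h t' ∈ N := by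
    intro t' ht' h hh
    induction hh using Subgroup.closure_induction with
    | mem t ht => exact h2 t ht t' ht'
    | one => simp [cm]
    | mul a b ha' _ ha hb =>
      rw [show cm (a * b) t' = (a * cm b t' * a⁻¹) * cm a t' by simp only [cm]; group]
      exact mul_mem ((key a ha').1 _ hb) ha
    | inv a ha' ha =>
      rw [show cm a⁻¹ t' = a⁻¹ * (cm a t')⁻¹ * a by simp only [cm]; group]
      exact (key a ha').2 _ (inv_mem ha)
  refine ⟨fun h hh => (key h hh).1, fun h hh h' hh' => ?_⟩
  induction hh' using Subgroup.closure_induction with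
  | mem t ht => exact key2 t ht h hh
  | one => simp [cm]
  | mul a b ha' _ ha hb =>
    rw [show cm h (a * b) = cm h a * (a * cm h b * a⁻¹) by simp only [cm]; group]
    exact mul_mem ha ((key a ha').1 _ hb)
  | inv a ha' ha =>
    rw [show cm h a⁻¹ = a⁻¹ * (cm h a)⁻¹ * a by simp only [cm]; group]
    exact (key a ha').2 _ (inv_mem ha)

end Pool.Agent.Helper41.Gap
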