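import Pool.Agent.Helper41.Gap.NNBasic

set_option autoImplicit false

open scoped Pointwise RealInnerProductSpace TensorProduct
open ProbabilityTheory MeasureTheory Module

namespace Pool.Agent.Helper41.Gap

variable {G : Type} [Group G] [DecidableEq G]
variable {E : Type} [NormedAddCommGroup E] [InnerProductSpace ℝ E]
variable {S : Finset G} {c : Coc G E} {V : Submodule ℝ E} [FiniteDimensional ℝ V] {σ : ℝ}

omit [DecidableEq G] in
theorem tcm_norm_L (g : G) (x : E) : ‖c.L g x‖ = ‖x‖ := LinearIsometryEquiv.norm_map _ _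

omit [DecidableEq G] in
theorem tcm_L_inv (g : G) (x : E) : c.L g (c.L g⁻¹ x) = x := by
  have h : c.L g (c.L g⁻¹ x) = (c.L g * c.L g⁻¹) x := rfl
  rw [h, ← map_mul, mul_inv_cancel, map_one]
  rfl

omit [DecidableEq G] in
theorem tcm_inner (g : G) (x y : E) : ⟪x, c.L g y⟫ = ⟪c.L g⁻¹ x, y⟫ := by
  have h := LinearIsometryEquiv.inner_map_map (c.L g) (c.L g⁻¹ x) y
  rw [tcm_L_inv] at h
  exact h

theorem tcm_proj_le (x : E) : ‖V.starProjection x‖ ≤ ‖x‖ :=
  (V.starProjection.le_opNorm x).trans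
    (mul_le_of_le_one_left (norm_nonneg _) V.starProjection_norm_le)

omit [DecidableEq G] in
theorem tcm_cm_inv (g h : G) : cm h g = (cm g h)⁻¹ := by
  unfold cm
  group

omit [DecidableEq G] in
theorem tcm_b_cm (g h : G) : c.b (cm g h) = (c.b g - c.L h (c.b g)) + (c.L g (c.b h) - c.b h) -
    (c.L (cm g h) (c.b (h * g)) - c.b (h * g)) := by
  have h1 : g * h = cm g h * (h * g) := by unfold cm; group
  have h2 := c.coc g h
  rw [h1, c.coc] at h2
  have h3 := c.coc h g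
  have h4 : c.b (cm g h) = c.b g + c.L g (c.b h) - c.L (cm g h) (c.b (h * g)) := by
    rw [← h2]; abel
  rw [h4, h3]
  abel

/-- Moving a vector of `V`. -/
theorem tcm_move (hS : SymOne S) (hA : AInv S c V σ) (m : ℕ) {g : G} (hg : g ∈ S ^ m) {x : E}
    (hx : x ∈ V) : ‖c.L g x - x‖ ≤ ‖V.starProjection (c.L g x) - x‖ + m * σ * ‖x‖ := by
  have h1 := Gap.inv_pow hS hA m hg hx
  have h2 : c.L g x - x = (V.starProjection (c.L g x) - x) +
      (c.L g x - V.starProjection (c.L g x)) := by abel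
  rw [h2]
  exact (norm_add_le _ _).trans (add_le_add le_rfl h1)

/-- Translation part, second half: commutator translations are almost zero. -/
theorem trans_comm (hS : SymOne S) (hA : AInv S c V σ) {η : ℝ} (hg : Good S c η)
    (m : ℕ) (χ χ₂ β : ℝ) (T : Finset G) (hT1 : SymOne T)
    (hT : T ⊆ S ^ m) (hm : 1 ≤ m) (hβ : β = √(2 * (S.card : ℝ)))
    (hχ : 0 < χ) (hcomm : ∀ g ∈ T, ∀ h ∈ T, NN c V (cm g h) ≤ χ) (hχ₂ : 0 < χ₂)
    (hfix : ∀ g ∈ T, ∀ h ∈ T, ‖V.starProjection (c.L g (V.starProjection (c.b (cm g h)))) -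
      V.starProjection (c.b (cm g h))‖ ≤ 2 * χ₂) :
    ∀ g ∈ T, ∀ h ∈ T, ‖V.starProjection (c.b (cm g h))‖ ^ 2 ≤
      β * m * (4 * χ₂ + 24 * β * m * χ + 8 * β * m ^ 2 * σ) := by
  intro g hgT h hhT
  have hσ0 := hA.nonneg
  have hβ0 : 0 ≤ β := by rw [hβ]; exact Real.sqrt_nonneg _
  have hinv : ∀ x ∈ T, x⁻¹ ∈ T := hT1.inv
  have hbg := norm_b_le hS hg m (hT hgT)
  have hbh := norm_b_le hS hg m (hT hhT)
  rw [← hβ] at hbg hbh
  have hSinv : ∀ x ∈ T, x⁻¹ ∈ S ^ m := fun x hx => hT (hinv x hx)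
  have hhg : h * g ∈ S ^ (m + m) := by
    rw [pow_add]; exact Finset.mul_mem_mul (hT hhT) (hT hgT)
  have hbhg := norm_b_le hS hg (m + m) hhg
  have hcS : cm g h ∈ S ^ (m + m + m + m) := by
    unfold cm
    rw [pow_add, pow_add, pow_add]
    exact Finset.mul_mem_mul (Finset.mul_mem_mul (Finset.mul_mem_mul (hT hgT) (hT hhT))
      (hSinv g hgT)) (hSinv h hhT)
  have hbc := norm_b_le hS hg (m + m + m + m) hcS
  rw [← hβ] at hbhg hbc
  push_cast at hbhg hbc
  set k := cm g h with hk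
  set x := V.starProjection (c.b k) with hx
  have hxV : x ∈ V := V.starProjection_apply_mem _
  have hxb : ‖x‖ ≤ ‖c.b k‖ := tcm_proj_le _
  have hx4 : ‖x‖ ≤ 4 * β * m := by linarith
  have hχk : NN c V k ≤ χ := hcomm g hgT h hhT
  -- first move
  have hm1 : ‖c.L g x - x‖ ≤ 2 * χ₂ + m * σ * ‖x‖ :=
    (tcm_move hS hA m (hT hgT) hxV).trans (add_le_add (hfix g hgT h hhT) le_rfl)
  -- second move
  have hm2 : ‖c.L h x - x‖ ≤ 2 * χ₂ + 8 * m * β * χ + m * σ * ‖x‖ := by
    have h1 := hfix h hhT g hgT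
    rw [tcm_cm_inv, ← hk] at h1
    have h2 : c.b k⁻¹ = - c.b k - (c.L k⁻¹ (c.b k) - c.b k) := by
      rw [coc_inv]; abel
    set r := V.starProjection (c.L k⁻¹ (c.b k) - c.b k) with hr
    have h3 : V.starProjection (c.b k⁻¹) = - x - r := by
      rw [h2, map_sub, map_neg]
    have h4 : ‖r‖ ≤ χ * (4 * β * m) := by
      refine (NN_adj k⁻¹ (c.b k)).trans ?_
      rw [NN_inv]
      refine mul_le_mul hχk ?_ (norm_nonneg _) hχ.le
      linarith
    rw [h3] at h1
    have h5 : V.starProjection (c.L h x) - x = -(V.starProjection (c.L h (-x - r)) - (-x - r)) -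
        V.starProjection (c.L h r) + r := by
      rw [map_sub, map_neg, map_sub, map_neg]
      abel
    have h6 : ‖V.starProjection (c.L h x) - x‖ ≤ 2 * χ₂ + 8 * m * β * χ := by
      rw [h5]
      refine (norm_add_le _ _).trans ?_
      refine (add_le_add (norm_sub_le _ _) le_rfl).trans ?_
      rw [norm_neg]
      have h7 : ‖V.starProjection (c.L h r)‖ ≤ ‖r‖ :=
        (tcm_proj_le _).trans (tcm_norm_L _ _).le
      linarith
    exact (tcm_move hS hA m (hT hhT) hxV).trans (add_le_add h6 le_rfl)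
  have hm2' : ‖c.L h⁻¹ x - x‖ = ‖c.L h x - x‖ := by
    have h1 := tcm_norm_L (c := c) h (c.L h⁻¹ x - x)
    rw [map_sub, tcm_L_inv] at h1
    rw [← h1, norm_sub_rev]
  have hm1' : ‖c.L g⁻¹ x - x‖ = ‖c.L g x - x‖ := by
    have h1 := tcm_norm_L (c := c) g (c.L g⁻¹ x - x)
    rw [map_sub, tcm_L_inv] at h1
    rw [← h1, norm_sub_rev]
  -- the square
  have hsq : ‖x‖ ^ 2 = ⟪x, c.b k⟫ := by
    have h1 := V.inner_starProjection_left_eq_right (c.b k) x
    rw [V.starProjection_eq_self_iff.2 hxV, ← hx, real_inner_self_eq_norm_sq] at h1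
    rw [h1, real_inner_comm]
  have e1 : ⟪x, c.b g - c.L h (c.b g)⟫ ≤ ‖c.L h x - x‖ * (m * β) := by
    rw [inner_sub_right, tcm_inner, ← inner_sub_left]
    refine (real_inner_le_norm _ _).trans ?_
    rw [norm_sub_rev, hm2']
    exact mul_le_mul_of_nonneg_left hbg (norm_nonneg _)
  have e2 : ⟪x, c.L g (c.b h) - c.b h⟫ ≤ ‖c.L g x - x‖ * (m * β) := by
    rw [inner_sub_right, tcm_inner, ← inner_sub_left]
    refine (real_inner_le_norm _ _).trans ?_
    rw [hm1']
    exact mul_le_mul_of_nonneg_left hbh (norm_nonneg _)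
  have e3 : -⟪x, c.L k (c.b (h * g)) - c.b (h * g)⟫ ≤ (4 * β * m) * (χ * (2 * m * β)) := by
    have h1 : ⟪x, c.L k (c.b (h * g)) - c.b (h * g)⟫ =
        ⟪x, V.starProjection (c.L k (c.b (h * g)) - c.b (h * g))⟫ := by
      conv_lhs => rw [← V.starProjection_eq_self_iff.2 hxV]
      rw [V.inner_starProjection_left_eq_right]
    rw [h1, ← inner_neg_right]
    refine (real_inner_le_norm _ _).trans ?_
    rw [norm_neg]
    refine mul_le_mul hx4 ?_ (norm_nonneg _) (by positivity)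
    refine (NN_adj k _).trans ?_
    refine mul_le_mul hχk ?_ (norm_nonneg _) hχ.le
    linarith
  have hexp : ⟪x, c.b k⟫ = ⟪x, c.b g - c.L h (c.b g)⟫ + ⟪x, c.L g (c.b h) - c.b h⟫ -
      ⟪x, c.L k (c.b (h * g)) - c.b (h * g)⟫ := by
    rw [← inner_add_right, ← inner_sub_right]
    congr 1
    exact tcm_b_cm g h
  have hmσ : m * σ * ‖x‖ ≤ m * σ * (4 * β * m) := mul_le_mul_of_nonneg_left hx4 (by positivity)
  have hmβ : 0 ≤ (m : ℝ) * β := by positivity
  have f1 : ‖c.L h x - x‖ * (m * β) ≤ (2 * χ₂ + 8 * m * β * χ + m * σ * (4 * β * m)) * (m * β) :=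
    mul_le_mul_of_nonneg_right (by linarith) hmβ
  have f2 : ‖c.L g x - x‖ * (m * β) ≤ (2 * χ₂ + m * σ * (4 * β * m)) * (m * β) :=
    mul_le_mul_of_nonneg_right (by linarith) hmβ
  rw [hsq, hexp]
  have f3 : 0 ≤ β * m * (8 * β * m * χ) := by positivity
  nlinarith

end Pool.Agent.Helper41.Gap
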