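import Pool.Agent.Helper41.Gap.NNBasic
import Pool.Agent.Helper41.Gap.Seq
import Pool.Agent.Helper41.Gap.ProdInj

set_option autoImplicit false

open scoped Pointwise RealInnerProductSpace TensorProduct
open ProbabilityTheory MeasureTheory Module

namespace Pool.Agent.Helper41.Gap

variable {G : Type} [Group G] [DecidableEq G]
variable {E : Type} [NormedAddCommGroup E] [InnerProductSpace ℝ E]
variable {S : Finset G} {c : Coc G E} {V : Submodule ℝ E} [FiniteDimensional ℝ V] {σ : ℝ}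

private theorem tf_norm_P (x : E) : ‖V.starProjection x‖ ≤ ‖x‖ :=
  V.norm_starProjection_apply_le x

private theorem tf_rho (hS : SymOne S) (hA : AInv S c V σ) (m : ℕ) {g : G} (hg : g ∈ S ^ m)
    {x : E} (hx : x ∈ V) :
    ‖V.starProjection (c.L g x) - x‖ ^ 2 ≤
      ‖V.starProjection (c.L g (V.starProjection (c.L g x) - x)) -
        (V.starProjection (c.L g x) - x)‖ * ‖x‖ + 2 * (m * σ) * ‖x‖ ^ 2 := by
  have hσ : 0 ≤ σ := hA.nonneg
  have hκ : (0 : ℝ) ≤ m * σ := by positivity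
  set u := V.starProjection (c.L g x) with hu
  set w := V.starProjection (c.L g u) with hw
  have e1 : V.starProjection (c.L g (u - x)) - (u - x) = w - (2 : ℝ) • u + x := by
    rw [map_sub, map_sub, ← hu, ← hw, two_smul]; abel
  rw [e1]
  have hux : ‖u‖ ≤ ‖x‖ := by
    rw [hu]; refine (tf_norm_P _).trans ?_
    rw [LinearIsometryEquiv.norm_map]
  have hinv := inv_pow hS hA m hg hx
  rw [← hu] at hinv
  -- first difference
  have hort : ⟪c.L g x - u, u⟫ = 0 := by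
    have h1 : c.L g x - u ∈ Vᗮ := by
      rw [hu]; exact V.sub_starProjection_mem_orthogonal _
    have h2 : u ∈ V := by rw [hu]; exact V.starProjection_apply_mem _
    exact (Submodule.mem_orthogonal' V _).1 h1 u h2
  have h1 : ‖x‖ ^ 2 = ‖u‖ ^ 2 + ‖c.L g x - u‖ ^ 2 := by
    have h := LinearIsometryEquiv.norm_map (c.L g) x
    have h2 : c.L g x = (c.L g x - u) + u := by abel
    have h3 : ‖c.L g x‖ ^ 2 = ‖c.L g x - u‖ ^ 2 + ‖u‖ ^ 2 := by
      conv_lhs => rw [h2]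
      rw [@norm_add_sq_real, hort]; ring
    rw [← h, h3]; ring
  have h2 : ‖c.L g x - u‖ ≤ ‖x‖ := by
    have : ‖c.L g x - u‖ ^ 2 ≤ ‖x‖ ^ 2 := by nlinarith [sq_nonneg ‖u‖]
    exact le_of_sq_le_sq this (norm_nonneg _)
  have h3 : ‖x‖ ^ 2 - ‖u‖ ^ 2 ≤ m * σ * ‖x‖ ^ 2 := by
    have : ‖c.L g x - u‖ ^ 2 ≤ (m * σ * ‖x‖) * ‖x‖ := by
      rw [sq]
      exact mul_le_mul hinv h2 (norm_nonneg _) (by positivity)
    nlinarith
  -- second difference
  have h4 : ⟪w, u⟫ - ⟪u, x⟫ ≤ m * σ * ‖x‖ ^ 2 := by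
    have hPu : V.starProjection u = u := by
      rw [hu]; exact Submodule.starProjection_eq_self_iff.2 (V.starProjection_apply_mem _)
    have e2 : ⟪w, u⟫ = ⟪c.L g u, u⟫ := by
      rw [hw, Submodule.inner_starProjection_left_eq_right, hPu]
    have e3 : ⟪u, x⟫ = ⟪c.L g u, c.L g x⟫ := by
      rw [LinearIsometryEquiv.inner_map_map]
    have e4 : ⟪w, u⟫ - ⟪u, x⟫ = - ⟪c.L g u, c.L g x - u⟫ := by
      rw [e2, e3, inner_sub_right]; ring
    rw [e4]
    have h5 := abs_real_inner_le_norm (c.L g u) (c.L g x - u)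
    have h6 := neg_abs_le ⟪c.L g u, c.L g x - u⟫
    have h7 : ‖c.L g u‖ * ‖c.L g x - u‖ ≤ ‖x‖ * (m * σ * ‖x‖) := by
      rw [LinearIsometryEquiv.norm_map]
      exact mul_le_mul hux hinv (norm_nonneg _) (norm_nonneg _)
    nlinarith
  have h5 : ‖u - x‖ ^ 2 = (‖x‖ ^ 2 - ‖u‖ ^ 2) + (⟪w, u⟫ - ⟪u, x⟫) - ⟪w - (2 : ℝ) • u + x, u⟫ := by
    rw [@norm_sub_sq_real, inner_add_left, inner_sub_left, inner_smul_left,
      real_inner_self_eq_norm_sq, real_inner_comm u x]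
    simp only [conj_trivial]
    ring
  have h6 := abs_real_inner_le_norm (w - (2 : ℝ) • u + x) u
  have h7 := neg_abs_le ⟪w - (2 : ℝ) • u + x, u⟫
  have h8 : ‖w - (2 : ℝ) • u + x‖ * ‖u‖ ≤ ‖w - (2 : ℝ) • u + x‖ * ‖x‖ :=
    mul_le_mul_of_nonneg_left hux (norm_nonneg _)
  nlinarith

omit [DecidableEq G] in
private theorem tf_cm (c : Coc G E) (g x : G) :
    c.b (cm g x) = -(c.L (cm g x * x) (c.b g) - c.b g) + (c.L g (c.b x) - c.L (cm g x) (c.b x)) := by
  have h1 : cm g x * x * g = g * x := by unfold cm; group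
  have h2 := c.coc (cm g x * x) g
  have h3 := c.coc g x
  have h4 := c.coc (cm g x) x
  rw [h1, h3] at h2
  rw [h4] at h2
  -- b g + L g b x = b cm + L cm b x + L (cm x) b g
  have h5 : c.b (cm g x) = c.b g + c.L g (c.b x) - c.L (cm g x) (c.b x)
      - c.L (cm g x * x) (c.b g) := by
    rw [h2]; abel
  rw [h5]; abel

private theorem tf_step (hS : SymOne S) (hA : AInv S c V σ) (m : ℕ) {g x : G} (hg : g ∈ S ^ m)
    {χ Y : ℝ} (hχ : 0 ≤ χ) (_hY : 0 ≤ Y) (hx : NN c V x ≤ χ) (hcx : NN c V (cm g x) ≤ χ)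
    (hbg : ‖c.b g‖ ≤ Y) (hbx : ‖c.b x‖ ≤ Y) :
    ‖V.starProjection (c.b (cm g x)) - (V.starProjection (c.L g (V.starProjection (c.b x))) -
      V.starProjection (c.b x))‖ ≤ (3 * χ + m * σ) * Y := by
  have hσ : 0 ≤ σ := hA.nonneg
  have hκ : (0 : ℝ) ≤ m * σ := by positivity
  have e : V.starProjection (c.b (cm g x)) - (V.starProjection (c.L g (V.starProjection (c.b x))) -
      V.starProjection (c.b x)) =
      -(V.starProjection (c.L (cm g x * x) (c.b g) - c.b g)) +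
      V.starProjection (c.L g (c.b x - V.starProjection (c.b x))) -
      V.starProjection (c.L (cm g x) (c.b x) - c.b x) := by
    rw [tf_cm c g x]
    simp only [map_add, map_neg, map_sub]
    abel
  rw [e]
  have h1 := NN_adj (c := c) (V := V) (cm g x * x) (c.b g)
  have h2 := adj_pow hS hA m hg (c.b x)
  have h3 := NN_adj (c := c) (V := V) (cm g x) (c.b x)
  have h4 : NN c V (cm g x * x) ≤ 2 * χ := (NN_mul _ _).trans (by linarith)
  have h1' : ‖V.starProjection (c.L (cm g x * x) (c.b g) - c.b g)‖ ≤ 2 * χ * Y :=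
    h1.trans (mul_le_mul h4 hbg (norm_nonneg _) (by positivity))
  have h2' : ‖V.starProjection (c.L g (c.b x - V.starProjection (c.b x)))‖ ≤ m * σ * Y :=
    h2.trans (mul_le_mul_of_nonneg_left hbx hκ)
  have h3' : ‖V.starProjection (c.L (cm g x) (c.b x) - c.b x)‖ ≤ χ * Y :=
    h3.trans (mul_le_mul hcx hbx (norm_nonneg _) hχ)
  refine (norm_sub_le _ _).trans ?_
  have h5 := norm_add_le (-(V.starProjection (c.L (cm g x * x) (c.b g) - c.b g)))
    (V.starProjection (c.L g (c.b x - V.starProjection (c.b x))))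
  rw [norm_neg] at h5
  nlinarith

/-- iterated commutators -/
private def tfz (g h : G) : ℕ → G
  | 0 => cm g h
  | j + 1 => cm g (tfz g h j)

private theorem tf_mono (hS : SymOne S) {a b : ℕ} (h : a ≤ b) : S ^ a ⊆ S ^ b :=
  Finset.pow_subset_pow_right hS.one h

private theorem tf_inv (hS : SymOne S) {a : ℕ} {g : G} (h : g ∈ S ^ a) : g⁻¹ ∈ S ^ a := by
  have hSi : S⁻¹ = S := by
    ext x
    rw [Finset.mem_inv']
    exact ⟨fun hx => by simpa using hS.inv _ hx, fun hx => hS.inv _ hx⟩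
  have h1 : g⁻¹ ∈ (S ^ a)⁻¹ := Finset.inv_mem_inv h
  rw [← _root_.inv_pow, hSi] at h1
  exact h1

private theorem tf_cm_mem (hS : SymOne S) {a b : ℕ} {g x : G} (hg : g ∈ S ^ a) (hx : x ∈ S ^ b) :
    cm g x ∈ S ^ (2 * a + 2 * b) := by
  have h1 : cm g x ∈ S ^ a * S ^ b * S ^ a * S ^ b :=
    Finset.mul_mem_mul (Finset.mul_mem_mul (Finset.mul_mem_mul hg hx) (tf_inv hS hg)) (tf_inv hS hx)
  rw [← pow_add, ← pow_add, ← pow_add] at h1
  convert h1 using 2
  ring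

private theorem tf_z_mem (hS : SymOne S) {m : ℕ} {g h : G} (hg : g ∈ S ^ m) (hh : h ∈ S ^ m)
    (j : ℕ) : ∃ l, tfz g h j ∈ S ^ l ∧ l + 2 * m ≤ 6 * 2 ^ j * m := by
  induction j with
  | zero => exact ⟨_, tf_cm_mem hS hg hh, by ring_nf; omega⟩
  | succ j ih =>
    obtain ⟨l, h1, h2⟩ := ih
    refine ⟨_, tf_cm_mem hS hg h1, ?_⟩
    rw [pow_succ]
    nlinarith

private theorem tf_geo (y : ℕ → ℝ) (n : ℕ) (ε : ℝ) (hε : 0 < ε) (hε2 : ε ≤ 1 / 8)
    (h0 : ∀ j, 0 ≤ y j) (h : ∀ j < n, y (j + 1) ≤ (1.04 * ε) * y j) (d : ℕ) :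
    ∀ i, i + 1 + d = n + 1 → ∑ j ∈ Finset.Ioo i (n + 1), y j ≤ 2 * ε * y i := by
  induction d with
  | zero =>
    intro i hi
    have : Finset.Ioo i (n + 1) = ∅ := by
      ext x; simp only [Finset.mem_Ioo, Finset.notMem_empty, iff_false]; omega
    rw [this, Finset.sum_empty]
    have := h0 i; positivity
  | succ d ih =>
    intro i hi
    have h1 := ih (i + 1) (by omega)
    have h2 : Finset.Ioo i (n + 1) = insert (i + 1) (Finset.Ioo (i + 1) (n + 1)) := by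
      ext x; simp only [Finset.mem_Ioo, Finset.mem_insert]; omega
    rw [h2, Finset.sum_insert (by simp)]
    have h3 := h i (by omega)
    have h4 := h0 i
    have h5 := h0 (i + 1)
    nlinarith [mul_nonneg hε.le h4, mul_nonneg hε.le (mul_nonneg hε.le h4)]

private theorem tf_prod {χ Y : ℝ} (hχ : 0 ≤ χ) (hY : 0 ≤ Y) (u : G) (hu : NN c V u ≤ χ)
    (hb : ‖c.b u‖ ≤ Y) (a : ℕ) :
    NN c V (u ^ a) ≤ a * χ ∧ ‖c.b (u ^ a)‖ ≤ a * Y ∧
      ‖V.starProjection (c.b (u ^ a)) - a • V.starProjection (c.b u)‖ ≤ a ^ 2 * χ * Y := by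
  induction a with
  | zero => simp [coc_one, NN_one]
  | succ a ih =>
    obtain ⟨h1, h2, h3⟩ := ih
    rw [pow_succ, c.coc]
    refine ⟨?_, ?_, ?_⟩
    · refine (NN_mul _ _).trans ?_
      push_cast; linarith
    · refine (norm_add_le _ _).trans ?_
      rw [LinearIsometryEquiv.norm_map]
      push_cast; linarith
    · have e : V.starProjection (c.b (u ^ a) + c.L (u ^ a) (c.b u)) -
          (a + 1) • V.starProjection (c.b u) =
          (V.starProjection (c.b (u ^ a)) - a • V.starProjection (c.b u)) +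
          V.starProjection (c.L (u ^ a) (c.b u) - c.b u) := by
        rw [map_add, map_sub, add_smul, one_smul]; abel
      rw [e]
      refine (norm_add_le _ _).trans ?_
      have h4 := NN_adj (c := c) (V := V) (u ^ a) (c.b u)
      have h5 : NN c V (u ^ a) * ‖c.b u‖ ≤ a * χ * Y :=
        mul_le_mul h1 hb (norm_nonneg _) (by positivity)
      have h6 : 0 ≤ χ * Y := mul_nonneg hχ hY
      have h7 : (0 : ℝ) ≤ a := Nat.cast_nonneg a
      push_cast
      nlinarith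

private theorem tf_oprod {χ Y : ℝ} (hχ : 0 ≤ χ) (hY : 0 ≤ Y) (x : ℕ → G) (n A : ℕ)
    (hu : ∀ i < n, NN c V (x i) ≤ χ) (hb : ∀ i < n, ‖c.b (x i)‖ ≤ Y) (a : ℕ → ℕ)
    (ha : ∀ i, a i < A) (k : ℕ) (hk : k ≤ n) :
    NN c V (oprod x a k) ≤ k * A * χ ∧
      ‖V.starProjection (c.b (oprod x a k)) -
        ∑ i ∈ Finset.range k, a i • V.starProjection (c.b (x i))‖ ≤ (k * A) ^ 2 * χ * Y := by
  induction k with
  | zero => simp [oprod, coc_one, NN_one]
  | succ k ih =>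
    obtain ⟨h1, h2⟩ := ih (by omega)
    obtain ⟨p1, p2, p3⟩ := tf_prod (c := c) (V := V) hχ hY (x k) (hu k (by omega)) (hb k (by omega))
      (a k)
    have hak : (a k : ℝ) ≤ A := by exact_mod_cast (ha k).le
    have hA0 : (0 : ℝ) ≤ A := Nat.cast_nonneg A
    have ha0 : (0 : ℝ) ≤ a k := Nat.cast_nonneg _
    have hk0 : (0 : ℝ) ≤ k := Nat.cast_nonneg k
    have hop : oprod x a (k + 1) = oprod x a k * x k ^ a k := by
      unfold oprod
      rw [List.range_succ, List.map_append, List.prod_append]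
      simp
    rw [hop, c.coc]
    refine ⟨?_, ?_⟩
    · refine (NN_mul _ _).trans ?_
      have : (a k : ℝ) * χ ≤ A * χ := mul_le_mul_of_nonneg_right hak hχ
      push_cast; linarith
    · rw [Finset.sum_range_succ]
      have e : V.starProjection (c.b (oprod x a k) + c.L (oprod x a k) (c.b (x k ^ a k))) -
          (∑ i ∈ Finset.range k, a i • V.starProjection (c.b (x i)) +
            a k • V.starProjection (c.b (x k))) =
          (V.starProjection (c.b (oprod x a k)) -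
            ∑ i ∈ Finset.range k, a i • V.starProjection (c.b (x i))) +
          (V.starProjection (c.b (x k ^ a k)) - a k • V.starProjection (c.b (x k))) +
          V.starProjection (c.L (oprod x a k) (c.b (x k ^ a k)) - c.b (x k ^ a k)) := by
        rw [map_add, map_sub]; abel
      rw [e]
      refine (norm_add_le _ _).trans ?_
      have h3 := norm_add_le (V.starProjection (c.b (oprod x a k)) -
            ∑ i ∈ Finset.range k, a i • V.starProjection (c.b (x i)))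
          (V.starProjection (c.b (x k ^ a k)) - a k • V.starProjection (c.b (x k)))
      have h4 := NN_adj (c := c) (V := V) (oprod x a k) (c.b (x k ^ a k))
      have h5 : NN c V (oprod x a k) * ‖c.b (x k ^ a k)‖ ≤ (k * A * χ) * (A * Y) :=
        mul_le_mul h1 (p2.trans (mul_le_mul_of_nonneg_right hak hY)) (norm_nonneg _)
          (by positivity)
      have h6 : 0 ≤ χ * Y := mul_nonneg hχ hY
      have h7 : (a k : ℝ) ^ 2 * χ * Y ≤ A ^ 2 * χ * Y := by
        have : (a k : ℝ) ^ 2 ≤ A ^ 2 := by gcongr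
        nlinarith
      have h8 : (0 : ℝ) ≤ k * A ^ 2 * (χ * Y) := by positivity
      push_cast
      nlinarith

private theorem tf_r1 {a b k : ℝ} (hk : 0 ≤ k) (ha : 1 ≤ a) (hb : 0 ≤ b) : k * b ≤ k * a * b := by
  nlinarith [mul_nonneg hk hb, mul_nonneg (mul_nonneg hk hb) (sub_nonneg.2 ha)]

private theorem tf_r2 {σ p q m χ : ℝ} (hσ : 0 ≤ σ) (hp : 1 ≤ p) (hq : q ≤ p) (hm : 0 ≤ m)
    (h : 20 * (2 * p * m) * σ ≤ χ) : 10 * (m + q * m) * σ ≤ χ / 2 := by
  have h1 : m + q * m ≤ 2 * p * m := by nlinarith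
  have h2 : (m + q * m) * σ ≤ 2 * p * m * σ := mul_le_mul_of_nonneg_right h1 hσ
  linarith

private theorem tf_r3 {r e b b2 bj Y χ κ x y : ℝ} (hr0 : 0 ≤ r) (he0 : 0 ≤ e) (hY0 : 0 < Y)
    (hχ : 0 < χ) (hχ1 : 800 * χ ≤ 1) (heχ : e ≤ 3.01 * (χ * Y)) (hr : r ≤ 2 * Y)
    (hb : 0 ≤ b) (h6 : b ≤ r + e) (hbj0 : 0 ≤ bj) (hbj : bj ≤ Y) (hκ0 : 0 ≤ κ)
    (hκ : 320 * κ ≤ χ) (h1 : r ^ 2 ≤ x * bj + 2 * κ * bj ^ 2) (h4 : x ≤ b2 + 3 * e) (hy : y = b) :
    y ^ 2 ≤ 1 * bj * b2 + 25 * (χ * Y ^ 2) := by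
  rw [hy]
  have h7 : b ^ 2 ≤ r ^ 2 + 4 * e * Y + e ^ 2 := by
    have h8 : b ^ 2 ≤ (r + e) ^ 2 := pow_le_pow_left₀ hb h6 2
    nlinarith [mul_le_mul_of_nonneg_left hr he0]
  have h8 : x * bj ≤ (b2 + 3 * e) * bj := mul_le_mul_of_nonneg_right h4 hbj0
  have h9 : 3 * e * bj ≤ 3 * e * Y := mul_le_mul_of_nonneg_left hbj (by linarith)
  have h10 : 2 * κ * bj ^ 2 ≤ 2 * (χ / 320) * Y ^ 2 := by
    have h11 : bj ^ 2 ≤ Y ^ 2 := pow_le_pow_left₀ hbj0 hbj 2
    exact mul_le_mul (by linarith) h11 (by positivity) (by positivity)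
  have h11 : e ^ 2 ≤ 1 / 100 * (e * Y) := by
    have h12 : χ * Y ≤ 1 / 800 * Y := mul_le_mul_of_nonneg_right (by linarith) hY0.le
    have h13 : e ≤ 1 / 100 * Y := by linarith
    have := mul_le_mul_of_nonneg_left h13 he0
    linarith
  have h12 : e * Y ≤ 3.01 * (χ * Y ^ 2) := by
    have := mul_le_mul_of_nonneg_right heχ hY0.le
    linarith
  have h13 : 0 ≤ χ * Y ^ 2 := by positivity
  linarith

private theorem tf_r4 {A ε b : ℝ} (h : A * ε ≤ 1 / 64) (hb : 0 ≤ b) :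
    A * (2 * ε * b) ≤ 1 / 32 * b := by
  have := mul_le_mul_of_nonneg_right h hb
  linarith

/-- Translation part, first half: commutator translations are almost fixed. -/
theorem trans_fixed (hS : SymOne S) (hA : AInv S c V σ) {η : ℝ} (hg : Good S c η)
    (m n A : ℕ) (ε χ χ₂ : ℝ) (T : Finset G)
    (hT : T ⊆ S ^ m) (hTN : ∀ t ∈ T, NN c V t ≤ ε) (hm : 1 ≤ m) (hn : 1 ≤ n) (hA1 : 1 ≤ A)
    (hε : 0 < ε) (hε2 : ε ≤ 1 / 8) (hAε : A * ε ≤ 1 / 64)
    (hgr : (S ^ (A * (2 ^ (n + 3) * m))).card < A ^ n)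
    (hχ : 0 < χ) (hcomm : ∀ g ∈ T, ∀ h ∈ T, NN c V (cm g h) ≤ χ)
    (Y ζ : ℝ) (hY : Y = √(2 * (S.card : ℝ)) * (2 ^ (n + 4) * m)) (hχ₂ : 0 < χ₂) (hχ₂Y : χ₂ ≤ Y)
    (hζ : ζ = χ₂ * (χ₂ / Y) ^ n * ((2 : ℝ) ^ (n ^ 2))⁻¹)
    (hsm1 : 100 * (n * A : ℝ) ^ 2 * χ * Y ^ 2 ≤ ζ ^ 2 * ε)
    (hsm2 : 100 * (n * A : ℝ) ^ 2 * (2 ^ (n + 4) * m) * σ * Y ^ 2 ≤ ζ ^ 2 * ε)
    (hsm3 : 20 * (2 ^ (n + 4) * m) * σ ≤ χ) (hsm4 : ζ ≤ 1) :
    ∀ g ∈ T, ∀ h ∈ T, ‖V.starProjection (c.L g (V.starProjection (c.b (cm g h)))) -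
      V.starProjection (c.b (cm g h))‖ ≤ 2 * χ₂ := by
  intro g hgT h hhT
  by_contra hcon
  push Not at hcon
  have hσ : 0 ≤ σ := hA.nonneg
  have hgm := hT hgT
  have hhm := hT hhT
  have hNg := hTN g hgT
  have hY0 : 0 < Y := hχ₂.trans_le hχ₂Y
  have hm' : (1 : ℝ) ≤ m := by exact_mod_cast hm
  have hn' : (1 : ℝ) ≤ n := by exact_mod_cast hn
  have hA' : (1 : ℝ) ≤ A := by exact_mod_cast hA1
  have hnA : (1 : ℝ) ≤ (n * A : ℝ) ^ 2 := by
    have : (1 : ℝ) * 1 ≤ n * A := mul_le_mul hn' hA' zero_le_one (by linarith)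
    exact one_le_pow₀ (by linarith)
  -- size of zeta
  have hq0 : 0 < χ₂ / Y := div_pos hχ₂ hY0
  have hq1 : χ₂ / Y ≤ 1 := (div_le_one hY0).2 hχ₂Y
  have hζ0 : 0 < ζ := by rw [hζ]; positivity
  have hζχ : ζ ≤ χ₂ := by
    rw [hζ]
    have h1 : (χ₂ / Y) ^ n ≤ 1 := pow_le_one₀ hq0.le hq1
    have h2 : ((2 : ℝ) ^ (n ^ 2))⁻¹ ≤ 1 := inv_le_one_of_one_le₀ (one_le_pow₀ (by norm_num))
    have h3 : 0 < (χ₂ / Y) ^ n := pow_pos hq0 _
    calc χ₂ * (χ₂ / Y) ^ n * ((2 : ℝ) ^ (n ^ 2))⁻¹ ≤ χ₂ * (χ₂ / Y) ^ n * 1 :=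
          mul_le_mul_of_nonneg_left h2 (by positivity)
      _ ≤ χ₂ * 1 := by rw [mul_one]; exact mul_le_mul_of_nonneg_left h1 hχ₂.le
      _ = χ₂ := mul_one _
  have hζY : ζ ≤ Y := hζχ.trans hχ₂Y
  -- consequences of smallness
  have hs1 : 100 * (n * A : ℝ) ^ 2 * (χ * Y) ≤ ζ * ε := by
    -- multiply by Y and compare
    have h1 : 100 * (n * A : ℝ) ^ 2 * (χ * Y) * Y ≤ ζ * ε * Y := by
      calc 100 * (n * A : ℝ) ^ 2 * (χ * Y) * Y = 100 * (n * A : ℝ) ^ 2 * χ * Y ^ 2 := by ring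
        _ ≤ ζ ^ 2 * ε := hsm1
        _ = ζ * ε * ζ := by ring
        _ ≤ ζ * ε * Y := mul_le_mul_of_nonneg_left hζY (by positivity)
    exact le_of_mul_le_mul_right h1 hY0
  have hχY : 100 * (χ * Y) ≤ ζ * ε := by
    have : (100 : ℝ) * (χ * Y) ≤ 100 * (n * A : ℝ) ^ 2 * (χ * Y) :=
      tf_r1 (by norm_num) hnA (by positivity)
    exact this.trans hs1
  have hχY2 : 100 * (χ * Y ^ 2) ≤ ζ ^ 2 * ε := by
    have : (100 : ℝ) * (χ * Y ^ 2) ≤ 100 * (n * A : ℝ) ^ 2 * χ * Y ^ 2 := by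
      have h0 := tf_r1 (k := 100) (a := (n * A : ℝ) ^ 2) (b := χ * Y ^ 2) (by norm_num) hnA
        (by positivity)
      linarith
    exact this.trans hsm1
  have hχ1 : 100 * χ ≤ ε := by
    have h1 : 100 * χ * Y ≤ ε * Y := by
      calc 100 * χ * Y = 100 * (χ * Y) := by ring
        _ ≤ ζ * ε := hχY
        _ ≤ Y * ε := mul_le_mul_of_nonneg_right hζY hε.le
        _ = ε * Y := by ring
    exact le_of_mul_le_mul_right h1 hY0
  have h2pow : (1 : ℝ) ≤ 2 ^ n := one_le_pow₀ (by norm_num)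
  have hpe : (2 : ℝ) ^ (n + 4) = 16 * 2 ^ n := by rw [pow_add]; ring
  have hmσ : 320 * (m * σ) ≤ χ := by
    have h0 : 0 ≤ m * σ := by positivity
    have : 320 * (m * σ) ≤ 20 * (2 ^ (n + 4) * m) * σ := by
      have h1 := tf_r1 (k := 320) (a := (2 : ℝ) ^ n) (b := m * σ) (by norm_num) h2pow h0
      rw [hpe]; linarith
    exact this.trans hsm3
  -- the sequence of iterated commutators
  have hzm : ∀ j, tfz g h j ∈ S ^ (2 ^ (j + 3) * m) := by
    intro j
    obtain ⟨l, h1, h2⟩ := tf_z_mem hS hgm hhm j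
    refine tf_mono hS ?_ h1
    have h3 : 2 ^ (j + 3) * m = 6 * 2 ^ j * m + 2 * (2 ^ j * m) := by rw [pow_add]; ring
    omega
  have hbz : ∀ j ≤ n + 1, ‖c.b (tfz g h j)‖ ≤ Y := by
    intro j hj
    have h1 := norm_b_le hS hg _ (tf_mono hS
      (Nat.mul_le_mul_right m (Nat.pow_le_pow_right (by norm_num) (by omega :
        j + 3 ≤ n + 4))) (hzm j))
    refine h1.trans ?_
    rw [hY]; push_cast; linarith
  have hbg : ‖c.b g‖ ≤ Y := by
    have h1 := norm_b_le hS hg _ hgm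
    refine h1.trans ?_
    rw [hY, hpe, mul_comm]
    apply mul_le_mul_of_nonneg_left _ (Real.sqrt_nonneg _)
    have h1 := tf_r1 (k := 16) (a := (2 : ℝ) ^ n) (b := m) (by norm_num) h2pow (by linarith)
    linarith
  have hNz : ∀ j ≤ n + 1, NN c V (tfz g h j) ≤ χ := by
    intro j hj
    induction j with
    | zero => exact hcomm g hgT h hhT
    | succ j ih =>
      have h1 := ih (by omega)
      have h2 := NN_comm hS hA m (2 ^ (j + 3) * m) hgm (hzm j)
      refine h2.trans ?_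
      have h3 : 0 ≤ NN c V (tfz g h j) := NN_nonneg _
      have h4 : 0 ≤ NN c V g := NN_nonneg _
      have h5 : 2 * NN c V g * NN c V (tfz g h j) ≤ 2 * (1 / 8) * χ :=
        mul_le_mul (by linarith) h1 h3 (by norm_num)
      have h6 : (2 : ℝ) ^ (j + 3) ≤ 2 ^ (n + 3) := pow_le_pow_right₀ (by norm_num) (by omega)
      have h7 : (2 : ℝ) ^ (n + 4) = 2 * 2 ^ (n + 3) := by ring
      have h8 : (1 : ℝ) ≤ 2 ^ (n + 3) := one_le_pow₀ (by norm_num)
      have h10 : 10 * ((m : ℝ) + ((2 ^ (j + 3) * m : ℕ) : ℝ)) * σ ≤ χ / 2 := by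
        push_cast
        rw [h7] at hsm3
        exact tf_r2 hσ h8 h6 (by linarith) hsm3
      linarith
  -- the vectors beta
  set β : ℕ → E := fun j => V.starProjection (c.b (tfz g h j)) with hβ
  have hβV : ∀ j, β j ∈ V := fun j => V.starProjection_apply_mem _
  have hβP : ∀ j, V.starProjection (β j) = β j := fun j =>
    Submodule.starProjection_eq_self_iff.2 (hβV j)
  have hβY : ∀ j ≤ n + 1, ‖β j‖ ≤ Y := fun j hj => (tf_norm_P _).trans (hbz j hj)
  obtain ⟨e, he⟩ : ∃ e, e = (3 * χ + m * σ) * Y := ⟨_, rfl⟩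
  have he0 : 0 ≤ e := by rw [he]; positivity
  have heχ : e ≤ 3.01 * (χ * Y) := by
    rw [he]
    have h1 : m * σ * Y ≤ χ / 320 * Y := mul_le_mul_of_nonneg_right (by linarith) hY0.le
    have h2 := mul_pos hχ hY0
    linarith
  have hstep : ∀ j ≤ n, ‖β (j + 1) - (V.starProjection (c.L g (β j)) - β j)‖ ≤ e := by
    intro j hj
    rw [he]
    exact tf_step hS hA m hgm hχ.le hY0.le (hNz j (by omega)) (hNz (j + 1) (by omega)) hbg
      (hbz j (by omega))
  -- contraction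
  have hcontr : ∀ j ≤ n, ‖β (j + 1)‖ ≤ ε * ‖β j‖ + e := by
    intro j hj
    have h1 := hstep j hj
    have h2 : ‖V.starProjection (c.L g (β j)) - β j‖ ≤ ε * ‖β j‖ := by
      have h3 : V.starProjection (c.L g (β j)) - β j =
          V.starProjection (c.L g (β j) - β j) := by rw [map_sub, hβP]
      rw [h3]
      exact (NN_adj g (β j)).trans (mul_le_mul_of_nonneg_right hNg (norm_nonneg _))
    have h4 : β (j + 1) = (β (j + 1) - (V.starProjection (c.L g (β j)) - β j)) +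
      (V.starProjection (c.L g (β j)) - β j) := by abel
    have h5 := norm_add_le (β (j + 1) - (V.starProjection (c.L g (β j)) - β j))
      (V.starProjection (c.L g (β j)) - β j)
    rw [← h4] at h5
    linarith
  have heY : e ≤ Y := by
    have : χ * Y ≤ 1 / 800 * Y := mul_le_mul_of_nonneg_right (by linarith) hY0.le
    linarith
  -- the recursion
  have hrec : ∀ j < n, ‖β (j + 1)‖ ^ 2 ≤ 1 * ‖β j‖ * ‖β (j + 2)‖ + 25 * (χ * Y ^ 2) := by
    intro j hj
    have h1 := tf_rho hS hA m hgm (hβV j)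
    set r := V.starProjection (c.L g (β j)) - β j with hr
    have h2 : ‖β (j + 1) - r‖ ≤ e := hstep j (by omega)
    have h3 := hstep (j + 1) (by omega)
    -- second iterate
    have h4 : ‖V.starProjection (c.L g r) - r‖ ≤ ‖β (j + 2)‖ + 3 * e := by
      have e1 : V.starProjection (c.L g r) - r = β (j + 2) -
          (β (j + 2) - (V.starProjection (c.L g (β (j + 1))) - β (j + 1))) -
          (V.starProjection (c.L g (β (j + 1) - r)) - (β (j + 1) - r)) := by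
        simp only [map_sub]; abel
      rw [e1]
      have h5 : ‖V.starProjection (c.L g (β (j + 1) - r)) - (β (j + 1) - r)‖ ≤ 2 * e := by
        refine (norm_sub_le _ _).trans ?_
        have := tf_norm_P (V := V) (c.L g (β (j + 1) - r))
        rw [LinearIsometryEquiv.norm_map] at this
        linarith
      refine (norm_sub_le _ _).trans ?_
      have h6 := norm_sub_le (β (j + 2))
        (β (j + 2) - (V.starProjection (c.L g (β (j + 1))) - β (j + 1)))
      linarith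
    have hY1 := hβY j (by omega)
    have hb0 : 0 ≤ ‖β j‖ := norm_nonneg _
    have h5 : ‖r‖ ≤ 2 * Y := by
      rw [hr]
      refine (norm_sub_le _ _).trans ?_
      have := tf_norm_P (V := V) (c.L g (β j))
      rw [LinearIsometryEquiv.norm_map] at this
      linarith
    have h6 : ‖β (j + 1)‖ ≤ ‖r‖ + e := by
      have h7 : β (j + 1) = (β (j + 1) - r) + r := by abel
      have h8 := norm_add_le (β (j + 1) - r) r
      rw [← h7] at h8
      linarith
    exact tf_r3 (norm_nonneg r) he0 hY0 hχ (by linarith) heχ h5 (norm_nonneg _) h6 hb0 hY1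
      (by positivity) hmσ h1 h4 rfl
  -- lower bounds
  have hy1 : χ₂ ≤ ‖β 1‖ := by
    have h1 := hstep 0 (by omega)
    have h2 : 2 * χ₂ < ‖V.starProjection (c.L g (β 0)) - β 0‖ := hcon
    have h3 : V.starProjection (c.L g (β 0)) - β 0 =
      β 1 - (β 1 - (V.starProjection (c.L g (β 0)) - β 0)) := by abel
    have h4 := norm_sub_le (β 1) (β 1 - (V.starProjection (c.L g (β 0)) - β 0))
    rw [← h3] at h4
    simp only [zero_add] at h1
    have h5 : ζ * ε ≤ χ₂ * (1 / 8) := mul_le_mul hζχ hε2 hε.le hχ₂.le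
    linarith
  have hlow := seq_lower (fun j => ‖β j‖) n 1 Y χ₂ (25 * (χ * Y ^ 2)) le_rfl (hβY 0 (by omega))
    (fun k => norm_nonneg _) hχ₂ hχ₂Y hy1 hrec (by
      have : χ₂ * (χ₂ / Y) ^ n * ((2 * 1 : ℝ) ^ (n ^ 2))⁻¹ = ζ := by rw [hζ, mul_one]
      rw [this]
      have h1 : ζ ^ 2 * ε ≤ ζ ^ 2 * (1 / 8) := mul_le_mul_of_nonneg_left hε2 (by positivity)
      have h2 := sq_nonneg ζ
      linarith)
  have hζe : χ₂ * (χ₂ / Y) ^ n * ((2 * 1 : ℝ) ^ (n ^ 2))⁻¹ = ζ := by rw [hζ, mul_one]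
  rw [hζe] at hlow
  have heζ : e ≤ 0.04 * (ζ * ε) := by linarith
  have hlow' : ∀ j ≤ n + 1, ζ ≤ ‖β j‖ := by
    intro j hj
    rcases j with _ | j
    · have h1 := hcontr 0 (by omega)
      simp only [zero_add] at h1
      have h2 : ζ ≤ ‖β 1‖ := hζχ.trans hy1
      have h3 : 0 ≤ ‖β 0‖ := norm_nonneg _
      have h4 : ε * ‖β 0‖ ≤ 1 / 8 * ‖β 0‖ := mul_le_mul_of_nonneg_right hε2 h3
      have h5 : ζ * ε ≤ ζ * (1 / 8) := mul_le_mul_of_nonneg_left hε2 hζ0.le
      linarith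
    · exact hlow j (by omega)
  have hdec : ∀ j ≤ n, ‖β (j + 1)‖ ≤ (1.04 * ε) * ‖β j‖ := by
    intro j hj
    have h1 := hcontr j hj
    have h2 := mul_le_mul_of_nonneg_left (hlow' j (by omega)) hε.le
    linarith
  -- the contradiction with growth
  obtain ⟨n', rfl⟩ : ∃ n', n = n' + 1 := ⟨n - 1, by omega⟩
  have hfin := prod_inj_add (fun x => V.starProjection (c.b x)) (tfz g h) (n' + 1) A
    ((((n' + 1 : ℕ) : ℝ) * A) ^ 2 * χ * Y)
    (by
      intro a ha
      exact (tf_oprod hχ.le hY0.le (tfz g h) (n' + 1) A (fun i hi => hNz i (by omega))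
        (fun i hi => hbz i (by omega)) a ha (n' + 1) le_rfl).2)
    (by
      intro i hi
      have h1 := tf_geo (fun j => ‖β j‖) n' ε hε hε2 (fun j => norm_nonneg _)
        (fun j hj => hdec j (by omega)) (n' - i) i (by omega)
      have h2 := hlow' i (by omega)
      have h3 : (A : ℝ) * ∑ j ∈ Finset.Ioo i (n' + 1), ‖β j‖ ≤ A * (2 * ε * ‖β i‖) :=
        mul_le_mul_of_nonneg_left h1 (by positivity)
      have h4 : (A : ℝ) * (2 * ε * ‖β i‖) ≤ 1 / 32 * ‖β i‖ := tf_r4 hAε (norm_nonneg _)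
      have h5 : 2 * ((((n' + 1 : ℕ) : ℝ) * A) ^ 2 * χ * Y) ≤ 1 / 50 * (ζ * ε) := by
        have h6 : 100 * (((n' + 1 : ℕ) : ℝ) * A) ^ 2 * (χ * Y) ≤ ζ * ε := hs1
        linarith
      have h6 : ζ * ε ≤ ζ * (1 / 8) := mul_le_mul_of_nonneg_left hε2 hζ0.le
      have h7 : ∑ j ∈ Finset.Ioo i (n' + 1), ‖V.starProjection (c.b (tfz g h j))‖ =
        ∑ j ∈ Finset.Ioo i (n' + 1), ‖β j‖ := rfl
      have h8 : ‖V.starProjection (c.b (tfz g h i))‖ = ‖β i‖ := rfl
      rw [h7, h8]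
      linarith)
    S hS (fun i => 2 ^ (i + 3) * m) (fun i _ => hzm i)
  have hlen : A * ∑ i ∈ Finset.range (n' + 1), 2 ^ (i + 3) * m ≤
      A * (2 ^ (n' + 1 + 3) * m) := by
    apply Nat.mul_le_mul_left
    rw [← Finset.sum_mul]
    apply Nat.mul_le_mul_right
    have h1 : ∀ k : ℕ, ∑ i ∈ Finset.range k, 2 ^ (i + 3) + 8 = 2 ^ (k + 3) := by
      intro k
      induction k with
      | zero => simp
      | succ k ih =>
        rw [Finset.sum_range_succ, show k + 1 + 3 = (k + 3) + 1 by ring, pow_succ 2 (k + 3)]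
        omega
    have := h1 (n' + 1)
    omega
  have h9 := Finset.card_le_card (tf_mono hS hlen)
  omega

end Pool.Agent.Helper41.Gap
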