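import Pool.Agent.Helper41.Gap.GoodExists
import Pool.Agent.Helper41.Gap.AInvB
import Pool.Agent.Helper41.Gap.Net
import Pool.Agent.Helper41.Gap.LinComm
import Pool.Agent.Helper41.Gap.TransFixed
import Pool.Agent.Helper41.Gap.TransComm
import Pool.Agent.Helper41.Gap.Shift
import Pool.Agent.Helper41.Gap.Nontriv
import Pool.Agent.Helper41.Gap.PsiAdd
import Pool.Agent.Helper41.Gap.Kernel
import Pool.Agent.Helper41.Gap.SmallGen
import Pool.Agent.Helper41.Gap.Num3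

set_option autoImplicit false

open scoped Pointwise RealInnerProductSpace TensorProduct
open ProbabilityTheory MeasureTheory Module

namespace Pool.Agent.Helper41.Gap

namespace OneStepAux

theorem one_mem_pow' {G : Type} [Group G] [DecidableEq G] {S : Finset G} (hS : SymOne S) (r : ℕ) :
    (1 : G) ∈ S ^ r := by
  induction r with
  | zero => simp
  | succ n ih =>
    rw [pow_succ]
    exact Finset.mem_mul.2 ⟨1, ih, 1, hS.one, by simp⟩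

theorem inv_mem_pow' {G : Type} [Group G] [DecidableEq G] {S : Finset G} (hS : SymOne S) (r : ℕ) :
    ∀ g ∈ S ^ r, g⁻¹ ∈ S ^ r := by
  induction r with
  | zero => intro g hg; simp at hg; simp [hg]
  | succ n ih =>
    intro g hg
    rw [pow_succ] at hg
    obtain ⟨a, ha, b, hb, rfl⟩ := Finset.mem_mul.1 hg
    rw [pow_succ', mul_inv_rev]
    exact Finset.mul_mem_mul (hS.inv _ hb) (ih _ ha)

theorem pow_mono' {G : Type} [Group G] [DecidableEq G] {S : Finset G} (hS : SymOne S) {a b : ℕ}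
    (h : a ≤ b) : S ^ a ⊆ S ^ b := by
  obtain ⟨c, rfl⟩ := Nat.exists_eq_add_of_le h
  intro g hg
  rw [pow_add]
  exact Finset.mem_mul.2 ⟨g, hg, 1, one_mem_pow' hS c, by simp⟩

theorem pow_subset_pow' {G : Type} [Group G] [DecidableEq G] {S T : Finset G} {m : ℕ}
    (hT : T ⊆ S ^ m) (r : ℕ) : T ^ r ⊆ S ^ (m * r) := by
  rw [pow_mul]
  exact Finset.pow_subset_pow_left hT

theorem pow_subset_closure' {G : Type} [Group G] [DecidableEq G] {T : Finset G} (r : ℕ) :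
    ∀ g ∈ T ^ r, g ∈ Subgroup.closure (T : Set G) := by
  induction r with
  | zero => intro g hg; simp at hg; rw [hg]; exact Subgroup.one_mem _
  | succ n ih =>
    intro g hg
    rw [pow_succ] at hg
    obtain ⟨a, ha, b, hb, rfl⟩ := Finset.mem_mul.1 hg
    exact Subgroup.mul_mem _ (ih _ ha) (Subgroup.subset_closure (by exact_mod_cast hb))

theorem exists_pow' {G : Type} [Group G] [DecidableEq G] {S : Finset G} (hS : SymOne S)
    (hgen : Subgroup.closure (S : Set G) = ⊤) (g : G) : ∃ r, g ∈ S ^ r := by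
  have hg : g ∈ Subgroup.closure (S : Set G) := by rw [hgen]; trivial
  induction hg using Subgroup.closure_induction with
  | mem x hx => exact ⟨1, by simpa using hx⟩
  | one => exact ⟨0, by simp⟩
  | mul x y _ _ hx hy =>
    obtain ⟨a, ha⟩ := hx
    obtain ⟨b, hb⟩ := hy
    exact ⟨a + b, by rw [pow_add]; exact Finset.mul_mem_mul ha hb⟩
  | inv x _ hx =>
    obtain ⟨a, ha⟩ := hx
    exact ⟨a, inv_mem_pow' hS a _ ha⟩

theorem finiteIndex_of_net {G : Type} [Group G] [DecidableEq G] {S T U : Finset G}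
    (hS : SymOne S) (hgen : Subgroup.closure (S : Set G) = ⊤)
    (hnet : ∀ k : ℕ, ∀ g ∈ S ^ k, ∃ w ∈ T ^ k, ∃ u ∈ U, g = w * u) :
    (Subgroup.closure (T : Set G)).FiniteIndex := by
  set H := Subgroup.closure (T : Set G) with hH
  have hsurj : Function.Surjective (fun u : U => ((((u : G)⁻¹ : G)) : G ⧸ H)) := by
    intro x
    obtain ⟨x, rfl⟩ := QuotientGroup.mk_surjective x
    obtain ⟨r, hr⟩ := exists_pow' hS hgen x⁻¹
    obtain ⟨w, hw, u, hu, he⟩ := hnet r _ hr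
    refine ⟨⟨u, hu⟩, ?_⟩
    change ((u⁻¹ : G) : G ⧸ H) = ((x : G) : G ⧸ H)
    rw [QuotientGroup.eq]
    have : (u⁻¹)⁻¹ * x = w⁻¹ := by
      have h2 : x = (w * u)⁻¹ := by rw [← he]; simp
      rw [h2]; group
    rw [this]
    exact H.inv_mem (pow_subset_closure' r w hw)
  have : Finite (G ⧸ H) := Finite.of_surjective _ hsurj
  exact Subgroup.finiteIndex_of_finite_quotient

end OneStepAux

open OneStepAux Pool.Agent.Helper41.Gap.Num

theorem one_step : OneStep := by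
  refine ⟨10 ^ 10, ?_⟩
  intro K hK0 G _ _ _ S hS hgen hsub hScard Λ hΛ1 hΛ hgrow
  set k : ℝ := (K : ℝ) with hkdef
  have hk : (10 : ℝ) ^ 10 ≤ k := by rw [hkdef]; exact_mod_cast hK0
  have hk1 : (1 : ℝ) ≤ k := by linarith
  have hs1 : 1 ≤ S.card := Finset.card_pos.2 ⟨1, hS.one⟩
  have hc : ∀ r, 1 ≤ (fun r => (S ^ r).card) r := fun r =>
    Finset.card_pos.2 ⟨1, one_mem_pow' hS r⟩
  -- time scale
  obtain ⟨τ, hτ⟩ : ∃ τ : ℕ, τ = ⌈Real.exp (k ^ 30)⌉₊ := ⟨_, rfl⟩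
  obtain ⟨t1, t2, t3, t4, t5⟩ := num_tau hk hkdef hs1 hScard hτ hΛ1 hΛ hc hgrow
  obtain ⟨η0, hη0, hex⟩ := exists_ainv hS k hk1 τ t1 t2 t3 t4
  have hη : 0 < min η0 (Real.exp (-k ^ 14)) := lt_min hη0 (Real.exp_pos _)
  obtain ⟨E, iE1, iE2, c, hgood⟩ := exists_good G S hS hgen hsub _ hη
  obtain ⟨V, hfd, hdim, hA, hen⟩ := hex E c ⟨hgood.energy, hgood.mean.trans (min_le_left _ _)⟩
  obtain ⟨σ, hσdef⟩ : ∃ σ : ℝ, σ = (τ : ℝ) ^ (-(1 / 3 : ℝ)) := ⟨_, rfl⟩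
  rw [← hσdef] at hA t5
  have hσ0 := hA.nonneg
  obtain ⟨d, hd⟩ : ∃ d : ℕ, d = finrank ℝ V := ⟨_, rfl⟩
  rw [← hd] at hdim
  obtain ⟨n, hn⟩ : ∃ n : ℕ, n = K ^ 8 := ⟨_, rfl⟩
  obtain ⟨A, hAdef⟩ : ∃ A : ℕ, A = 2 ^ (16 * K) := ⟨_, rfl⟩
  obtain ⟨ε, hε⟩ : ∃ ε : ℝ, ε = 1 / (64 * 2 ^ (16 * K)) := ⟨_, rfl⟩
  obtain ⟨I, hI⟩ : ∃ I : ℕ, I = ⌈(8 * (d : ℝ) / ε + 2) ^ (d ^ 2)⌉₊ := ⟨_, rfl⟩
  obtain ⟨m, hm⟩ : ∃ m : ℕ, m = 2 * I + 1 := ⟨_, rfl⟩
  obtain ⟨hI1, hIe, hme, h4I, hdε, hε8⟩ := num_net hk hkdef hdim hε hI hm hσ0 t5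
  have hm1 : 1 ≤ m := by omega
  have hε0 : 0 < ε := by rw [hε]; positivity
  have hεA : ε = 1 / (64 * (A : ℝ)) := by rw [hε, hAdef]; push_cast; ring
  have hA1 : 1 ≤ A := by rw [hAdef]; exact Nat.one_le_pow _ _ (by norm_num)
  have hA0 : (0 : ℝ) < A := by exact_mod_cast hA1
  have hAε : (A : ℝ) * ε ≤ 1 / 64 := by
    rw [hεA]; apply le_of_eq; field_simp
  have hn1 : 1 ≤ n := by rw [hn]; exact Nat.one_le_pow _ _ (by omega)
  -- the set of almost identity elements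
  obtain ⟨T, hTdef⟩ : ∃ T : Finset G, T = TT S c V m ε := ⟨_, rfl⟩
  have hTmem : ∀ t, t ∈ T ↔ t ∈ S ^ m ∧ NN c V t ≤ ε := by
    intro t
    rw [hTdef, TT]
    simp
  have hT : T ⊆ S ^ m := fun t ht => ((hTmem t).1 ht).1
  have hTN : ∀ t ∈ T, NN c V t ≤ ε := fun t ht => ((hTmem t).1 ht).2
  have hT1 : SymOne T := by
    refine ⟨(hTmem 1).2 ⟨one_mem_pow' hS m, ?_⟩, fun t ht => (hTmem _).2
      ⟨inv_mem_pow' hS m _ (hT ht), ?_⟩⟩
    · rw [NN_one]; exact hε0.le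
    · rw [NN_inv]; exact hTN t ht
  obtain ⟨U, hU, -, hnet⟩ := exists_net hS hA ε hε0 (by linarith) I
    (by rw [← hd, hI]; exact Nat.le_ceil _) h4I
  rw [← hm, ← hTdef] at hnet
  -- linear part
  have hgr : ∀ j : ℕ, j ≤ 3 → (S ^ (A * (2 ^ (n + j) * m))).card < A ^ n := by
    intro j hj
    obtain ⟨g1, g2, g3⟩ := num_glin hk hkdef hn hAdef hme hj
    have h1 := grow_exp hk hΛ1 hΛ hc hgrow (r := A * (2 ^ (n + j) * m))
      (Nat.one_le_iff_ne_zero.2 (by positivity)) g1 g2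
    exact_mod_cast h1.trans_lt g3
  obtain ⟨χ, hχ⟩ : ∃ χ : ℝ, χ = Real.exp (-27 * k ^ 21) := ⟨_, rfl⟩
  have hχ0 : 0 < χ := by rw [hχ]; exact Real.exp_pos _
  have hχ1 : χ ≤ 1 := by
    rw [hχ]; apply Real.exp_le_one_iff.2
    have := pw_one hk 21
    linarith
  obtain ⟨ζ, hζ⟩ : ∃ ζ : ℝ, ζ = χ * (χ / 2) ^ n *
    ((4 * ((finrank ℝ V : ℝ) + 1)) ^ (n ^ 2))⁻¹ := ⟨_, rfl⟩
  have hζe : Real.exp (-28 * k ^ 29) ≤ ζ := by
    rw [hζ, hχ, hn, ← hd]; exact zeta1 hk hkdef hdim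
  have hcomm : ∀ g ∈ T, ∀ h ∈ T, NN c V (cm g h) ≤ χ := by
    refine lin_comm hS hA m n A ε χ T hT hTN hm1 hn1 hA1 hε0 (by rw [← hd]; exact hdε) hε8 hAε
      (hgr 2 (by norm_num)) hχ0 hχ1 ζ hζ ?_
    have := num_lin hk hkdef hdim hme hσ0 t5 hε hζe
    rw [← hd, hAdef, hn]
    exact this
  -- translation part
  obtain ⟨χ₂, hχ₂⟩ : ∃ χ₂ : ℝ, χ₂ = Real.exp (-10 * k ^ 13) := ⟨_, rfl⟩
  have hχ₂0 : 0 < χ₂ := by rw [hχ₂]; exact Real.exp_pos _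
  obtain ⟨Y, hY⟩ : ∃ Y : ℝ, Y = √(2 * (S.card : ℝ)) * (2 ^ (n + 4) * m) := ⟨_, rfl⟩
  obtain ⟨ζ₂, hζ₂⟩ : ∃ ζ₂ : ℝ, ζ₂ = χ₂ * (χ₂ / Y) ^ n * ((2 : ℝ) ^ (n ^ 2))⁻¹ := ⟨_, rfl⟩
  obtain ⟨u1, u2, u3, u4, u5⟩ := num_trans hk hkdef hn hAdef hm1 hme hs1 hScard hσ0 t5 hεA hχ hχ₂
    hY hζ₂
  have hfix := trans_fixed hS hA hgood m n A ε χ χ₂ T hT hTN hm1 hn1 hA1 hε0 hε8 hAε
    (hgr 3 le_rfl) hχ0 hcomm Y ζ₂ hY hχ₂0 u1 hζ₂ u3 u4 u5 u2
  have htc := trans_comm hS hA hgood m χ χ₂ _ T hT1 hT hm1 rfl hχ0 hcomm hχ₂0 hfix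
  obtain ⟨χ₄, hχ₄⟩ : ∃ χ₄ : ℝ, χ₄ = Real.exp (-4 * k ^ 13) := ⟨_, rfl⟩
  have hχ₄0 : 0 ≤ χ₄ := by rw [hχ₄]; exact (Real.exp_pos _).le
  have htr : ∀ g ∈ T, ∀ h ∈ T, ‖V.starProjection (c.b (cm g h))‖ ≤ χ₄ := by
    intro g hg h hh
    have h1 := (htc g hg h hh).trans (num_comm hk hme hScard hσ0 t5 hχ hχ₂ hχ₄ rfl)
    exact le_of_sq_le_sq h1 hχ₄0
  -- harmonic shift
  obtain ⟨Q, hQ⟩ : ∃ Q : ℝ, Q = Real.exp (20 * k ^ 10) := ⟨_, rfl⟩
  have hQ1 : 1 < Q := by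
    rw [hQ]; apply Real.one_lt_exp_iff.2
    have := pw_one hk 10
    linarith
  obtain ⟨F, hF⟩ : ∃ F : ℝ, F = T.card * ((m : ℝ) * √(2 * (S.card : ℝ))) ^ 2 := ⟨_, rfl⟩
  obtain ⟨v, hv, w, hw0, hw1, hw2, hw3, hshift⟩ := harmonic_shift hS hA m ε χ χ₄
    ((m : ℝ) * √(2 * (S.card : ℝ))) F Q T hT1 hT hm1 hχ0.le hχ₄0 hQ1
    (fun t ht => (hTN t ht).trans (by linarith)) hcomm htr
    (fun t ht => norm_b_le hS hgood m (hT ht)) hF
  rw [← hd] at hw1 hw2 hw3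
  have hTcard : (T.card : ℝ) ≤ Real.exp (2 * k ^ 9) := by
    have h1 : (T.card : ℝ) ≤ ((S ^ m).card : ℝ) := by exact_mod_cast Finset.card_le_card hT
    obtain ⟨p1, p2, p3⟩ := pws hk
    have q6 := pw_one hk 6
    have h2 := grow_exp hk hΛ1 hΛ hc hgrow (r := m) hm1 (hme.trans (Real.exp_le_exp.2
      (show k ^ 6 ≤ k ^ 8 by linarith [p1.2.2.2.2.2.1, p1.2.2.2.2.2.2])))
      (by linarith [p2.1, p2.2.1, p2.2.2.1, p2.2.2.2.1, p2.2.2.2.2.1, p2.2.2.2.2.2, p3.1,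
        p3.2.1, p3.2.2.1, p3.2.2.2.1, p3.2.2.2.2.1, p3.2.2.2.2.2, pw_one hk 8])
    refine h1.trans (h2.trans (Real.exp_le_exp.2 (le_of_eq (by ring))))
  obtain ⟨s1, s2, s3⟩ := num_shift1 hk hme hScard hTcard hdim hF hQ hw1 hw2 hw3
  obtain ⟨R, hR⟩ : ∃ R : ℝ, R = √(2 * (S.card : ℝ)) * I + 4 * ‖v‖ + 1 := ⟨_, rfl⟩
  obtain ⟨hR1, hRe⟩ := num_R hk hIe hScard (norm_nonneg v) s3 hR
  obtain ⟨k', r1, r2, r3, r4⟩ := num_nontriv hk hme hScard (norm_nonneg v) s3 hσ0 t5 hR1 hRe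
    hη.le (min_le_right _ _)
  have hΘ0 : (0 : ℝ) < 1 / (9000 * k ^ 2) := by positivity
  have hΘ1 : (1 : ℝ) / (9000 * k ^ 2) ≤ 1 := by
    rw [div_le_one (by positivity)]
    have := pw_one hk 2
    linarith
  obtain ⟨t', ht', hB'⟩ := shift_nontrivial hS hA hgood m I k' (1 / (9000 * k ^ 2)) _ R T U hT hU hT1
    hm1 hI1 hnet hΘ0 hΘ1 hen v hv rfl hR r1 r2 r3 r4
  obtain ⟨t₀, ht₀, hmax⟩ := Finset.exists_max_image T
    (fun t => ‖V.starProjection (sb c v t)‖) ⟨1, hT1.one⟩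
  obtain ⟨B, hB⟩ : ∃ B : ℝ, B = ‖V.starProjection (sb c v t₀)‖ := ⟨_, rfl⟩
  rw [← hB] at hmax
  have hBlow : 1 / (9000 * k ^ 2) / (48 * R) ≤ B := hB'.trans (hmax t' ht')
  obtain ⟨hB0, v1, v2⟩ := num_shift2 hk hme hIe hScard hTcard hw0 (norm_nonneg v) s1 s2 s3 hσ0 t5
    hχ hχ₄ hR hBlow
  have hωle : ∀ t ∈ T, ∀ h ∈ T, ‖c.L t (V.starProjection (sb c v h)) -
      V.starProjection (sb c v h)‖ ≤ Real.exp (-4 * k ^ 10) * B := by
    intro t ht h hh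
    have h1 := (hshift B hmax t ht h hh).trans v1
    exact le_of_sq_le_sq h1 (by positivity)
  have hsb : ∀ t ∈ T, ‖sb c v t‖ ≤ (m : ℝ) * √(2 * (S.card : ℝ)) + 2 * ‖v‖ := by
    intro t ht
    have h1 := norm_b_le hS hgood m (hT ht)
    have h2 : ‖v - c.L t v‖ ≤ 2 * ‖v‖ := by
      calc ‖v - c.L t v‖ ≤ ‖v‖ + ‖c.L t v‖ := norm_sub_le _ _
        _ = 2 * ‖v‖ := by rw [LinearIsometryEquiv.norm_map]; ring
    calc ‖sb c v t‖ ≤ ‖c.b t‖ + ‖v - c.L t v‖ := norm_sub_le _ _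
      _ ≤ _ := add_le_add h1 h2
  have hadd' := psi_add hS hA m T hT1 hT v hv (Real.exp (-4 * k ^ 10) * B)
    ((m : ℝ) * √(2 * (S.card : ℝ)) + 2 * ‖v‖) (by positivity) (by positivity) hωle hsb
  -- kernel step
  obtain ⟨Qk, hQk⟩ : ∃ Qk : ℕ, Qk = K ^ 10 := ⟨_, rfl⟩
  obtain ⟨nk, hnk⟩ : ∃ nk : ℕ, nk = ⌈Real.exp (3 * k ^ 8)⌉₊ := ⟨_, rfl⟩
  obtain ⟨QB, hQB⟩ : ∃ QB : ℕ, QB = 4 * (nk + 1) * (2 * Qk + 6) := ⟨_, rfl⟩
  obtain ⟨ω, hω⟩ : ∃ ω : ℝ, ω = (QB : ℝ) ^ 2 * (2 * Real.exp (-4 * k ^ 10)) := ⟨_, rfl⟩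
  have hω1 := num_kernel hk hkdef hQk hnk hQB hω
  have hω0 : 0 ≤ ω := by rw [hω]; positivity
  have hnk1 : 1 ≤ nk := by
    rw [hnk]; exact Nat.one_le_iff_ne_zero.2 (by
      rw [Ne, Nat.ceil_eq_zero]; push Not; exact Real.exp_pos _)
  have hQk1 : 1 ≤ Qk := by rw [hQk]; exact Nat.one_le_pow _ _ (by omega)
  have hker : ∀ x : ℕ, x ≤ 2 * Qk + 6 → (S ^ (Qk * (m * x))).card < 2 ^ Qk := by
    intro x hx
    obtain ⟨g1, g2, g3⟩ := num_gker hk hkdef hQk hme hx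
    rcases Nat.eq_zero_or_pos x with h0 | h0
    · subst h0
      simp only [mul_zero, pow_zero]
      have : Finset.card (1 : Finset G) = 1 := by simp
      rw [this]
      exact Nat.one_lt_two_pow (by omega)
    · have h1 := grow_exp hk hΛ1 hΛ hc hgrow (r := Qk * (m * x))
        (Nat.one_le_iff_ne_zero.2 (by positivity)) g1 g2
      exact_mod_cast h1.trans_lt g3
  obtain ⟨q, M, hq, hM1, hMT, hMnorm, hMcomm, hMgrow⟩ := kernel_step T hT1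
    (fun g => (1 / B) • V.starProjection (sb c v g)) (by simp [sb, coc_one]) nk Qk QB hnk1 hQk1 ω
    hω0 (by
      intro q₁ q₂ hq12 g hg h hh
      have h1 := hadd' q₁ q₂ g h hg hh
      have h2 : (1 / B) • V.starProjection (sb c v (g * h)) - (1 / B) • V.starProjection (sb c v g) -
          (1 / B) • V.starProjection (sb c v h) = (1 / B) • (V.starProjection (sb c v (g * h)) -
            V.starProjection (sb c v g) - V.starProjection (sb c v h)) := by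
        rw [smul_sub, smul_sub]
      rw [h2, norm_smul, Real.norm_of_nonneg (by positivity)]
      have h3 : ((q₁ : ℝ) + q₂) ^ 2 ≤ (QB : ℝ) ^ 2 := by
        have : (q₁ : ℝ) + q₂ ≤ QB := by exact_mod_cast hq12
        gcongr
      rw [hω]
      calc 1 / B * ‖V.starProjection (sb c v (g * h)) -
            V.starProjection (sb c v g) - V.starProjection (sb c v h)‖
          ≤ 1 / B * (((q₁ : ℝ) + q₂) ^ 2 * (Real.exp (-4 * k ^ 10) * B +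
            m * σ * ((m : ℝ) * √(2 * (S.card : ℝ)) + 2 * ‖v‖))) := by gcongr
        _ ≤ 1 / B * ((QB : ℝ) ^ 2 * (Real.exp (-4 * k ^ 10) * B +
            Real.exp (-4 * k ^ 10) * B)) := by gcongr
        _ = (QB : ℝ) ^ 2 * (2 * Real.exp (-4 * k ^ 10)) := by field_simp; ring)
    (by rw [hQB])
    ⟨t₀, ht₀, by
      rw [norm_smul, Real.norm_of_nonneg (by positivity), ← hB]
      apply le_of_eq; field_simp⟩
    hω1
    (by
      have h1 : T ^ (Qk * (2 * Qk + 6)) ⊆ S ^ (Qk * (m * (2 * Qk + 6))) := by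
        have := pow_subset_pow' hT (Qk * (2 * Qk + 6))
        rwa [show m * (Qk * (2 * Qk + 6)) = Qk * (m * (2 * Qk + 6)) by ring] at this
      exact (Finset.card_le_card h1).trans_lt (hker _ le_rfl))
  obtain ⟨hN1, hN2⟩ := comm_closure T (Subgroup.closure (M : Set G)) hT1 hMnorm hMcomm
  obtain ⟨M', hM'1, hM'M, hM'card, hM'cl⟩ := small_generating S M hS hM1 (m * q) Qk
    (hMT.trans (pow_subset_pow' hT q)) (hker q (by omega))
  have hMle : Subgroup.closure (M : Set G) ≤ Subgroup.closure (T : Set G) := by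
    rw [Subgroup.closure_le]
    intro x hx
    exact pow_subset_closure' q x (hMT (by exact_mod_cast hx))
  have hQe := Q_le_exp hk hkdef hQk
  have hQk0 : (0 : ℝ) ≤ Qk := by positivity
  refine ⟨m * (q + 1), Subgroup.closure (T : Set G), Subgroup.closure (M : Set G), M', ?_, ?_,
    finiteIndex_of_net hS hgen hnet, ⟨T, rfl⟩, hMle, hN1, hN2, hM'1, hM'cl, ?_, ?_, ?_⟩
  · exact Nat.one_le_iff_ne_zero.2 (by positivity)
  · have h1 : ((m * (q + 1) : ℕ) : ℝ) ≤ Real.exp (k ^ 6 + k) := by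
      push_cast
      refine mul_exp (by positivity) hme ?_
      have : (q : ℝ) ≤ 2 * Qk + 4 := by exact_mod_cast hq
      linarith
    have h2 : (0 : ℝ) < ((m * (q + 1) : ℕ) : ℝ) := by
      have : 0 < m * (q + 1) := by positivity
      exact_mod_cast this
    refine ((Real.log_le_iff_le_exp h2).2 h1).trans ?_
    obtain ⟨p1, -, -⟩ := pws hk
    linarith [p1.1, p1.2.1, p1.2.2.1, p1.2.2.2.1, p1.2.2.2.2.1]
  · intro x hx
    have h1 := pow_subset_pow' hT q (hMT (hM'M hx))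
    exact pow_mono' hS (Nat.mul_le_mul_left m (Nat.le_succ q)) h1
  · have : (M'.card : ℝ) ≤ 2 * Qk + 1 := by exact_mod_cast hM'card
    linarith
  · intro r hr hlr
    have h1 : r ≤ nk := by
      have h2 : (r : ℝ) ≤ nk := by
        have h3 : (r : ℝ) ≤ Real.exp (3 * k ^ 8) :=
          (Real.log_le_iff_le_exp (by exact_mod_cast hr)).1 hlr
        rw [hnk]; exact h3.trans (Nat.le_ceil _)
      exact_mod_cast h2
    have h2 : (M' ^ r).card ≤ (M ^ r).card :=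
      Finset.card_le_card (Finset.pow_subset_pow_left hM'M)
    have h3 : T ^ (r * (q + 1)) ⊆ S ^ (m * (q + 1) * r) := by
      have := pow_subset_pow' hT (r * (q + 1))
      rwa [show m * (r * (q + 1)) = m * (q + 1) * r by ring] at this
    calc r * (M' ^ r).card ≤ r * (M ^ r).card := Nat.mul_le_mul_left _ h2
      _ ≤ (T ^ (r * (q + 1))).card := hMgrow r hr h1
      _ ≤ _ := Finset.card_le_card h3

end Pool.Agent.Helper41.Gap
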