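import Pool.Agent.Helper41.Gap.GaussA
import Pool.Agent.Helper41.Gap.GaussB

set_option autoImplicit false

open scoped Pointwise RealInnerProductSpace TensorProduct
open ProbabilityTheory MeasureTheory Module

namespace Pool.Agent.Helper41.Gap

/-- One greedy step: the potential can be raised by `R2`. -/
private theorem steer_step {W : Type} [NormedAddCommGroup W] [InnerProductSpace ℝ W]
    {κ : Type} [Fintype κ] (b v : W) (D : κ → W) (p : κ → ℝ) (hp : ∀ z, 0 ≤ p z)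
    (hp1 : ∑ z, p z = 1) (R2 η Rmax s : ℝ) (hR2 : 0 < R2) (hs : 0 < s)
    (h1 : ∑ z, p z * ‖D z‖ ^ 2 = R2)
    (h3 : ‖∑ z, p z • D z‖ ≤ η) (h4 : ∀ z, ‖D z‖ ≤ Rmax) (hη1 : 2 * (s * η) ≤ R2 / 2)
    (ha : |⟪v, b⟫| ≤ s * ‖b‖) (hb : ∀ z, |⟪v, D z⟫| ≤ s * ‖D z‖)
    (hc : |⟪v, ∑ z, p z • D z⟫| ≤ s * ‖∑ z, p z • D z‖)
    (hPhi : 0 ≤ 2 * ⟪v, b⟫ - ‖b‖ ^ 2)
    (he : 9 * s * Rmax * R2 < ∑ z, p z * ⟪v - b, D z⟫ ^ 2) :
    ∃ z, 2 * ⟪v, b⟫ - ‖b‖ ^ 2 + R2 ≤ 2 * ⟪v, b + D z⟫ - ‖b + D z‖ ^ 2 := by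
  have hb0 : 0 ≤ ‖b‖ := norm_nonneg b
  have hbn : ‖b‖ ≤ 2 * s := by
    by_contra hcon
    push Not at hcon
    have h5 : ⟪v, b⟫ ≤ s * ‖b‖ := (le_abs_self _).trans ha
    nlinarith
  have hRm0 : 0 ≤ Rmax ∨ IsEmpty κ := by
    rcases isEmpty_or_nonempty κ with h | ⟨⟨z⟩⟩
    · exact Or.inr h
    · exact Or.inl ((norm_nonneg _).trans (h4 z))
  have hx : ∀ z, |⟪v - b, D z⟫| ≤ 3 * s * Rmax := by
    intro z
    have h5 : |⟪v - b, D z⟫| ≤ |⟪v, D z⟫| + |⟪b, D z⟫| := by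
      rw [inner_sub_left]
      exact abs_sub _ _
    have h6 : |⟪b, D z⟫| ≤ ‖b‖ * ‖D z‖ := abs_real_inner_le_norm _ _
    have h7 := hb z
    have h8 := h4 z
    have h9 : 0 ≤ ‖D z‖ := norm_nonneg _
    nlinarith
  -- the mean of `x`
  have hmean : ∑ z, p z * ⟪v - b, D z⟫ = ⟪v - b, ∑ z, p z • D z⟫ := by
    rw [inner_sum]
    exact Finset.sum_congr rfl fun z _ => by rw [real_inner_smul_right]
  have hmean2 : -(3 / 4 * R2) ≤ ∑ z, p z * ⟪v - b, D z⟫ := by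
    rw [hmean, inner_sub_left]
    have h5 : |⟪b, ∑ z, p z • D z⟫| ≤ ‖b‖ * ‖∑ z, p z • D z‖ := abs_real_inner_le_norm _ _
    have h6 := neg_abs_le ⟪v, ∑ z, p z • D z⟫
    have h7 := le_abs_self ⟪b, ∑ z, p z • D z⟫
    have h8 : 0 ≤ ‖∑ z, p z • D z‖ := norm_nonneg _
    nlinarith
  by_contra hcon
  push Not at hcon
  have hx2 : ∀ z, 2 * ⟪v - b, D z⟫ < R2 + ‖D z‖ ^ 2 := by
    intro z
    have h5 := hcon z
    rw [inner_add_right, norm_add_sq_real] at h5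
    rw [inner_sub_left]
    linarith
  have habs : ∀ z, |⟪v - b, D z⟫| ≤ R2 + ‖D z‖ ^ 2 - ⟪v - b, D z⟫ := by
    intro z
    have h5 := hx2 z
    have h6 : 0 ≤ ‖D z‖ ^ 2 := by positivity
    rcases abs_cases ⟪v - b, D z⟫ with ⟨h7, _⟩ | ⟨h7, _⟩ <;> rw [h7] <;> linarith
  have hsum1 : ∑ z, p z * |⟪v - b, D z⟫| ≤ R2 + R2 + 3 / 4 * R2 := by
    calc ∑ z, p z * |⟪v - b, D z⟫|
        ≤ ∑ z, p z * (R2 + ‖D z‖ ^ 2 - ⟪v - b, D z⟫) :=
          Finset.sum_le_sum fun z _ => mul_le_mul_of_nonneg_left (habs z) (hp z)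
      _ = R2 * ∑ z, p z + ∑ z, p z * ‖D z‖ ^ 2 - ∑ z, p z * ⟪v - b, D z⟫ := by
          rw [Finset.mul_sum, ← Finset.sum_add_distrib, ← Finset.sum_sub_distrib]
          exact Finset.sum_congr rfl fun z _ => by ring
      _ ≤ R2 + R2 + 3 / 4 * R2 := by
          rw [hp1, h1]
          linarith
  have hsum2 : ∑ z, p z * ⟪v - b, D z⟫ ^ 2 ≤ 3 * s * Rmax * ∑ z, p z * |⟪v - b, D z⟫| := by
    rw [Finset.mul_sum]
    refine Finset.sum_le_sum fun z _ => ?_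
    have h5 := hx z
    have h6 := abs_nonneg ⟪v - b, D z⟫
    have h7 : ⟪v - b, D z⟫ ^ 2 = |⟪v - b, D z⟫| * |⟪v - b, D z⟫| := by
      rw [← sq, sq_abs]
    rw [h7]
    have h8 : |⟪v - b, D z⟫| * |⟪v - b, D z⟫| ≤ 3 * s * Rmax * |⟪v - b, D z⟫| :=
      mul_le_mul_of_nonneg_right h5 h6
    calc p z * (|⟪v - b, D z⟫| * |⟪v - b, D z⟫|) ≤ p z * (3 * s * Rmax * |⟪v - b, D z⟫|) :=
          mul_le_mul_of_nonneg_left h8 (hp z)
      _ = 3 * s * Rmax * (p z * |⟪v - b, D z⟫|) := by ring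
  rcases hRm0 with hRm0 | hemp
  · have h5 : 3 * s * Rmax * ∑ z, p z * |⟪v - b, D z⟫| ≤ 3 * s * Rmax * (R2 + R2 + 3 / 4 * R2) :=
      mul_le_mul_of_nonneg_left hsum1 (by positivity)
    have h6 : 0 ≤ s * Rmax * R2 := by positivity
    nlinarith
  · rw [Finset.univ_eq_empty, Finset.sum_empty] at hp1
    exact zero_ne_one hp1

/-- The steering lemma, abstract form. -/
theorem steering {W : Type} [NormedAddCommGroup W] [InnerProductSpace ℝ W]
    [FiniteDimensional ℝ W] [MeasurableSpace W] [BorelSpace W]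
    {ι κ : Type} [Fintype ι] [Fintype κ] [Nonempty κ]
    (β : ι → W) (i0 : ι) (hβ0 : β i0 = 0) (L : ℕ)
    (st : ℕ → Set ι) (hi0 : i0 ∈ st 0)
    (next : ι → κ → ι) (hnext : ∀ j < L, ∀ i ∈ st j, ∀ z, next i z ∈ st (j + 1))
    (p : κ → ℝ) (hp : ∀ z, 0 ≤ p z) (hp1 : ∑ z, p z = 1)
    (R2 D η Rmax σ y : ℝ) (hR2 : 0 < R2) (hD : 0 < D) (hη : 0 ≤ η) (hRm : 0 < Rmax) (hσ : 0 < σ)
    (h1 : ∀ j < L, ∀ i ∈ st j, ∑ z, p z * ‖β (next i z) - β i‖ ^ 2 = R2)
    (h2 : ∀ j < L, ∀ i ∈ st j, ∀ u : W, ∑ z, p z * ⟪u, β (next i z) - β i⟫ ^ 2 ≤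
      R2 / D * ‖u‖ ^ 2)
    (h3 : ∀ j < L, ∀ i ∈ st j, ‖∑ z, p z • (β (next i z) - β i)‖ ≤ η)
    (h4 : ∀ j < L, ∀ i ∈ st j, ∀ z, ‖β (next i z) - β i‖ ≤ Rmax)
    (hcard : Fintype.card κ ≤ Fintype.card ι)
    (hy : y = √(2 * Real.log (16 * (Fintype.card ι : ℝ) ^ 2)))
    (hL : 2 * σ ^ 2 * (Real.log (Fintype.card ι) + 2) ≤ L * R2)
    (hη1 : 2 * σ * η * y ≤ R2 / 2) :
    1 / (4 * (Fintype.card ι : ℝ)) ≤ (25 * Rmax * y / σ) ^ (D / 2) := by
  classical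
  set n : ℝ := (Fintype.card ι : ℝ) with hn
  have hn1 : 1 ≤ n := by
    have : 0 < Fintype.card ι := Fintype.card_pos_iff.mpr ⟨i0⟩
    rw [hn]
    exact_mod_cast this
  have hn0 : 0 < n := by linarith
  have h16 : 1 < 16 * n ^ 2 := by nlinarith
  have hlog : 0 < Real.log (16 * n ^ 2) := Real.log_pos h16
  have hypos : 0 < y := by
    rw [hy]
    exact Real.sqrt_pos.mpr (by linarith)
  have hysq : y ^ 2 = 2 * Real.log (16 * n ^ 2) := by
    rw [hy]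
    exact Real.sq_sqrt (by linarith)
  have hexp : 2 * Real.exp (-y ^ 2 / 2) = 1 / (8 * n ^ 2) := by
    have h5 : -y ^ 2 / 2 = -Real.log (16 * n ^ 2) := by
      rw [hysq]
      ring
    rw [h5, Real.exp_neg, Real.exp_log (by positivity)]
    field_simp
    norm_num
  let Dz : ι → κ → W := fun i z => β (next i z) - β i
  let q0 : ℝ := 9 * (σ * y) * Rmax * R2
  have hq0 : 0 < q0 := by positivity
  let μ := stdGaussian W
  let A1 : ι → Set W := fun i => {ξ | y * ‖β i‖ < |⟪ξ, β i⟫|}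
  let A2 : ι × κ → Set W := fun x => {ξ | y * ‖Dz x.1 x.2‖ < |⟪ξ, Dz x.1 x.2⟫|}
  let A3 : ι → Set W := fun i => {ξ | y * ‖∑ z, p z • Dz i z‖ < |⟪ξ, ∑ z, p z • Dz i z⟫|}
  let A4 : ι → Set W := fun i => {ξ | L * R2 ≤ 2 * ⟪σ • ξ, β i⟫ - ‖β i‖ ^ 2}
  let A5 : ι → Set W := fun i => {ξ | (∃ j < L, i ∈ st j) ∧
    ∑ z, p z * ⟪σ • ξ + -β i, Dz i z⟫ ^ 2 ≤ q0}
  -- the events cover everything
  have hcover : (Set.univ : Set W) ⊆
      (⋃ i, A1 i) ∪ ((⋃ x, A2 x) ∪ ((⋃ i, A3 i) ∪ ((⋃ i, A4 i) ∪ (⋃ i, A5 i)))) := by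
    intro ξ _
    by_contra hξ
    simp only [Set.mem_union, Set.mem_iUnion, not_or, not_exists] at hξ
    obtain ⟨e1, e2, e3, e4, e5⟩ := hξ
    have f1 : ∀ b : W, ¬ (y * ‖b‖ < |⟪ξ, b⟫|) → |⟪σ • ξ, b⟫| ≤ (σ * y) * ‖b‖ := by
      intro b hb
      rw [real_inner_smul_left, abs_mul, abs_of_pos hσ, mul_assoc]
      exact mul_le_mul_of_nonneg_left (not_lt.mp hb) hσ.le
    have key : ∀ j ≤ L, ∃ i ∈ st j, j * R2 ≤ 2 * ⟪σ • ξ, β i⟫ - ‖β i‖ ^ 2 := by
      intro j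
      induction j with
      | zero =>
        intro _
        refine ⟨i0, hi0, ?_⟩
        rw [hβ0]
        simp
      | succ j ih =>
        intro hj
        obtain ⟨i, hi, hPhi⟩ := ih (by omega)
        have hjL : j < L := by omega
        have hPhi0 : 0 ≤ 2 * ⟪σ • ξ, β i⟫ - ‖β i‖ ^ 2 := by
          refine le_trans ?_ hPhi
          positivity
        have he : 9 * (σ * y) * Rmax * R2 < ∑ z, p z * ⟪σ • ξ - β i, Dz i z⟫ ^ 2 := by
          by_contra hcon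
          refine e5 i ⟨⟨j, hjL, hi⟩, ?_⟩
          rw [← sub_eq_add_neg]
          exact not_lt.mp hcon
        obtain ⟨z, hz⟩ := steer_step (β i) (σ • ξ) (Dz i) p hp hp1 R2 η Rmax (σ * y) hR2
          (by positivity) (h1 j hjL i hi) (h3 j hjL i hi) (h4 j hjL i hi)
          (by nlinarith) (f1 _ (e1 i)) (fun z => f1 _ (e2 (i, z))) (f1 _ (e3 i)) hPhi0 he
        refine ⟨next i z, hnext j hjL i hi z, ?_⟩
        have h5 : β i + Dz i z = β (next i z) := add_sub_cancel _ _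
        rw [h5] at hz
        push_cast
        linarith
    obtain ⟨i, hi, hPhi⟩ := key L le_rfl
    exact e4 i hPhi
  have hone : (1 : ℝ) ≤ ∑ i, μ.real (A1 i) + (∑ x, μ.real (A2 x) + (∑ i, μ.real (A3 i) +
      (∑ i, μ.real (A4 i) + ∑ i, μ.real (A5 i)))) := by
    calc (1 : ℝ) = μ.real Set.univ := probReal_univ.symm
      _ ≤ μ.real ((⋃ i, A1 i) ∪ ((⋃ x, A2 x) ∪ ((⋃ i, A3 i) ∪ ((⋃ i, A4 i) ∪ (⋃ i, A5 i))))) :=
          measureReal_mono hcover
      _ ≤ _ := by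
          refine (measureReal_union_le _ _).trans (add_le_add (measureReal_iUnion_fintype_le _) ?_)
          refine (measureReal_union_le _ _).trans (add_le_add (measureReal_iUnion_fintype_le _) ?_)
          refine (measureReal_union_le _ _).trans (add_le_add (measureReal_iUnion_fintype_le _) ?_)
          exact (measureReal_union_le _ _).trans (add_le_add (measureReal_iUnion_fintype_le _)
            (measureReal_iUnion_fintype_le _))
  have b1 : ∑ i, μ.real (A1 i) ≤ n * (1 / (8 * n ^ 2)) := by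
    calc ∑ i, μ.real (A1 i) ≤ ∑ _i : ι, 1 / (8 * n ^ 2) :=
          Finset.sum_le_sum fun i _ => (gauss_tail (β i) y hypos.le).trans hexp.le
      _ = n * (1 / (8 * n ^ 2)) := by
          rw [Finset.sum_const, Finset.card_univ, nsmul_eq_mul]
  have b3 : ∑ i, μ.real (A3 i) ≤ n * (1 / (8 * n ^ 2)) := by
    calc ∑ i, μ.real (A3 i) ≤ ∑ _i : ι, 1 / (8 * n ^ 2) :=
          Finset.sum_le_sum fun i _ => (gauss_tail _ y hypos.le).trans hexp.le
      _ = n * (1 / (8 * n ^ 2)) := by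
          rw [Finset.sum_const, Finset.card_univ, nsmul_eq_mul]
  have b2 : ∑ x, μ.real (A2 x) ≤ n * n * (1 / (8 * n ^ 2)) := by
    calc ∑ x, μ.real (A2 x) ≤ ∑ _x : ι × κ, 1 / (8 * n ^ 2) :=
          Finset.sum_le_sum fun i _ => (gauss_tail _ y hypos.le).trans hexp.le
      _ = (n * (Fintype.card κ : ℝ)) * (1 / (8 * n ^ 2)) := by
          rw [Finset.sum_const, Finset.card_univ, nsmul_eq_mul, Fintype.card_prod, Nat.cast_mul]
      _ ≤ n * n * (1 / (8 * n ^ 2)) := by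
          have h5 : (Fintype.card κ : ℝ) ≤ n := by
            rw [hn]
            exact_mod_cast hcard
          gcongr
  have b4 : ∑ i, μ.real (A4 i) ≤ Real.exp (-2) := by
    have h5 : ∀ i, μ.real (A4 i) ≤ Real.exp (-2) / n := by
      intro i
      refine (gauss_exp (β i) σ (L * R2) hσ).trans ?_
      have h6 : -(L * R2) / (2 * σ ^ 2) ≤ -2 - Real.log n := by
        rw [div_le_iff₀ (by positivity)]
        nlinarith
      calc Real.exp (-(L * R2) / (2 * σ ^ 2)) ≤ Real.exp (-2 - Real.log n) :=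
            Real.exp_le_exp.mpr h6
        _ = Real.exp (-2) / n := by rw [Real.exp_sub, Real.exp_log hn0]
    calc ∑ i, μ.real (A4 i) ≤ ∑ _i : ι, Real.exp (-2) / n := Finset.sum_le_sum fun i _ => h5 i
      _ = Real.exp (-2) := by
          rw [Finset.sum_const, Finset.card_univ, nsmul_eq_mul, ← hn]
          field_simp
  have b5 : ∑ i, μ.real (A5 i) ≤ n * (25 * Rmax * y / σ) ^ (D / 2) := by
    have h5 : ∀ i, μ.real (A5 i) ≤ (25 * Rmax * y / σ) ^ (D / 2) := by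
      intro i
      by_cases hi : ∃ j < L, i ∈ st j
      · obtain ⟨j, hjL, hij⟩ := hi
        have h6 := small_ball p hp (Dz i) R2 D hR2 hD (h1 j hjL i hij) (h2 j hjL i hij) (-β i)
          σ q0 hσ hq0
        have h7 : μ.real (A5 i) ≤ μ.real {ξ | ∑ z, p z * ⟪σ • ξ + -β i, Dz i z⟫ ^ 2 ≤ q0} :=
          measureReal_mono fun ξ hξ => hξ.2
        refine h7.trans (h6.trans ?_)
        refine Real.rpow_le_rpow (by positivity) ?_ (by positivity)
        have h8 : Real.exp 1 * q0 / (σ ^ 2 * R2) = 9 * Real.exp 1 * Rmax * y / σ := by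
          change Real.exp 1 * (9 * (σ * y) * Rmax * R2) / (σ ^ 2 * R2) = _
          field_simp
        rw [h8]
        have h9 : Real.exp 1 < 2.7182818286 := Real.exp_one_lt_d9
        have h10 : 9 * Real.exp 1 ≤ 25 := by linarith
        gcongr
      · have h6 : A5 i = ∅ := by
          ext ξ
          simp only [Set.mem_empty_iff_false, iff_false]
          exact fun h => hi h.1
        rw [h6, measureReal_empty]
        positivity
    calc ∑ i, μ.real (A5 i) ≤ ∑ _i : ι, (25 * Rmax * y / σ) ^ (D / 2) :=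
          Finset.sum_le_sum fun i _ => h5 i
      _ = n * (25 * Rmax * y / σ) ^ (D / 2) := by
          rw [Finset.sum_const, Finset.card_univ, nsmul_eq_mul]
  have he2 : Real.exp (-2) ≤ 1 / 4 := by
    have h5 : Real.exp (-2) = Real.exp (-1) * Real.exp (-1) := by
      rw [← Real.exp_add]
      norm_num
    have h6 : Real.exp (-1) < 0.3678794412 := Real.exp_neg_one_lt_d9
    have h7 : 0 < Real.exp (-1) := Real.exp_pos _
    rw [h5]
    nlinarith
  have c1 : n * (1 / (8 * n ^ 2)) ≤ 1 / 8 := by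
    have : n * (1 / (8 * n ^ 2)) = 1 / (8 * n) := by field_simp
    rw [this]
    apply one_div_le_one_div_of_le <;> linarith
  have c2 : n * n * (1 / (8 * n ^ 2)) = 1 / 8 := by field_simp
  have hfin : 1 / 4 ≤ n * (25 * Rmax * y / σ) ^ (D / 2) := by
    rw [c2] at b2
    linarith
  rw [div_le_iff₀ (by positivity)]
  linarith

end Pool.Agent.Helper41.Gap
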