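import Pool.Agent.Helper41.Gap.Defs

set_option autoImplicit false

open scoped Pointwise RealInnerProductSpace TensorProduct
open ProbabilityTheory MeasureTheory Module

namespace Pool.Agent.Helper41.Gap

private theorem sub_finite_pow {G : Type} [Group G] {T : Set G} (hT : T.Finite) (n : ℕ) :
    (T ^ n).Finite := by
  induction n with
  | zero => rw [pow_zero]; exact Set.finite_one
  | succ n ih => rw [pow_succ]; exact ih.mul hT

theorem subexp_of_injective {G H : Type} [Group G] [Group H] (f : H →* G)
    (hf : Function.Injective f) (h : SubExp G) : SubExp H := by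
  intro T hT a ha
  obtain ⟨C, hC⟩ := h (f '' T) (hT.image f) a ha
  refine ⟨C, fun r => ?_⟩
  have h1 := hC r
  rw [← Set.image_pow, Set.ncard_image_of_injective _ hf] at h1
  exact h1

theorem subexp_of_surjective {G H : Type} [Group G] [Group H] (f : G →* H)
    (hf : Function.Surjective f) (h : SubExp G) : SubExp H := by
  intro T hT a ha
  obtain ⟨C, hC⟩ := h (Function.surjInv hf '' T) (hT.image _) a ha
  have hT' : f '' (Function.surjInv hf '' T) = T := by
    rw [← Set.image_comp]
    have : (f ∘ Function.surjInv hf) = id := by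
      funext y
      exact Function.surjInv_eq hf y
    rw [this, Set.image_id]
  refine ⟨C, fun r => le_trans ?_ (hC r)⟩
  have h1 : T ^ r = f '' ((Function.surjInv hf '' T) ^ r) := by
    rw [Set.image_pow, hT']
  rw [h1]
  exact_mod_cast Set.ncard_image_le (sub_finite_pow (hT.image _) r)

/-- the product in the relation, as a positive word followed by a power of `g⁻¹` -/
private theorem sub_word {G : Type} [Group G] (g x : G) (e : ℕ → ℕ) (n : ℕ) :
    ((List.range n).map (fun i => g ^ i * x ^ e i * g⁻¹ ^ i)).prod =
      ((List.range n).map (fun i => x ^ e i * g)).prod * g⁻¹ ^ n := by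
  induction n with
  | zero => simp
  | succ n ih =>
    rw [List.range_succ, List.map_append, List.prod_append, List.map_append, List.prod_append, ih]
    simp only [List.map_cons, List.map_nil, List.prod_cons, List.prod_nil, mul_one]
    rw [pow_succ' g⁻¹ n, inv_pow]
    group

private theorem sub_mem {G : Type} [Group G] (g x : G) (e : ℕ → ℕ) (he : ∀ i, e i ≤ 1) (n : ℕ) :
    ((List.range n).map (fun i => g ^ i * x ^ e i * g⁻¹ ^ i)).prod ∈
      (({1, g, g⁻¹, x} : Set G) ^ (3 * n)) := by
  have h1 : ((List.range n).map (fun i => x ^ e i * g)).prod ∈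
      (({1, g, g⁻¹, x} : Set G) ^ (2 * n)) := by
    induction n with
    | zero => simp
    | succ n ih =>
      rw [List.range_succ, List.map_append, List.prod_append, mul_add, pow_add]
      refine Set.mul_mem_mul ih ?_
      simp only [List.map_cons, List.map_nil, List.prod_cons, List.prod_nil, mul_one]
      rw [pow_two]
      refine Set.mul_mem_mul ?_ (by simp)
      rcases Nat.le_one_iff_eq_zero_or_eq_one.1 (he n) with h | h
      · rw [h, pow_zero]; simp
      · rw [h, pow_one]; simp
  rw [sub_word, show 3 * n = 2 * n + n by ring, pow_add]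
  exact Set.mul_mem_mul h1 (Set.pow_mem_pow (by simp))

theorem subexp_relation {G : Type} [Group G] (h : SubExp G) (g x : G) :
    ∃ (n : ℕ) (e e' : ℕ → ℕ), (∀ i, e i ≤ 1) ∧ (∀ i, e' i ≤ 1) ∧ (∃ i < n, e i ≠ e' i) ∧
      ((List.range n).map (fun i => g ^ i * x ^ e i * g⁻¹ ^ i)).prod =
        ((List.range n).map (fun i => g ^ i * x ^ e' i * g⁻¹ ^ i)).prod := by
  classical
  by_contra hcon
  push Not at hcon
  obtain ⟨C, hC⟩ := h {1, g, g⁻¹, x} (Set.toFinite _) (5 / 4) (by norm_num)
  have h1 : ∀ n : ℕ, (2 : ℝ) ^ n ≤ C * (5 / 4) ^ (3 * n) := by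
    intro n
    refine le_trans ?_ (hC (3 * n))
    have h2 : ((Finset.powerset (Finset.range n) : Finset (Finset ℕ)) : Set (Finset ℕ)).ncard ≤
        (({1, g, g⁻¹, x} : Set G) ^ (3 * n)).ncard := by
      have hle : ∀ (s : Finset ℕ) (i : ℕ), (if i ∈ s then 1 else 0) ≤ 1 := by
        intro s i
        split_ifs
        · exact le_refl _
        · exact Nat.zero_le _
      refine Set.ncard_le_ncard_of_injOn (fun s : Finset ℕ =>
        ((List.range n).map (fun i => g ^ i * x ^ (if i ∈ s then 1 else 0) * g⁻¹ ^ i)).prod)
        ?_ ?_ (sub_finite_pow (Set.toFinite _) _)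
      · intro s _
        exact sub_mem g x (fun i => if i ∈ s then 1 else 0) (hle s) n
      · intro s hs s' hs' heq
        by_contra hne
        refine hcon n (fun i => if i ∈ s then 1 else 0) (fun i => if i ∈ s' then 1 else 0)
          (hle s) (hle s') ?_ heq
        rw [Finset.mem_coe, Finset.mem_powerset] at hs hs'
        by_contra hall
        push Not at hall
        apply hne
        ext i
        by_cases hi : i < n
        · have := hall i hi
          by_cases h3 : i ∈ s <;> by_cases h4 : i ∈ s' <;> simp_all
        · constructor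
          · intro h3; exact absurd (Finset.mem_range.1 (hs h3)) hi
          · intro h3; exact absurd (Finset.mem_range.1 (hs' h3)) hi
    rw [Set.ncard_coe_finset, Finset.card_powerset, Finset.card_range] at h2
    exact_mod_cast h2
  have h2 : ∀ n : ℕ, ((128 : ℝ) / 125) ^ n ≤ C := by
    intro n
    have h3 := h1 n
    rw [pow_mul] at h3
    have h4 : ((5 / 4 : ℝ) ^ 3) ^ n > 0 := by positivity
    have h5 : ((128 : ℝ) / 125) ^ n * ((5 / 4 : ℝ) ^ 3) ^ n = 2 ^ n := by
      rw [← mul_pow]
      norm_num
    rw [← h5] at h3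
    exact le_of_mul_le_mul_right h3 h4
  obtain ⟨n, hn⟩ := pow_unbounded_of_one_lt C (by norm_num : (1 : ℝ) < 128 / 125)
  exact absurd (h2 n) (not_le.2 hn)

end Pool.Agent.Helper41.Gap
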