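import Pool.Agent.Helper41.Gap.Defs

set_option autoImplicit false

open scoped Pointwise RealInnerProductSpace TensorProduct
open ProbabilityTheory MeasureTheory Module

namespace Pool.Agent.Helper41.Gap

theorem tb_fg_map {G H : Type} [Group G] [Group H] (f : G →* H) {K : Subgroup G} (hK : K.FG) :
    (K.map f).FG := by
  classical
  obtain ⟨S, hS⟩ := hK
  refine ⟨S.image f, ?_⟩
  rw [Finset.coe_image, ← MonoidHom.map_closure, hS]

theorem tb_sub_fg_comm {Q : Type} [Group Q] (hc : ∀ a b : Q, a * b = b * a) (h : Group.FG Q)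
    (K : Subgroup Q) : K.FG := by
  let _ : CommGroup Q := { ‹Group Q› with mul_comm := hc }
  have h1 : AddGroup.FG (Additive Q) := GroupFG.iff_add_fg.1 h
  have h2 : Module.Finite ℤ (Additive Q) := Module.Finite.iff_addGroup_fg.2 h1
  have h3 : IsNoetherian ℤ (Additive Q) := inferInstance
  have h4 := IsNoetherian.noetherian (AddSubgroup.toIntSubmodule (Subgroup.toAddSubgroup K))
  rw [Submodule.fg_iff_addSubgroup_fg] at h4
  rw [Subgroup.fg_iff_add_fg]
  simpa using h4

theorem tb_fg_ext {G Q : Type} [Group G] [Group Q] (f : G →* Q) (hk : f.ker.FG)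
    (hr : f.range.FG) : (⊤ : Subgroup G).FG := by
  classical
  obtain ⟨S, hS⟩ := hk
  obtain ⟨T, hT⟩ := hr
  have hsub : (T : Set Q) ⊆ Set.range f := by
    intro x hx
    have : x ∈ f.range := by rw [← hT]; exact Subgroup.subset_closure hx
    exact this
  obtain ⟨T', hT'⟩ : ∃ T' : Finset G, T'.image f = T := by
    rw [← Set.image_univ] at hsub
    obtain ⟨u, -, hu⟩ := Finset.subset_set_image_iff.1 hsub
    exact ⟨u, hu⟩
  refine ⟨S ∪ T', ?_⟩
  rw [eq_top_iff]
  intro g _
  have hg : f g ∈ (Subgroup.closure (T' : Set G)).map f := by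
    rw [MonoidHom.map_closure, ← Finset.coe_image, hT', hT]
    exact ⟨g, rfl⟩
  obtain ⟨t, ht, htg⟩ := hg
  have h1 : t⁻¹ * g ∈ f.ker := by
    rw [MonoidHom.mem_ker, map_mul, map_inv, htg, inv_mul_cancel]
  rw [← hS] at h1
  have h2 : g = t * (t⁻¹ * g) := by group
  rw [h2, Finset.coe_union]
  exact mul_mem (Subgroup.closure_mono Set.subset_union_right ht)
    (Subgroup.closure_mono Set.subset_union_left h1)

theorem tb_fg_index {G : Type} [Group G] (K : Subgroup G) [K.FiniteIndex] (hK : K.FG) :
    (⊤ : Subgroup G).FG := by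
  classical
  obtain ⟨S, hS⟩ := hK
  have : Finite (G ⧸ K) := inferInstance
  have hfin : (Set.range (Quotient.out : G ⧸ K → G)).Finite := Set.finite_range _
  refine ⟨S ∪ hfin.toFinset, ?_⟩
  rw [eq_top_iff]
  intro g _
  have h1 : ((g : G ⧸ K).out)⁻¹ * g ∈ K := by
    rw [← QuotientGroup.eq]
    exact Quotient.out_eq _
  have h1' : ((g : G ⧸ K).out)⁻¹ * g ∈ Subgroup.closure (S : Set G) := by rw [hS]; exact h1
  have h2 : g = (g : G ⧸ K).out * (((g : G ⧸ K).out)⁻¹ * g) := by group
  rw [h2, Finset.coe_union]
  refine mul_mem (Subgroup.subset_closure (Or.inr ?_))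
    (Subgroup.closure_mono Set.subset_union_left h1')
  simp

theorem tower_of_surjective (k : ℕ) {G H : Type} [Group G] [Group H] (f : G →* H)
    (hf : Function.Surjective f) (h : Tower k G) : Tower k H := by
  induction k generalizing G H with
  | zero =>
    have : Finite G := h
    exact Finite.of_surjective f hf
  | succ k ih =>
    rcases h with h | ⟨A, N, hA, hNA, hn, hc, hNf, hAf, hN⟩
    · have : Finite G := h
      exact Or.inl (Finite.of_surjective f hf)
    · refine Or.inr ⟨A.map f, N.map f, ?_, Subgroup.map_mono hNA, ?_, ?_, tb_fg_map f hNf,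
        tb_fg_map f hAf, ?_⟩
      · refine ⟨?_⟩
        have h1 := Subgroup.index_map_dvd A hf
        exact fun h0 => hA.index_ne_zero (by rw [h0] at h1; exact zero_dvd_iff.1 h1)
      · rintro _ ⟨a, ha, rfl⟩ _ ⟨x, hx, rfl⟩
        exact ⟨a * x * a⁻¹, hn a ha x hx, by simp⟩
      · rintro _ ⟨a, ha, rfl⟩ _ ⟨b, hb, rfl⟩
        exact ⟨cm a b, hc a ha b hb, by simp [cm]⟩
      · exact ih (f.subgroupMap N) (f.subgroupMap_surjective N) hN

theorem tower_fg (k : ℕ) (G : Type) [Group G] (h : Tower k G) (K : Subgroup G) : K.FG := by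
  induction k generalizing G with
  | zero =>
    have : Finite G := h
    rw [← Group.fg_iff_subgroup_fg]
    infer_instance
  | succ k ih =>
    rcases h with h | ⟨A, N, hA, hNA, hn, hc, hNf, hAf, hN⟩
    · have : Finite G := h
      rw [← Group.fg_iff_subgroup_fg]
      infer_instance
    · -- the intersection with `N`
      have hKN : (K ⊓ N).FG := by
        have h1 := tb_fg_map N.subtype (ih N hN (K.subgroupOf N))
        rwa [Subgroup.subgroupOf_map_subtype] at h1
      have hNn : (N.subgroupOf A).Normal := by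
        refine ⟨fun x hx g => ?_⟩
        exact hn g g.2 x hx
      have hQc : ∀ a b : A ⧸ N.subgroupOf A, a * b = b * a := by
        intro a b
        induction a using QuotientGroup.induction_on with | _ a => ?_
        induction b using QuotientGroup.induction_on with | _ b => ?_
        rw [← QuotientGroup.mk_mul, ← QuotientGroup.mk_mul, QuotientGroup.eq]
        have h1 := hc (b : G)⁻¹ (inv_mem b.2) (a : G)⁻¹ (inv_mem a.2)
        have h2 : (((a * b)⁻¹ * (b * a) : A) : G) = cm (b : G)⁻¹ (a : G)⁻¹ := by
          simp [cm, mul_assoc]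
        change (((a * b)⁻¹ * (b * a) : A) : G) ∈ N
        rw [h2]; exact h1
      have hAf' : Group.FG A := (Group.fg_iff_subgroup_fg A).2 hAf
      have hQf : Group.FG (A ⧸ N.subgroupOf A) := inferInstance
      set M : Subgroup G := K ⊓ A with hM
      let f : M →* A ⧸ N.subgroupOf A :=
        (QuotientGroup.mk' (N.subgroupOf A)).comp (Subgroup.inclusion (inf_le_right : M ≤ A))
      have hker : f.ker.FG := by
        have h1 : f.ker.map M.subtype = K ⊓ N := by
          ext x
          constructor
          · rintro ⟨y, hy, rfl⟩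
            have hy' : f y = 1 := hy
            have h2 : (QuotientGroup.mk (Subgroup.inclusion (inf_le_right : M ≤ A) y) :
                A ⧸ N.subgroupOf A) = 1 := hy'
            rw [QuotientGroup.eq_one_iff] at h2
            exact ⟨y.2.1, h2⟩
          · rintro ⟨hxK, hxN⟩
            refine ⟨⟨x, hxK, hNA hxN⟩, ?_, rfl⟩
            change (QuotientGroup.mk (Subgroup.inclusion (inf_le_right : M ≤ A)
              ⟨x, hxK, hNA hxN⟩) : A ⧸ N.subgroupOf A) = 1
            rw [QuotientGroup.eq_one_iff]
            exact hxN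
        have h2 : Group.FG (K ⊓ N : Subgroup G) := (Group.fg_iff_subgroup_fg _).2 hKN
        rw [← h1] at h2
        rw [← Group.fg_iff_subgroup_fg]
        let e := f.ker.equivMapOfInjective M.subtype M.subtype_injective
        exact Group.fg_of_surjective (f := e.symm.toMonoidHom) e.symm.surjective
      have hran : f.range.FG := tb_sub_fg_comm hQc hQf _
      have hMf : (⊤ : Subgroup M).FG := tb_fg_ext f hker hran
      have hMf2 : M.FG := by
        have h1 := tb_fg_map M.subtype hMf
        rwa [← MonoidHom.range_eq_map, Subgroup.range_subtype] at h1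
      have hfi : (M.subgroupOf K).FiniteIndex := by
        rw [hM, Subgroup.inf_subgroupOf_left]
        infer_instance
      have hMK : (M.subgroupOf K).FG := by
        rw [← Group.fg_iff_subgroup_fg]
        have h2 : Group.FG M := (Group.fg_iff_subgroup_fg _).2 hMf2
        let e := Subgroup.subgroupOfEquivOfLe (inf_le_left : M ≤ K)
        exact Group.fg_of_surjective (f := e.symm.toMonoidHom) e.symm.surjective
      have hKf := tb_fg_index (M.subgroupOf K) hMK
      have h1 := tb_fg_map K.subtype hKf
      rwa [← MonoidHom.range_eq_map, Subgroup.range_subtype] at h1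

end Pool.Agent.Helper41.Gap
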