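import Pool.Agent.Helper41.Gap.Defs

set_option autoImplicit false

open scoped Pointwise RealInnerProductSpace TensorProduct
open ProbabilityTheory MeasureTheory Module

namespace Pool.Agent.Helper41.Gap

theorem vnil_of_quot {Γ : Type} [Group Γ] (A : Subgroup Γ) [A.Normal]
    (hc : (Subgroup.centralizer (A : Set Γ)).FiniteIndex) (h : VNil (Γ ⧸ A)) : VNil Γ := by
  obtain ⟨H, hfi, hnil⟩ := h
  have hcom : (H.comap (QuotientGroup.mk' A)).FiniteIndex := by
    refine ⟨?_⟩
    rw [Subgroup.index_comap_of_surjective H (QuotientGroup.mk'_surjective A)]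
    exact hfi.index_ne_zero
  refine ⟨H.comap (QuotientGroup.mk' A) ⊓ Subgroup.centralizer (A : Set Γ), inferInstance, ?_⟩
  set C : Subgroup Γ := H.comap (QuotientGroup.mk' A) ⊓ Subgroup.centralizer (A : Set Γ) with hC
  let f : C →* H :=
    ((QuotientGroup.mk' A).comp C.subtype).codRestrict H (fun x => (Subgroup.mem_inf.1 x.2).1)
  refine Subgroup.isNilpotent_of_ker_le_center f ?_
  intro x hx
  rw [Subgroup.mem_center_iff]
  intro y
  have hxA : (x : Γ) ∈ A := by
    rw [MonoidHom.mem_ker] at hx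
    have h1 : ((f x : H) : Γ ⧸ A) = 1 := by rw [hx]; rfl
    have h2 : ((f x : H) : Γ ⧸ A) = QuotientGroup.mk' A (x : Γ) := rfl
    rw [h2] at h1
    exact (QuotientGroup.eq_one_iff (x : Γ)).1 h1
  have hy : (y : Γ) ∈ Subgroup.centralizer (A : Set Γ) := (Subgroup.mem_inf.1 y.2).2
  rw [Subgroup.mem_centralizer_iff] at hy
  have h3 := hy x hxA
  ext
  simp only [Subgroup.coe_mul]
  exact h3.symm

end Pool.Agent.Helper41.Gap
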