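import Pool.Agent.Helper41.Gap.FixedPower
import Pool.Agent.Helper41.Gap.FiniteOrbit
import Pool.Agent.Helper41.Gap.VnilQuot
import Pool.Agent.Helper41.Gap.NormalAbelian

set_option autoImplicit false

open scoped Pointwise RealInnerProductSpace TensorProduct
open ProbabilityTheory MeasureTheory Module

namespace Pool.Agent.Helper41.Gap

private theorem vs_wf {Γ : Type} [Group Γ] (hfg : ∀ K : Subgroup Γ, K.FG) :
    WellFoundedGT (Subgroup Γ) := by
  rw [wellFoundedGT_iff_monotone_chain_condition]
  intro a
  obtain ⟨T, hT⟩ := hfg (⨆ n, a n)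
  have hdir : Directed (· ≤ ·) a := a.monotone.directed_le
  have hmem : ∀ t ∈ T, ∃ n, t ∈ a n := by
    intro t ht
    have h1 : t ∈ ⨆ n, a n := by
      rw [← hT]
      exact Subgroup.subset_closure ht
    exact (Subgroup.mem_iSup_of_directed hdir).1 h1
  have hbound : ∃ n, ∀ t ∈ T, t ∈ a n := by
    classical
    revert hmem
    clear hT
    induction T using Finset.induction_on with
    | empty => intro _; exact ⟨0, by simp⟩
    | insert t T _ ih =>
      intro hmem
      obtain ⟨n1, h1⟩ := hmem t (Finset.mem_insert_self t T)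
      obtain ⟨n2, h2⟩ := ih (fun s hs => hmem s (Finset.mem_insert_of_mem hs))
      refine ⟨max n1 n2, fun s hs => ?_⟩
      rcases Finset.mem_insert.1 hs with rfl | hs
      · exact a.monotone (le_max_left n1 n2) h1
      · exact a.monotone (le_max_right n1 n2) (h2 s hs)
  obtain ⟨n, hn⟩ := hbound
  refine ⟨n, fun m hm => le_antisymm (a.monotone hm) ?_⟩
  calc a m ≤ ⨆ n, a n := le_iSup (fun k => a k) m
    _ = Subgroup.closure (T : Set Γ) := hT.symm
    _ ≤ a n := (Subgroup.closure_le _).2 hn

private theorem vs_vnil_of_surj {G H : Type} [Group G] [Group H] (f : G →* H)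
    (hf : Function.Surjective f) (h : VNil G) : VNil H := by
  obtain ⟨K, hK, hn⟩ := h
  refine ⟨K.map f, ⟨fun h0 => hK.index_ne_zero ?_⟩, ?_⟩
  · have := K.index_map_dvd hf
    rw [h0] at this
    exact Nat.eq_zero_of_zero_dvd this
  · exact Group.nilpotent_of_surjective (f.subgroupMap K) (f.subgroupMap_surjective K)

private theorem vs_vnil_of_fi {G : Type} [Group G] (H : Subgroup G) (hH : H.FiniteIndex)
    (h : VNil H) : VNil G := by
  obtain ⟨K, hK, hn⟩ := h
  refine ⟨K.map H.subtype, ⟨?_⟩, ?_⟩
  · rw [Subgroup.index_map_subtype]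
    exact mul_ne_zero hK.index_ne_zero hH.index_ne_zero
  · exact Group.nilpotent_of_surjective (H.subtype.subgroupMap K)
      (H.subtype.subgroupMap_surjective K)

private theorem vs_centralizer {Q : Type} [Group Q] (a : Q)
    (h : (Set.range (fun q : Q => q * a * q⁻¹)).Finite) :
    (Subgroup.centralizer ({a} : Set Q)).FiniteIndex := by
  have : Finite (Set.range (fun q : Q => q * a * q⁻¹)) := h.to_subtype
  have hmem : ∀ x y : Q, x⁻¹ * y ∈ Subgroup.centralizer ({a} : Set Q) ↔
      x * a * x⁻¹ = y * a * y⁻¹ := by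
    intro x y
    rw [Subgroup.mem_centralizer_singleton_iff]
    constructor
    · intro h
      have h1 : x * (a * (x⁻¹ * y)) * y⁻¹ = x * (x⁻¹ * y * a) * y⁻¹ := by rw [h]
      have e1 : x * (a * (x⁻¹ * y)) * y⁻¹ = x * a * x⁻¹ := by group
      have e2 : x * (x⁻¹ * y * a) * y⁻¹ = y * a * y⁻¹ := by group
      rw [← e1, ← e2, h1]
    · intro h
      have h1 : x⁻¹ * (x * a * x⁻¹) * y = x⁻¹ * (y * a * y⁻¹) * y := by rw [h]
      have e1 : x⁻¹ * (x * a * x⁻¹) * y = a * (x⁻¹ * y) := by group
      have e2 : x⁻¹ * (y * a * y⁻¹) * y = x⁻¹ * y * a := by group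
      rw [← e1, ← e2, h1]
  have : Finite (Q ⧸ Subgroup.centralizer ({a} : Set Q)) := by
    let f : Q ⧸ Subgroup.centralizer ({a} : Set Q) → Set.range (fun q : Q => q * a * q⁻¹) :=
      Quotient.lift (fun q => (⟨q * a * q⁻¹, q, rfl⟩ :
        Set.range (fun q : Q => q * a * q⁻¹))) (by
        intro x y hxy
        apply Subtype.ext
        exact (hmem x y).1 (QuotientGroup.leftRel_apply.1 hxy))
    apply Finite.of_injective f
    intro u v
    induction u using Quotient.inductionOn with
    | _ x =>
    induction v using Quotient.inductionOn with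
    | _ y =>
    intro huv
    apply Quotient.sound
    apply QuotientGroup.leftRel_apply.2
    exact (hmem x y).2 (congrArg Subtype.val huv)
  exact Subgroup.finiteIndex_of_finite_quotient

private theorem vs_finite_by_abelian {Q : Type} [Group Q] (N : Subgroup Q) [N.Normal]
    [Finite N] (hab : ∀ x y : Q, cm x y ∈ N) : VNil Q := by
  set φ : Q →* MulAut N := MulAut.conjNormal with hφ
  have : Finite (MulAut N) := MulEquiv.finite_left
  refine ⟨φ.ker, inferInstance, ?_⟩
  let : CommGroup (Q ⧸ N) :=
    { (inferInstance : Group (Q ⧸ N)) with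
      mul_comm := by
        intro u v
        induction u using QuotientGroup.induction_on with
        | _ x =>
        induction v using QuotientGroup.induction_on with
        | _ y =>
        rw [← QuotientGroup.mk_mul, ← QuotientGroup.mk_mul, QuotientGroup.eq]
        have h1 := hab y⁻¹ x⁻¹
        have e : (x * y)⁻¹ * (y * x) = cm y⁻¹ x⁻¹ := by unfold cm; group
        rw [e]
        exact h1 }
  have : Group.IsNilpotent (Q ⧸ N) := CommGroup.isNilpotent
  refine Subgroup.isNilpotent_of_ker_le_center ((QuotientGroup.mk' N).comp φ.ker.subtype) ?_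
  intro x hx
  have hxN : (x : Q) ∈ N := by
    have : (QuotientGroup.mk' N) (x : Q) = 1 := hx
    exact (QuotientGroup.eq_one_iff _).1 this
  rw [Subgroup.mem_center_iff]
  intro y
  apply Subtype.ext
  have hy : φ (y : Q) = 1 := y.2
  have h1 : φ (y : Q) ⟨x, hxN⟩ = ⟨x, hxN⟩ := by rw [hy]; rfl
  have h2 : (y : Q) * x * (y : Q)⁻¹ = x :=
    (MulAut.conjNormal_apply (y : Q) (⟨x, hxN⟩ : N)).symm.trans (congrArg Subtype.val h1)
  show (y : Q) * (x : Q) = (x : Q) * (y : Q)
  calc (y : Q) * (x : Q) = ((y : Q) * x * (y : Q)⁻¹) * y := by group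
    _ = (x : Q) * (y : Q) := by rw [h2]

theorem vnil_step {Γ : Type} [Group Γ] (k : ℕ) (hT : Tower k Γ) (hsub : SubExp Γ)
    (N : Subgroup Γ) [N.Normal] (hN : VNil N) (hab : ∀ x y : Γ, cm x y ∈ N) : VNil Γ := by
  have hfg : ∀ K : Subgroup Γ, K.FG := tower_fg k Γ hT
  have := vs_wf hfg
  by_contra hcon
  -- a maximal normal subgroup with a quotient that is not virtually nilpotent
  set P : Set (Subgroup Γ) := {A | ∃ _ : A.Normal, ¬ VNil (Γ ⧸ A)} with hP
  have hbot : (⊥ : Subgroup Γ) ∈ P := by
    refine ⟨inferInstance, fun h => hcon ?_⟩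
    exact vs_vnil_of_surj (QuotientGroup.quotientBot (G := Γ)).toMonoidHom
      (QuotientGroup.quotientBot (G := Γ)).surjective h
  obtain ⟨A, ⟨hAn, hA⟩, hmax⟩ :=
    (wellFounded_gt (α := Subgroup Γ)).has_min P ⟨⊥, hbot⟩
  have := hAn
  apply hA
  set f : Γ →* Γ ⧸ A := QuotientGroup.mk' A with hf
  have hfs : Function.Surjective f := QuotientGroup.mk'_surjective A
  have hTQ : Tower k (Γ ⧸ A) := tower_of_surjective k f hfs hT
  have hSQ : SubExp (Γ ⧸ A) := subexp_of_surjective f hfs hsub
  have hNn : (N.map f).Normal := Subgroup.Normal.map inferInstance f hfs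
  have hNv : VNil (N.map f) := vs_vnil_of_surj (f.subgroupMap N) (f.subgroupMap_surjective N) hN
  have habQ : ∀ x y : Γ ⧸ A, cm x y ∈ N.map f := by
    intro x y
    obtain ⟨x, rfl⟩ := hfs x
    obtain ⟨y, rfl⟩ := hfs y
    refine ⟨cm x y, hab x y, ?_⟩
    unfold cm
    simp only [map_mul, map_inv]
  by_cases hfin : Finite (N.map f)
  · exact vs_finite_by_abelian (N.map f) habQ
  · have hinf : Infinite (N.map f) := not_finite_iff_infinite.1 hfin
    have hfgQ : ∀ K : Subgroup (Γ ⧸ A), K.FG := tower_fg k _ hTQ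
    obtain ⟨A1, hA1n, hA1b, hA1N, hA1c⟩ := exists_normal_abelian hfgQ (N.map f) hNv hinf
    have := hA1n
    let : CommGroup A1 :=
      { (inferInstance : Group A1) with
        mul_comm := fun x y => Subtype.ext (hA1c x x.2 y y.2) }
    have : Group.FG A1 := (Group.fg_iff_subgroup_fg A1).2 (hfgQ A1)
    set φ : (Γ ⧸ A) →* MulAut A1 := MulAut.conjNormal with hφ
    have hφv : ∀ (m : Γ ⧸ A) (x : A1), ((φ m x : A1) : Γ ⧸ A) = m * x * m⁻¹ := by
      intro m x
      rw [hφ]
      exact MulAut.conjNormal_apply m x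
    obtain ⟨a, _, ha1, hafin⟩ := exists_finite_orbit k (Γ ⧸ A) hTQ A1 φ (by
      intro m C hC h1 h2
      obtain ⟨j, hj, b, hb, hb1, hbf⟩ := fixed_power hSQ (C.map A1.subtype)
        (by
          intro h
          apply hC
          rwa [Subgroup.map_eq_bot_iff_of_injective _ A1.subtype_injective] at h)
        (fun D _ => hfgQ D)
        (by
          rintro x ⟨x', _, rfl⟩ y ⟨y', _, rfl⟩
          exact hA1c _ x'.2 _ y'.2)
        m
        (by
          rintro x ⟨x', hx', rfl⟩
          refine ⟨φ m x', h1 x' hx', ?_⟩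
          exact hφv m x')
        (by
          rintro x ⟨x', hx', rfl⟩
          refine ⟨φ m⁻¹ x', h2 x' hx', ?_⟩
          have := hφv m⁻¹ x'
          rw [inv_inv] at this
          exact this)
      obtain ⟨b', hb', rfl⟩ := hb
      refine ⟨j, hj, b', hb', ?_, ?_⟩
      · intro h
        apply hb1
        rw [h]
        exact map_one _
      · apply Subtype.ext
        rw [hφv, ← inv_pow]
        exact hbf) ⊤ (by
      intro h
      apply hA1b
      rw [eq_bot_iff]
      intro x hx
      have h3 : (⟨x, hx⟩ : A1) ∈ (⊤ : Subgroup A1) := Subgroup.mem_top _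
      rw [h] at h3
      have h4 := congrArg Subtype.val (Subgroup.mem_bot.1 h3)
      exact Subgroup.mem_bot.2 h4) (fun _ _ _ => Subgroup.mem_top _)
    -- the centralizer of `a` has finite index
    have hcent : (Subgroup.centralizer ({(a : Γ ⧸ A)} : Set (Γ ⧸ A))).FiniteIndex := by
      apply vs_centralizer
      apply (hafin.image (fun x : A1 => (x : Γ ⧸ A))).subset
      rintro _ ⟨q, rfl⟩
      exact ⟨φ q a, ⟨q, rfl⟩, hφv q a⟩
    have := hcent
    set Γ' : Subgroup (Γ ⧸ A) :=
      (Subgroup.centralizer ({(a : Γ ⧸ A)} : Set (Γ ⧸ A))).normalCore with hΓ'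
    have hΓ'f : Γ'.FiniteIndex := inferInstance
    set A2 : Subgroup (Γ ⧸ A) := A1 ⊓ Subgroup.centralizer (Γ' : Set (Γ ⧸ A)) with hA2
    have hA2n : A2.Normal := inferInstance
    have haA2 : (a : Γ ⧸ A) ∈ A2 := by
      refine ⟨a.2, ?_⟩
      show (a : Γ ⧸ A) ∈ Subgroup.centralizer (Γ' : Set (Γ ⧸ A))
      rw [Subgroup.mem_centralizer_iff]
      intro g hg
      have h1 := (Subgroup.centralizer ({(a : Γ ⧸ A)} : Set (Γ ⧸ A))).normalCore_le hg
      rw [Subgroup.mem_centralizer_singleton_iff] at h1
      exact h1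
    have hcA2 : (Subgroup.centralizer (A2 : Set (Γ ⧸ A))).FiniteIndex := by
      refine Subgroup.finiteIndex_of_le (H := Γ') ?_
      intro g hg
      rw [Subgroup.mem_centralizer_iff]
      intro x hx
      exact ((Subgroup.mem_centralizer_iff.1 hx.2) g hg).symm
    apply vnil_of_quot A2 hcA2
    -- the preimage of `A2` is larger than `A`
    have : (A2.comap f).Normal := Subgroup.Normal.comap hA2n f
    have hlt : A < A2.comap f := by
      refine lt_of_le_of_ne ?_ ?_
      · intro x hx
        show f x ∈ A2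
        have : f x = 1 := (QuotientGroup.eq_one_iff x).2 hx
        rw [this]
        exact A2.one_mem
      · intro h
        obtain ⟨x, hx⟩ := hfs (a : Γ ⧸ A)
        have h1 : x ∈ A2.comap f := by
          show f x ∈ A2
          rw [hx]
          exact haA2
        rw [← h] at h1
        have h2 : f x = 1 := (QuotientGroup.eq_one_iff x).2 h1
        rw [hx] at h2
        exact ha1 (Subtype.ext h2)
    have hV : VNil (Γ ⧸ A2.comap f) := by
      by_contra hnv
      exact hmax (A2.comap f) ⟨inferInstance, hnv⟩ hlt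
    refine vs_vnil_of_surj (QuotientGroup.map (A2.comap f) A2 f le_rfl) ?_ hV
    intro q
    obtain ⟨q, rfl⟩ := QuotientGroup.mk_surjective q
    obtain ⟨x, rfl⟩ := hfs q
    exact ⟨QuotientGroup.mk x, rfl⟩

theorem vnil_of_tower (k : ℕ) (G : Type) [Group G] (h : Tower k G) (hsub : SubExp G) :
    VNil G := by
  have hfinite : ∀ (G : Type) [Group G], Finite G → VNil G := by
    intro G _ hG
    exact ⟨⊥, inferInstance, inferInstance⟩
  induction k generalizing G with
  | zero => exact hfinite G h
  | succ k ih =>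
    rcases h with h | ⟨H, N, hH, hNH, hnorm, hcomm, hNfg, hHfg, hTN⟩
    · exact hfinite G h
    · have hNv : VNil N := ih N hTN (subexp_of_injective N.subtype N.subtype_injective hsub)
      set e := Subgroup.subgroupOfEquivOfLe hNH with he
      have hn : (N.subgroupOf H).Normal := by
        constructor
        intro x hx g
        exact hnorm g g.2 x hx
      have hc : ∀ x y : H, cm x y ∈ N.subgroupOf H := by
        intro x y
        exact hcomm x x.2 y y.2
      have hv' : VNil (N.subgroupOf H) :=
        vs_vnil_of_surj e.symm.toMonoidHom e.symm.surjective hNv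
      have hT' : Tower k (N.subgroupOf H) :=
        tower_of_surjective k e.symm.toMonoidHom e.symm.surjective hTN
      have hfgH : (⊤ : Subgroup H).FG := by
        have : Group.FG H := (Group.fg_iff_subgroup_fg H).2 hHfg
        exact Group.FG.out
      have hfgN : (N.subgroupOf H).FG := by
        have : Group.FG N := (Group.fg_iff_subgroup_fg N).2 hNfg
        have h1 : Group.FG (N.subgroupOf H) :=
          Group.fg_of_surjective (f := e.symm.toMonoidHom) e.symm.surjective
        exact (Group.fg_iff_subgroup_fg _).1 h1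
      have hTH : Tower (k + 1) H := by
        right
        refine ⟨⊤, N.subgroupOf H, inferInstance, le_top, ?_, ?_, hfgN, hfgH, hT'⟩
        · intro g _ x hx
          exact hn.conj_mem x hx g
        · intro x _ y _
          exact hc x y
      have hVH : VNil H := vnil_step (k + 1) hTH
        (subexp_of_injective H.subtype H.subtype_injective hsub) (N.subgroupOf H) hv' hc
      exact vs_vnil_of_fi H hH hVH

end Pool.Agent.Helper41.Gap
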